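import Pool.Agent.H961.T4.Stm2

/-!
# Project PN, statements 3: several laps, all scales `n ≤ t ^ a`, `a < 1`
-/

set_option autoImplicit false

namespace Pool.Agent.H961.T4

open Finset Equiv Matrix Q292.LC Pool.Agent.H961.T2 Pool.Agent.H961.T3
open Pool.Agent.Y998.ST (stirExp nnRate qq hop cycleLen gk)

/-- HSM. The Hilbert-Schmidt bound for `i` laps.
Proof. As HSB. `n = K (q ms)`, `T = TT .. n`, `P = PP .. n`, `U = univ \ A`, `F_l = (dg U * T) ^ l`. Because `A` is invariant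
`T x y = 0` for `x ∈ U`, `y ∈ A` (`bas2`), so for `x ∈ U` (also for `l = 0`)
`(F_i - P^i) x y = ∑_{l < i} (F_l * dg U * (T - P) * P^(i-1-l)) x y`. Insert DUF for `T - P`:
`= ∑_{l < i} ∑_{k < n} c k (X x a - X x b) (Y a y - Y b y)`, `X = F_l * dg U * T_k` (columns have sums `≤ 1`),
`Y = P'_k * P^(i-1-l) = PP (sh (k+1) e) δ ((i - l) n - (k+1)) = PP (sh (l n + k + 1) e) δ (i n - (l n + k + 1))`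
(`TT_add`, periodicity, `PP_pow` in Pool/Agent/H961/T2/B9.lean), so GRD with `i K` units (the `q₀` is the maximum over
`i ≤ N`) bounds `∑_y |Y a y - Y b y| ≤ G / √(i K - (l K + j))`, `j` the unit of the step `k`. In every unit
`∑ cw ≤ (2 ρ + 4 d) |A|` (`Pool.Agent.Q151.LC.wt_unit`, see the proof of CWS, `Pool.Agent.H874.PN` in
Pool/Agent/H874/PN/Cws.lean), `∑_{τ < i K} 1/√(i K - τ) ≤ 2 √(i K)`, and `|F_i x y - P^i x y| ≤ s` for `x ∈ U`. -/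
def S_HSM : Prop := ∀ d : ℕ, 1 ≤ d → ∃ C : ℝ, 1 ≤ C ∧ ∀ (L : ℕ) [NeZero L], 3 ≤ L → ∀ K N : ℕ,
  ∃ q₀ : ℕ, ∀ q ≥ q₀, ∀ σ : ℕ → (Fin d → ZMod L) × Fin d, Per σ → ∀ δ : ℝ,
  1 ≤ δ * q → δ * q ≤ 2 → ∀ (ω : ℕ → Bool) (A : Finset (Fin d → ZMod L)) (ρ : ℕ) (s : ℝ),
  (∀ j < K, ∀ a ∈ A,
    jumps (ed ∘ σ) ω (j * (q * ms d L)) ((j + 1) * (q * ms d L)) a ≤ ρ) →
  Inv (gp (ed ∘ σ) ω (K * (q * ms d L))) A → 0 ≤ s → ∀ i ≤ N, 1 ≤ i →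
  (∀ x, x ∉ A → ∀ y,
    ((dg (univ \ A) * TT (ed ∘ σ) ω A δ (K * (q * ms d L))) ^ i) x y ≤ s) →
  (∀ x y, (PP (ed ∘ σ) δ (K * (q * ms d L)) ^ i) x y ≤ s) →
  ∑ x ∈ univ \ A, ∑ y, (((dg (univ \ A) * TT (ed ∘ σ) ω A δ (K * (q * ms d L))) ^ i) x y -
    (PP (ed ∘ σ) δ (K * (q * ms d L)) ^ i) x y) ^ 2 ≤
    C * (ρ + 1) * Real.sqrt ((i : ℝ) * K) * s * A.card

/-- TRM. Comparison of traces, several laps (pure linear algebra).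
Proof. `M = dg U * T`; the rows of `M^i` (`i ≥ 1`) outside `U` and its columns outside `U` vanish.
`M^(i+i') - P^(i+i') = (M^i - P^i) M^i' + P^i (M^i' - P^i')`. Trace of the first product:
`∑_{x ∈ U} ∑_y (M^i - P^i) x y (M^i') y x` (for `x ∉ U` the column `x` of `M^i'` vanishes), Cauchy-Schwarz with
`∑ (M^i')² ≤ s N`. Trace of the second: `∑_y ∑_x (M^i' - P^i') y x (P^i) x y`, the part `y ∈ U` by Cauchy-Schwarz, the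
part `y ∉ U` is `- ∑_{y ∉ U} (P^(i+i')) y y`, between `- s |univ \ U|` and `0`. -/
def S_TRM : Prop := ∀ (V : Type) [Fintype V] [DecidableEq V] (U : Finset V)
  (T P : Matrix V V ℝ) (s h : ℝ) (i i' : ℕ), BS T → BS P → 1 ≤ i → 1 ≤ i' →
  (∀ x ∈ U, ∀ y, y ∉ U → T x y = 0) → 0 ≤ s → 0 ≤ h →
  (∀ x y, ((dg U * T) ^ i) x y ≤ s) → (∀ x y, ((dg U * T) ^ i') x y ≤ s) →
  (∀ x y, (P ^ i) x y ≤ s) → (∀ x y, (P ^ i') x y ≤ s) →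
  (∑ x ∈ U, ∑ y, (((dg U * T) ^ i) x y - (P ^ i) x y) ^ 2 ≤ h) →
  (∑ x ∈ U, ∑ y, (((dg U * T) ^ i') x y - (P ^ i') x y) ^ 2 ≤ h) →
  |((dg U * T) ^ (i + i')).trace - (P ^ (i + i')).trace| ≤
    2 * Real.sqrt (h * (s * Fintype.card V)) + s * (univ \ U).card

/-- ENM. Comparison of the traces, several laps, `d ≥ 2`.
Proof. `j = 0`: ENT. `j ≥ 1`: TRM with `i = (j + 1) / 2`, `i' = j + 1 - i`, both `≥ (j + 1)/3`. Sup bounds: for `x ∉ A`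
`((dg U T)^i) x y = (T (dg U T)^(i-1)) x y ≤ Z^m₁ (1/(i K) + 1/L^d)` by KP (for `x ∈ A` it is `0`), for `P^i = PP (i K units)`
(`PP_pow`) FRE with `K * K` units; `i K ≤ K² ≤ L^d`, so everything is `≤ s = Z^m₂ / ((j+1) K)`. HSM (`N = K`) gives
`h = C (Z + 1) √((j+1) K) s |A|`. The error is `≤ 2 s √(C (Z+1) √((j+1) K) |A| L^d) + s |A|`, and
`s √(√((j+1) K) |A| L^d) = Z^m₂ ((j+1) K)^(-3/4) √(|A| L^d) = Z^m₂ (j+1)^(-3/4) K^(-1/4) √(|A| L^d / K)`. -/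
def S_ENM : Prop := ∀ d : ℕ, 2 ≤ d → ∃ (C m : ℕ), 3 ≤ C ∧ ∀ Z : ℕ, C ≤ Z →
  ∀ (L K lam r ρ κ₀ : ℕ) [NeZero L], lam ≤ Z → ρ ≤ Z → κ₀ ≤ Z →
  Z ^ m ≤ r → 8 * Z ^ m ≤ L → Z ^ m ≤ K → K * K ≤ L ^ d → ∃ q₀ : ℕ, ∀ q ≥ q₀,
  ∀ σ : ℕ → (Fin d → ZMod L) × Fin d, Per σ → ∀ δ : ℝ, 1 ≤ δ * q → δ * q ≤ 2 →
  ∀ (ω : ℕ → Bool) (A : Finset (Fin d → ZMod L)), Ev σ q K lam r ρ κ₀ ω A →
  Inv (gp (ed ∘ σ) ω (K * (q * ms d L))) A → ∀ j < K,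
  |∑ x ∈ univ \ A, (TT (ed ∘ σ) ω A δ (K * (q * ms d L)) *
      (dg (univ \ A) * TT (ed ∘ σ) ω A δ (K * (q * ms d L))) ^ j) x x -
    (PP (ed ∘ σ) δ (K * (q * ms d L)) ^ (j + 1)).trace| ≤
    ((j : ℝ) + 1) ^ (-(3 / 4) : ℝ) *
      ((Z : ℝ) ^ m * (K : ℝ) ^ (-(1 / 4) : ℝ) * (A.card + (L : ℝ) ^ d / K))

/-- ENH. The sum of the resolvent, several laps.
Proof. As ENG with ENM instead of ENT: `∑_j w^(j+1) (j+1)^(-3/4) ≤ 5 (1/(1-w))^(1/4)` (`j + 1 ≤ 1/(1-w)`: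
`∑ (j+1)^(-3/4) ≤ 4 n^(1/4)`; the others `≤ n^(-3/4) ∑ w^j`), `5 ≤ Z^2`. For `k ≥ k₀` both `b_k`, `p_k` lie in `[0, L^d]` and
`∑_{k ≥ k₀} w^(k+1) b_k ≤ L^d w^k₀/(1-w)` (the sum over `k < k₀` of the `p_k` is finite, no tail). -/
def S_ENH : Prop := ∀ d : ℕ, 2 ≤ d → ∃ (C m : ℕ), 3 ≤ C ∧ ∀ Z : ℕ, C ≤ Z →
  ∀ (L K lam r ρ κ₀ : ℕ) [NeZero L], lam ≤ Z → ρ ≤ Z → κ₀ ≤ Z →
  Z ^ m ≤ r → 8 * Z ^ m ≤ L → Z ^ m ≤ K → K * K ≤ L ^ d → ∃ q₀ : ℕ, ∀ q ≥ q₀,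
  ∀ σ : ℕ → (Fin d → ZMod L) × Fin d, Per σ → ∀ δ : ℝ, 1 ≤ δ * q → δ * q ≤ 2 →
  ∀ (ω : ℕ → Bool) (A : Finset (Fin d → ZMod L)), Ev σ q K lam r ρ κ₀ ω A →
  Inv (gp (ed ∘ σ) ω (K * (q * ms d L))) A → ∀ w : ℝ, 0 ≤ w → w < 1 → ∀ k₀ ≤ K,
  |∑ x ∈ univ \ A, Gx w (univ \ A) (TT (ed ∘ σ) ω A δ (K * (q * ms d L))) x -
    ∑ k ∈ range k₀, w ^ (k + 1) * (PP (ed ∘ σ) δ (K * (q * ms d L)) ^ (k + 1)).trace| ≤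
    (1 / (1 - w)) ^ (1 / 4 : ℝ) *
      ((Z : ℝ) ^ m * (K : ℝ) ^ (-(1 / 4) : ℝ) * (A.card + (L : ℝ) ^ d / K)) +
      (L : ℝ) ^ d * w ^ k₀ / (1 - w)

/-- CIM. Good environments, several laps.
Proof. As CIL (or Pool/Agent/H961/T3/Cip.lean) with ENH; `K ≤ K * K ≤ L^d`. `Z^mm ≤ (log L)^m' ≤ K^η` if
`m ≥ m' / η`, for `log L ≥ 1`. -/
def S_CIM : Prop := ∀ d : ℕ, 2 ≤ d → ∀ η : ℝ, 0 < η → ∃ m : ℕ, ∀ p : ℕ, ∃ T : ℕ,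
  ∀ (L K : ℕ) [NeZero L], 3 ≤ L → T ≤ K → K * K ≤ L ^ d → (Real.log L) ^ m ≤ K →
  ∃ q₀ : ℕ, ∀ q ≥ q₀,
  ∀ σ : ℕ → (Fin d → ZMod L) × Fin d, Per σ → ∀ δ : ℝ, 1 ≤ δ * q → δ * q ≤ 2 →
  ∃ B : (ℕ → Bool) → Finset (Fin d → ZMod L) → Prop,
  (∀ ω A, B ω A → Inv (gp (ed ∘ σ) ω (K * (q * ms d L))) A → ∀ w : ℝ, 0 ≤ w → w < 1 → ∀ k₀ ≤ K,
    |∑ x ∈ univ \ A, Gx w (univ \ A) (TT (ed ∘ σ) ω A δ (K * (q * ms d L))) x -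
      ∑ k ∈ range k₀, w ^ (k + 1) * (PP (ed ∘ σ) δ (K * (q * ms d L)) ^ (k + 1)).trace| ≤
      (1 / (1 - w)) ^ (1 / 4 : ℝ) * ((K : ℝ) ^ (η - 1 / 4 : ℝ) * (A.card + (L : ℝ) ^ d / K)) +
        (L : ℝ) ^ d * w ^ k₀ / (1 - w)) ∧
  (∀ wb : ℝ, 0 ≤ wb → wb < 1 → (Real.log L) ^ m ≤ (L : ℝ) ^ d * (1 - wb) →
    PW (ed ∘ σ) (K * (q * ms d L)) δ wb (fun ω A => ¬ B ω A) ≤ 1 / ((L : ℝ) ^ d) ^ p)

open Classical in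
/-- RECM. As RECL, the bound on `B` is needed for invariant `A` only (the sum runs over invariant sets). -/
def S_RECM : Prop := ∀ (V : Type) [Fintype V] [DecidableEq V] (e : ℕ → V × V) (n : ℕ) (δ w : ℝ)
  (H : Finset (Finset V) → ℝ) (B : (ℕ → Bool) → Finset V → Prop) (α β₀ β₁ h : ℝ), 0 ≤ δ → δ ≤ 1 →
  0 ≤ w → w < 1 → (∀ J, 0 ≤ H J ∧ H J ≤ h) → 0 ≤ α → α ≤ (Fintype.card V : ℝ) / (1 - w) →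
  0 ≤ β₀ → 0 ≤ β₁ →
  (∀ ω A, B ω A → Inv (gp e ω n) A →
    |∑ x ∈ univ \ A, Gx w (univ \ A) (TT e ω A δ n) x - α| ≤ β₀ + β₁ * A.card) →
  |EE n δ (fun ω => sb w H (gp e ω n)) -
    α * EE n δ (fun ω => mk (ι := Finset V) card w (cycs (gp e ω n)) H)| ≤
    β₀ * EE n δ (fun ω => mk (ι := Finset V) card w (cycs (gp e ω n)) H) +
    β₁ * EE n δ (fun ω => mk (ι := Finset V) card w (cycs (gp e ω n))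
      (fun J => (∑ C ∈ J, (C.card : ℝ)) * H J)) +
    h * (Fintype.card V : ℝ) / (1 - w) * PW e n δ w (fun ω A => ¬ B ω A)

/-- STM. One step for stirring, several laps.
Proof. As STL with CIM (`η`, `p = 4`), RECM; `(1/(1-w))^(1/4) K^(η - 1/4) ≤ t^(1/4 - 2 η) (t/2)^(η - 1/4) ≤ 2 t^(-η)`;
`K = ⌊t⌋`, `k₀ ≤ K`, `K² ≤ t² ≤ L^d`. The hypothesis `(log L)^m₀ ≤ L^d (1 - w)`: `1 - w ≥ 1/t ≥ L^(-d/2)`, `L` large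
(`T ≤ t`, `t² ≤ L^d`). -/
def S_STM : Prop := ∀ d : ℕ, 2 ≤ d → ∀ η : ℝ, 0 < η → η ≤ 1 / 16 → ∃ (m : ℕ) (T : ℝ),
  1 ≤ m ∧ 1 ≤ T ∧ ∀ (L : ℕ) [NeZero L]
  (t w h : ℝ) (k₀ : ℕ) (H : Finset (Finset (Fin d → ZMod L)) → ℝ), 3 ≤ L → T ≤ t →
  (Real.log L) ^ m ≤ t → t ^ 2 ≤ (L : ℝ) ^ d → 0 ≤ w → w < 1 →
  1 / (1 - w) ≤ t ^ (1 - 8 * η : ℝ) → (k₀ : ℝ) ≤ t - 1 → (∀ J, 0 ≤ H J ∧ H J ≤ h) →
  |stirExp (nnRate d L) t (fun g => sb w H g) - al d L t w k₀ *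
    stirExp (nnRate d L) t (fun g => mk (ι := Finset (Fin d → ZMod L)) card w (cycs g) H)| ≤
    (4 * t ^ (-η : ℝ) * ((L : ℝ) ^ d / t) + (L : ℝ) ^ d * w ^ k₀ / (1 - w)) *
      stirExp (nnRate d L) t (fun g => mk (ι := Finset (Fin d → ZMod L)) card w (cycs g) H) +
    4 * t ^ (-η : ℝ) * stirExp (nnRate d L) t (fun g =>
      mk (ι := Finset (Fin d → ZMod L)) card w (cycs g) (fun J => (∑ C ∈ J, (C.card : ℝ)) * H J)) +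
    h / (L : ℝ) ^ d

/-- ALM. Asymptotics of `al` in the plane, `1/(1-w) ≤ t^a`, with `k₀ = ⌈t^((1+a)/2)⌉`.
Proof. As ALP: `s = (k+1) t ≤ 3 t^((3+a)/2)`, `L² ≥ T² t²`, `(3 + a)/2 < 2`; `w^k₀ ≤ exp (-(1-w) k₀) ≤ exp (-t^((1-a)/2))`. -/
def S_ALM : Prop := ∀ a : ℝ, 0 < a → a < 1 → ∀ ε : ℝ, 0 < ε → ∃ T : ℝ, 1 ≤ T ∧
  ∀ (L : ℕ) [NeZero L] (t w : ℝ), 3 ≤ L →
  T ≤ t → T * t ≤ L → 0 ≤ w → w < 1 → 1 / (1 - w) ≤ t ^ a →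
  |4 * Real.pi * t / (L : ℝ) ^ 2 * al 2 L t w ⌈t ^ ((1 + a) / 2)⌉₊ - Real.log (1 / (1 - w))| ≤
    ε * (1 + Real.log (1 / (1 - w))) ∧
  4 * Real.pi * t * (w ^ ⌈t ^ ((1 + a) / 2)⌉₊ / (1 - w)) ≤ ε

/-- MM1. First moment in the plane. Proof. As MO1 with STM (`η = (1 - a)/16`, so `t^a ≤ t^(1 - 8 η)`) and ALM
(`⌈t^((1+a)/2)⌉ ≤ t - 1` for large `t`; `t² ≤ L²`). -/
def S_MM1 : Prop := ∀ a : ℝ, 0 < a → a < 1 → ∃ m : ℕ, ∀ ε : ℝ, 0 < ε → ∃ T : ℝ, 1 ≤ T ∧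
  ∀ (L : ℕ) [NeZero L] (t w : ℝ),
  3 ≤ L → T ≤ t → T * t ≤ L → (Real.log L) ^ m ≤ t → 0 ≤ w → w < 1 → 1 / (1 - w) ≤ t ^ a →
  |4 * Real.pi * t / (L : ℝ) ^ 2 * stirExp (nnRate 2 L) t (fun g => sm w g) -
    Real.log (1 / (1 - w))| ≤ ε * (1 + Real.log (1 / (1 - w)))

/-- MM2. Second moment in the plane. Proof. As MO2 with STM, ALM, MM1 for `a` and for `(1 + a)/2` (for `w' = (1 + w)/2`);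
`a² E Y ≤ (4 π t / L²) (2/(1-w)) (3 + 2 Λ) ≤ 8 π t^(1 + a) / (T² t²) (3 + 2 Λ)` is small. -/
def S_MM2 : Prop := ∀ a : ℝ, 0 < a → a < 1 → ∃ m : ℕ, ∀ ε : ℝ, 0 < ε → ∃ T : ℝ, 1 ≤ T ∧
  ∀ (L : ℕ) [NeZero L] (t w : ℝ),
  3 ≤ L → T ≤ t → T * t ≤ L → (Real.log L) ^ m ≤ t → 0 ≤ w → w < 1 → 1 / (1 - w) ≤ t ^ a →
  stirExp (nnRate 2 L) t (fun g => (4 * Real.pi * t / (L : ℝ) ^ 2 * sm w g -
    Real.log (1 / (1 - w))) ^ 2) ≤ ε * (1 + Real.log (1 / (1 - w))) ^ 2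

/-- LLM. The number of the points in cycles of length `≤ n`, `n → ∞`, `n ≤ t^a`, `a < 1`. Proof. As LLG with MM2 for
`(1 + a)/2`. -/
def S_LLM : Prop := ∀ a : ℝ, 0 < a → a < 1 → ∃ m : ℕ, ∀ ε : ℝ, 0 < ε → ∃ T : ℝ, 3 ≤ T ∧
  ∀ (L : ℕ) [NeZero L] (t : ℝ)
  (n : ℕ), T ≤ t → T * t ≤ L → (Real.log L) ^ m ≤ t → T ≤ n → (n : ℝ) ≤ t ^ a →
  stirExp (nnRate 2 L) t (fun g => |4 * Real.pi * t *
    (((univ.filter fun x => cycleLen g x ≤ n).card : ℝ) / (L : ℝ) ^ 2) - Real.log n|) ≤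
    ε * Real.log n

end Pool.Agent.H961.T4
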