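import Pool.Agent.H961.T4.Stm3
import Pool.Agent.H961.T3.Mom2
import Pool.Agent.H961.T3.Pt

/-!
# Project PN, statements 5: the number of cycles at all times up to `L ^ 2 / (log L) ^ m`
-/

set_option autoImplicit false

namespace Pool.Agent.H961.T4

open Finset Equiv Matrix Q292.LC Pool.Agent.H961.T2 Pool.Agent.H961.T3
open Pool.Agent.Y998.ST (stirExp nnRate qq hop cycleLen gk)

/-- HKU. Upper bound for the return probability in the plane.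
Proof. `hop .. s x x = gk L s 0 ^ 2` (`Pool.Agent.Helper47K9.SC.hop_diag`). For `T' s ≤ L²` use
`Pool.Agent.Helper47K9.SC.as1` (as in Pool/Agent/H961/T4/Alp.lean): `gk L s 0 ^ 2 ≤ 2 / (4 π s)` for `s ≥ T'`. For larger `s`
(`T' s > L²`): the return probability is decreasing in time (spectral decomposition, or `q_(s/2)(x, ·)` in `ℓ²`), or use
the upper bound of FRE (`Pool.Agent.Q257.LC.fre : S_FRE`) and TRO (`Pool.Agent.Q297.LC.tro`) as in other files; any proof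
of a Gaussian upper bound in the library does. `1 ≤ s ≤ T'`: `hop ≤ 1`. -/
def S_HKU : Prop := ∃ C : ℝ, 1 ≤ C ∧ ∀ (L : ℕ) [NeZero L], 3 ≤ L → ∀ s : ℝ, 1 ≤ s →
  ∀ x : Fin 2 → ZMod L, hop (nnRate 2 L) s x x ≤ C * (1 / s + 1 / (L : ℝ) ^ 2)

/-- UB5. Upper bound in the plane, `n ≤ t^(1/64)`, `2 n t ≤ L²`.
Proof. `w = 1 - 1/(2 n)`, `k₀ = ⌈√t⌉`. By HKU `al 2 L t w k₀ ≤ C ∑_k w^(k+1) (L² / ((k+1) t) + 1)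
≤ C (L²/t) log (1/(1-w)) + C / (1-w) ≤ C (L²/t) (1 + log (2 n))` because `1/(1-w) = 2 n ≤ L²/t`. STL
(`Pool.Agent.H961.T4.all_stl`, here as a hypothesis) with `H = 1`, `h = 1` and MKS (1)-(3), as in
Pool/Agent/H961/T4/Mo1.lean: `E sm ≤ al + 4 t^(-1/16) L²/t + L² w^k₀/(1-w) + 4 t^(-1/16) E sm + 1/L²`, where
`w^k₀/(1-w) ≤ 1/t` for large `t` (`w^k₀ ≤ exp (-√t/(2 n))`), so `t E sm / L² ≤ C' (1 + log (2 n))`. Then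
`1[|C_x| ≤ n] ≤ 2 w^|C_x|` (Bernoulli) and translation invariance as in Pool/Agent/H961/T4/Ubq.lean. -/
def S_UB5 : Prop := ∃ (C T : ℝ) (m : ℕ), 1 ≤ C ∧ 3 ≤ T ∧ ∀ (L : ℕ) [NeZero L] (t : ℝ) (n : ℕ),
  3 ≤ L → T ≤ t → (Real.log L) ^ m ≤ t → 1 ≤ n → (n : ℝ) ≤ t ^ (1 / 64 : ℝ) →
  2 * (n * t) ≤ (L : ℝ) ^ 2 → ∀ x : Fin 2 → ZMod L,
  stirExp (nnRate 2 L) t (fun g => if (cyc g x).card ≤ n then 1 else 0) ≤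
    C * ((1 + Real.log n) / t)

/-- UBX. Upper bound for the probability of a short cycle at polylogarithmic times, all `n`. -/
def S_UBX (d : ℕ) : Prop := ∃ (C T : ℝ) (m : ℕ), 1 ≤ C ∧ 3 ≤ T ∧ ∀ (L : ℕ) [NeZero L] (t : ℝ)
  (n : ℕ), 3 ≤ L → T ≤ t → (Real.log L) ^ m ≤ t → t * (Real.log L) ^ m ≤ (L : ℝ) ^ 2 → 1 ≤ n →
  (Real.log L) ^ m * n ≤ (L : ℝ) ^ d → ∀ x : Fin d → ZMod L,
  stirExp (nnRate d L) t (fun g => if (cyc g x).card ≤ n then 1 else 0) ≤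
    C * (Real.sqrt n * t ^ (-(d / 2 : ℝ)) + n / (L : ℝ) ^ d)

/-- UBX for the plane.
Proof. `ℓ = log L ≥ 1`, `m₁, T₁` from `Pool.Agent.H961.T3.point_all2 Pool.Agent.H961.T3.all_stp
Pool.Agent.H961.T3.Karh.t_KAR Pool.Agent.H961.T3.all_cyc Pool.Agent.H961.T3.all_gapo 2 le_rfl` (All2.lean of T3) with
`ε = 1`: `P(|C_x| ≤ n') ≤ 2 n' / L²` for real `n'` with `ℓ^m₁ (1 + L²/t) ≤ n'`, `ℓ^m₁ n' ≤ L²`. Take `m ≥ 200 (m₁ + 1)` and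
`m ≥` the exponent of UB5. (1) `n ≤ t^(1/64)` and `2 n t ≤ L²`: UB5, `1 + log n ≤ 2 √n`. (2) Otherwise `√n ≥ ℓ^m₁`
(because `t^(1/64) ≥ ℓ^(2 m₁)` and `L²/(2 t) ≥ ℓ^m / 2 ≥ ℓ^(2 m₁)`, use `t ≥ ℓ^m`, `t ≥ T` large); with
`n' = max n (ℓ^m₁ (1 + L²/t))` (`ℓ^m₁ n' ≤ L²` because `t ≥ ℓ^m` and `t ℓ^m ≤ L²`, `L` large as `T ≤ t ≤ L²`):
`P(|C_x| ≤ n) ≤ P(|C_x| ≤ n') ≤ 2 n'/L² ≤ 2 n/L² + 2 ℓ^m₁ (1/L² + 1/t) ≤ 2 n / L² + 4 ℓ^m₁ / t`. -/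
def S_UBX2 : Prop := S_UBX 2

/-- UBX for `d ≥ 3`.
Proof. `Pool.Agent.H961.T3.point_all Pool.Agent.H961.T3.all_ones Pool.Agent.H961.T3.Karh.t_KAR
Pool.Agent.H961.T3.all_cyc Pool.Agent.H961.T3.all_gapo d hd` with `ε = 1`, and
`∑_{ℓ ≤ n} ℓ^(-d/2) ≤ ∑_{ℓ ≤ n} ℓ^(-3/2) ≤ 3`, `(4 π)^(-d/2) ≤ 1`, `1 ≤ √n`; `n ≤ L^d` from `(log L)^m n ≤ L^d`, `log L ≥ 1`. -/
def S_UBX3 : Prop := ∀ d : ℕ, 3 ≤ d → S_UBX d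

/-- NMX. The number of cycles at polylogarithmic times.
Proof. `N = L^d`, `Q = (4 π t)^(d/2)`, `ℓ₀ = log L ≥ 1`, `parts_card`, `rc_split d` (Pool/Agent/H961/T2/B15.lean), cut at
`k₀` and at `N₁ = ⌊N / ℓ₀^m₁⌋` (`m₁` from UBX; `m = m₁ + 4`). (1) `ℓ ≤ k₀`: `len_all d` (B13.lean, range `T t ≤ L²`),
`|Q frac ℓ / ℓ - ℓ^(-(1+d/2))| ≤ |Q frac ℓ - ℓ^(-d/2)|`. (2) `k₀ < ℓ ≤ N₁`: summation by parts or dyadic blocks (see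
Pool/Agent/H961/T4/Nmp.lean): with `F n = E ∑_{ℓ ≤ n} frac g ℓ = P(|C_x| ≤ n)` (`exp_frac_le`, `sum_frac`, B13.lean)
`E ∑_{k₀ < ℓ ≤ N₁} frac ℓ / ℓ ≤ ∑_{i : 2^i k₀ ≤ N₁} F (min N₁ (2^(i+1) k₀)) / (2^i k₀)
≤ ∑_i C (√(2^(i+1) k₀) t^(-d/2) + 2^(i+1) k₀ / N) / (2^i k₀) ≤ C' (t^(-d/2) / √k₀ + (1 + log N) / N)`. Times `Q`: the first
term is `≤ C'' / √k₀`, the second is at most `C'' (d + 1) ℓ₀ t^(d/2) / L^d ≤ C'' (d + 1) ℓ₀ ℓ₀^(-m d / 2) ≤ C'' (d + 1) / ℓ₀`, small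
because `T ≤ t ≤ L²` makes `L` large. (3) `ℓ > N₁`: `Q ∑ frac ℓ / ℓ ≤ Q / N₁ ≤ 2 Q ℓ₀^m₁ / N ≤ 2 (4 π)^(d/2) ℓ₀^(m₁ - m d/2)
≤ 2 (4 π)^(d/2) / ℓ₀`. (4) `rc d k₀` is small (`rc_summable`). -/
def S_NMX : Prop := ∀ d : ℕ, 2 ≤ d → S_UBX d → ∃ m : ℕ, ∀ ε : ℝ, 0 < ε → ∃ T : ℝ, 3 ≤ T ∧
  ∀ (L : ℕ) [NeZero L] (t : ℝ), 3 ≤ L → T ≤ t → (Real.log L) ^ m ≤ t →
  t * (Real.log L) ^ m ≤ (L : ℝ) ^ 2 →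
  stirExp (nnRate d L) t (fun g => |(4 * Real.pi * t) ^ (d / 2 : ℝ) *
      ((g.partition.parts.card : ℝ) / (L : ℝ) ^ d) - rc d 0|) ≤ ε

end Pool.Agent.H961.T4
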