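import Pool.Agent.H961.T4.Stm2
import Pool.Graph.R_pool_sql_team_seeded_1e53cb71.Helper47K9.SC.As

/-!
# ALP: asymptotics of the sum of the return probabilities in the plane
-/

set_option autoImplicit false

namespace Pool.Agent.H961.T4.Alph

open Finset

theorem log_inv (w : ℝ) : Real.log (1 / (1 - w)) = -Real.log (1 - w) := by
  rw [one_div, Real.log_inv]

theorem hs (w : ℝ) (h0 : 0 ≤ w) (h1 : w < 1) :
    HasSum (fun n : ℕ => w ^ (n + 1) / (n + 1)) (Real.log (1 / (1 - w))) := by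
  rw [log_inv]
  exact Real.hasSum_pow_div_log_of_abs_lt_one (by rw [abs_of_nonneg h0]; exact h1)

theorem tm0 (w : ℝ) (h0 : 0 ≤ w) (n : ℕ) : 0 ≤ w ^ (n + 1) / ((n : ℝ) + 1) := by positivity

theorem part_le (w : ℝ) (h0 : 0 ≤ w) (h1 : w < 1) (k : ℕ) :
    ∑ n ∈ range k, w ^ (n + 1) / ((n : ℝ) + 1) ≤ Real.log (1 / (1 - w)) :=
  sum_le_hasSum _ (fun n _ => tm0 w h0 n) (hs w h0 h1)

theorem log0 (w : ℝ) (h0 : 0 ≤ w) (h1 : w < 1) : 0 ≤ Real.log (1 / (1 - w)) := by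
  have := part_le w h0 h1 0
  rwa [range_zero, sum_empty] at this

theorem part_ge (w : ℝ) (h0 : 0 ≤ w) (h1 : w < 1) (k : ℕ) :
    Real.log (1 / (1 - w)) - w ^ k / (1 - w) ≤ ∑ n ∈ range k, w ^ (n + 1) / ((n : ℝ) + 1) := by
  have hd : (0 : ℝ) < 1 - w := by linarith
  have e1 := (hs w h0 h1).summable
  have e2 := (hs w h0 h1).tsum_eq
  have e3 := e1.sum_add_tsum_nat_add k
  have g1 : HasSum (fun n : ℕ => w ^ k * w ^ n) (w ^ k * (1 - w)⁻¹) :=
    (hasSum_geometric_of_lt_one h0 h1).mul_left _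
  have e4 : ∑' n : ℕ, w ^ (n + k + 1) / (((n + k : ℕ) : ℝ) + 1) ≤ w ^ k * (1 - w)⁻¹ := by
    rw [← g1.tsum_eq]
    refine Summable.tsum_le_tsum (fun n => ?_) ((summable_nat_add_iff k).2 e1) g1.summable
    rw [div_le_iff₀ (by positivity)]
    have h2 : w ^ (n + k + 1) ≤ w ^ k * w ^ n := by
      have : w ^ (n + k + 1) = w ^ k * w ^ n * w := by ring
      rw [this]
      exact mul_le_of_le_one_right (by positivity) h1.le
    have h3 : (0 : ℝ) ≤ ((n + k : ℕ) : ℝ) := Nat.cast_nonneg _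
    have h4 : 0 ≤ w ^ k * w ^ n := by positivity
    nlinarith
  rw [e2] at e3
  have e5 : w ^ k / (1 - w) = w ^ k * (1 - w)⁻¹ := div_eq_mul_inv _ _
  rw [e5]
  linarith

/-- the perturbed partial sum -/
theorem pert (w ε : ℝ) (h0 : 0 ≤ w) (h1 : w < 1) (k : ℕ) (r : ℕ → ℝ)
    (hr : ∀ n < k, |r n - 1| ≤ ε) (hε : 0 ≤ ε) :
    |∑ n ∈ range k, w ^ (n + 1) / ((n : ℝ) + 1) * r n - Real.log (1 / (1 - w))| ≤
      ε * Real.log (1 / (1 - w)) + w ^ k / (1 - w) := by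
  have e1 := part_le w h0 h1 k
  have e2 := part_ge w h0 h1 k
  have e3 : |∑ n ∈ range k, w ^ (n + 1) / ((n : ℝ) + 1) * r n -
      ∑ n ∈ range k, w ^ (n + 1) / ((n : ℝ) + 1)| ≤ ε * Real.log (1 / (1 - w)) := by
    rw [← sum_sub_distrib]
    refine (abs_sum_le_sum_abs _ _).trans ?_
    have : ∀ n ∈ range k, |w ^ (n + 1) / ((n : ℝ) + 1) * r n - w ^ (n + 1) / ((n : ℝ) + 1)| ≤
        ε * (w ^ (n + 1) / ((n : ℝ) + 1)) := by
      intro n hn
      have h2 : w ^ (n + 1) / ((n : ℝ) + 1) * r n - w ^ (n + 1) / ((n : ℝ) + 1) =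
        w ^ (n + 1) / ((n : ℝ) + 1) * (r n - 1) := by ring
      rw [h2, abs_mul, abs_of_nonneg (tm0 w h0 n), mul_comm]
      exact mul_le_mul_of_nonneg_right (hr n (mem_range.1 hn)) (tm0 w h0 n)
    refine (sum_le_sum this).trans ?_
    rw [← mul_sum]
    exact mul_le_mul_of_nonneg_left e1 hε
  have e4 : 0 ≤ w ^ k / (1 - w) := div_nonneg (by positivity) (by linarith)
  have e5 : |∑ n ∈ range k, w ^ (n + 1) / ((n : ℝ) + 1) - Real.log (1 / (1 - w))| ≤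
      w ^ k / (1 - w) := by
    rw [abs_le]
    constructor <;> linarith
  have e6 := abs_sub_le (∑ n ∈ range k, w ^ (n + 1) / ((n : ℝ) + 1) * r n)
    (∑ n ∈ range k, w ^ (n + 1) / ((n : ℝ) + 1)) (Real.log (1 / (1 - w)))
  linarith

/-- the tail is tiny -/
theorem tail_small (ε : ℝ) (hε : 0 < ε) : ∃ T : ℝ, 1 ≤ T ∧ ∀ t w : ℝ, T ≤ t → 0 ≤ w → w < 1 →
    1 / (1 - w) ≤ t ^ (1 / 32 : ℝ) →
    4 * Real.pi * t * (w ^ ⌈Real.sqrt t⌉₊ / (1 - w)) ≤ ε := by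
  have h1 := tendsto_rpow_mul_exp_neg_mul_atTop_nhds_zero (11 / 5 : ℝ) 1 one_pos
  have h2 := h1.comp (tendsto_rpow_atTop (show (0 : ℝ) < 15 / 32 by norm_num))
  have h3 := h2.const_mul (4 * Real.pi)
  rw [mul_zero] at h3
  obtain ⟨T, hT⟩ := Filter.eventually_atTop.1 (h3.eventually (gt_mem_nhds hε))
  refine ⟨max 1 T, le_max_left _ _, fun t w ht h0 hw hwt => ?_⟩
  have ht1 : 1 ≤ t := (le_max_left _ _).trans ht
  have ht0 : 0 < t := by linarith
  have h4 := hT t ((le_max_right _ _).trans ht)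
  simp only [Function.comp_apply] at h4
  have hd : (0 : ℝ) < 1 - w := by linarith
  have p1 : 0 < t ^ (1 / 32 : ℝ) := Real.rpow_pos_of_pos ht0 _
  have hwl : t ^ (-(1 / 32) : ℝ) ≤ 1 - w := by
    rw [Real.rpow_neg ht0.le, inv_le_comm₀ p1 hd, ← one_div]
    exact hwt
  have hw2 : w ≤ Real.exp (-(1 - w)) := by
    have := Real.add_one_le_exp (-(1 - w))
    linarith
  have hs1 : Real.sqrt t = t ^ (1 / 2 : ℝ) := Real.sqrt_eq_rpow t
  have e1 : w ^ ⌈Real.sqrt t⌉₊ ≤ Real.exp (-(t ^ (15 / 32 : ℝ))) := by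
    calc w ^ ⌈Real.sqrt t⌉₊ ≤ Real.exp (-(1 - w)) ^ ⌈Real.sqrt t⌉₊ :=
          pow_le_pow_left₀ h0 hw2 _
      _ = Real.exp (⌈Real.sqrt t⌉₊ * (-(1 - w))) := (Real.exp_nat_mul _ _).symm
      _ ≤ _ := by
        refine Real.exp_le_exp.2 ?_
        have h5 : t ^ (15 / 32 : ℝ) ≤ ⌈Real.sqrt t⌉₊ * (1 - w) := by
          calc t ^ (15 / 32 : ℝ) = t ^ (1 / 2 : ℝ) * t ^ (-(1 / 32) : ℝ) := by
                rw [← Real.rpow_add ht0]
                norm_num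
            _ ≤ ⌈Real.sqrt t⌉₊ * (1 - w) := by
                refine mul_le_mul ?_ hwl (Real.rpow_nonneg ht0.le _) (Nat.cast_nonneg _)
                rw [← hs1]
                exact Nat.le_ceil _
        linarith
  have e2 : w ^ ⌈Real.sqrt t⌉₊ / (1 - w) ≤
      Real.exp (-(t ^ (15 / 32 : ℝ))) * t ^ (1 / 32 : ℝ) := by
    rw [div_eq_mul_one_div]
    exact mul_le_mul e1 hwt (by positivity) (Real.exp_nonneg _)
  have e3 : 4 * Real.pi * t * (w ^ ⌈Real.sqrt t⌉₊ / (1 - w)) ≤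
      4 * Real.pi * t * (Real.exp (-(t ^ (15 / 32 : ℝ))) * t ^ (1 / 32 : ℝ)) :=
    mul_le_mul_of_nonneg_left e2 (by positivity)
  refine e3.trans ?_
  have e4 : 4 * Real.pi * t * (Real.exp (-(t ^ (15 / 32 : ℝ))) * t ^ (1 / 32 : ℝ)) =
      4 * Real.pi * ((t ^ (15 / 32 : ℝ)) ^ (11 / 5 : ℝ) * Real.exp (-1 * t ^ (15 / 32 : ℝ))) := by
    have h6 : (t ^ (15 / 32 : ℝ)) ^ (11 / 5 : ℝ) = t * t ^ (1 / 32 : ℝ) := by
      rw [← Real.rpow_mul ht0.le]
      nth_rewrite 2 [← Real.rpow_one t]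
      rw [← Real.rpow_add ht0]
      norm_num
    rw [h6, neg_one_mul]
    ring
  rw [e4]
  exact h4.le

theorem sq_near (x η ε : ℝ) (h : |x - 1| ≤ η) (h1 : η ≤ 1) (h2 : 3 * η ≤ ε) : |x ^ 2 - 1| ≤ ε := by
  have e1 : x ^ 2 - 1 = (x - 1) * (x + 1) := by ring
  have e2 : |x + 1| ≤ 3 := by
    have := abs_le.1 h
    rw [abs_le]
    constructor <;> linarith
  rw [e1, abs_mul]
  have e3 : |x - 1| * |x + 1| ≤ η * 3 := mul_le_mul h e2 (abs_nonneg _) ((abs_nonneg _).trans h)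
  linarith

open Pool.Agent.Y998.ST (nnRate hop gk)
open Pool.Agent.H961.T4 (al)

theorem al_eq (L : ℕ) [NeZero L] (hL : 3 ≤ L) (t w : ℝ) (k₀ : ℕ) :
    al 2 L t w k₀ = (L : ℝ) ^ 2 *
      ∑ k ∈ range k₀, w ^ (k + 1) * gk L (((k : ℝ) + 1) * t) 0 ^ 2 := by
  unfold al
  rw [mul_sum]
  refine sum_congr rfl fun k _ => ?_
  have : ∀ x ∈ (univ : Finset (Fin 2 → ZMod L)),
      hop (nnRate 2 L) (((k : ℝ) + 1) * t) x x = gk L (((k : ℝ) + 1) * t) 0 ^ 2 := fun x _ =>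
    Pool.Agent.Helper47K9.SC.hop_diag hL _ x
  rw [sum_congr rfl this, sum_const, card_univ, Fintype.card_fun, ZMod.card, Fintype.card_fin,
    nsmul_eq_mul]
  push_cast
  ring

theorem alp : Pool.Agent.H961.T4.S_ALP := by
  intro ε hε
  obtain ⟨η, hη0, hη1, hη2⟩ : ∃ η : ℝ, 0 < η ∧ η ≤ 1 ∧ 3 * η ≤ ε / 2 := by
    refine ⟨min 1 (ε / 6), by positivity, min_le_left _ _, ?_⟩
    have := min_le_right 1 (ε / 6)
    linarith
  obtain ⟨T1, hT1, h1⟩ := Pool.Agent.Helper47K9.SC.as1 η hη0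
  obtain ⟨T2, hT2, h2⟩ := tail_small (ε / 2) (by positivity)
  refine ⟨max (T2 + T1) (2 * T1 + 1), ?_, ?_⟩
  · exact le_max_of_le_left (by linarith)
  intro L _ t w hL htT htL hw0 hw1 hwt
  have ht2 : T2 + T1 ≤ t := (le_max_left _ _).trans htT
  have ht1 : 1 ≤ t := by linarith
  have ht0 : 0 < t := by linarith
  have hL0 : (0 : ℝ) < L := by exact_mod_cast (show 0 < L by omega)
  have hLt : (2 * T1 + 1) * t ≤ L := (mul_le_mul_of_nonneg_right (le_max_right _ _) ht0.le).trans htL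
  have hd : (0 : ℝ) < 1 - w := by linarith
  have tl := h2 t w (by linarith) hw0 hw1 hwt
  have hΛ := log0 w hw0 hw1
  refine ⟨?_, tl.trans (by linarith)⟩
  have hpi := Real.pi_gt_three
  have q0 : 0 ≤ w ^ ⌈Real.sqrt t⌉₊ / (1 - w) := div_nonneg (by positivity) hd.le
  have tl2 : w ^ ⌈Real.sqrt t⌉₊ / (1 - w) ≤ ε / 2 := by
    refine le_trans ?_ tl
    have : 1 ≤ 4 * Real.pi * t := by nlinarith
    exact le_mul_of_one_le_left q0 this
  have e1 : 4 * Real.pi * t / (L : ℝ) ^ 2 * al 2 L t w ⌈Real.sqrt t⌉₊ =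
      ∑ n ∈ range ⌈Real.sqrt t⌉₊, w ^ (n + 1) / ((n : ℝ) + 1) *
        ((gk L (((n : ℝ) + 1) * t) 0 * Real.sqrt (4 * Real.pi * (((n : ℝ) + 1) * t))) ^ 2) := by
    rw [al_eq L hL, ← mul_assoc, div_mul_cancel₀ _ (by positivity), mul_sum]
    refine sum_congr rfl fun n _ => ?_
    rw [mul_pow, Real.sq_sqrt (by positivity)]
    have : ((n : ℝ) + 1) ≠ 0 := by positivity
    field_simp
  rw [e1]
  have hsq : Real.sqrt t ≤ t := by
    rw [Real.sqrt_le_left ht0.le]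
    nlinarith
  have key := pert w (ε / 2) hw0 hw1 ⌈Real.sqrt t⌉₊
    (fun n => (gk L (((n : ℝ) + 1) * t) 0 *
      Real.sqrt (4 * Real.pi * (((n : ℝ) + 1) * t))) ^ 2) (by
      intro n hn
      refine sq_near _ η _ (h1 L _ ?_ ?_) hη1 hη2
      · have h3 : 0 ≤ (n : ℝ) * t := by positivity
        have h4 : ((n : ℝ) + 1) * t = n * t + t := by ring
        rw [h4]
        linarith
      · have h3 : ((n : ℝ) + 1) ≤ Real.sqrt t + 1 := by
          have h4 : ((n + 1 : ℕ) : ℝ) ≤ ⌈Real.sqrt t⌉₊ := by exact_mod_cast hn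
          have h5 := Nat.ceil_lt_add_one (Real.sqrt_nonneg t)
          push_cast at h4
          linarith
        have h6 : ((n : ℝ) + 1) ≤ 2 * t := by linarith
        have h7 : T1 * (((n : ℝ) + 1) * t) ≤ T1 * (2 * t * t) :=
          mul_le_mul_of_nonneg_left (mul_le_mul_of_nonneg_right h6 ht0.le) hT1.le
        have h8 : ((2 * T1 + 1) * t) ^ 2 ≤ (L : ℝ) ^ 2 :=
          pow_le_pow_left₀ (by positivity) hLt 2
        have h9 : T1 * (2 * t * t) ≤ ((2 * T1 + 1) * t) ^ 2 := by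
          have h10 : ((2 * T1 + 1) * t) ^ 2 = T1 * (2 * t * t) + (4 * T1 ^ 2 + 2 * T1 + 1) * t ^ 2 := by
            ring
          rw [h10]
          have : 0 ≤ (4 * T1 ^ 2 + 2 * T1 + 1) * t ^ 2 := by positivity
          linarith
        linarith) (by positivity)
  refine key.trans ?_
  have h11 : ε / 2 * Real.log (1 / (1 - w)) ≤ ε * Real.log (1 / (1 - w)) :=
    mul_le_mul_of_nonneg_right (by linarith) hΛ
  have h12 : ε * (1 + Real.log (1 / (1 - w))) = ε + ε * Real.log (1 / (1 - w)) := by ring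
  rw [h12]
  linarith

end Pool.Agent.H961.T4.Alph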