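import Pool.Agent.H961.T4.Stm
import Pool.Agent.H961.T3.Cip

/-!
# Project PN: good environments (helper825 for helper961)
-/

set_option autoImplicit false

namespace Pool.Agent.H961.T4.Cilh

open Finset Equiv Matrix Q292.LC Pool.Agent.H961.T2 Pool.Agent.H961.T3 Pool.Agent.H961.T4
open Pool.Agent.H961.T3.Ciph.Cip (params_cip)

/-- the exponents -/
theorem rpow_aux {K : ℕ} (hK : 1 ≤ K) {x : ℝ} (hx : 0 ≤ x) (h : x ^ 8 ≤ K) :
    x * (K : ℝ) ^ (-(1 / 4) : ℝ) ≤ (K : ℝ) ^ (-(1 / 8) : ℝ) := by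
  have hK0 : (0 : ℝ) < K := by exact_mod_cast hK
  have h1 : x ≤ (K : ℝ) ^ (1 / 8 : ℝ) := by
    have h2 : x = (x ^ 8) ^ (1 / 8 : ℝ) := by
      rw [← Real.rpow_natCast x 8, ← Real.rpow_mul hx]
      norm_num
    rw [h2]
    exact Real.rpow_le_rpow (by positivity) h (by norm_num)
  calc x * (K : ℝ) ^ (-(1 / 4) : ℝ) ≤ (K : ℝ) ^ (1 / 8 : ℝ) * (K : ℝ) ^ (-(1 / 4) : ℝ) :=
        mul_le_mul_of_nonneg_right h1 (by positivity)
    _ = (K : ℝ) ^ (-(1 / 8) : ℝ) := by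
        rw [← Real.rpow_add hK0]
        norm_num

/-- CIL -/
theorem cil (hENG : S_ENG) : S_CIL := by
  intro d hd
  obtain ⟨C₁, m₁, hC₁, hB⟩ := Q295.PL.all_btt d hd
  obtain ⟨C₂, m₂, hC₂, hE⟩ := hENG d hd
  obtain ⟨mm, hmm⟩ : ∃ mm : ℕ, mm = m₁ + m₂ + 2 := ⟨_, rfl⟩
  obtain ⟨m', hmm1, hpar0⟩ := params_cip d C₁ C₂ m₁ mm hd hC₁ (by omega)
  refine ⟨8 * m' + 8, fun p => ?_⟩
  obtain ⟨T, hpar⟩ := hpar0 p
  refine ⟨T, ?_⟩
  intro L K _ hL3 hmK hKL hlog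
  have hlogL : 1 ≤ Real.log L := by
    have h1 : (3 : ℝ) ≤ L := by exact_mod_cast hL3
    have h2 : Real.exp 1 ≤ L := by
      have := Real.exp_one_lt_d9
      linarith
    have h3 := Real.log_le_log (Real.exp_pos 1) h2
    rwa [Real.log_exp] at h3
  have hpw : (Real.log L) ^ m' ≤ (Real.log L) ^ (8 * m' + 8) :=
    pow_le_pow_right₀ hlogL (by omega)
  obtain ⟨Z, z1, z2, z3, z4, z5, z6, z7, hK1, z8⟩ := hpar L K hmK hKL (hpw.trans hlog)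
  have w1 : Z ^ m₁ ≤ Z ^ mm := Nat.pow_le_pow_right (by omega) (by omega)
  have w2 : Z ^ m₂ + Z ≤ Z ^ mm := by
    have e1 : 1 ≤ Z ^ m₂ := Nat.one_le_pow _ _ (by omega)
    have e2 : Z ^ (m₂ + 2) ≤ Z ^ mm := Nat.pow_le_pow_right (by omega) (by omega)
    have e3 : Z ^ (m₂ + 2) = Z * (Z * Z ^ m₂) := by ring
    have e4 : Z ^ m₂ ≤ Z * Z ^ m₂ := Nat.le_mul_of_pos_left _ (by omega)
    have e5 : Z ≤ Z * Z ^ m₂ := Nat.le_mul_of_pos_right _ (by omega)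
    have e6 : 2 * (Z * Z ^ m₂) ≤ Z * (Z * Z ^ m₂) := Nat.mul_le_mul_right _ (by omega)
    omega
  obtain ⟨q1, hq1⟩ := hB Z (by omega) L K Z (Z ^ mm) Z ((Z - 1) / 2) le_rfl le_rfl (by omega)
    w1 (by omega) (by omega) hKL
  obtain ⟨q2, hq2⟩ := hE Z (by omega) L K Z (Z ^ mm - Z) Z (2 * ((Z - 1) / 2) + 1) le_rfl le_rfl
    (by omega) (by omega) (by omega) (by omega) hKL
  refine ⟨q1 + q2 + 2, fun q hq σ hσ δ h1 h2 => ?_⟩
  refine ⟨fun ω A => Gd σ q K Z (Z ^ mm) Z (2 * ((Z - 1) / 2)) ω A, ?_, ?_⟩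
  · intro ω A hG w hw0 hw1 k₀
    have hEv : Ev σ q K Z (Z ^ mm - Z) Z (2 * ((Z - 1) / 2) + 1) ω A := by
      refine Pool.Agent.Q277.LC.ge d L z6 σ hσ q K Z (Z ^ mm - Z) Z (2 * ((Z - 1) / 2)) ω A
        (by omega) hK1 ?_
      have : Z ^ mm - Z + Z = Z ^ mm := by omega
      rw [this]
      exact hG
    refine (hq2 q (by omega) σ hσ δ h1 h2 ω A hEv w hw0 hw1 k₀).trans ?_
    have hZm : ((Z : ℝ) ^ m₂) ^ 8 ≤ K := by
      have hZ1 : (1 : ℝ) ≤ Z := by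
        have : 1 ≤ Z := by omega
        exact_mod_cast this
      calc ((Z : ℝ) ^ m₂) ^ 8 ≤ ((Real.log L) ^ m') ^ 8 := by
            refine pow_le_pow_left₀ (by positivity) ?_ 8
            exact (pow_le_pow_right₀ hZ1 (by omega)).trans z7
        _ = (Real.log L) ^ (8 * m') := by rw [← pow_mul, mul_comm]
        _ ≤ (Real.log L) ^ (8 * m' + 8) := pow_le_pow_right₀ hlogL (by omega)
        _ ≤ K := hlog
    have h3 : (0 : ℝ) ≤ A.card + (L : ℝ) ^ d / K := by positivity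
    have h4 := mul_le_mul_of_nonneg_right (rpow_aux hK1 (by positivity) hZm) h3
    have h5 : (0 : ℝ) ≤ (1 / (1 - w)) ^ 2 := sq_nonneg _
    have h6 := mul_le_mul_of_nonneg_left h4 h5
    linarith
  · intro wb hw0 hw1 hwb
    obtain ⟨z9, z10⟩ := z8 wb hw0 hw1 (hpw.trans hwb) _ rfl
    obtain ⟨b1, -⟩ := hq1 q (by omega) σ hσ δ h1 h2 wb hw0 hw1 _ rfl z9
    exact b1.trans z10

end Pool.Agent.H961.T4.Cilh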