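import Pool.Agent.H961.T4.StmA
import Pool.Graph.R_pool_sql_team_seeded_3997aac3.Q151.LC.Con2
import Pool.Graph.R_pool_sql_team_seeded_3997aac3.Q187.LC.Tch

/-! Project PN: job CWS, total weight of the touched steps. -/

set_option autoImplicit false

namespace Pool.Agent.H961.T4.Cwsh

open Finset Equiv Matrix Q292.LC Pool.Agent.H961.T2 Pool.Agent.H961.T4

/-- `∑ 1 / √i ≤ 2 √K` -/
lemma sum_inv_sqrt (K : ℕ) : ∑ i ∈ range K, 1 / Real.sqrt ((i : ℝ) + 1) ≤ 2 * Real.sqrt K := by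
  induction K with
  | zero => simp
  | succ K ih =>
    rw [sum_range_succ]
    have hs : 0 < Real.sqrt ((K : ℝ) + 1) := Real.sqrt_pos.2 (by positivity)
    have hk : 0 ≤ Real.sqrt (K : ℝ) := Real.sqrt_nonneg _
    have h1 : Real.sqrt (K : ℝ) ^ 2 = K := Real.sq_sqrt (Nat.cast_nonneg _)
    have h2 : Real.sqrt ((K : ℝ) + 1) ^ 2 = K + 1 := Real.sq_sqrt (by positivity)
    have h3 : 1 / Real.sqrt ((K : ℝ) + 1) ≤
        2 * Real.sqrt ((K : ℝ) + 1) - 2 * Real.sqrt (K : ℝ) := by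
      rw [div_le_iff₀ hs]
      nlinarith [sq_nonneg (Real.sqrt ((K : ℝ) + 1) - Real.sqrt (K : ℝ))]
    push_cast
    linarith

lemma sum_inv_sqrt' (K : ℕ) : ∑ j ∈ range K, 1 / Real.sqrt ((K : ℝ) - j) ≤ 2 * Real.sqrt K := by
  refine le_trans (le_of_eq ?_) (sum_inv_sqrt K)
  rw [← sum_range_reflect]
  apply sum_congr rfl
  intro j hj
  rw [mem_range] at hj
  have h : ((K - 1 - j : ℕ) : ℝ) = (K : ℝ) - 1 - j := by
    rw [Nat.cast_sub (by omega), Nat.cast_sub (by omega)]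
    simp
  rw [h]
  congr 2
  ring

lemma cw_nonneg {V : Type} [DecidableEq V] (e : ℕ → V × V) (ω : ℕ → Bool) (A : Finset V) (δ : ℝ)
    (h0 : 0 ≤ δ) (k : ℕ) : 0 ≤ cw e ω A δ k := by
  unfold cw
  split_ifs <;> simp [h0]

lemma cw_le_sum {V : Type} [DecidableEq V] (e : ℕ → V × V) (ω : ℕ → Bool) (A : Finset V) (δ : ℝ)
    (h0 : 0 ≤ δ) (k : ℕ) : cw e ω A δ k ≤ ∑ a ∈ A, cw e ω {a} δ k := by
  by_cases ht : tch e ω A k
  · obtain ⟨a, ha, hta⟩ := ht
    have h1 : tch e ω {a} k := ⟨a, mem_singleton_self a, hta⟩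
    have h2 : cw e ω A δ k = cw e ω {a} δ k := by
      unfold cw
      rw [if_pos h1, if_pos ⟨a, ha, hta⟩]
    rw [h2]
    exact single_le_sum (f := fun a => cw e ω {a} δ k) (fun b _ => cw_nonneg e ω {b} δ h0 k) ha
  · have h2 : cw e ω A δ k = 0 := by
      unfold cw
      rw [if_neg ht]
    rw [h2]
    exact sum_nonneg fun b _ => cw_nonneg e ω {b} δ h0 k

theorem cws : S_CWS := by
  intro d L _ hd hL σ hσ ω A δ q K ρ h0 h2 hq hJ
  have hunit : ∀ j ∈ range K, ∑ i ∈ range (q * ms d L),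
      cw (ed ∘ σ) ω A δ (j * (q * ms d L) + i) ≤ (2 * ρ + 4 * d) * A.card := by
    intro j hj
    rw [mem_range] at hj
    calc ∑ i ∈ range (q * ms d L), cw (ed ∘ σ) ω A δ (j * (q * ms d L) + i)
        ≤ ∑ i ∈ range (q * ms d L), ∑ a ∈ A, cw (ed ∘ σ) ω {a} δ (j * (q * ms d L) + i) :=
          sum_le_sum fun i _ => cw_le_sum _ _ _ _ h0.le _
      _ = ∑ a ∈ A, ∑ i ∈ range (q * ms d L), cw (ed ∘ σ) ω {a} δ (j * (q * ms d L) + i) :=
          sum_comm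
      _ ≤ ∑ _a ∈ A, (2 * (ρ : ℝ) + 4 * d) := by
          refine sum_le_sum fun a ha => ?_
          exact Pool.Agent.Q151.LC.wt_unit Pool.Agent.Q187.LC.Tch.tch hL σ hσ ω δ q ρ j a h0 h2 hq
            (hJ j hj a ha)
      _ = (2 * ρ + 4 * d) * A.card := by
          rw [sum_const, nsmul_eq_mul]
          ring
  have hc : (0 : ℝ) ≤ (2 * ρ + 4 * d) * A.card := by positivity
  calc ∑ j ∈ range K, ∑ i ∈ range (q * ms d L),
        cw (ed ∘ σ) ω A δ (j * (q * ms d L) + i) / Real.sqrt ((K : ℝ) - j)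
      = ∑ j ∈ range K, (∑ i ∈ range (q * ms d L),
        cw (ed ∘ σ) ω A δ (j * (q * ms d L) + i)) * (1 / Real.sqrt ((K : ℝ) - j)) := by
        refine sum_congr rfl fun j _ => ?_
        rw [← sum_div]
        ring
    _ ≤ ∑ j ∈ range K, ((2 * ρ + 4 * d) * A.card) * (1 / Real.sqrt ((K : ℝ) - j)) := by
        refine sum_le_sum fun j hj => mul_le_mul_of_nonneg_right (hunit j hj) ?_
        positivity
    _ = ((2 * ρ + 4 * d) * A.card) * ∑ j ∈ range K, 1 / Real.sqrt ((K : ℝ) - j) := by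
        rw [mul_sum]
    _ ≤ ((2 * ρ + 4 * d) * A.card) * (2 * Real.sqrt K) :=
        mul_le_mul_of_nonneg_left (sum_inv_sqrt' K) hc
    _ = (4 * ρ + 8 * d) * Real.sqrt K * A.card := by ring

end Pool.Agent.H961.T4.Cwsh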