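import Pool.Agent.H961.T4.Stm

/-!
# Project PN (helper961): ENG (helper675)
-/

set_option autoImplicit false

namespace Pool.Agent.H961.T4.Engh

open Finset Equiv Matrix Filter Topology Q292.LC Pool.Agent.H961.T2 Pool.Agent.H961.T3
open Pool.Agent.H961.T4

theorem arith_geom (w : ℝ) (N : ℕ) :
    (1 - w) ^ 2 * ∑ k ∈ range N, ((k : ℝ) + 1) * w ^ k = 1 - (N + 1) * w ^ N + N * w ^ (N + 1) := by
  induction N with
  | zero => simp
  | succ N ih =>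
    rw [sum_range_succ, mul_add, ih]
    push_cast
    ring

theorem arith_geom_le (w : ℝ) (h0 : 0 ≤ w) (h1 : w < 1) (N : ℕ) :
    ∑ k ∈ range N, ((k : ℝ) + 1) * w ^ (k + 1) ≤ (1 / (1 - w)) ^ 2 := by
  have hpos : 0 < (1 - w) ^ 2 := pow_pos (by linarith) 2
  have e1 : ∑ k ∈ range N, ((k : ℝ) + 1) * w ^ k ≤ (1 / (1 - w)) ^ 2 := by
    rw [one_div, inv_pow, ← one_div, le_div_iff₀ hpos, mul_comm, arith_geom]
    have h2 : w ^ (N + 1) ≤ w ^ N := pow_le_pow_of_le_one h0 h1.le (Nat.le_succ N)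
    have h3 : 0 ≤ w ^ N := pow_nonneg h0 N
    have h4 : (0 : ℝ) ≤ N := Nat.cast_nonneg N
    nlinarith [mul_le_mul_of_nonneg_left h2 h4]
  refine le_trans (sum_le_sum fun k _ => ?_) e1
  exact mul_le_mul_of_nonneg_left (pow_le_pow_of_le_one h0 h1.le (Nat.le_succ k)) (by positivity)

theorem BS_of_DS {V : Type} [Fintype V] {M : Matrix V V ℝ} (h : Pool.Agent.Q68.LC.DS M) : BS M :=
  ⟨h.nn, fun x => (h.row x).le, fun y => (h.col y).le⟩

theorem BS_trace {V : Type} [Fintype V] {M : Matrix V V ℝ} (h : BS M) :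
    0 ≤ M.trace ∧ M.trace ≤ Fintype.card V := by
  unfold Matrix.trace
  simp only [Matrix.diag_apply]
  constructor
  · exact sum_nonneg fun x _ => h.nn x x
  · calc ∑ x, M x x ≤ ∑ x : V, (1 : ℝ) := by
          refine sum_le_sum fun x _ => ?_
          exact (single_le_sum (f := fun y => M x y) (fun y _ => h.nn x y) (mem_univ x)).trans
            (h.row x)
      _ = Fintype.card V := by rw [sum_const, card_univ, nsmul_eq_mul, mul_one]

theorem series (w : ℝ) (h0 : 0 ≤ w) (h1 : w < 1) (b p : ℕ → ℝ) (E M : ℝ) (hE : 0 ≤ E)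
    (hb : ∀ k, |b k - p k| ≤ ((k : ℝ) + 1) * E) (hp0 : ∀ k, 0 ≤ p k) (hp : ∀ k, p k ≤ M)
    (hM : 0 ≤ M) (k₀ N : ℕ) (hN : k₀ ≤ N) :
    |∑ k ∈ range N, w ^ (k + 1) * b k - ∑ k ∈ range k₀, w ^ (k + 1) * p k| ≤
      (1 / (1 - w)) ^ 2 * E + M * w ^ k₀ / (1 - w) := by
  have e1 : ∑ k ∈ range N, w ^ (k + 1) * b k - ∑ k ∈ range k₀, w ^ (k + 1) * p k =
      ∑ k ∈ range N, w ^ (k + 1) * (b k - p k) + ∑ k ∈ Ico k₀ N, w ^ (k + 1) * p k := by
    have f1 := Finset.sum_range_add_sum_Ico (fun k => w ^ (k + 1) * p k) hN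
    simp only [mul_sub, sum_sub_distrib]
    linarith
  have e2 : |∑ k ∈ range N, w ^ (k + 1) * (b k - p k)| ≤ (1 / (1 - w)) ^ 2 * E := by
    calc |∑ k ∈ range N, w ^ (k + 1) * (b k - p k)|
        ≤ ∑ k ∈ range N, |w ^ (k + 1) * (b k - p k)| := abs_sum_le_sum_abs _ _
      _ ≤ ∑ k ∈ range N, (((k : ℝ) + 1) * w ^ (k + 1)) * E := by
          refine sum_le_sum fun k _ => ?_
          rw [abs_mul, abs_of_nonneg (pow_nonneg h0 (k + 1))]
          calc w ^ (k + 1) * |b k - p k| ≤ w ^ (k + 1) * (((k : ℝ) + 1) * E) :=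
                mul_le_mul_of_nonneg_left (hb k) (pow_nonneg h0 _)
            _ = (((k : ℝ) + 1) * w ^ (k + 1)) * E := by ring
      _ = (∑ k ∈ range N, ((k : ℝ) + 1) * w ^ (k + 1)) * E := by rw [sum_mul]
      _ ≤ (1 / (1 - w)) ^ 2 * E := mul_le_mul_of_nonneg_right (arith_geom_le w h0 h1 N) hE
  have e3 : 0 ≤ ∑ k ∈ Ico k₀ N, w ^ (k + 1) * p k :=
    sum_nonneg fun k _ => mul_nonneg (pow_nonneg h0 _) (hp0 k)
  have e4 : ∑ k ∈ Ico k₀ N, w ^ (k + 1) * p k ≤ M * w ^ k₀ / (1 - w) := by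
    calc ∑ k ∈ Ico k₀ N, w ^ (k + 1) * p k ≤ ∑ k ∈ Ico k₀ N, w ^ k * M := by
          refine sum_le_sum fun k _ => ?_
          exact mul_le_mul (pow_le_pow_of_le_one h0 h1.le (Nat.le_succ k)) (hp k) (hp0 k)
            (pow_nonneg h0 k)
      _ = M * ∑ k ∈ Ico k₀ N, w ^ k := by rw [← sum_mul, mul_comm]
      _ ≤ M * (w ^ k₀ / (1 - w)) :=
          mul_le_mul_of_nonneg_left (geom_sum_Ico_le_of_lt_one h0 h1) hM
      _ = M * w ^ k₀ / (1 - w) := by ring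
  rw [e1]
  have g := abs_le.1 e2
  rw [abs_le]
  constructor <;> linarith [g.1, g.2]

theorem eng (hENT : Pool.Agent.H961.T4.S_ENT) : Pool.Agent.H961.T4.S_ENG := by
  intro d hd
  obtain ⟨C, m, hC, h⟩ := hENT d hd
  refine ⟨C, m, hC, ?_⟩
  intro Z hZ L K lam r ρ κ₀ _ hlam hρ hκ hr hL hK hKL
  obtain ⟨q₀, hq₀⟩ := h Z hZ L K lam r ρ κ₀ hlam hρ hκ hr hL hK hKL
  refine ⟨max q₀ 2, ?_⟩
  intro q hq σ hσ δ hδ1 hδ2 ω A hEv w hw0 hw1 k₀
  have hq1 : q₀ ≤ q := (le_max_left _ _).trans hq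
  have hq2 : 2 ≤ q := (le_max_right _ _).trans hq
  have hq2' : (2 : ℝ) ≤ q := by exact_mod_cast hq2
  have hq0 : (0 : ℝ) < q := by linarith
  have hδ0 : 0 < δ := by
    by_contra hh
    push Not at hh
    have := mul_nonpos_of_nonpos_of_nonneg hh hq0.le
    linarith
  have hδ1' : δ ≤ 1 := by
    by_contra hh
    push Not at hh
    nlinarith
  have hent := hq₀ q hq1 σ hσ δ hδ1 hδ2 ω A hEv
  have hTT := Pool.Agent.Q68.LC.DS_TT (ed ∘ σ) ω A hδ0.le hδ1' (K * (q * ms d L))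
  have hPP : BS (PP (ed ∘ σ) δ (K * (q * ms d L))) :=
    BS_of_DS (Pool.Agent.Q68.LC.DS_TT (ed ∘ σ) (fun _ => false) ∅ hδ0.le hδ1'
      (K * (q * ms d L)))
  have hlim : Tendsto (fun N : ℕ => ∑ x ∈ univ \ A, ∑ k ∈ Finset.range N, w ^ (k + 1) *
      (TT (ed ∘ σ) ω A δ (K * (q * ms d L)) *
        (dg (univ \ A) * TT (ed ∘ σ) ω A δ (K * (q * ms d L))) ^ k) x x) atTop
      (𝓝 (∑ x ∈ univ \ A, Gx w (univ \ A) (TT (ed ∘ σ) ω A δ (K * (q * ms d L))) x)) :=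
    tendsto_finsetSum _ fun x hx =>
      Gx_tendsto w (univ \ A) _ x ⟨hTT.nn, fun x => (hTT.row x).le⟩ hw0 hw1 hx
  have hcard : (Fintype.card (Fin d → ZMod L) : ℝ) = (L : ℝ) ^ d := by
    rw [Fintype.card_fun, ZMod.card, Fintype.card_fin]
    push_cast
    rfl
  refine le_of_tendsto (hlim.sub_const _).abs ?_
  filter_upwards [eventually_ge_atTop k₀] with N hN
  rw [sum_comm]
  simp only [← mul_sum]
  refine series w hw0 hw1 _ _ _ ((L : ℝ) ^ d) ?_ (fun k => hent k) (fun k => ?_) (fun k => ?_)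
    (by positivity) k₀ N hN
  · positivity
  · exact (BS_trace (BS_pow hPP (k + 1))).1
  · rw [← hcard]
    exact (BS_trace (BS_pow hPP (k + 1))).2

end Pool.Agent.H961.T4.Engh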