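import Pool.Agent.H961.T4.Stm2

/-!
# Project PN, MKS: moments of the mass of the marked cycles
-/

set_option autoImplicit false

namespace Pool.Agent.H961.T4.Mksh

open Finset Equiv Matrix Q292.LC Pool.Agent.H961.T2 Pool.Agent.H961.T3 Pool.Agent.H961.T4

section abstract_part

variable {ι : Type} [DecidableEq ι] (a : ι → ℕ) (w : ℝ)

theorem mk_empty (b : Finset ι → ℝ) : mk a w ∅ b = b ∅ := by
  unfold H961.T3.mk
  rw [Finset.powerset_empty, Finset.sum_singleton, Finset.sdiff_self, Finset.prod_empty,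
    Finset.prod_empty, one_mul, one_mul]

theorem mk_insert {C : ι} {s : Finset ι} (hC : C ∉ s) (b : Finset ι → ℝ) :
    mk a w (insert C s) b =
      w ^ a C * mk a w s (fun J => b (insert C J)) + (1 - w ^ a C) * mk a w s b := by
  unfold H961.T3.mk
  rw [Finset.sum_powerset_insert hC, add_comm, Finset.mul_sum, Finset.mul_sum]
  have h0 : ∀ J ∈ s.powerset, C ∉ J := fun J hJ h => hC (Finset.mem_powerset.1 hJ h)
  have e1 : ∑ J ∈ s.powerset, (∏ D ∈ insert C J, w ^ a D) *
      (∏ D ∈ insert C s \ insert C J, (1 - w ^ a D)) * b (insert C J) =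
      ∑ J ∈ s.powerset, w ^ a C * ((∏ D ∈ J, w ^ a D) * (∏ D ∈ s \ J, (1 - w ^ a D)) *
        b (insert C J)) := by
    refine Finset.sum_congr rfl fun J hJ => ?_
    rw [Finset.prod_insert (h0 J hJ), Finset.insert_sdiff_insert,
      Finset.sdiff_insert_of_notMem hC]
    ring
  have e2 : ∑ J ∈ s.powerset, (∏ D ∈ J, w ^ a D) *
      (∏ D ∈ insert C s \ J, (1 - w ^ a D)) * b J =
      ∑ J ∈ s.powerset, (1 - w ^ a C) * ((∏ D ∈ J, w ^ a D) * (∏ D ∈ s \ J, (1 - w ^ a D)) *
        b J) := by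
    refine Finset.sum_congr rfl fun J hJ => ?_
    rw [Finset.insert_sdiff_of_notMem _ (h0 J hJ), Finset.prod_insert (by
      rw [Finset.mem_sdiff]
      exact fun h => hC h.1)]
    ring
  rw [e1, e2]

theorem mk_congr {s : Finset ι} {b b' : Finset ι → ℝ} (h : ∀ J ⊆ s, b J = b' J) :
    mk a w s b = mk a w s b' := by
  unfold H961.T3.mk
  refine Finset.sum_congr rfl fun J hJ => ?_
  rw [h J (Finset.mem_powerset.1 hJ)]

theorem mk_add (s : Finset ι) (b b' : Finset ι → ℝ) :
    mk a w s (fun J => b J + b' J) = mk a w s b + mk a w s b' := by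
  unfold H961.T3.mk
  rw [← Finset.sum_add_distrib]
  refine Finset.sum_congr rfl fun J _ => ?_
  ring

theorem mk_mul (s : Finset ι) (c : ℝ) (b : Finset ι → ℝ) :
    mk a w s (fun J => c * b J) = c * mk a w s b := by
  unfold H961.T3.mk
  rw [Finset.mul_sum]
  refine Finset.sum_congr rfl fun J _ => ?_
  ring

theorem mk_one (s : Finset ι) : mk a w s (fun _ => 1) = 1 := by
  induction s using Finset.induction_on with
  | empty => rw [mk_empty]
  | insert C s hC ih =>
    rw [mk_insert a w hC, ih]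
    ring

theorem mk_const (s : Finset ι) (c : ℝ) : mk a w s (fun _ => c) = c := by
  have h := mk_mul a w s c (fun _ => 1)
  rw [mk_one, mul_one] at h
  exact h

/-- first moment -/
theorem mk_sum (x : ι → ℝ) (s : Finset ι) :
    mk a w s (fun J => ∑ C ∈ J, x C) = ∑ C ∈ s, w ^ a C * x C := by
  induction s using Finset.induction_on with
  | empty => rw [mk_empty, Finset.sum_empty, Finset.sum_empty]
  | insert C s hC ih =>
    have e : mk a w s (fun J => ∑ D ∈ insert C J, x D) =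
        mk a w s (fun J => x C + ∑ D ∈ J, x D) :=
      mk_congr a w fun J hJ => Finset.sum_insert fun h => hC (hJ h)
    rw [mk_insert a w hC, e, mk_add, mk_const, ih, Finset.sum_insert hC]
    ring

/-- second moment -/
theorem mk_sq (x : ι → ℝ) (s : Finset ι) :
    mk a w s (fun J => (∑ C ∈ J, x C) * ∑ C ∈ J, x C) =
      (∑ C ∈ s, w ^ a C * x C) ^ 2 + ∑ C ∈ s, w ^ a C * (1 - w ^ a C) * x C ^ 2 := by
  induction s using Finset.induction_on with
  | empty =>
    rw [mk_empty, Finset.sum_empty, Finset.sum_empty, Finset.sum_empty]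
    ring
  | insert C s hC ih =>
    have e : mk a w s (fun J => (∑ D ∈ insert C J, x D) * ∑ D ∈ insert C J, x D) =
        mk a w s (fun J => x C ^ 2 + (2 * x C * ∑ D ∈ J, x D +
          (∑ D ∈ J, x D) * ∑ D ∈ J, x D)) := by
      refine mk_congr a w fun J hJ => ?_
      rw [Finset.sum_insert fun h => hC (hJ h)]
      ring
    rw [mk_insert a w hC, e, mk_add, mk_const, mk_add, mk_mul, mk_sum, ih,
      Finset.sum_insert hC, Finset.sum_insert hC]
    ring

end abstract_part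

/-- `ℓ w^ℓ ≤ 2 / (1 - w) ((1 + w) / 2)^ℓ` -/
theorem pow_bound {w : ℝ} (hw : 0 ≤ w) (hw1 : w < 1) (l : ℕ) :
    (l : ℝ) * w ^ l ≤ 2 / (1 - w) * ((1 + w) / 2) ^ l := by
  set v : ℝ := (1 + w) / 2 with hv
  have hv0 : 0 ≤ v := by rw [hv]; linarith
  have hv1 : v < 1 := by rw [hv]; linarith
  have h1 : w ≤ v ^ 2 := by
    rw [hv]
    nlinarith [sq_nonneg (1 - w)]
  have h2 : w ^ l ≤ v ^ l * v ^ l := by
    calc w ^ l ≤ (v ^ 2) ^ l := pow_le_pow_left₀ hw h1 l
      _ = v ^ l * v ^ l := by rw [← pow_mul, mul_comm, pow_mul, sq]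
  have h3 : (l : ℝ) * v ^ l ≤ 1 / (1 - v) := by
    have h4 : (l : ℝ) * v ^ l ≤ ∑ i ∈ Finset.range l, v ^ i := by
      calc (l : ℝ) * v ^ l = ∑ _i ∈ Finset.range l, v ^ l := by
            rw [Finset.sum_const, Finset.card_range, nsmul_eq_mul]
        _ ≤ ∑ i ∈ Finset.range l, v ^ i :=
            Finset.sum_le_sum fun i hi =>
              pow_le_pow_of_le_one hv0 hv1.le (Finset.mem_range.1 hi).le
    have h5 : ∑ i ∈ Finset.range l, v ^ i ≤ 1 / (1 - v) := by
      rw [le_div_iff₀ (by linarith), geom_sum_mul_neg]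
      have := pow_nonneg hv0 l
      linarith
    exact h4.trans h5
  have h6 : 1 / (1 - v) = 2 / (1 - w) := by
    have h7 : 1 - v = (1 - w) / 2 := by rw [hv]; ring
    rw [h7, one_div_div]
  have h8 : 0 ≤ v ^ l := pow_nonneg hv0 l
  calc (l : ℝ) * w ^ l ≤ (l : ℝ) * (v ^ l * v ^ l) :=
        mul_le_mul_of_nonneg_left h2 (Nat.cast_nonneg l)
    _ = ((l : ℝ) * v ^ l) * v ^ l := by ring
    _ ≤ 1 / (1 - v) * v ^ l := mul_le_mul_of_nonneg_right h3 h8
    _ = 2 / (1 - w) * v ^ l := by rw [h6]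

theorem mks (hCYC : S_CYC) (_hMASS : S_MASS) : S_MKS := by
  intro V _ _ g w hw hw1
  have hcyc := (hCYC V g).2.2.2.2
  have hsm : ∀ v : ℝ, sm v g = ∑ C ∈ cycs g, v ^ C.card * (C.card : ℝ) := by
    intro v
    unfold sm
    rw [hcyc (fun C => v ^ C.card)]
    exact Finset.sum_congr rfl fun C _ => mul_comm _ _
  have hY : ∑ x, ((cyc g x).card : ℝ) * w ^ (cyc g x).card =
      ∑ C ∈ cycs g, w ^ C.card * (C.card : ℝ) ^ 2 := by
    rw [hcyc (fun C => (C.card : ℝ) * w ^ C.card)]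
    exact Finset.sum_congr rfl fun C _ => by ring
  have hp : ∀ C : Finset V, 0 ≤ w ^ C.card := fun C => pow_nonneg hw _
  have hp1 : ∀ C : Finset V, w ^ C.card ≤ 1 := fun C => pow_le_one₀ hw hw1.le
  rw [hY]
  refine ⟨?_, mk_one _ _ _, ?_, ?_, ?_, ?_⟩
  · rw [hsm]
    unfold sb
    refine Finset.sum_congr rfl fun C _ => ?_
    rw [mk_one]
    ring
  · rw [mk_sum, hsm]
  · have e : sb w (fun J => ∑ C ∈ J, (C.card : ℝ)) g =
        (sm w g) ^ 2 - ∑ C ∈ cycs g, (w ^ C.card * w ^ C.card) * (C.card : ℝ) ^ 2 := by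
      unfold sb
      have e1 : ∀ C ∈ cycs g, (C.card : ℝ) * w ^ C.card *
          mk (ι := Finset V) card w ((cycs g).erase C) (fun J => ∑ D ∈ J, (D.card : ℝ)) =
          (w ^ C.card * (C.card : ℝ)) * sm w g -
            (w ^ C.card * w ^ C.card) * (C.card : ℝ) ^ 2 := by
        intro C hC
        rw [mk_sum, hsm]
        have e2 := Finset.sum_erase_add (cycs g) (fun D : Finset V => w ^ D.card * (D.card : ℝ)) hC
        rw [← e2]
        ring
      rw [Finset.sum_congr rfl e1, Finset.sum_sub_distrib, ← Finset.sum_mul, ← hsm]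
      ring
    rw [e]
    have h1 : ∑ C ∈ cycs g, (w ^ C.card * w ^ C.card) * (C.card : ℝ) ^ 2 ≤
        ∑ C ∈ cycs g, w ^ C.card * (C.card : ℝ) ^ 2 := by
      refine Finset.sum_le_sum fun C _ => ?_
      apply mul_le_mul_of_nonneg_right _ (sq_nonneg _)
      have := mul_le_mul_of_nonneg_left (hp1 C) (hp C)
      linarith
    linarith
  · rw [mk_sq, hsm]
    have h1 : ∑ C ∈ cycs g, w ^ C.card * (1 - w ^ C.card) * (C.card : ℝ) ^ 2 ≤
        ∑ C ∈ cycs g, w ^ C.card * (C.card : ℝ) ^ 2 := by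
      refine Finset.sum_le_sum fun C _ => ?_
      apply mul_le_mul_of_nonneg_right _ (sq_nonneg _)
      have := mul_nonneg (hp C) (hp C)
      linarith
    linarith
  · rw [hsm, Finset.mul_sum]
    refine Finset.sum_le_sum fun C _ => ?_
    have h1 := pow_bound hw hw1 C.card
    calc w ^ C.card * (C.card : ℝ) ^ 2 = ((C.card : ℝ) * w ^ C.card) * (C.card : ℝ) := by ring
      _ ≤ (2 / (1 - w) * ((1 + w) / 2) ^ C.card) * (C.card : ℝ) :=
          mul_le_mul_of_nonneg_right h1 (Nat.cast_nonneg _)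
      _ = _ := by ring

end Pool.Agent.H961.T4.Mksh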