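import Pool.Agent.H961.T2.B4
import Pool.Graph.R_pool_sql_team_seeded_3997aac3.Q292.LC.Stm4

/-!
# Project PN (planar microscopic cycles and number of cycles), statements A

Notation of project LC (`Q292.LC`, library) and of `Pool.Agent.H961.T2`. Idea: the
Hilbert-Schmidt norm of `T - P` (`T` the kernel of half a lap in the environment of the marked particles, `P`
the free one) is bounded with Duhamel's formula in ONE factor only; the other factor `T - P` is bounded by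
the sup norm of the kernels, and the gradient of the free kernel has `ℓ¹` norm `C / √s`.
-/

set_option autoImplicit false

namespace Pool.Agent.H961.T4

open Finset Equiv Matrix Q292.LC Pool.Agent.H961.T2

/-- weight of the step `k` -/
def cw {V : Type} [DecidableEq V] (e : ℕ → V × V) (ω : ℕ → Bool) (A : Finset V) (δ : ℝ) (k : ℕ) : ℝ :=
  if tch e ω A k then (if ω k then 1 else δ) else 0

/-- DUF. Duhamel's formula for the kernel in an environment.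
Proof. Induction on `n`, or telescoping with `TT_add` (Pool.Agent.Q68.LC.TT_add; `sh` of `fun _ => false` is
itself, `∅.image = ∅`): `T_n - P_n = ∑_k T_k (Mx_k - fr_k) P'_k`, `P'_k = PP (sh (k+1) e) δ (n - (k+1))`. If the step
is not touched the term is `0`. If it is touched and `ω k`, `Mx - fr = (1 - δ) (pm (swap a b) - 1)`, if it is
touched and `¬ ω k`, `Mx - fr = - δ (pm (swap a b) - 1)`, and
`(X (pm (swap a b) - 1) Y) x y = - (X x a - X x b) (Y a y - Y b y)` (also for `a = b`). See also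
Pool.Agent.Q151.LC.Con1 (`PP_succ`, `row_pm`). So `c k = - (1 - δ)`, `δ` or `0`. -/
def S_DUF : Prop := ∀ (V : Type) [Fintype V] [DecidableEq V] (e : ℕ → V × V) (ω : ℕ → Bool)
  (A : Finset V) (δ : ℝ) (n : ℕ), 0 ≤ δ → δ ≤ 1 → ∃ c : ℕ → ℝ, (∀ k, |c k| ≤ cw e ω A δ k) ∧
  ∀ x y, TT e ω A δ n x y - PP e δ n x y = ∑ k ∈ range n, c k *
    ((TT e ω A δ k x (e k).1 - TT e ω A δ k x (e k).2) *
      (PP (sh (k + 1) e) δ (n - (k + 1)) (e k).1 y - PP (sh (k + 1) e) δ (n - (k + 1)) (e k).2 y))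

/-- GRD. Gradient of the free kernel in `ℓ¹`, arbitrary starting step.
Proof. Let `k = j (q ms) + i + 1`, `k ≤ k' = s' ms < k + ms` the next multiple of `ms = ms d L`, `s = K q - s'` the
number of the remaining full sweeps, `s ≥ (K - 1 - j) q`. By `TT_add` and periodicity (`sh` by a multiple of `ms`
does not change `ed ∘ σ`) the kernel is `R * PP (ed ∘ σ) δ (s * ms d L)` with `R` a product of less than `ms` free
step matrices (doubly stochastic, diagonal entries `≥ (1 - δ)^ms ≥ 1 - ms δ`), so replacing row `a` of the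
kernel by row `a` of `PP (s ms)` changes it in `ℓ¹` by at most `2 ms δ ≤ 4 ms / q`. By TRO (`Pool.Agent.Q297.LC.tro`, with
this `K`) `PP (s ms)` differs from `qq (nnRate d L) (s δ)` by `C_(L,K) / q` in every entry. For `qq` use the first
part of `Pool.Agent.Helper47K9.SC.S_GR` (proved: `Pool.Agent.Helper47K9.SC.gr`) with
`u = s δ ≥ K - 1 - j` (`δ q ≥ 1`), `1 + u ≥ K - j`; the end points of `ed p` are neighbours (`nnRate ≠ 0`, `L ≥ 3`).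
The errors are `≤ 1/√K ≤ 1/√(K - j)` in total for `q ≥ q₀(L, K)`. -/
def S_GRD : Prop := ∀ d : ℕ, 1 ≤ d → ∃ G : ℝ, 1 ≤ G ∧ ∀ (L : ℕ) [NeZero L], 3 ≤ L → ∀ K : ℕ,
  ∃ q₀ : ℕ, ∀ q ≥ q₀, ∀ σ : ℕ → (Fin d → ZMod L) × Fin d, Per σ → ∀ δ : ℝ,
  1 ≤ δ * q → δ * q ≤ 2 → ∀ j < K, ∀ i < q * ms d L, ∀ p : (Fin d → ZMod L) × Fin d,
  ∑ y, |PP (sh (j * (q * ms d L) + i + 1) (ed ∘ σ)) δ
        (K * (q * ms d L) - (j * (q * ms d L) + i + 1)) (ed p).1 y -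
      PP (sh (j * (q * ms d L) + i + 1) (ed ∘ σ)) δ
        (K * (q * ms d L) - (j * (q * ms d L) + i + 1)) (ed p).2 y| ≤ G / Real.sqrt ((K : ℝ) - j)

/-- CWS. Total weight of the touched steps, with weights `1 / √(K - j)` in unit `j`.
Proof. In unit `j`: `cw .. A .. ≤ ∑_{a ∈ A} cw .. {a} ..` and `Pool.Agent.Q151.LC.wt_unit` (with
`Pool.Agent.Q187.LC.Tch.tch`), so the sum over the steps of the unit is `≤ (2 ρ + 4 d) |A|`;
`∑_{j < K} 1/√(K - j) ≤ 2 √K`. -/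
def S_CWS : Prop := ∀ (d L : ℕ) [NeZero L], 1 ≤ d → 3 ≤ L →
  ∀ σ : ℕ → (Fin d → ZMod L) × Fin d, Per σ →
  ∀ (ω : ℕ → Bool) (A : Finset (Fin d → ZMod L)) (δ : ℝ) (q K ρ : ℕ), 0 < δ → 2 * d * δ ≤ 1 →
  δ * q ≤ 2 → (∀ j < K, ∀ a ∈ A,
    jumps (ed ∘ σ) ω (j * (q * ms d L)) ((j + 1) * (q * ms d L)) a ≤ ρ) →
  ∑ j ∈ range K, ∑ i ∈ range (q * ms d L),
    cw (ed ∘ σ) ω A δ (j * (q * ms d L) + i) / Real.sqrt ((K : ℝ) - j) ≤
    (4 * ρ + 8 * d) * Real.sqrt K * A.card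

/-- HSB. The Hilbert-Schmidt bound.
Proof. `D x y = T x y - P x y`, `|D x y| ≤ s` for `x ∉ A`. Put DUF into one of the two factors of `D x y ^ 2`:
`∑_{x ∉ A} ∑_y D x y ^ 2 = ∑_k c k ∑_{x ∉ A} (T_k x a - T_k x b) ∑_y D x y (P'_k a y - P'_k b y)`. The inner sum is at
most `s G / √(K - j)` in absolute value (GRD, `k = j (q ms) + i`, `Pool.Agent.Q151.LC.sum_units`), and
`∑_x |T_k x a - T_k x b| ≤ 2` (doubly stochastic, `Pool.Agent.Q68.LC.DS_TT`); so the whole is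
`≤ 2 s G ∑_k cw_k / √(K - j) ≤ 2 s G (4 ρ + 8 d) √K |A|` by CWS. `q₀ ≥ 4 d + 2` so that `2 d δ ≤ 1`, `δ ≤ 1`. -/
def S_HSB : Prop := ∀ d : ℕ, 1 ≤ d → ∃ C : ℝ, 1 ≤ C ∧ ∀ (L : ℕ) [NeZero L], 3 ≤ L → ∀ K : ℕ,
  ∃ q₀ : ℕ, ∀ q ≥ q₀, ∀ σ : ℕ → (Fin d → ZMod L) × Fin d, Per σ → ∀ δ : ℝ,
  1 ≤ δ * q → δ * q ≤ 2 → ∀ (ω : ℕ → Bool) (A : Finset (Fin d → ZMod L)) (ρ : ℕ) (s : ℝ),
  (∀ j < K, ∀ a ∈ A,
    jumps (ed ∘ σ) ω (j * (q * ms d L)) ((j + 1) * (q * ms d L)) a ≤ ρ) → 0 ≤ s →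
  (∀ x, x ∉ A → ∀ y, TT (ed ∘ σ) ω A δ (K * (q * ms d L)) x y ≤ s) →
  (∀ x y, PP (ed ∘ σ) δ (K * (q * ms d L)) x y ≤ s) →
  ∑ x ∈ univ \ A, ∑ y, (TT (ed ∘ σ) ω A δ (K * (q * ms d L)) x y -
    PP (ed ∘ σ) δ (K * (q * ms d L)) x y) ^ 2 ≤ C * (ρ + 1) * Real.sqrt K * s * A.card

/-- TRH. Comparison of traces with Hilbert-Schmidt norms (pure linear algebra).
Proof. `M = dg U * (T1 * T2)`, `P = P1 * P2`. `M^(j+1) - P^(j+1) = ∑_{i ≤ j} M^i (M - P) P^(j-i)` and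
`M - P = dg U (T1 - P1) P2 - dg (univ \ U) P1 P2 + dg U T1 (T2 - P2)`. (1) `tr (M^i dg U (T1 - P1) P2 P^(j-i)) =
∑_{x ∈ U} ∑_y (T1 - P1) x y W y x`, `W = P2 P^(j-i) M^i`, `0 ≤ W ≤ s` (the entries of `P2` are `≤ s`, the columns of
the other factor, which is `BS`, have sum `≤ 1`) and its rows have sum `≤ 1`, so `∑ W² ≤ s N`, `N = card V`:
Cauchy-Schwarz gives `√(h s N)`. (2) `tr (M^i dg (univ \ U) P1 P2 P^(j-i)) = ∑_{x ∉ U} (P1 P2 P^(j-i) M^i) x x`, all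
entries in `[0, s]`. (3) `tr (M^i dg U T1 (T2 - P2) P^(j-i)) = ∑_{x ∈ U1} ∑_y (T2 - P2) x y W' y x`,
`W' = P^(j-i) M^i dg U T1`, because the columns of `dg U T1` outside `U1` vanish; `0 ≤ W' ≤ s`
(`W' y x = ∑_{z ∈ U} (P^(j-i) M^i) y z T1 z x`). BS_mul, BS_pow, BS_dg in Pool/Agent/H961/T2/B4.lean (see `tr_step`,
`tr_pow`, `tr_mul` there). -/
def S_TRH : Prop := ∀ (V : Type) [Fintype V] [DecidableEq V] (U U1 : Finset V)
  (T1 T2 P1 P2 : Matrix V V ℝ) (s h : ℝ), BS T1 → BS T2 → BS P1 → BS P2 →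
  (∀ x ∈ U, ∀ y, y ∉ U1 → T1 x y = 0) → 0 ≤ s → 0 ≤ h → (∀ x ∈ U, ∀ y, T1 x y ≤ s) →
  (∀ x y, P1 x y ≤ s) → (∀ x y, P2 x y ≤ s) →
  (∑ x ∈ U, ∑ y, (T1 x y - P1 x y) ^ 2 ≤ h) → (∑ x ∈ U1, ∑ y, (T2 x y - P2 x y) ^ 2 ≤ h) →
  ∀ j : ℕ, |((dg U * (T1 * T2)) ^ (j + 1)).trace - ((P1 * P2) ^ (j + 1)).trace| ≤
    ((j : ℝ) + 1) * (2 * Real.sqrt (h * (s * Fintype.card V)) + s * (univ \ U).card)

end Pool.Agent.H961.T4
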