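import Pool.Agent.H961.T3.Stm6
import Pool.Agent.H961.T2.B16
import Pool.Agent.H961.T4.StmA

/-!
# Project PN (planar microscopic cycles and number of cycles), statements

Notation of project LC (`Q292.LC`, library), of `Pool.Agent.H961.T2` and `Pool.Agent.H961.T3`.
-/

set_option autoImplicit false

namespace Pool.Agent.H961.T4

open Finset Equiv Matrix Q292.LC Pool.Agent.H961.T2 Pool.Agent.H961.T3
open Pool.Agent.Y998.ST (stirExp nnRate qq hop cycleLen gk)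

/-- ENT. Comparison of the traces in a good environment, `d ≥ 2`.
Proof. As `env_trace` (Pool/Agent/H961/T2/B5.lean), with TRH instead of `tr_pow`: `K1 = K / 2`, `K2 = K - K / 2`,
`T1, T2, P1, P2` as there, `U = univ \ A`, `U1 = univ \ A1`. Sup bounds: KP with `k = 0`, `U = ∅`
(`Pool.Agent.H961.T3.Kph` or wherever S_KP is proved; take S_KP as a hypothesis) for `T1` (rows not in `A`), `T2` (rows
not in `A1`), FRE (`Pool.Agent.Q257.LC.fre`) for `P1`, `P2`: all `≤ s = Z^m₁ / K`, because `K ≤ L^d`, `K1, K2 ≥ K/3`, `d ≥ 2`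
(`(1 + u)^(-d/2) ≤ 1/u`). HSB (with `K1`, `K2` units; `Ev` for the second half is `Pool.Agent.Q277.LC.sub`) gives
`h = C (Z + 1) √K s |A|` (`|A1| ≤ |A|`). So the error is `≤ (j+1) (2 s √(C (Z + 1) √K |A| L^d) + s |A|)` and
`s √(√K |A| L^d) = Z^m₁ K^(-1/4) √(|A| L^d / K) ≤ Z^m₁ K^(-1/4) (|A| + L^d / K)`. The left side is
`tr_dg` (B4.lean). -/
def S_ENT : Prop := ∀ d : ℕ, 2 ≤ d → ∃ (C m : ℕ), 3 ≤ C ∧ ∀ Z : ℕ, C ≤ Z →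
  ∀ (L K lam r ρ κ₀ : ℕ) [NeZero L], lam ≤ Z → ρ ≤ Z → κ₀ ≤ Z →
  Z ^ m ≤ r → 8 * Z ^ m ≤ L → Z ^ m ≤ K → K ≤ L ^ d → ∃ q₀ : ℕ, ∀ q ≥ q₀,
  ∀ σ : ℕ → (Fin d → ZMod L) × Fin d, Per σ → ∀ δ : ℝ, 1 ≤ δ * q → δ * q ≤ 2 →
  ∀ (ω : ℕ → Bool) (A : Finset (Fin d → ZMod L)), Ev σ q K lam r ρ κ₀ ω A → ∀ j : ℕ,
  |∑ x ∈ univ \ A, (TT (ed ∘ σ) ω A δ (K * (q * ms d L)) *
      (dg (univ \ A) * TT (ed ∘ σ) ω A δ (K * (q * ms d L))) ^ j) x x -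
    (PP (ed ∘ σ) δ (K * (q * ms d L)) ^ (j + 1)).trace| ≤
    ((j : ℝ) + 1) * ((Z : ℝ) ^ m * (K : ℝ) ^ (-(1 / 4) : ℝ) * (A.card + (L : ℝ) ^ d / K))

/-- ENG. The sum of the resolvent in a good environment.
Proof. `Gx_tendsto` (Pool/Agent/H961/T2/B2.lean): `∑_{x ∉ A} Gx = ∑_k w^(k+1) b_k`, `b_k` the sum in ENT, `p_k` the trace,
`|b_k - p_k| ≤ (k+1) E`, `∑_k (k+1) w^(k+1) ≤ 1/(1-w)²`, and for the tail `∑_{k ≥ k₀} w^(k+1) p_k ≤ L^d w^k₀ / (1 - w)`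
as `0 ≤ p_k ≤ L^d` (`PP` is `BS`). -/
def S_ENG : Prop := ∀ d : ℕ, 2 ≤ d → ∃ (C m : ℕ), 3 ≤ C ∧ ∀ Z : ℕ, C ≤ Z →
  ∀ (L K lam r ρ κ₀ : ℕ) [NeZero L], lam ≤ Z → ρ ≤ Z → κ₀ ≤ Z →
  Z ^ m ≤ r → 8 * Z ^ m ≤ L → Z ^ m ≤ K → K ≤ L ^ d → ∃ q₀ : ℕ, ∀ q ≥ q₀,
  ∀ σ : ℕ → (Fin d → ZMod L) × Fin d, Per σ → ∀ δ : ℝ, 1 ≤ δ * q → δ * q ≤ 2 →
  ∀ (ω : ℕ → Bool) (A : Finset (Fin d → ZMod L)), Ev σ q K lam r ρ κ₀ ω A → ∀ w : ℝ, 0 ≤ w →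
  w < 1 → ∀ k₀ : ℕ,
  |∑ x ∈ univ \ A, Gx w (univ \ A) (TT (ed ∘ σ) ω A δ (K * (q * ms d L))) x -
    ∑ k ∈ range k₀, w ^ (k + 1) * (PP (ed ∘ σ) δ (K * (q * ms d L)) ^ (k + 1)).trace| ≤
    (1 / (1 - w)) ^ 2 * ((Z : ℝ) ^ m * (K : ℝ) ^ (-(1 / 4) : ℝ) * (A.card + (L : ℝ) ^ d / K)) +
      (L : ℝ) ^ d * w ^ k₀ / (1 - w)

/-- CIL. Good environments.
Proof. As CIP (Pool/Agent/H961/T3/Cip.lean, `params_cip` can be used as it is, private lemmas may be copied) with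
ENG instead of ENP. In addition `Z^mm K^(-1/4) ≤ K^(-1/8)`: `Z^mm ≤ (log L)^(m')` (the `m'` of `params_cip`) and
`(log L)^(8 m') ≤ K` if `m = 8 m' + 8` (for `log L ≥ 1`). -/
def S_CIL : Prop := ∀ d : ℕ, 2 ≤ d → ∃ m : ℕ, ∀ p : ℕ, ∃ T : ℕ,
  ∀ (L K : ℕ) [NeZero L], 3 ≤ L → T ≤ K → K ≤ L ^ d → (Real.log L) ^ m ≤ K → ∃ q₀ : ℕ, ∀ q ≥ q₀,
  ∀ σ : ℕ → (Fin d → ZMod L) × Fin d, Per σ → ∀ δ : ℝ, 1 ≤ δ * q → δ * q ≤ 2 →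
  ∃ B : (ℕ → Bool) → Finset (Fin d → ZMod L) → Prop,
  (∀ ω A, B ω A → ∀ w : ℝ, 0 ≤ w → w < 1 → ∀ k₀ : ℕ,
    |∑ x ∈ univ \ A, Gx w (univ \ A) (TT (ed ∘ σ) ω A δ (K * (q * ms d L))) x -
      ∑ k ∈ range k₀, w ^ (k + 1) * (PP (ed ∘ σ) δ (K * (q * ms d L)) ^ (k + 1)).trace| ≤
      (1 / (1 - w)) ^ 2 * ((K : ℝ) ^ (-(1 / 8) : ℝ) * (A.card + (L : ℝ) ^ d / K)) +
        (L : ℝ) ^ d * w ^ k₀ / (1 - w)) ∧
  (∀ wb : ℝ, 0 ≤ wb → wb < 1 → (Real.log L) ^ m ≤ (L : ℝ) ^ d * (1 - wb) →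
    PW (ed ∘ σ) (K * (q * ms d L)) δ wb (fun ω A => ¬ B ω A) ≤ 1 / ((L : ℝ) ^ d) ^ p)

open Classical in
/-- RECL. One step with a nonnegative function of the marked cycles, error linear in the number of marked
particles. Proof. As RECG (Pool/Agent/H961/T3/Recg.lean): the difference is `E ∑_{A invariant} w^|A| H dS (∑ Gx - α)`;
for `B ω A` the bracket is at most `β₀ + β₁ |A|`, `|A| = ∑_{C ⊆ A} |C|`, for the other `A` at most `N / (1 - w)`, `H ≤ h`. -/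
def S_RECL : Prop := ∀ (V : Type) [Fintype V] [DecidableEq V] (e : ℕ → V × V) (n : ℕ) (δ w : ℝ)
  (H : Finset (Finset V) → ℝ) (B : (ℕ → Bool) → Finset V → Prop) (α β₀ β₁ h : ℝ), 0 ≤ δ → δ ≤ 1 →
  0 ≤ w → w < 1 → (∀ J, 0 ≤ H J ∧ H J ≤ h) → 0 ≤ α → α ≤ (Fintype.card V : ℝ) / (1 - w) →
  0 ≤ β₀ → 0 ≤ β₁ →
  (∀ ω A, B ω A →
    |∑ x ∈ univ \ A, Gx w (univ \ A) (TT e ω A δ n) x - α| ≤ β₀ + β₁ * A.card) →
  |EE n δ (fun ω => sb w H (gp e ω n)) -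
    α * EE n δ (fun ω => mk (ι := Finset V) card w (cycs (gp e ω n)) H)| ≤
    β₀ * EE n δ (fun ω => mk (ι := Finset V) card w (cycs (gp e ω n)) H) +
    β₁ * EE n δ (fun ω => mk (ι := Finset V) card w (cycs (gp e ω n))
      (fun J => (∑ C ∈ J, (C.card : ℝ)) * H J)) +
    h * (Fintype.card V : ℝ) / (1 - w) * PW e n δ w (fun ω A => ¬ B ω A)

/-- mean number of marked loops of the free walk -/
noncomputable def al (d L : ℕ) [NeZero L] (t w : ℝ) (k₀ : ℕ) : ℝ :=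
  ∑ k ∈ range k₀, w ^ (k + 1) * ∑ x : Fin d → ZMod L, hop (nnRate d L) (((k : ℝ) + 1) * t) x x

/-- STL. One step for stirring.
Proof. `K = ⌊t⌋` (`K ≤ t ≤ 2 K`), CIL with `p = 4`, RECL with `α = ∑_{k < k₀} w^(k+1) tr PP^(k+1)`,
`1/(1-w)² ≤ t^(1/16)`, `β₁ = (1/(1-w))² K^(-1/8) ≤ 2 t^(-1/16)`, `β₀ = β₁ L^d / K + L^d w^k₀/(1-w)`; the hypothesis
`(log L)^m₀ ≤ L^d (1 - w)` because `1 - w ≥ t^(-1/32) ≥ L^(-d/32)` and `L` is large (`T ≤ t ≤ L^d`). The last term is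
`≤ h N² (N^(-4)) ≤ h / N`. Limit `q → ∞` with TRO as in `stir_lim` (Pool/Agent/H961/T2/B9.lean) and Stg.lean:
`Pool.Agent.Q297.LC.tro` for the functions of `g` (after division by a bound of their absolute value), and
`PP_pow`, `tro` for the traces. -/
def S_STL : Prop := ∀ d : ℕ, 2 ≤ d → ∃ (m : ℕ) (T : ℝ), 1 ≤ m ∧ 1 ≤ T ∧ ∀ (L : ℕ) [NeZero L]
  (t w h : ℝ) (k₀ : ℕ) (H : Finset (Finset (Fin d → ZMod L)) → ℝ), 3 ≤ L → T ≤ t →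
  (Real.log L) ^ m ≤ t → t ≤ (L : ℝ) ^ d → 0 ≤ w → w < 1 → 1 / (1 - w) ≤ t ^ (1 / 32 : ℝ) →
  (∀ J, 0 ≤ H J ∧ H J ≤ h) →
  |stirExp (nnRate d L) t (fun g => sb w H g) - al d L t w k₀ *
    stirExp (nnRate d L) t (fun g => mk (ι := Finset (Fin d → ZMod L)) card w (cycs g) H)| ≤
    (4 * t ^ (-(1 / 16) : ℝ) * ((L : ℝ) ^ d / t) + (L : ℝ) ^ d * w ^ k₀ / (1 - w)) *
      stirExp (nnRate d L) t (fun g => mk (ι := Finset (Fin d → ZMod L)) card w (cycs g) H) +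
    4 * t ^ (-(1 / 16) : ℝ) * stirExp (nnRate d L) t (fun g =>
      mk (ι := Finset (Fin d → ZMod L)) card w (cycs g) (fun J => (∑ C ∈ J, (C.card : ℝ)) * H J)) +
    h / (L : ℝ) ^ d

end Pool.Agent.H961.T4
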