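import Pool.Agent.H961.T3.Rec
import Pool.Agent.H961.T4.Stm

/-!
PN RECL: one step with error linear in the number of marked particles
-/

set_option autoImplicit false

namespace Pool.Agent.H961.T4.Reclh

open Finset Equiv Matrix Q292.LC Pool.Agent.H961.T2 Pool.Agent.H961.T3
  Pool.Agent.H961.T4 Filter Topology
open Pool.Agent.Q68.LC (EE_congr EE_const EE_add EE_smul EE_mono EE_succ SS SS_dg SS_pow SS_le)
open Pool.Agent.H961.T3.Rech (Gx_sum_bd)

variable {V : Type} [Fintype V] [DecidableEq V]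

/-- sums over invariant sets as sums over sets of cycles -/
private theorem sum_cyc (hCYC : S_CYC) (g : Perm V) (w : ℝ) (H : Finset (Finset V) → ℝ)
    (b : Finset V → ℝ) :
    ∑ A : Finset V, (if Inv g A then
      (∏ C ∈ (cycs g).filter (fun C => C ⊆ A), w ^ C.card) *
        H ((cycs g).filter fun C => C ⊆ A) * dS w (univ \ A) (pm g) * b A else 0) =
    ∑ J ∈ (cycs g).powerset, (∏ C ∈ J, w ^ C.card) * (∏ C ∈ cycs g \ J, (1 - w ^ C.card)) * H J *
      b (J.biUnion id) := by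
  obtain ⟨c1, c2, c3, c4, c5⟩ := hCYC V g
  rw [c1 (fun A => (∏ C ∈ (cycs g).filter (fun C => C ⊆ A), w ^ C.card) *
        H ((cycs g).filter fun C => C ⊆ A) * dS w (univ \ A) (pm g) * b A)]
  refine sum_congr rfl fun J hJ => ?_
  rw [mem_powerset] at hJ
  rw [(c2 J hJ).1, c4 w J hJ]
  ring

private theorem sum_card (hCYC : S_CYC) (g : Perm V) (w : ℝ) (b : Finset V → ℝ) :
    ∑ A : Finset V, (if Inv g A then
      (w ^ A.card * dS w (univ \ A) (pm g)) * b A else 0) =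
    ∑ J ∈ (cycs g).powerset, (∏ C ∈ J, w ^ C.card) * (∏ C ∈ cycs g \ J, (1 - w ^ C.card)) * 1 *
      b (J.biUnion id) := by
  obtain ⟨c1, c2, c3, c4, c5⟩ := hCYC V g
  rw [c1 (fun A => (w ^ A.card * dS w (univ \ A) (pm g)) * b A)]
  refine sum_congr rfl fun J hJ => ?_
  rw [mem_powerset] at hJ
  rw [c4 w J hJ, c3 J hJ, Finset.prod_pow_eq_pow_sum]
  ring

open Classical in
/-- **RECL** -/
theorem recl (hSTARG : S_STARG) (hCYC : S_CYC) (hMASS : S_MASS) : S_RECL := by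
  intro V _ _ e n δ w H B α β₀ β₁ hb hδ0 hδ1 hw0 hw1 hH hα hα' hβ₀ hβ₁ hG
  have h1w : 0 < 1 - w := by linarith
  have hstar := hSTARG V e n δ w H hδ0 hδ1 hw0 hw1
  have hhb : 0 ≤ hb := (hH ∅).1.trans (hH ∅).2
  obtain ⟨M, hM⟩ : ∃ M : ℝ, M = (Fintype.card V : ℝ) / (1 - w) := ⟨_, rfl⟩
  have hM0 : 0 ≤ M := by rw [hM]; positivity
  obtain ⟨G, hGd⟩ : ∃ G : (ℕ → Bool) → Finset V → ℝ, G = fun ω A =>
    ∑ x ∈ univ \ A, Gx w (univ \ A) (TT e ω A δ n) x := ⟨_, rfl⟩
  -- the weights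
  obtain ⟨p, hp⟩ : ∃ p : (ℕ → Bool) → Finset V → ℝ, p = fun ω A =>
    ∏ C ∈ (cycs (gp e ω n)).filter (fun C => C ⊆ A), w ^ C.card := ⟨_, rfl⟩
  obtain ⟨h, hh⟩ : ∃ h : (ℕ → Bool) → Finset V → ℝ, h = fun ω A =>
    H ((cycs (gp e ω n)).filter fun C => C ⊆ A) := ⟨_, rfl⟩
  obtain ⟨D, hD⟩ : ∃ D : (ℕ → Bool) → Finset V → ℝ, D = fun ω A =>
    dS w (univ \ A) (pm (gp e ω n)) := ⟨_, rfl⟩
  obtain ⟨S, hS⟩ : ∃ S : (ℕ → Bool) → ℝ, S = fun ω => ∑ A : Finset V,
    (if Inv (gp e ω n) A then (w ^ A.card * dS w (univ \ A) (pm (gp e ω n))) *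
      (if B ω A then 0 else 1) else 0) := ⟨_, rfl⟩
  have hp0 : ∀ ω A, 0 ≤ p ω A := fun ω A => by
    rw [hp]
    exact Finset.prod_nonneg fun C _ => pow_nonneg hw0 _
  have hD0 : ∀ ω A, 0 ≤ D ω A := fun ω A => by
    rw [hD]
    exact (Pool.Agent.Q153.LC.p4 V (gp e ω n) 1 w (univ \ A) hw0 hw1).1.1.le
  have hG0 : ∀ ω A, 0 ≤ G ω A ∧ G ω A ≤ M := by
    intro ω A
    obtain ⟨b1, b2, -⟩ := Pool.Agent.Q68.LC.bas2 V e ω A δ hδ0 hδ1
    rw [hGd, hM]
    exact Gx_sum_bd w (univ \ A) _ ⟨fun x y => b1 n x y, fun x => (b2 n x).le⟩ hw0 hw1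
  have hPW : PW e n δ w (fun ω A => ¬ B ω A) = EE n δ S := by
    rw [hS]
    unfold PW
    congr 1
    funext ω
    refine sum_congr rfl fun A _ => ?_
    by_cases h1 : Inv (gp e ω n) A <;> by_cases h2 : B ω A <;> simp [h1, h2]
  -- the mean with the marked cycles
  obtain ⟨m₁, hm₁⟩ : ∃ m₁ : (ℕ → Bool) → ℝ, m₁ = fun ω =>
    mk (ι := Finset V) card w (cycs (gp e ω n)) H := ⟨_, rfl⟩
  obtain ⟨m₂, hm₂⟩ : ∃ m₂ : (ℕ → Bool) → ℝ, m₂ = fun ω =>
    mk (ι := Finset V) card w (cycs (gp e ω n))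
      (fun J => (∑ C ∈ J, (C.card : ℝ)) * H J) := ⟨_, rfl⟩
  have hmk : ∀ ω, m₁ ω =
      ∑ A : Finset V, (if Inv (gp e ω n) A then p ω A * h ω A * D ω A * 1 else 0) := by
    intro ω
    have h1 := sum_cyc hCYC (gp e ω n) w H (fun _ => 1)
    rw [hm₁, hp, hh, hD]
    rw [h1]
    unfold Pool.Agent.H961.T3.mk
    exact sum_congr rfl fun J _ => by ring
  have hmk2 : ∀ ω, m₂ ω =
      ∑ A : Finset V, (if Inv (gp e ω n) A then p ω A * h ω A * D ω A * (A.card : ℝ) else 0) := by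
    intro ω
    have h1 := sum_cyc hCYC (gp e ω n) w H (fun A => (A.card : ℝ))
    obtain ⟨c1, c2, c3, c4, c5⟩ := hCYC V (gp e ω n)
    rw [hm₂, hp, hh, hD]
    rw [h1]
    unfold Pool.Agent.H961.T3.mk
    refine sum_congr rfl fun J hJ => ?_
    rw [mem_powerset] at hJ
    rw [c3 J hJ]
    push_cast
    ring
  have hbad : ∀ ω, ∑ A : Finset V, (if Inv (gp e ω n) A then p ω A * 1 * D ω A *
      (if B ω A then 0 else 1) else 0) = S ω := by
    intro ω
    have h1 := sum_cyc hCYC (gp e ω n) w (fun _ => 1) (fun A => if B ω A then 0 else 1)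
    have h2 := sum_card hCYC (gp e ω n) w (fun A => if B ω A then 0 else 1)
    rw [hp, hD, hS]
    exact h1.trans h2.symm
  -- pointwise estimate
  have hpt : ∀ ω, |(∑ A : Finset V, if Inv (gp e ω n) A then p ω A * h ω A * D ω A * G ω A else 0) -
      α * m₁ ω| ≤ β₀ * m₁ ω + (β₁ * m₂ ω + hb * M * S ω) := by
    intro ω
    rw [hmk ω, hmk2 ω, mul_sum, ← sum_sub_distrib, ← hbad ω, mul_sum, mul_sum, mul_sum,
      ← sum_add_distrib, ← sum_add_distrib]
    refine (Finset.abs_sum_le_sum_abs _ _).trans (sum_le_sum fun A _ => ?_)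
    by_cases hi : Inv (gp e ω n) A
    · rw [if_pos hi, if_pos hi, if_pos hi, if_pos hi]
      have hh0 : 0 ≤ h ω A := by rw [hh]; exact (hH _).1
      have hh1 : h ω A ≤ hb := by rw [hh]; exact (hH _).2
      have hA0 : (0 : ℝ) ≤ A.card := Nat.cast_nonneg _
      have hGA : |G ω A - α| ≤ β₀ + β₁ * A.card + M * (if B ω A then 0 else 1) := by
        by_cases hb : B ω A
        · rw [if_pos hb, mul_zero, add_zero, hGd]
          exact hG ω A hb
        · rw [if_neg hb, mul_one, abs_le]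
          have h3 := hG0 ω A
          rw [← hM] at hα'
          have h4 : 0 ≤ β₁ * A.card := mul_nonneg hβ₁ hA0
          constructor <;> linarith
      have hpd : 0 ≤ p ω A * D ω A := mul_nonneg (hp0 ω A) (hD0 ω A)
      have e1 : p ω A * h ω A * D ω A * G ω A - α * (p ω A * h ω A * D ω A * 1) =
          (p ω A * D ω A * h ω A) * (G ω A - α) := by ring
      rw [e1, abs_mul, abs_of_nonneg (mul_nonneg hpd hh0)]
      have hind : (0 : ℝ) ≤ M * (if B ω A then 0 else 1) := by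
        refine mul_nonneg hM0 ?_
        split_ifs <;> norm_num
      calc (p ω A * D ω A * h ω A) * |G ω A - α|
          ≤ (p ω A * D ω A * h ω A) * (β₀ + β₁ * A.card + M * (if B ω A then 0 else 1)) :=
            mul_le_mul_of_nonneg_left hGA (mul_nonneg hpd hh0)
        _ = (p ω A * D ω A * h ω A) * (β₀ + β₁ * A.card) +
              (p ω A * D ω A) * (h ω A * (M * (if B ω A then 0 else 1))) := by ring
        _ ≤ (p ω A * D ω A * h ω A) * (β₀ + β₁ * A.card) +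
              (p ω A * D ω A) * (hb * (M * (if B ω A then 0 else 1))) := by
            have h5 := mul_le_mul_of_nonneg_left (mul_le_mul_of_nonneg_right hh1 hind) hpd
            linarith
        _ = _ := by ring
    · rw [if_neg hi, if_neg hi, if_neg hi, if_neg hi]
      simp
  have hst : EE n δ (fun ω => sb w H (gp e ω n)) = EE n δ (fun ω => ∑ A : Finset V,
      if Inv (gp e ω n) A then p ω A * h ω A * D ω A * G ω A else 0) := by
    rw [hstar, hp, hh, hD, hGd]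
  have e1 : EE n δ (fun ω => mk (ι := Finset V) card w (cycs (gp e ω n)) H) = EE n δ m₁ := by
    rw [hm₁]
  have e2 : EE n δ (fun ω => mk (ι := Finset V) card w (cycs (gp e ω n))
      (fun J => (∑ C ∈ J, (C.card : ℝ)) * H J)) = EE n δ m₂ := by
    rw [hm₂]
  have e3 : hb * (Fintype.card V : ℝ) / (1 - w) = hb * M := by rw [hM]; ring
  rw [hst, hPW, e1, e2, e3, abs_le]
  constructor
  · have h1 : EE n δ (fun ω => (α - β₀) * m₁ ω + ((-β₁) * m₂ ω + (-(hb * M)) * S ω)) ≤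
        EE n δ (fun ω => ∑ A : Finset V,
        if Inv (gp e ω n) A then p ω A * h ω A * D ω A * G ω A else 0) := by
      refine EE_mono hδ0 hδ1 fun ω => ?_
      have := (abs_le.1 (hpt ω)).1
      linarith
    rw [EE_add, EE_smul, EE_add, EE_smul, EE_smul] at h1
    linarith
  · have h1 : EE n δ (fun ω => ∑ A : Finset V,
        if Inv (gp e ω n) A then p ω A * h ω A * D ω A * G ω A else 0) ≤
        EE n δ (fun ω => (α + β₀) * m₁ ω + (β₁ * m₂ ω + (hb * M) * S ω)) := by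
      refine EE_mono hδ0 hδ1 fun ω => ?_
      have := (abs_le.1 (hpt ω)).2
      linarith
    rw [EE_add, EE_smul, EE_add, EE_smul, EE_smul] at h1
    linarith

end Pool.Agent.H961.T4.Reclh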