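import Pool.Agent.H961.T4.Stm2

/-!
UBP from UBQ (helper824)
-/

set_option autoImplicit false

namespace Pool.Agent.H961.T4.Ubph

open Finset Equiv Matrix Q292.LC Pool.Agent.H961.T2 Pool.Agent.H961.T3 Pool.Agent.H961.T4
open Pool.Agent.Y998.ST (stirExp nnRate qq hop cycleLen gk)

theorem ubp_exp (k : ℕ) (hk : 1 ≤ k) : ∃ t₂ : ℝ, ∀ t : ℝ, t₂ ≤ t → 1 ≤ t →
    t ^ (1 / 64 : ℝ) ≤ Real.exp (t ^ (1 / (2 * k) : ℝ)) := by
  have hk0 : (0 : ℝ) < k := by exact_mod_cast hk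
  have hs1 : (0 : ℝ) < 1 / (2 * k) := by positivity
  have hlim : Filter.Tendsto (fun t : ℝ => t ^ (1 / (2 * k) : ℝ)) Filter.atTop Filter.atTop :=
    tendsto_rpow_atTop hs1
  have h1 := Real.tendsto_pow_mul_exp_neg_atTop_nhds_zero (2 * k)
  have e1 : ∀ᶠ s : ℝ in Filter.atTop, s ^ (2 * k) * Real.exp (-s) < 1 :=
    h1.eventually_lt_const one_pos
  obtain ⟨t₂, ht₂⟩ := Filter.eventually_atTop.1 (hlim.eventually e1)
  refine ⟨t₂, fun t ht ht1 => ?_⟩
  have h2 := ht₂ t ht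
  have e : (t ^ (1 / (2 * k) : ℝ)) ^ (2 * k) = t := by
    have e3 : (1 / (2 * k) : ℝ) * ((2 * k : ℕ) : ℝ) = 1 := by
      push_cast
      field_simp
    rw [← Real.rpow_natCast, ← Real.rpow_mul (by linarith), e3, Real.rpow_one]
  rw [e, Real.exp_neg, ← div_eq_mul_inv, div_lt_one (Real.exp_pos _)] at h2
  calc t ^ (1 / 64 : ℝ) ≤ t ^ (1 : ℝ) := Real.rpow_le_rpow_of_exponent_le ht1 (by norm_num)
    _ = t := Real.rpow_one t
    _ ≤ _ := h2.le

theorem ubp (hUBQ : S_UBQ) : S_UBP := by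
  obtain ⟨C, T, m, hC, hT, h1⟩ := hUBQ
  obtain ⟨C₂, hC₂, h2⟩ := all_lcs 2 (by norm_num)
  obtain ⟨m', hm'⟩ : ∃ m' : ℕ, m' = m + 1 := ⟨_, rfl⟩
  have hm'1 : 1 ≤ m' := by omega
  have hm'0 : (0 : ℝ) < m' := by exact_mod_cast hm'1
  obtain ⟨t₁, ht₁, h3⟩ := tail_params 4 m' hm'1 C₂ hC₂
  obtain ⟨t₂, h4⟩ := ubp_exp m' hm'1
  refine ⟨C + 1, max T (max t₁ t₂), by linarith, hT.trans (le_max_left _ _), ?_⟩
  intro L _ t n htT htL hn hnt x
  have hTt : T ≤ t := (le_max_left _ _).trans htT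
  have ht1 : t₁ ≤ t := ((le_max_left _ _).trans (le_max_right _ _)).trans htT
  have ht2 : t₂ ≤ t := ((le_max_right _ _).trans (le_max_right _ _)).trans htT
  have ht3 : (3 : ℝ) ≤ t := hT.trans hTt
  have ht0 : 0 < t := by linarith
  have hn1 : (1 : ℝ) ≤ n := by exact_mod_cast hn
  have hlogn : 0 ≤ Real.log n := Real.log_natCast_nonneg n
  have hL0 : (0 : ℝ) < L := by exact_mod_cast Nat.pos_of_ne_zero (NeZero.ne L)
  have hbase : 1 / t ≤ (1 + Real.log n) / t :=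
    div_le_div_of_nonneg_right (by linarith) ht0.le
  have hbase0 : 0 ≤ 1 / t := by positivity
  -- the polylogarithmic case
  have hpoly : ∀ (L' : ℕ) [NeZero L'], (Real.log L') ^ m' ≤ t → T * t ≤ L' →
      ∀ x' : Fin 2 → ZMod L',
      stirExp (nnRate 2 L') t (fun g => if (cyc g x').card ≤ n then 1 else 0) ≤
      C * ((1 + Real.log n) / t) := by
    intro L' _ hlog htL' x'
    refine h1 L' t n hTt htL' ?_ hn hnt x'
    by_cases h : Real.log L' ≤ 1
    · have hlog0 : 0 ≤ Real.log L' := Real.log_natCast_nonneg L'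
      have : (Real.log L') ^ m ≤ 1 := pow_le_one₀ hlog0 h
      linarith
    · rw [not_le] at h
      refine le_trans ?_ hlog
      exact pow_le_pow_right₀ h.le (by omega)
  by_cases hbig : (Real.log L) ^ m' ≤ t
  · have h5 := hpoly L hbig ((mul_le_mul_of_nonneg_right (le_max_left _ _) ht0.le).trans htL) x
    have h6 : C * ((1 + Real.log n) / t) ≤ (C + 1) * ((1 + Real.log n) / t) :=
      mul_le_mul_of_nonneg_right (by linarith) (hbase0.trans hbase)
    exact h5.trans h6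
  · have hn2 : (n : ℝ) ≤ Real.exp (t ^ (1 / (2 * m') : ℝ)) := hnt.trans (h4 t ht2 (by linarith))
    obtain ⟨L₀, R₀, D, hL₀, hLe, hLge, hR, hD, hnt0, hnL0, herr⟩ := h3 t ht1 n hn hn2
    have : NeZero L₀ := ⟨hL₀⟩
    have hL00 : (1 : ℝ) ≤ L₀ := by exact_mod_cast Nat.one_le_iff_ne_zero.2 hL₀
    have hL₀p : (0 : ℝ) < L₀ := by linarith
    -- L₀ ≤ L
    have hLL : L₀ ≤ L := by
      rw [not_le] at hbig
      have hlog0 : 0 ≤ Real.log L := Real.log_natCast_nonneg L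
      have e1 : t ^ (1 / m' : ℝ) ≤ Real.log L := by
        have e2 : t ^ (1 / m' : ℝ) ≤ ((Real.log L) ^ m') ^ (1 / m' : ℝ) :=
          Real.rpow_le_rpow ht0.le hbig.le (by positivity)
        refine e2.trans (le_of_eq ?_)
        rw [← Real.rpow_natCast, ← Real.rpow_mul hlog0]
        rw [show (m' : ℝ) * (1 / m') = 1 by field_simp, Real.rpow_one]
      have e3 : (L₀ : ℝ) ≤ L := by
        calc (L₀ : ℝ) ≤ Real.exp (t ^ (1 / m' : ℝ)) := hLe
          _ ≤ Real.exp (Real.log L) := Real.exp_le_exp.2 e1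
          _ = L := Real.exp_log hL0
      exact_mod_cast e3
    have hlogL₀ : (Real.log L₀) ^ m' ≤ t := by
      have e1 : Real.log L₀ ≤ t ^ (1 / m' : ℝ) := by
        rw [← Real.log_exp (t ^ (1 / m' : ℝ))]
        exact Real.log_le_log (by linarith) hLe
      have e2 : (Real.log L₀) ^ m' ≤ (t ^ (1 / m' : ℝ)) ^ m' :=
        pow_le_pow_left₀ (Real.log_nonneg hL00) e1 m'
      refine e2.trans (le_of_eq ?_)
      rw [← Real.rpow_natCast, ← Real.rpow_mul ht0.le]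
      rw [show 1 / (m' : ℝ) * m' = 1 by field_simp, Real.rpow_one]
    have e4 : t ^ (-(((4 : ℕ) : ℝ) / 2)) = 1 / (t * t) := by
      have e5 : (-(((4 : ℕ) : ℝ) / 2)) = -((2 : ℕ) : ℝ) := by norm_num
      rw [e5, Real.rpow_neg ht0.le, Real.rpow_natCast, sq, one_div]
    rw [e4] at hnL0 herr
    have htt : 0 < t * t := by positivity
    have a1 : T * t ≤ L₀ := by
      have e5 : (1 : ℝ) / L₀ ≤ 1 / (t * t) := by
        refine le_trans ?_ hnL0
        exact div_le_div_of_nonneg_right hn1 hL₀p.le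
      have e6 : t * t ≤ L₀ := by
        rwa [div_le_div_iff_of_pos_left one_pos hL₀p htt] at e5
      exact (mul_le_mul_of_nonneg_right hTt ht0.le).trans e6
    have h5 := hpoly L₀ hlogL₀ a1 0
    have h6 := h2 L L₀ R₀ hR hLL t n D (by linarith) hD x 0
    have h7 : C₂ * (2 * (R₀ : ℝ) + 1) ^ 2 * t * Real.exp (-(D / t)) ≤ 1 / t := by
      have e5 : (2 * (R₀ : ℝ) + 1) ^ 2 ≤ (2 * (R₀ : ℝ) + 1) ^ 4 := by
        have : (0 : ℝ) ≤ R₀ := Nat.cast_nonneg _
        exact pow_le_pow_right₀ (by linarith) (by norm_num)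
      calc C₂ * (2 * (R₀ : ℝ) + 1) ^ 2 * t * Real.exp (-(D / t))
          ≤ C₂ * (2 * (R₀ : ℝ) + 1) ^ 4 * t * Real.exp (-(D / t)) := by gcongr
        _ ≤ 1 / (t * t) := herr
        _ ≤ 1 / t := by
            apply one_div_le_one_div_of_le ht0
            nlinarith
    calc stirExp (nnRate 2 L) t (fun g => if (cyc g x).card ≤ n then 1 else 0)
        ≤ C * ((1 + Real.log n) / t) + 1 / t := by linarith
      _ ≤ C * ((1 + Real.log n) / t) + (1 + Real.log n) / t := by linarith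
      _ = (C + 1) * ((1 + Real.log n) / t) := by ring

end Pool.Agent.H961.T4.Ubph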