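import Pool.Agent.H961.T3.All3
import Pool.Agent.H961.T4.Duf
import Pool.Agent.H961.T4.Grd
import Pool.Agent.H961.T4.Cws
import Pool.Agent.H961.T4.Hsb
import Pool.Agent.H961.T4.Trh
import Pool.Agent.H961.T4.Ent
import Pool.Agent.H961.T4.Eng
import Pool.Agent.H961.T4.Cil
import Pool.Agent.H961.T4.Recl
import Pool.Agent.H961.T4.Stl
import Pool.Agent.H961.T4.Mks
import Pool.Agent.H961.T4.Alp
import Pool.Agent.H961.T4.Mo1
import Pool.Agent.H961.T4.Ubq
import Pool.Agent.H961.T4.Ubp
import Pool.Agent.H961.T4.Nmp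

/-!
# Project PN: assembly, the number of cycles in the plane
-/

set_option autoImplicit false

namespace Pool.Agent.H961.T4

open Finset Equiv Matrix Q292.LC Pool.Agent.H961.T2 Pool.Agent.H961.T3

theorem all_hsb : S_HSB := Hsbh.hsb Dufh.duf Grdh.grd Cwsh.cws

theorem all_ent : S_ENT := Enth.ent all_hsb Trhh.trh Kph.kp

theorem all_cil : S_CIL := Cilh.cil (Engh.eng all_ent)

theorem all_stl : S_STL :=
  Stlh.stl (Reclh.recl (Stargh.starg MassDomh.mass all_cyc) all_cyc MassDomh.mass) all_cil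

theorem all_mks : S_MKS := Mksh.mks all_cyc MassDomh.mass

theorem all_mo1 : S_MO1 := Mo1h.mo1 all_stl Alph.alp all_mks

theorem all_nmp : S_NMP := Nmph.nmp (Ubph.ubp (Ubqh.ubq all_mo1))

end Pool.Agent.H961.T4
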