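import Pool.Agent.H961.T4.Stm3
import Pool.Agent.H961.T3.Cip

/-!
# Project PN (helper961): CIM, good environments, several laps (helper881)
-/

set_option autoImplicit false

namespace Pool.Agent.H961.T4.Cimh

open Finset Equiv Matrix Q292.LC Pool.Agent.H961.T2 Pool.Agent.H961.T3 Pool.Agent.H961.T4
open Pool.Agent.H961.T3.Ciph.Cip (params_cip)

/-- CIM -/
theorem cim (hENH : S_ENH) : S_CIM := by
  intro d hd η hη
  obtain ⟨C₁, m₁, hC₁, hB⟩ := Q295.PL.all_btt d hd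
  obtain ⟨C₂, m₂, hC₂, hE⟩ := hENH d hd
  obtain ⟨mm, hmm⟩ : ∃ mm : ℕ, mm = m₁ + m₂ + 2 := ⟨_, rfl⟩
  obtain ⟨m', hmm1, hpar0⟩ := params_cip d C₁ C₂ m₁ mm hd hC₁ (by omega)
  obtain ⟨m, hm⟩ : ∃ m : ℕ, m = m' + ⌈(m' : ℝ) / η⌉₊ := ⟨_, rfl⟩
  refine ⟨m, fun p => ?_⟩
  obtain ⟨T, hpar⟩ := hpar0 p
  refine ⟨T, ?_⟩
  intro L K _ hL3 hmK hKK hlog
  have hKL : K ≤ L ^ d := (Nat.le_mul_self K).trans hKK
  have hlog1 : 1 ≤ Real.log L := by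
    have h1 : (1 : ℝ) ≤ Real.log 3 := by
      rw [Real.le_log_iff_exp_le (by norm_num)]
      exact (Real.exp_one_lt_d9.trans (by norm_num)).le
    refine h1.trans (Real.log_le_log (by norm_num) ?_)
    exact_mod_cast hL3
  have hpow : (Real.log L) ^ m' ≤ (Real.log L) ^ m := pow_le_pow_right₀ hlog1 (by omega)
  obtain ⟨Z, z1, z2, z3, z4, z5, z6, z7, hK1, z8⟩ := hpar L K hmK hKL (hpow.trans hlog)
  have hKr : (1 : ℝ) ≤ K := by exact_mod_cast hK1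
  have hKη : (Real.log L) ^ m' ≤ (K : ℝ) ^ η := by
    have h1 : ((m' : ℕ) : ℝ) ≤ (m : ℝ) * η := by
      have h2 : (m' : ℝ) / η ≤ ⌈(m' : ℝ) / η⌉₊ := Nat.le_ceil _
      have h3 : (⌈(m' : ℝ) / η⌉₊ : ℝ) ≤ m := by
        rw [hm]
        push_cast
        have : (0 : ℝ) ≤ m' := Nat.cast_nonneg _
        linarith
      have h4 : (m' : ℝ) / η ≤ m := h2.trans h3
      rwa [div_le_iff₀ hη] at h4
    calc (Real.log L) ^ m' = (Real.log L) ^ ((m' : ℕ) : ℝ) := (Real.rpow_natCast _ _).symm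
      _ ≤ (Real.log L) ^ ((m : ℝ) * η) := Real.rpow_le_rpow_of_exponent_le hlog1 h1
      _ = ((Real.log L) ^ m) ^ η := by
          rw [Real.rpow_mul (by linarith), Real.rpow_natCast]
      _ ≤ (K : ℝ) ^ η := Real.rpow_le_rpow (by positivity) hlog hη.le
  have w1 : Z ^ m₁ ≤ Z ^ mm := Nat.pow_le_pow_right (by omega) (by omega)
  have w2 : Z ^ m₂ + Z ≤ Z ^ mm := by
    have e1 : 1 ≤ Z ^ m₂ := Nat.one_le_pow _ _ (by omega)
    have e2 : Z ^ (m₂ + 2) ≤ Z ^ mm := Nat.pow_le_pow_right (by omega) (by omega)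
    have e3 : Z ^ (m₂ + 2) = Z * (Z * Z ^ m₂) := by ring
    have e4 : Z ^ m₂ ≤ Z * Z ^ m₂ := Nat.le_mul_of_pos_left _ (by omega)
    have e5 : Z ≤ Z * Z ^ m₂ := Nat.le_mul_of_pos_right _ (by omega)
    have e6 : 2 * (Z * Z ^ m₂) ≤ Z * (Z * Z ^ m₂) := Nat.mul_le_mul_right _ (by omega)
    omega
  obtain ⟨q1, hq1⟩ := hB Z (by omega) L K Z (Z ^ mm) Z ((Z - 1) / 2) le_rfl le_rfl (by omega)
    w1 (by omega) (by omega) hKL
  obtain ⟨q2, hq2⟩ := hE Z (by omega) L K Z (Z ^ mm - Z) Z (2 * ((Z - 1) / 2) + 1) le_rfl le_rfl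
    (by omega) (by omega) (by omega) (by omega) hKK
  refine ⟨q1 + q2 + 2, fun q hq σ hσ δ h1 h2 => ?_⟩
  refine ⟨fun ω A => Gd σ q K Z (Z ^ mm) Z (2 * ((Z - 1) / 2)) ω A, ?_, ?_⟩
  · intro ω A hG hInv w hw0 hw1 k₀ hk₀
    have hEv : Ev σ q K Z (Z ^ mm - Z) Z (2 * ((Z - 1) / 2) + 1) ω A := by
      refine Pool.Agent.Q277.LC.ge d L z6 σ hσ q K Z (Z ^ mm - Z) Z (2 * ((Z - 1) / 2)) ω A
        (by omega) hK1 ?_
      have : Z ^ mm - Z + Z = Z ^ mm := by omega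
      rw [this]
      exact hG
    refine (hq2 q (by omega) σ hσ δ h1 h2 ω A hEv hInv w hw0 hw1 k₀ hk₀).trans ?_
    have hZm : (Z : ℝ) ^ m₂ ≤ (K : ℝ) ^ η := by
      refine le_trans ?_ (z7.trans hKη)
      have hZ1 : (1 : ℝ) ≤ Z := by
        have : 1 ≤ Z := by omega
        exact_mod_cast this
      exact pow_le_pow_right₀ hZ1 (by omega)
    have h3 : 0 ≤ (A.card : ℝ) + (L : ℝ) ^ d / K := by positivity
    have h4 : (0 : ℝ) ≤ (1 / (1 - w)) ^ (1 / 4 : ℝ) := by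
      apply Real.rpow_nonneg
      apply one_div_nonneg.mpr
      linarith
    have h5 : (K : ℝ) ^ (η - 1 / 4 : ℝ) = (K : ℝ) ^ η * (K : ℝ) ^ (-(1 / 4) : ℝ) := by
      rw [← Real.rpow_add (by linarith)]
      congr 1
    have h6 : (Z : ℝ) ^ m₂ * (K : ℝ) ^ (-(1 / 4) : ℝ) * ((A.card : ℝ) + (L : ℝ) ^ d / K) ≤
        (K : ℝ) ^ (η - 1 / 4 : ℝ) * ((A.card : ℝ) + (L : ℝ) ^ d / K) := by
      rw [h5]
      refine mul_le_mul_of_nonneg_right ?_ h3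
      exact mul_le_mul_of_nonneg_right hZm (Real.rpow_nonneg (by linarith) _)
    have h7 := mul_le_mul_of_nonneg_left h6 h4
    linarith
  · intro wb hw0 hw1 hwb
    obtain ⟨z9, z10⟩ := z8 wb hw0 hw1 (hpow.trans hwb) _ rfl
    obtain ⟨b1, -⟩ := hq1 q (by omega) σ hσ δ h1 h2 wb hw0 hw1 _ rfl z9
    exact b1.trans z10

end Pool.Agent.H961.T4.Cimh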