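import Pool.Agent.H961.T4.Stm4
import Pool.Graph.R_pool_sql_team_seeded_3997aac3.Q297.LC.Loc
import Pool.Graph.R_pool_sql_team_seeded_3997aac3.Q68.LC.Bas3

/-!
# Project PN, job COC: decorrelation of short cycles of distant points, circuits
-/

set_option autoImplicit false
set_option linter.unusedSectionVars false

namespace Pool.Agent.H961.T4.Coch

open Finset Equiv Matrix Q292.LC Pool.Agent.H961.T2 Pool.Agent.H961.T3 Pool.Agent.H961.T4

section dep

variable {d L : ℕ} [NeZero L] {σ : ℕ → (Fin d → ZMod L) × Fin d}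

/-- the cycle of `x` is short, and its trajectories stay in the ball around `x` -/
def Phi (σ : ℕ → (Fin d → ZMod L) × Fin d) (N R n : ℕ) (x : Fin d → ZMod L)
    (ω : ℕ → Bool) : Prop :=
  ∃ m, 1 ≤ m ∧ m ≤ n ∧ ((gp (ed ∘ σ) ω N) ^ m) x = x ∧
    ∀ i < m, ∀ k ≤ N, td x (gp (ed ∘ σ) ω k (((gp (ed ∘ σ) ω N) ^ i) x)) ≤ R

/-- the steps in the ball around `x` -/
def Sx (σ : ℕ → (Fin d → ZMod L) × Fin d) (N R : ℕ) (x : Fin d → ZMod L) : Finset ℕ :=
  (Finset.range N).filter fun k => td x (ed (σ k)).1 ≤ R + 1 ∧ td x (ed (σ k)).2 ≤ R + 1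

/-- the trajectories depend on the coins in the ball only -/
lemma traj (N R : ℕ) (x z : Fin d → ZMod L) (ω ω' : ℕ → Bool)
    (h : ∀ k ∈ Sx σ N R x, ω k = ω' k) :
    ∀ k ≤ N, (∀ j < k, td x (gp (ed ∘ σ) ω j z) ≤ R) →
      gp (ed ∘ σ) ω' k z = gp (ed ∘ σ) ω k z := by
  intro k
  induction k with
  | zero =>
    intro _ _
    rfl
  | succ k ih =>
    intro hk hc
    have ih' := ih (by omega) fun j hj => hc j (by omega)
    rw [Pool.Agent.Q297.LC.gp_succ_apply, Pool.Agent.Q297.LC.gp_succ_apply, ih']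
    have hy := hc k (by omega)
    by_cases hS : k ∈ Sx σ N R x
    · rw [h k hS]
    · have hn : gp (ed ∘ σ) ω k z ≠ (ed (σ k)).1 ∧ gp (ed ∘ σ) ω k z ≠ (ed (σ k)).2 := by
        have hed := Pool.Agent.Q151.LC.td_ed (σ k)
        have hed2 : td (ed (σ k)).2 (ed (σ k)).1 ≤ 1 := by
          rw [Pool.Agent.Q151.LC.td_comm]
          exact hed
        constructor
        · intro h1
          rw [h1] at hy
          apply hS
          refine Finset.mem_filter.2 ⟨Finset.mem_range.2 (by omega), by omega, ?_⟩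
          have := Pool.Agent.Q151.LC.td_tri x (ed (σ k)).1 (ed (σ k)).2
          omega
        · intro h1
          rw [h1] at hy
          apply hS
          refine Finset.mem_filter.2 ⟨Finset.mem_range.2 (by omega), ?_, by omega⟩
          have := Pool.Agent.Q151.LC.td_tri x (ed (σ k)).2 (ed (σ k)).1
          omega
      have hsw : swap ((ed ∘ σ) k).1 ((ed ∘ σ) k).2 (gp (ed ∘ σ) ω k z) =
          gp (ed ∘ σ) ω k z := swap_apply_of_ne_of_ne hn.1 hn.2
      rw [hsw]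
      split_ifs
      · rfl
      · rfl
      · rfl
      · rfl

lemma phi_dep (N R n : ℕ) (x : Fin d → ZMod L) (ω ω' : ℕ → Bool)
    (h : ∀ k ∈ Sx σ N R x, ω k = ω' k) (hΦ : Phi σ N R n x ω) : Phi σ N R n x ω' := by
  obtain ⟨m, h1, h2, h3, h4⟩ := hΦ
  have hg : ∀ i ≤ m, ((gp (ed ∘ σ) ω' N) ^ i) x = ((gp (ed ∘ σ) ω N) ^ i) x := by
    intro i
    induction i with
    | zero =>
      intro _
      rfl
    | succ i ih =>
      intro hi
      rw [pow_succ', pow_succ', Perm.mul_apply, Perm.mul_apply, ih (by omega)]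
      exact traj N R x _ ω ω' h N le_rfl fun j hj => h4 i (by omega) j hj.le
  refine ⟨m, h1, h2, ?_, fun i hi k hk => ?_⟩
  · rw [hg m le_rfl, h3]
  · rw [hg i hi.le, traj N R x _ ω ω' h k hk fun j hj => h4 i hi j (by omega)]
    exact h4 i hi k hk

lemma phi_card (N R n : ℕ) (x : Fin d → ZMod L) (ω : ℕ → Bool) (h : Phi σ N R n x ω) :
    (cyc (gp (ed ∘ σ) ω N) x).card ≤ n := by
  obtain ⟨m, h1, h2, h3, -⟩ := h
  exact (Pool.Agent.Q297.LC.card_cyc_le _ _ m h1 h3).trans h2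

lemma card_phi (N R n D : ℕ) (hn : n * D ≤ R) (x : Fin d → ZMod L) (ω : ℕ → Bool)
    (hc : (cyc (gp (ed ∘ σ) ω N) x).card ≤ n)
    (hj : ∀ z ∈ bal x R, jumps (ed ∘ σ) ω 0 N z ≤ D) : Phi σ N R n x ω := by
  obtain ⟨m, h1, h2, h3⟩ := Pool.Agent.Q297.LC.exists_ret (gp (ed ∘ σ) ω N) x
  have hmn : m ≤ n := h2.trans hc
  have hA : ∀ i < m, td x (((gp (ed ∘ σ) ω N) ^ i) x) ≤ i * D → ∀ k ≤ N,
      td x (gp (ed ∘ σ) ω k (((gp (ed ∘ σ) ω N) ^ i) x)) ≤ (i + 1) * D := by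
    intro i hi hd k hk
    have h4 : (i : ℕ) * D ≤ n * D := Nat.mul_le_mul_right _ (by omega)
    have h5 : ((gp (ed ∘ σ) ω N) ^ i) x ∈ bal x R :=
      Pool.Agent.Q151.LC.mem_bal.2 (by omega)
    have h6 := hj _ h5
    have h7 := Pool.Agent.Q151.LC.td_jumps σ ω 0 k (((gp (ed ∘ σ) ω N) ^ i) x)
    rw [zero_add] at h7
    have h8 := Pool.Agent.Q151.LC.jumps_mono (ed ∘ σ) ω (((gp (ed ∘ σ) ω N) ^ i) x)
      (i := 0) (j := k) (i' := 0) (j' := N) le_rfl hk
    have h9 : gp (ed ∘ σ) ω 0 (((gp (ed ∘ σ) ω N) ^ i) x) = ((gp (ed ∘ σ) ω N) ^ i) x := rfl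
    rw [h9, Pool.Agent.Q151.LC.td_comm] at h7
    have h10 := Pool.Agent.Q151.LC.td_tri x (((gp (ed ∘ σ) ω N) ^ i) x)
      (gp (ed ∘ σ) ω k (((gp (ed ∘ σ) ω N) ^ i) x))
    have h11 : (i + 1) * D = i * D + D := by ring
    omega
  have hB : ∀ i ≤ m, td x (((gp (ed ∘ σ) ω N) ^ i) x) ≤ i * D := by
    intro i
    induction i with
    | zero =>
      intro _
      rw [pow_zero, Perm.one_apply, Pool.Agent.Q151.LC.td_self]
      exact Nat.zero_le _
    | succ i ih =>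
      intro hi
      have h4 := hA i (by omega) (ih (by omega)) N le_rfl
      rw [pow_succ', Perm.mul_apply]
      exact h4
  refine ⟨m, h1, hmn, h3, fun i hi k hk => ?_⟩
  have h7 := hA i hi (hB i hi.le) k hk
  have h8 : (i + 1) * D ≤ n * D := Nat.mul_le_mul_right _ (by omega)
  omega

lemma disj (N R : ℕ) {x y : Fin d → ZMod L} (hxy : 2 * R + 3 < td x y) {k : ℕ}
    (h1 : k ∈ Sx σ N R x) (h2 : k ∈ Sx σ N R y) : False := by
  have h3 := (Finset.mem_filter.1 h1).2.1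
  have h4 := (Finset.mem_filter.1 h2).2.1
  have h5 := Pool.Agent.Q151.LC.td_tri x (ed (σ k)).1 y
  have h6 := Pool.Agent.Q151.LC.td_comm (ed (σ k)).1 y
  omega

end dep

open Classical in
theorem coc (hEEI : S_EEI) : S_COC := by
  intro d L R₀ _ hd hL σ hσ s n D δ h0 hδ hn x y hxy
  set N := s * ms d L with hN
  have hF : ∀ ω ω' : ℕ → Bool, (∀ k ∈ Sx σ N R₀ x, ω k = ω' k) →
      (if Phi σ N R₀ n x ω then (1 : ℝ) else 0) = if Phi σ N R₀ n x ω' then 1 else 0 := by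
    intro ω ω' h
    have h1 : Phi σ N R₀ n x ω ↔ Phi σ N R₀ n x ω' :=
      ⟨phi_dep N R₀ n x ω ω' h, phi_dep N R₀ n x ω' ω fun k hk => (h k hk).symm⟩
    by_cases h2 : Phi σ N R₀ n x ω
    · rw [if_pos h2, if_pos (h1.1 h2)]
    · rw [if_neg h2, if_neg (mt h1.2 h2)]
  have hG : ∀ ω ω' : ℕ → Bool, (∀ k, k ∉ Sx σ N R₀ x → ω k = ω' k) →
      (if Phi σ N R₀ n y ω then (1 : ℝ) else 0) = if Phi σ N R₀ n y ω' then 1 else 0 := by
    intro ω ω' h
    have h' : ∀ k ∈ Sx σ N R₀ y, ω k = ω' k := fun k hk => h k fun hk' => disj N R₀ hxy hk' hk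
    have h1 : Phi σ N R₀ n y ω ↔ Phi σ N R₀ n y ω' :=
      ⟨phi_dep N R₀ n y ω ω' h', phi_dep N R₀ n y ω' ω fun k hk => (h' k hk).symm⟩
    by_cases h2 : Phi σ N R₀ n y ω
    · rw [if_pos h2, if_pos (h1.1 h2)]
    · rw [if_neg h2, if_neg (mt h1.2 h2)]
  have key := hEEI N δ (Sx σ N R₀ x) (fun ω => if Phi σ N R₀ n x ω then (1 : ℝ) else 0)
    (fun ω => if Phi σ N R₀ n y ω then (1 : ℝ) else 0) hF hG
  have i1 : ∀ v : Fin d → ZMod L, EE N δ (fun ω => if Phi σ N R₀ n v ω then (1 : ℝ) else 0) ≤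
      EE N δ (fun ω => if (cyc (gp (ed ∘ σ) ω N) v).card ≤ n then 1 else 0) := by
    intro v
    refine Pool.Agent.Q68.LC.EE_mono h0 hδ fun ω => ?_
    by_cases h : Phi σ N R₀ n v ω
    · rw [if_pos h, if_pos (phi_card N R₀ n v ω h)]
    · rw [if_neg h]
      split_ifs <;> norm_num
  have i0 : ∀ v : Fin d → ZMod L,
      0 ≤ EE N δ (fun ω => if Phi σ N R₀ n v ω then (1 : ℝ) else 0) := by
    intro v
    have h1 := Pool.Agent.Q68.LC.EE_mono (n := N) h0 hδ (F := fun _ => (0 : ℝ))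
      (G := fun ω => if Phi σ N R₀ n v ω then (1 : ℝ) else 0) fun ω => by
        split_ifs <;> norm_num
    rw [Pool.Agent.Q68.LC.EE_const] at h1
    exact h1
  have i2 : EE N δ (fun ω => if (cyc (gp (ed ∘ σ) ω N) x).card ≤ n ∧
        (cyc (gp (ed ∘ σ) ω N) y).card ≤ n then 1 else 0) ≤
      EE N δ (fun ω => (if Phi σ N R₀ n x ω then (1 : ℝ) else 0) *
        (if Phi σ N R₀ n y ω then (1 : ℝ) else 0) +
        (if ∃ z ∈ bal x R₀ ∪ bal y R₀, D < jumps (ed ∘ σ) ω 0 N z then 1 else 0)) := by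
    refine Pool.Agent.Q68.LC.EE_mono h0 hδ fun ω => ?_
    by_cases h : (cyc (gp (ed ∘ σ) ω N) x).card ≤ n ∧ (cyc (gp (ed ∘ σ) ω N) y).card ≤ n
    · rw [if_pos h]
      by_cases h' : ∃ z ∈ bal x R₀ ∪ bal y R₀, D < jumps (ed ∘ σ) ω 0 N z
      · rw [if_pos h']
        split_ifs <;> norm_num
      · push Not at h'
        have h1 : Phi σ N R₀ n x ω := card_phi N R₀ n D hn x ω h.1 fun z hz =>
          h' z (Finset.mem_union_left _ hz)
        have h2 : Phi σ N R₀ n y ω := card_phi N R₀ n D hn y ω h.2 fun z hz =>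
          h' z (Finset.mem_union_right _ hz)
        rw [if_pos h1, if_pos h2]
        split_ifs <;> norm_num
    · rw [if_neg h]
      split_ifs <;> norm_num
  rw [Pool.Agent.Q68.LC.EE_add, key] at i2
  refine i2.trans ?_
  have h3 := mul_le_mul (i1 x) (i1 y) (i0 y) ((i0 x).trans (i1 x))
  linarith

end Pool.Agent.H961.T4.Coch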