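import Pool.Agent.H961.T4.Stm4
import Pool.Graph.R_pool_sql_team_seeded_3997aac3.Q297.LC.Lcs
import Pool.Graph.R_pool_sql_team_seeded_3997aac3.Q66.LC.Jmp

/-!
# Project PN, job COV (helper97): decorrelation of short cycles of distant points, stirring
-/

set_option autoImplicit false

namespace Pool.Agent.H961.T4.Covh

open Finset Equiv Matrix Q292.LC Pool.Agent.H961.T2 Pool.Agent.H961.T3 Pool.Agent.H961.T4
open Pool.Agent.Q297.LC (jumps_units tro exists_Per)
open Pool.Agent.Y998.ST (stirExp nnRate qq hop cycleLen gk nn_nonneg)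

open Classical in
/-- the number of jumps of the particles of a finite set -/
lemma jumps_set {d : ℕ} {Cj : ℝ} (hCj : 1 ≤ Cj)
    (hJ : ∀ (L : ℕ) [NeZero L], 3 ≤ L →
      ∀ σ : ℕ → (Fin d → ZMod L) × Fin d, Per σ → ∀ (q K j ρ : ℕ) (δ : ℝ) (x : Fin d → ZMod L),
      0 < δ → Cj * δ ≤ 1 → δ * q ≤ 2 → j < K →
      EE (K * (q * ms d L)) δ (fun ω => if ρ < jumps (ed ∘ σ) ω (j * (q * ms d L))
        ((j + 1) * (q * ms d L)) x then 1 else 0) ≤ Cj * Real.exp (-(ρ : ℝ)))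
    {L : ℕ} [NeZero L] (hL3 : 3 ≤ L) {σ : ℕ → (Fin d → ZMod L) × Fin d} (hσ : Per σ)
    {t δ : ℝ} (q K D : ℕ) (hK1 : 1 ≤ K) (hKt : (K : ℝ) ≤ t) (a0 : 0 < δ) (a3 : δ ≤ 1)
    (a4 : Cj * δ ≤ 1) (a2 : δ * q ≤ 2) (A : Finset (Fin d → ZMod L)) :
    EE (K * q * ms d L) δ (fun ω => if ∃ y ∈ A,
        D < jumps (ed ∘ σ) ω 0 (K * q * ms d L) y then (1 : ℝ) else 0) ≤
      A.card * t * (Cj * (Real.exp 1 * Real.exp (-(D / t)))) := by
  have hK1' : (1 : ℝ) ≤ K := by exact_mod_cast hK1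
  have hKpos : (0 : ℝ) < K := by linarith
  have c1 : ∀ ω : ℕ → Bool, (if ∃ y ∈ A,
      D < jumps (ed ∘ σ) ω 0 (K * q * ms d L) y then (1 : ℝ) else 0) ≤
      ∑ p ∈ A ×ˢ Finset.range K,
        (if D / K < jumps (ed ∘ σ) ω (p.2 * (q * ms d L)) ((p.2 + 1) * (q * ms d L)) p.1
          then (1 : ℝ) else 0) := by
    intro ω
    split_ifs with h
    · obtain ⟨y, hy, hyD⟩ := h
      have c2 : ∃ j < K, D / K < jumps (ed ∘ σ) ω (j * (q * ms d L))
          ((j + 1) * (q * ms d L)) y := by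
        by_contra hcon
        push Not at hcon
        have c3 := jumps_units (ed ∘ σ) ω (q * ms d L) y (D / K) K hcon
        have c4 : K * (D / K) ≤ D := Nat.mul_div_le D K
        rw [← Nat.mul_assoc] at c3
        omega
      obtain ⟨j, hj, hjD⟩ := c2
      have c5 := Finset.single_le_sum (f := fun p : (Fin d → ZMod L) × ℕ =>
        (if D / K < jumps (ed ∘ σ) ω (p.2 * (q * ms d L)) ((p.2 + 1) * (q * ms d L)) p.1
          then (1 : ℝ) else 0)) (s := A ×ˢ Finset.range K)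
        (fun p _ => by split_ifs <;> norm_num) (a := (y, j))
        (Finset.mem_product.2 ⟨hy, Finset.mem_range.2 hj⟩)
      simp only [if_pos hjD] at c5
      exact c5
    · exact Finset.sum_nonneg fun p _ => by split_ifs <;> norm_num
  refine (Pool.Agent.Q68.LC.EE_mono a0.le a3 c1).trans ?_
  rw [Pool.Agent.Q277.LC.EE_sum]
  have c6 : ∀ p ∈ A ×ˢ Finset.range K,
      EE (K * q * ms d L) δ (fun ω => if D / K < jumps (ed ∘ σ) ω (p.2 * (q * ms d L))
        ((p.2 + 1) * (q * ms d L)) p.1 then (1 : ℝ) else 0) ≤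
        Cj * (Real.exp 1 * Real.exp (-(D / t))) := by
    intro p hp
    have hpK := Finset.mem_range.1 (Finset.mem_product.1 hp).2
    have c7 := hJ L hL3 σ hσ q K p.2 (D / K) δ p.1 a0 a4 a2 hpK
    rw [Nat.mul_assoc]
    refine c7.trans (mul_le_mul_of_nonneg_left ?_ (by linarith))
    rw [← Real.exp_add, Real.exp_le_exp]
    have c8 : (D : ℝ) < K * ((D / K : ℕ) : ℝ) + K := by
      have : D < K * (D / K) + K := by
        have e1 := Nat.div_add_mod D K
        have e2 := Nat.mod_lt D hK1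
        omega
      exact_mod_cast this
    have c9 : (D : ℝ) / K < ((D / K : ℕ) : ℝ) + 1 := by
      rw [div_lt_iff₀ hKpos]; linarith
    have c10 : (D : ℝ) / t ≤ D / K :=
      div_le_div_of_nonneg_left (Nat.cast_nonneg D) hKpos hKt
    linarith
  refine (Finset.sum_le_card_nsmul _ _ _ c6).trans ?_
  rw [Finset.card_product, Finset.card_range, nsmul_eq_mul]
  push_cast
  refine mul_le_mul_of_nonneg_right ?_ (by positivity)
  exact mul_le_mul_of_nonneg_left hKt (by positivity)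

lemma bal_union {d L : ℕ} [NeZero L] (x y : Fin d → ZMod L) (R₀ : ℕ) :
    (((bal x R₀ ∪ bal y R₀).card : ℕ) : ℝ) ≤ 2 * (2 * R₀ + 1) ^ d := by
  have h1 : ((bal x R₀).card : ℝ) ≤ (2 * R₀ + 1) ^ d := by
    exact_mod_cast Pool.Agent.Q277.LC.card_bal_le x R₀
  have h2 : ((bal y R₀).card : ℝ) ≤ (2 * R₀ + 1) ^ d := by
    exact_mod_cast Pool.Agent.Q277.LC.card_bal_le y R₀
  have h3 : (((bal x R₀ ∪ bal y R₀).card : ℕ) : ℝ) ≤ (bal x R₀).card + (bal y R₀).card := by
    exact_mod_cast Finset.card_union_le _ _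
  linarith

/-- the passage to the limit -/
lemma lim_real {Sxy Sx Sy B CL : ℝ} {q₀ : ℕ} (h0x : 0 ≤ Sx) (h1x : Sx ≤ 1)
    (h : ∀ q : ℕ, q₀ ≤ q → 2 ≤ q → ∃ Exy Ex Ey : ℝ, Exy ≤ Ex * Ey + B ∧ 0 ≤ Ey ∧ Ey ≤ 1 ∧
      |Exy - Sxy| ≤ CL / q ∧ |Ex - Sx| ≤ CL / q ∧ |Ey - Sy| ≤ CL / q) :
    Sxy ≤ Sx * Sy + B := by
  refine le_of_forall_pos_le_add fun ε hε => ?_
  obtain ⟨q₁, hq₁⟩ := exists_nat_gt (3 * |CL| / ε)
  set q := max (max 2 q₀) (q₁ + 1) with hqd
  obtain ⟨Exy, Ex, Ey, h1, h2, h3, h4, h5, h6⟩ := h q (by omega) (by omega)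
  have hq' : (q₁ : ℝ) < q := by
    have : q₁ < q := by omega
    exact_mod_cast this
  have hqp : (0 : ℝ) < q := by
    have : 0 < q := by omega
    exact_mod_cast this
  have h7 : CL / q ≤ ε / 3 := by
    rw [div_le_iff₀ hqp]
    have h8 : 3 * |CL| < q * ε := by
      have := hq₁.trans hq'
      rwa [div_lt_iff₀ hε] at this
    linarith [le_abs_self CL]
  have e1 := (abs_le.1 h4).1
  have e2 := (abs_le.1 h5).2
  have e3 := (abs_le.1 h6).2
  have h9 : Ex * Ey ≤ (Sx + ε / 3) * Ey := mul_le_mul_of_nonneg_right (by linarith) h2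
  have h10 : Sx * Ey ≤ Sx * (Sy + ε / 3) := mul_le_mul_of_nonneg_left (by linarith) h0x
  have h11 : ε / 3 * Ey ≤ ε / 3 := by nlinarith
  have h12 : Sx * (ε / 3) ≤ ε / 3 := by nlinarith
  nlinarith

open Classical in
theorem cov (hCOC : S_COC) : S_COV := by
  intro d hd
  obtain ⟨Cj, hCj, hJ⟩ := Pool.Agent.Q66.LC.jmp d hd
  refine ⟨2 * Cj * Real.exp 1, ?_, fun L R₀ _ hL3 t n D ht hn x y hxy => ?_⟩
  · have : (1 : ℝ) ≤ Real.exp 1 := Real.one_le_exp (by norm_num)
    nlinarith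
  set K := ⌊t⌋₊ with hK
  have hKt : (K : ℝ) ≤ t := Nat.floor_le (by linarith)
  have hK1 : 1 ≤ K := Nat.le_floor (by rw [Nat.cast_one]; exact ht)
  have hK1' : (1 : ℝ) ≤ K := by exact_mod_cast hK1
  have hKpos : (0 : ℝ) < K := by linarith
  have htK : t < K + 1 := Nat.lt_floor_add_one t
  have ht2K : t ≤ 2 * K := by linarith
  obtain ⟨σ, hσ⟩ := exists_Per d L hd
  obtain ⟨CL, hCL⟩ := tro d L hd hL3 K
  set B : ℝ := 2 * (2 * R₀ + 1) ^ d * t * (Cj * (Real.exp 1 * Real.exp (-(D / t)))) with hB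
  have hF : ∀ z : Fin d → ZMod L, ∀ g : Perm (Fin d → ZMod L),
      |(if (cyc g z).card ≤ n then (1 : ℝ) else 0)| ≤ 1 := by
    intro z g
    split_ifs <;> norm_num
  have hF2 : ∀ g : Perm (Fin d → ZMod L),
      |(if (cyc g x).card ≤ n ∧ (cyc g y).card ≤ n then (1 : ℝ) else 0)| ≤ 1 := by
    intro g
    split_ifs <;> norm_num
  have hJn : ∀ a b, 0 ≤ nnRate d L a b := nn_nonneg
  have h0x : 0 ≤ stirExp (nnRate d L) t (fun g => if (cyc g x).card ≤ n then 1 else 0) :=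
    Pool.Agent.Y998.ST.exp_nonneg hJn (by linarith) fun g => by split_ifs <;> norm_num
  have h1x : stirExp (nnRate d L) t (fun g => if (cyc g x).card ≤ n then 1 else 0) ≤ 1 := by
    refine (Pool.Agent.Y998.ST.exp_mono (G := fun _ => 1) hJn (by linarith) fun g => ?_).trans
      (le_of_eq (Pool.Agent.Y998.ST.exp_const _ _ _))
    split_ifs <;> norm_num
  obtain ⟨q₂, hq₂⟩ := exists_nat_gt (2 * Cj)
  have hlim := lim_real (B := B) (CL := CL) (q₀ := q₂)
    (Sxy := stirExp (nnRate d L) t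
      (fun g => if (cyc g x).card ≤ n ∧ (cyc g y).card ≤ n then 1 else 0))
    (Sy := stirExp (nnRate d L) t (fun g => if (cyc g y).card ≤ n then 1 else 0)) h0x h1x ?_
  · refine hlim.trans (le_of_eq ?_)
    rw [hB]
    ring
  · intro q hqC hq2
    have hqC' : 2 * Cj ≤ q := by
      have : (q₂ : ℝ) ≤ q := by exact_mod_cast hqC
      linarith
    have hq' : (0 : ℝ) < q := by
      have : 0 < q := by omega
      exact_mod_cast this
    have hδq : t / (K * q) * q = t / K := by field_simp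
    have a2 : t / (K * q) * q ≤ 2 := by
      rw [hδq, div_le_iff₀ hKpos]; linarith
    have a0 : 0 < t / (K * q) := by positivity
    have hq2' : (2 : ℝ) ≤ q := by exact_mod_cast hq2
    have a3 : t / (K * q) ≤ 1 := by
      rw [div_le_one (by positivity)]
      nlinarith
    have a4 : Cj * (t / (K * q)) ≤ 1 := by
      have : Cj * (t / (K * q)) = Cj * t / (K * q) := by ring
      rw [this, div_le_one (by positivity)]
      nlinarith
    set δ : ℝ := t / (K * q) with hδ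
    have a6 : ((K * q : ℕ) : ℝ) * δ = t := by
      rw [hδ]; push_cast; field_simp
    have b := (hCL q (by omega) σ hσ δ a0.le a3 a2 (K * q) le_rfl).1
    have b1 := b _ hF2
    have b2 := b _ (hF x)
    have b3 := b _ (hF y)
    rw [a6] at b1 b2 b3
    refine ⟨_, _, _, ?_, ?_, ?_, b1, b2, b3⟩
    · refine (hCOC d L R₀ hd hL3 σ hσ (K * q) n D δ a0.le a3 hn x y hxy).trans ?_
      refine add_le_add le_rfl ?_
      refine (jumps_set hCj hJ hL3 hσ q K D hK1 hKt a0 a3 a4 a2 _).trans ?_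
      rw [hB]
      refine mul_le_mul_of_nonneg_right ?_ (by positivity)
      exact mul_le_mul_of_nonneg_right (bal_union x y R₀) (by linarith)
    · have e0 := Pool.Agent.Q68.LC.EE_mono (n := K * q * ms d L) (F := fun _ => (0 : ℝ))
        (G := fun ω => if (cyc (gp (ed ∘ σ) ω (K * q * ms d L)) y).card ≤ n then (1 : ℝ) else 0)
        a0.le a3 (fun ω => by split_ifs <;> norm_num)
      rw [Pool.Agent.Q68.LC.EE_const] at e0
      exact e0
    · have e0 := Pool.Agent.Q68.LC.EE_mono (n := K * q * ms d L) (G := fun _ => (1 : ℝ))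
        (F := fun ω => if (cyc (gp (ed ∘ σ) ω (K * q * ms d L)) y).card ≤ n then (1 : ℝ) else 0)
        a0.le a3 (fun ω => by split_ifs <;> norm_num)
      rw [Pool.Agent.Q68.LC.EE_const] at e0
      exact e0

end Pool.Agent.H961.T4.Covh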