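import Pool.Agent.H961.T4.Stm4

/-!
# Project PN, piece EEI: independence of disjoint sets of coins
-/

set_option autoImplicit false

namespace Pool.Agent.H961.T4.Eeih

open Finset Q292.LC Pool.Agent.H961.T4

theorem eei_aux (δ : ℝ) (S : Finset ℕ) : ∀ (n : ℕ) (F G : (ℕ → Bool) → ℝ),
    (∀ ω ω' : ℕ → Bool, (∀ k ∈ S, ω k = ω' k) → F ω = F ω') →
    (∀ ω ω' : ℕ → Bool, (∀ k, k ∉ S → ω k = ω' k) → G ω = G ω') →
    EE n δ (fun ω => F ω * G ω) = EE n δ F * EE n δ G := by
  intro n
  induction n with
  | zero =>
    intro F G _ _
    unfold EE
    simp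
  | succ n ih =>
    intro F G hF hG
    have hF' : ∀ ω ω' : ℕ → Bool, (∀ k ∈ S, ω k = ω' k) →
        F (Function.update ω n true) = F (Function.update ω' n true) := by
      intro ω ω' h
      refine hF _ _ fun k hk => ?_
      rcases eq_or_ne k n with rfl | hkn
      · rw [Function.update_self, Function.update_self]
      · rw [Function.update_of_ne hkn, Function.update_of_ne hkn, h k hk]
    have hG' : ∀ ω ω' : ℕ → Bool, (∀ k, k ∉ S → ω k = ω' k) →
        G (Function.update ω n true) = G (Function.update ω' n true) := by
      intro ω ω' h
      refine hG _ _ fun k hk => ?_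
      rcases eq_or_ne k n with rfl | hkn
      · rw [Function.update_self, Function.update_self]
      · rw [Function.update_of_ne hkn, Function.update_of_ne hkn, h k hk]
    rw [Pool.Agent.Q68.LC.EE_succ, Pool.Agent.Q68.LC.EE_succ, Pool.Agent.Q68.LC.EE_succ,
      ih F G hF hG, ih (fun ω => F (Function.update ω n true))
        (fun ω => G (Function.update ω n true)) hF' hG']
    by_cases hn : n ∈ S
    · have hGG : (fun ω : ℕ → Bool => G (Function.update ω n true)) = G := by
        funext ω
        refine hG _ _ fun k hk => ?_
        rw [Function.update_of_ne]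
        rintro rfl
        exact hk hn
      rw [hGG]
      ring
    · have hFF : (fun ω : ℕ → Bool => F (Function.update ω n true)) = F := by
        funext ω
        refine hF _ _ fun k hk => ?_
        rw [Function.update_of_ne]
        rintro rfl
        exact hn hk
      rw [hFF]
      ring

/-- Independence of disjoint sets of coins. -/
theorem eei : S_EEI := fun n δ S F G hF hG => eei_aux δ S n F G hF hG

end Pool.Agent.H961.T4.Eeih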