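import Pool.Agent.H961.T4.Stm3
import Pool.Agent.H961.T4.Trm
import Pool.Graph.R_pool_sql_team_seeded_3997aac3.Q151.LC.Con2
import Pool.Graph.R_pool_sql_team_seeded_3997aac3.Q187.LC.Tch
import Pool.Graph.R_pool_sql_team_seeded_3997aac3.Q68.LC.Bas2

/-!
# Project PN (helper961): HSM (helper675)
-/

set_option autoImplicit false
set_option linter.unusedSectionVars false

namespace Pool.Agent.H961.T4.Hsmh

open Finset Equiv Matrix Q292.LC Pool.Agent.H961.T2 Pool.Agent.H961.T4 Pool.Agent.H961.T4.Trmh Pool.Agent.H961.T4.Trhh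

theorem hs_core2 {V ι : Type} [Fintype V] (I : Finset ι) (S : Finset V) (D : V → V → ℝ)
    (X Y : ι → V → ℝ) (c w : ι → ℝ) (s : ℝ) (hs : 0 ≤ s)
    (hD : ∀ x ∈ S, ∀ y, D x y = ∑ k ∈ I, c k * (X k x * Y k y)) (hc : ∀ k, |c k| ≤ w k)
    (hX : ∀ k ∈ I, ∑ x, |X k x| ≤ 2) (hDs : ∀ x ∈ S, ∀ y, |D x y| ≤ s) :
    ∑ x ∈ S, ∑ y, D x y ^ 2 ≤ ∑ k ∈ I, w k * (2 * (s * ∑ y, |Y k y|)) := by
  have e1 : ∑ x ∈ S, ∑ y, D x y ^ 2 =
      ∑ k ∈ I, c k * ∑ x ∈ S, X k x * ∑ y, D x y * Y k y := by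
    have f1 : ∀ x ∈ S, ∀ y, D x y ^ 2 = ∑ k ∈ I, c k * (X k x * (D x y * Y k y)) := by
      intro x hx y
      rw [sq]
      nth_rw 2 [hD x hx y]
      rw [mul_sum]
      refine sum_congr rfl fun k _ => ?_
      ring
    have f2 : ∀ x ∈ S, ∑ y, D x y ^ 2 =
        ∑ k ∈ I, c k * (X k x * ∑ y, D x y * Y k y) := by
      intro x hx
      rw [sum_congr rfl fun y _ => f1 x hx y, sum_comm]
      refine sum_congr rfl fun k _ => ?_
      rw [← mul_sum, ← mul_sum]
    rw [sum_congr rfl f2, sum_comm]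
    refine sum_congr rfl fun k _ => ?_
    rw [← mul_sum]
  rw [e1]
  refine sum_le_sum fun k hk => ?_
  have hY0 : 0 ≤ ∑ y, |Y k y| := sum_nonneg fun y _ => abs_nonneg _
  have g1 : ∀ x ∈ S, |∑ y, D x y * Y k y| ≤ s * ∑ y, |Y k y| := by
    intro x hx
    calc |∑ y, D x y * Y k y| ≤ ∑ y, |D x y * Y k y| := abs_sum_le_sum_abs _ _
      _ ≤ ∑ y, s * |Y k y| := by
          refine sum_le_sum fun y _ => ?_
          rw [abs_mul]
          exact mul_le_mul_of_nonneg_right (hDs x hx y) (abs_nonneg _)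
      _ = s * ∑ y, |Y k y| := by rw [mul_sum]
  have g2 : |∑ x ∈ S, X k x * ∑ y, D x y * Y k y| ≤ 2 * (s * ∑ y, |Y k y|) := by
    calc |∑ x ∈ S, X k x * ∑ y, D x y * Y k y| ≤ ∑ x ∈ S, |X k x * ∑ y, D x y * Y k y| :=
          abs_sum_le_sum_abs _ _
      _ ≤ ∑ x ∈ S, |X k x| * (s * ∑ y, |Y k y|) := by
          refine sum_le_sum fun x hx => ?_
          rw [abs_mul]
          exact mul_le_mul_of_nonneg_left (g1 x hx) (abs_nonneg _)
      _ = (∑ x ∈ S, |X k x|) * (s * ∑ y, |Y k y|) := by rw [sum_mul]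
      _ ≤ (∑ x, |X k x|) * (s * ∑ y, |Y k y|) := by
          refine mul_le_mul_of_nonneg_right ?_ (mul_nonneg hs hY0)
          exact sum_le_sum_of_subset_of_nonneg (subset_univ _) fun x _ _ => abs_nonneg _
      _ ≤ 2 * (s * ∑ y, |Y k y|) := mul_le_mul_of_nonneg_right (hX k hk) (mul_nonneg hs hY0)
  calc c k * ∑ x ∈ S, X k x * ∑ y, D x y * Y k y
      ≤ |c k * ∑ x ∈ S, X k x * ∑ y, D x y * Y k y| := le_abs_self _
    _ = |c k| * |∑ x ∈ S, X k x * ∑ y, D x y * Y k y| := abs_mul _ _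
    _ ≤ w k * (2 * (s * ∑ y, |Y k y|)) :=
        mul_le_mul (hc k) g2 (abs_nonneg _) ((abs_nonneg _).trans (hc k))

section alg

variable {V : Type} [Fintype V] [DecidableEq V]

theorem mul_dg_apply (U : Finset V) (D : Matrix V V ℝ) (x y : V) :
    (D * dg U) x y = if y ∈ U then D x y else 0 := by
  unfold dg
  rw [Matrix.mul_diagonal]
  split_ifs <;> ring

/-- for a row `x ∈ U` the columns of the powers outside `U` vanish -/
theorem pow_col0 (U : Finset V) (T : Matrix V V ℝ) (hU : ∀ x ∈ U, ∀ y, y ∉ U → T x y = 0)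
    (i : ℕ) (x y : V) (hx : x ∈ U) (hy : y ∉ U) : ((dg U * T) ^ i) x y = 0 := by
  rcases Nat.eq_zero_or_pos i with rfl | hi
  · rw [pow_zero, Matrix.one_apply, if_neg]
    rintro rfl
    exact hy hx
  · exact pow_col U T hU i hi x y hy

theorem diff_pow (U : Finset V) (T P : Matrix V V ℝ) (hU : ∀ x ∈ U, ∀ y, y ∉ U → T x y = 0)
    (i : ℕ) (x : V) (hx : x ∈ U) (y : V) :
    ((dg U * T) ^ i) x y - (P ^ i) x y =
      ∑ l ∈ range i, ((dg U * T) ^ l * dg U * (T - P) * P ^ (i - 1 - l)) x y := by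
  induction i generalizing y with
  | zero => simp
  | succ i ih =>
    have e1 : ((dg U * T) ^ (i + 1)) x y - (P ^ (i + 1)) x y =
        ((dg U * T) ^ i * dg U * (T - P)) x y +
          ∑ z, (((dg U * T) ^ i) x z - (P ^ i) x z) * P z y := by
      have f1 : ((dg U * T) ^ i * dg U * (T - P)) x y =
          ((dg U * T) ^ (i + 1)) x y - ∑ z, ((dg U * T) ^ i) x z * P z y := by
        rw [Matrix.mul_sub, Matrix.sub_apply, Matrix.mul_assoc ((dg U * T) ^ i), pow_succ]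
        congr 1
        rw [Matrix.mul_apply]
        refine sum_congr rfl fun z _ => ?_
        rw [mul_dg_apply]
        by_cases hz : z ∈ U
        · rw [if_pos hz]
        · rw [if_neg hz, pow_col0 U T hU i x z hx hz]
      rw [f1, pow_succ P, Matrix.mul_apply (M := P ^ i)]
      simp only [sub_mul, sum_sub_distrib]
      ring
    rw [e1, sum_range_succ, add_comm]
    congr 1
    · have f2 : ∀ z, (((dg U * T) ^ i) x z - (P ^ i) x z) * P z y =
          ∑ l ∈ range i, ((dg U * T) ^ l * dg U * (T - P) * P ^ (i - 1 - l)) x z * P z y := by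
        intro z
        rw [ih z, sum_mul]
      rw [sum_congr rfl fun z _ => f2 z, sum_comm]
      refine sum_congr rfl fun l hl => ?_
      rw [← Matrix.mul_apply, Matrix.mul_assoc _ _ P, ← pow_succ]
      have : i - 1 - l + 1 = i + 1 - 1 - l := by
        have := mem_range.1 hl
        omega
      rw [this]
    · have : i + 1 - 1 - i = 0 := by omega
      rw [this, pow_zero, Matrix.mul_one]

/-- inserting a sum of products -/
theorem ins (F D Q : Matrix V V ℝ) (n : ℕ) (c : ℕ → ℝ) (X Y : ℕ → V → ℝ)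
    (hD : ∀ x y, D x y = ∑ k ∈ range n, c k * (X k x * Y k y)) (x y : V) :
    (F * D * Q) x y = ∑ k ∈ range n, c k * ((∑ z, F x z * X k z) * (∑ z, Y k z * Q z y)) := by
  rw [Matrix.mul_apply]
  have e1 : ∀ z, (F * D) x z * Q z y =
      ∑ k ∈ range n, c k * ((∑ z, F x z * X k z) * (Y k z * Q z y)) := by
    intro z
    rw [Matrix.mul_apply]
    have f1 : ∀ u, F x u * D u z = ∑ k ∈ range n, c k * (F x u * X k u * Y k z) := by
      intro u
      rw [hD, mul_sum]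
      refine sum_congr rfl fun k _ => ?_
      ring
    rw [sum_congr rfl fun u _ => f1 u, sum_comm, sum_mul]
    refine sum_congr rfl fun k _ => ?_
    rw [← mul_sum, ← sum_mul]
    ring
  rw [sum_congr rfl fun z _ => e1 z, sum_comm]
  refine sum_congr rfl fun k _ => ?_
  rw [← mul_sum, ← mul_sum]

/-- column sums at most one -/
theorem X_bound (F : Matrix V V ℝ) (hF : BS F) (f : V → ℝ) :
    ∑ x, |∑ z, F x z * f z| ≤ ∑ z, |f z| := by
  calc ∑ x, |∑ z, F x z * f z| ≤ ∑ x, ∑ z, F x z * |f z| := by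
        refine sum_le_sum fun x _ => (abs_sum_le_sum_abs _ _).trans ?_
        refine sum_le_sum fun z _ => ?_
        rw [abs_mul, abs_of_nonneg (hF.nn x z)]
    _ = ∑ z, (∑ x, F x z) * |f z| := by
        rw [sum_comm]
        refine sum_congr rfl fun z _ => ?_
        rw [sum_mul]
    _ ≤ ∑ z, 1 * |f z| := by
        refine sum_le_sum fun z _ => mul_le_mul_of_nonneg_right (hF.col z) (abs_nonneg _)
    _ = ∑ z, |f z| := by
        refine sum_congr rfl fun z _ => one_mul _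

end alg

theorem sum_inv_sqrt (K : ℕ) : ∑ i ∈ range K, 1 / Real.sqrt ((i : ℝ) + 1) ≤ 2 * Real.sqrt K := by
  induction K with
  | zero => simp
  | succ K ih =>
    rw [sum_range_succ]
    have hs : 0 < Real.sqrt ((K : ℝ) + 1) := Real.sqrt_pos.2 (by positivity)
    have hk : 0 ≤ Real.sqrt (K : ℝ) := Real.sqrt_nonneg _
    have h1 : Real.sqrt (K : ℝ) ^ 2 = K := Real.sq_sqrt (Nat.cast_nonneg _)
    have h2 : Real.sqrt ((K : ℝ) + 1) ^ 2 = K + 1 := Real.sq_sqrt (by positivity)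
    have h3 : 1 / Real.sqrt ((K : ℝ) + 1) ≤
        2 * Real.sqrt ((K : ℝ) + 1) - 2 * Real.sqrt (K : ℝ) := by
      rw [div_le_iff₀ hs]
      nlinarith [sq_nonneg (Real.sqrt ((K : ℝ) + 1) - Real.sqrt (K : ℝ))]
    push_cast
    linarith

theorem sum_inv_sqrt' (K : ℕ) :
    ∑ j ∈ range K, 1 / Real.sqrt ((K : ℝ) - j) ≤ 2 * Real.sqrt K := by
  refine le_trans (le_of_eq ?_) (sum_inv_sqrt K)
  rw [← sum_range_reflect]
  apply sum_congr rfl
  intro j hj
  rw [mem_range] at hj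
  have h : ((K - 1 - j : ℕ) : ℝ) = (K : ℝ) - 1 - j := by
    rw [Nat.cast_sub (by omega), Nat.cast_sub (by omega)]
    simp
  rw [h]
  congr 2
  ring

theorem cw_nonneg {V : Type} [DecidableEq V] (e : ℕ → V × V) (ω : ℕ → Bool) (A : Finset V)
    (δ : ℝ) (h0 : 0 ≤ δ) (k : ℕ) : 0 ≤ cw e ω A δ k := by
  unfold cw
  split_ifs <;> simp [h0]

theorem cw_le_sum {V : Type} [DecidableEq V] (e : ℕ → V × V) (ω : ℕ → Bool) (A : Finset V)
    (δ : ℝ) (h0 : 0 ≤ δ) (k : ℕ) : cw e ω A δ k ≤ ∑ a ∈ A, cw e ω {a} δ k := by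
  by_cases ht : tch e ω A k
  · obtain ⟨a, ha, hta⟩ := ht
    have h1 : tch e ω {a} k := ⟨a, mem_singleton_self a, hta⟩
    have h2 : cw e ω A δ k = cw e ω {a} δ k := by
      unfold cw
      rw [if_pos h1, if_pos ⟨a, ha, hta⟩]
    rw [h2]
    exact single_le_sum (f := fun a => cw e ω {a} δ k) (fun b _ => cw_nonneg e ω {b} δ h0 k) ha
  · have h2 : cw e ω A δ k = 0 := by
      unfold cw
      rw [if_neg ht]
    rw [h2]
    exact sum_nonneg fun b _ => cw_nonneg e ω {b} δ h0 k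

/-- the weight of the touched steps of a unit -/
theorem unit_sum {d L : ℕ} [NeZero L] (hL : 3 ≤ L) (σ : ℕ → (Fin d → ZMod L) × Fin d)
    (hσ : Per σ) (ω : ℕ → Bool) (A : Finset (Fin d → ZMod L)) (δ : ℝ) (q K ρ : ℕ) (h0 : 0 < δ)
    (h2 : 2 * d * δ ≤ 1) (hq : δ * q ≤ 2)
    (hJ : ∀ j < K, ∀ a ∈ A,
      jumps (ed ∘ σ) ω (j * (q * ms d L)) ((j + 1) * (q * ms d L)) a ≤ ρ) (j : ℕ) (hj : j < K) :
    ∑ i ∈ range (q * ms d L), cw (ed ∘ σ) ω A δ (j * (q * ms d L) + i) ≤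
      (2 * ρ + 4 * d) * A.card := by
  calc ∑ i ∈ range (q * ms d L), cw (ed ∘ σ) ω A δ (j * (q * ms d L) + i)
      ≤ ∑ i ∈ range (q * ms d L), ∑ a ∈ A, cw (ed ∘ σ) ω {a} δ (j * (q * ms d L) + i) :=
        sum_le_sum fun i _ => cw_le_sum _ _ _ _ h0.le _
    _ = ∑ a ∈ A, ∑ i ∈ range (q * ms d L), cw (ed ∘ σ) ω {a} δ (j * (q * ms d L) + i) :=
        sum_comm
    _ ≤ ∑ _a ∈ A, (2 * (ρ : ℝ) + 4 * d) := by
        refine sum_le_sum fun a ha => ?_
        exact Pool.Agent.Q151.LC.wt_unit Pool.Agent.Q187.LC.Tch.tch hL σ hσ ω δ q ρ j a h0 h2 hq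
          (hJ j hj a ha)
    _ = (2 * ρ + 4 * d) * A.card := by
        rw [sum_const, nsmul_eq_mul]
        ring

/-- the tail of the free kernel -/
theorem tail {d L : ℕ} [NeZero L] {σ : ℕ → (Fin d → ZMod L) × Fin d} (hσ : Per σ) (δ : ℝ)
    (hδ0 : 0 ≤ δ) (hδ1 : δ ≤ 1) (q K i l k : ℕ) (hl : l < i) (hk : k < K * (q * ms d L)) :
    PP (sh (k + 1) (ed ∘ σ)) δ (K * (q * ms d L) - (k + 1)) *
      PP (ed ∘ σ) δ (K * (q * ms d L)) ^ (i - 1 - l) =
    PP (sh (l * (K * (q * ms d L)) + k + 1) (ed ∘ σ)) δ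
      (i * K * (q * ms d L) - (l * (K * (q * ms d L)) + k + 1)) := by
  set n := K * (q * ms d L) with hn
  have hper : ∀ m, sh (m * n) (ed ∘ σ) = ed ∘ σ := by
    intro m
    have : m * n = (m * K * q) * ms d L := by rw [hn]; ring
    rw [this]
    exact Pool.Agent.Q151.LC.sh_per hσ _
  have hsh : sh (l * n + k + 1) (ed ∘ σ) = sh (k + 1) (ed ∘ σ) := by
    funext u
    have := congrFun (hper l) (u + (k + 1))
    unfold sh at this ⊢
    rw [← this]
    congr 1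
    ring
  have hpw : PP (ed ∘ σ) δ n ^ (i - 1 - l) = PP (ed ∘ σ) δ ((i - 1 - l) * n) := by
    rcases Nat.eq_zero_or_pos (i - 1 - l) with h0 | h0
    · rw [h0, pow_zero, Nat.zero_mul]
      rfl
    · obtain ⟨m, hm⟩ : ∃ m, i - 1 - l = m + 1 := ⟨i - 1 - l - 1, by omega⟩
      rw [hm, hn, PP_pow hσ hδ0 hδ1 q K m]
      congr 1
      ring
  rw [hpw, hsh]
  have hadd := Pool.Agent.Q68.LC.TT_add (sh (k + 1) (ed ∘ σ)) (fun _ => false)
    (∅ : Finset (Fin d → ZMod L)) δ (n - (k + 1)) ((i - 1 - l) * n)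
  have hshn : sh (n - (k + 1)) (sh (k + 1) (ed ∘ σ)) = ed ∘ σ := by
    have h1 := hper 1
    rw [one_mul] at h1
    funext u
    have := congrFun h1 u
    unfold sh at this ⊢
    rw [← this]
    congr 1
    omega
  rw [hshn, image_empty] at hadd
  have hcnt : n - (k + 1) + (i - 1 - l) * n = i * K * (q * ms d L) - (l * n + k + 1) := by
    obtain ⟨m, hm⟩ : ∃ m, i = l + 1 + m := ⟨i - (l + 1), by omega⟩
    have h1 : i - 1 - l = m := by omega
    have h2 : i * K * (q * ms d L) = i * n := by rw [hn]; ring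
    rw [h1, h2, hm]
    have h3 : (l + 1 + m) * n = l * n + n + m * n := by ring
    rw [h3]
    omega
  rw [← hcnt]
  unfold PP
  exact hadd.symm

theorem hsm (hDUF : S_DUF) (hGRD : S_GRD) : S_HSM := by
  intro d hd
  obtain ⟨G, hG1, hG⟩ := hGRD d hd
  have hd' : (1 : ℝ) ≤ d := by exact_mod_cast hd
  refine ⟨16 * d * G, by nlinarith, ?_⟩
  intro L _ hL K N
  choose f hf using fun i : ℕ => hG L hL (i * K)
  refine ⟨max ((range (N + 1)).sup f) (4 * d + 2), ?_⟩
  intro q hq σ hσ δ hδ1 hδ2 ω A ρ s hJ hinv hs i hiN hi1 hTs hPs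
  have hqf : f i ≤ q :=
    (le_sup (f := f) (mem_range.2 (Nat.lt_succ_of_le hiN))).trans ((le_max_left _ _).trans hq)
  have hq2 : 4 * d + 2 ≤ q := (le_max_right _ _).trans hq
  have hq2' : (4 : ℝ) * d + 2 ≤ q := by exact_mod_cast hq2
  have hq0 : (0 : ℝ) < q := by linarith
  have hδ0 : 0 < δ := by
    by_contra h
    push Not at h
    have := mul_nonpos_of_nonpos_of_nonneg h hq0.le
    linarith
  have hδd : 2 * d * δ ≤ 1 := by
    by_contra h
    push Not at h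
    have h1 : δ * (4 * d + 2) ≤ δ * q := mul_le_mul_of_nonneg_left hq2' hδ0.le
    nlinarith
  have hδ1' : δ ≤ 1 := by nlinarith
  obtain ⟨c, hc, hcd⟩ := hDUF (Fin d → ZMod L) (ed ∘ σ) ω A δ (K * (q * ms d L)) hδ0.le hδ1'
  have hTT := Pool.Agent.Q68.LC.DS_TT (ed ∘ σ) ω A hδ0.le hδ1'
  have hPP := Pool.Agent.Q68.LC.DS_TT (ed ∘ σ) (fun _ => false) ∅ hδ0.le hδ1'
    (K * (q * ms d L))
  have hTBS : BS (TT (ed ∘ σ) ω A δ (K * (q * ms d L))) :=
    ⟨(hTT _).nn, fun x => ((hTT _).row x).le, fun y => ((hTT _).col y).le⟩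
  have hPBS : BS (PP (ed ∘ σ) δ (K * (q * ms d L))) :=
    ⟨hPP.nn, fun x => (hPP.row x).le, fun y => (hPP.col y).le⟩
  have hUz : ∀ x ∈ univ \ A, ∀ y, y ∉ univ \ A →
      TT (ed ∘ σ) ω A δ (K * (q * ms d L)) x y = 0 := by
    intro x hx y hy
    have hx' : x ∉ A := (mem_sdiff.1 hx).2
    have hy' : y ∈ A := by
      by_contra h
      exact hy (mem_sdiff.2 ⟨mem_univ _, h⟩)
    have himg : A.image (gp (ed ∘ σ) ω (K * (q * ms d L))) = A := by
      refine eq_of_subset_of_card_le ?_ ?_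
      · intro z hz
        obtain ⟨a, ha, rfl⟩ := mem_image.1 hz
        exact hinv a ha
      · rw [card_image_of_injective _ (Equiv.injective _)]
    have h := (Pool.Agent.Q68.LC.bas2 (Fin d → ZMod L) (ed ∘ σ) ω A δ hδ0.le hδ1').2.2.2.2.1
      (K * (q * ms d L)) x hx' y (by rw [himg]; exact hy')
    exact h
  set n := K * (q * ms d L) with hn
  set T := TT (ed ∘ σ) ω A δ n with hT
  set P := PP (ed ∘ σ) δ n with hP
  have hMBS : BS (dg (univ \ A) * T) := BS_dg _ hTBS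
  have hFBS : ∀ l, BS ((dg (univ \ A) * T) ^ l * dg (univ \ A)) := by
    intro l
    have h1 : BS (1 : Matrix (Fin d → ZMod L) (Fin d → ZMod L) ℝ) := by
      have := Pool.Agent.Q68.LC.DS_one (V := Fin d → ZMod L)
      exact ⟨this.nn, fun x => (this.row x).le, fun y => (this.col y).le⟩
    have h2 := BS_dg (univ \ A) h1
    rw [Matrix.mul_one] at h2
    exact BS_mul (BS_pow hMBS l) h2
  have hcore := hs_core2 (range i ×ˢ range n) (univ \ A)
    (fun x y => ((dg (univ \ A) * T) ^ i) x y - (P ^ i) x y)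
    (fun p x => ∑ z, ((dg (univ \ A) * T) ^ p.1 * dg (univ \ A)) x z *
      (TT (ed ∘ σ) ω A δ p.2 z ((ed ∘ σ) p.2).1 - TT (ed ∘ σ) ω A δ p.2 z ((ed ∘ σ) p.2).2))
    (fun p y => ∑ z, (PP (sh (p.2 + 1) (ed ∘ σ)) δ (n - (p.2 + 1)) ((ed ∘ σ) p.2).1 z -
      PP (sh (p.2 + 1) (ed ∘ σ)) δ (n - (p.2 + 1)) ((ed ∘ σ) p.2).2 z) * (P ^ (i - 1 - p.1)) z y)
    (fun p => c p.2) (fun p => cw (ed ∘ σ) ω A δ p.2) s hs
    (by
      intro x hx y
      rw [diff_pow (univ \ A) T P hUz i x hx y, sum_product]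
      refine sum_congr rfl fun l _ => ?_
      exact ins _ _ _ n c _ _ (fun x y => hcd x y) x y)
    (fun p => hc p.2)
    (by
      intro p _
      have hk := hTT p.2
      refine (X_bound _ (hFBS p.1) _).trans ?_
      calc ∑ x, |TT (ed ∘ σ) ω A δ p.2 x ((ed ∘ σ) p.2).1 -
            TT (ed ∘ σ) ω A δ p.2 x ((ed ∘ σ) p.2).2|
          ≤ ∑ x, (TT (ed ∘ σ) ω A δ p.2 x ((ed ∘ σ) p.2).1 +
              TT (ed ∘ σ) ω A δ p.2 x ((ed ∘ σ) p.2).2) := by
            refine sum_le_sum fun x _ => ?_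
            rw [abs_le]
            have h1 := hk.nn x ((ed ∘ σ) p.2).1
            have h2 := hk.nn x ((ed ∘ σ) p.2).2
            constructor <;> linarith
        _ = 2 := by
            rw [sum_add_distrib, hk.col, hk.col]
            norm_num)
    (by
      intro x hx y
      have hx' : x ∉ A := (mem_sdiff.1 hx).2
      have h1 := (BS_pow hMBS i).nn x y
      have h2 := (BS_pow hPBS i).nn x y
      have h3 := hTs x hx' y
      have h4 := hPs x y
      rw [abs_le]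
      constructor <;> linarith)
  refine hcore.trans ?_
  rw [sum_product]
  have hG0 : 0 ≤ G := by linarith
  have hA0 : (0 : ℝ) ≤ A.card := Nat.cast_nonneg _
  have hρ : (0 : ℝ) ≤ ρ := Nat.cast_nonneg _
  -- the bound for one step
  have hstep : ∀ l ∈ range i, ∀ j ∈ range K, ∀ m ∈ range (q * ms d L),
      cw (ed ∘ σ) ω A δ (j * (q * ms d L) + m) *
        (2 * (s * ∑ y, |∑ z, (PP (sh (j * (q * ms d L) + m + 1) (ed ∘ σ)) δ
            (n - (j * (q * ms d L) + m + 1)) ((ed ∘ σ) (j * (q * ms d L) + m)).1 z -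
          PP (sh (j * (q * ms d L) + m + 1) (ed ∘ σ)) δ (n - (j * (q * ms d L) + m + 1))
            ((ed ∘ σ) (j * (q * ms d L) + m)).2 z) * (P ^ (i - 1 - l)) z y|)) ≤
      (2 * s * G) * (1 / Real.sqrt (((i * K : ℕ) : ℝ) - ((l * K + j : ℕ) : ℝ))) *
        cw (ed ∘ σ) ω A δ (j * (q * ms d L) + m) := by
    intro l hl j hj m hm
    rw [mem_range] at hl hj hm
    have hk : j * (q * ms d L) + m < K * (q * ms d L) := by
      calc j * (q * ms d L) + m < j * (q * ms d L) + q * ms d L := by omega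
        _ = (j + 1) * (q * ms d L) := by ring
        _ ≤ K * (q * ms d L) := Nat.mul_le_mul_right _ hj
    have htail := tail hσ δ hδ0.le hδ1' q K i l (j * (q * ms d L) + m) hl hk
    have e1 : ∀ a y, ∑ z, PP (sh (j * (q * ms d L) + m + 1) (ed ∘ σ)) δ
        (n - (j * (q * ms d L) + m + 1)) a z * (P ^ (i - 1 - l)) z y =
        PP (sh ((l * K + j) * (q * ms d L) + m + 1) (ed ∘ σ)) δ
          (i * K * (q * ms d L) - ((l * K + j) * (q * ms d L) + m + 1)) a y := by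
      intro a y
      rw [← Matrix.mul_apply, hn, hP, hn, htail]
      have : l * (K * (q * ms d L)) + (j * (q * ms d L) + m) + 1 =
          (l * K + j) * (q * ms d L) + m + 1 := by ring
      rw [this]
    have hlt : l * K + j < i * K := by
      calc l * K + j < l * K + K := by omega
        _ = (l + 1) * K := by ring
        _ ≤ i * K := Nat.mul_le_mul_right _ hl
    have h1 := hf i q hqf σ hσ δ hδ1 hδ2 (l * K + j) hlt m hm (σ (j * (q * ms d L) + m))
    have h2 := cw_nonneg (ed ∘ σ) ω A δ hδ0.le (j * (q * ms d L) + m)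
    have e2 : ∑ y, |∑ z, (PP (sh (j * (q * ms d L) + m + 1) (ed ∘ σ)) δ
            (n - (j * (q * ms d L) + m + 1)) ((ed ∘ σ) (j * (q * ms d L) + m)).1 z -
          PP (sh (j * (q * ms d L) + m + 1) (ed ∘ σ)) δ (n - (j * (q * ms d L) + m + 1))
            ((ed ∘ σ) (j * (q * ms d L) + m)).2 z) * (P ^ (i - 1 - l)) z y| ≤
        G / Real.sqrt (((i * K : ℕ) : ℝ) - ((l * K + j : ℕ) : ℝ)) := by
      refine le_trans (le_of_eq ?_) h1
      refine sum_congr rfl fun y _ => ?_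
      congr 1
      simp only [sub_mul, sum_sub_distrib]
      rw [e1, e1]
      rfl
    calc cw (ed ∘ σ) ω A δ (j * (q * ms d L) + m) * _
        ≤ cw (ed ∘ σ) ω A δ (j * (q * ms d L) + m) *
          (2 * (s * (G / Real.sqrt (((i * K : ℕ) : ℝ) - ((l * K + j : ℕ) : ℝ))))) :=
          mul_le_mul_of_nonneg_left (mul_le_mul_of_nonneg_left
            (mul_le_mul_of_nonneg_left e2 hs) (by norm_num)) h2
      _ = _ := by ring
  have hlap : ∀ l ∈ range i, ∑ k ∈ range n, cw (ed ∘ σ) ω A δ k *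
        (2 * (s * ∑ y, |∑ z, (PP (sh (k + 1) (ed ∘ σ)) δ (n - (k + 1)) ((ed ∘ σ) k).1 z -
          PP (sh (k + 1) (ed ∘ σ)) δ (n - (k + 1)) ((ed ∘ σ) k).2 z) *
          (P ^ (i - 1 - l)) z y|)) ≤
      ∑ j ∈ range K, (2 * s * G) * ((2 * ρ + 4 * d) * A.card) *
        (1 / Real.sqrt (((i * K : ℕ) : ℝ) - ((l * K + j : ℕ) : ℝ))) := by
    intro l hl
    rw [hn, Pool.Agent.Q151.LC.sum_units (q * ms d L) K]
    refine sum_le_sum fun j hj => ?_
    refine (sum_le_sum fun m hm => hstep l hl j hj m hm).trans ?_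
    rw [← mul_sum]
    have hu := unit_sum hL σ hσ ω A δ q K ρ hδ0 hδd hδ2 hJ j (mem_range.1 hj)
    have h3 : 0 ≤ (2 * s * G) * (1 / Real.sqrt (((i * K : ℕ) : ℝ) - ((l * K + j : ℕ) : ℝ))) := by
      positivity
    refine (mul_le_mul_of_nonneg_left hu h3).trans (le_of_eq ?_)
    ring
  refine (sum_le_sum hlap).trans ?_
  have hre : ∑ l ∈ range i, ∑ j ∈ range K, (2 * s * G) * ((2 * ρ + 4 * d) * A.card) *
        (1 / Real.sqrt (((i * K : ℕ) : ℝ) - ((l * K + j : ℕ) : ℝ))) =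
      (2 * s * G) * ((2 * ρ + 4 * d) * A.card) *
        ∑ t ∈ range (i * K), 1 / Real.sqrt (((i * K : ℕ) : ℝ) - (t : ℝ)) := by
    rw [Pool.Agent.Q151.LC.sum_units K i, mul_sum]
    refine sum_congr rfl fun l _ => ?_
    rw [mul_sum]
  rw [hre]
  have hsq := sum_inv_sqrt' (i * K)
  have h4 : 0 ≤ (2 * s * G) * ((2 * ρ + 4 * d) * A.card) := by positivity
  refine (mul_le_mul_of_nonneg_left hsq h4).trans ?_
  have h5 : Real.sqrt ((i * K : ℕ) : ℝ) = Real.sqrt ((i : ℝ) * K) := by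
    rw [Nat.cast_mul]
  rw [h5]
  have h6 : (4 * (ρ : ℝ) + 8 * d) ≤ 8 * d * (ρ + 1) := by nlinarith
  have h7 : 0 ≤ 2 * s * G * (Real.sqrt ((i : ℝ) * K) * A.card) := by positivity
  calc 2 * s * G * ((2 * ρ + 4 * d) * A.card) * (2 * Real.sqrt ((i : ℝ) * K))
      = 2 * s * G * (Real.sqrt ((i : ℝ) * K) * A.card) * (4 * ρ + 8 * d) := by ring
    _ ≤ 2 * s * G * (Real.sqrt ((i : ℝ) * K) * A.card) * (8 * d * (ρ + 1)) :=
        mul_le_mul_of_nonneg_left h6 h7
    _ = 16 * d * G * (ρ + 1) * Real.sqrt ((i : ℝ) * K) * s * A.card := by ring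

end Pool.Agent.H961.T4.Hsmh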