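import Pool.Agent.H961.T4.Stm4
import Pool.Graph.R_pool_sql_team_seeded_3997aac3.Q292.LC.FinT

/-!
Project PN, job LCR: the reversed locality inequality (adapted from Q297/LC/Loc.lean and Q297/LC/Lcs.lean: the
two tori play symmetric roles)
-/

set_option autoImplicit false

namespace Pool.Agent.H961.T4.Lcrh

open Finset Equiv Matrix Q292.LC
open Pool.Agent.Q297.LC
open Pool.Agent.Y998.ST (stirExp nnRate qq stirLaw totalRate)

open Classical in
theorem locG (d L L₀ R₀ : ℕ) [NeZero L] [NeZero L₀] (hd : 1 ≤ d) (h1 : 4 * R₀ + 8 ≤ L₀) (hL : 4 * R₀ + 8 ≤ L) :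
  ∃ (σ : ℕ → (Fin d → ZMod L) × Fin d) (σ₀ : ℕ → (Fin d → ZMod L₀) × Fin d), Per σ ∧ Per σ₀ ∧
  ∀ (s n D : ℕ) (δ : ℝ), 0 ≤ δ → δ ≤ 1 → n * D ≤ R₀ →
  EE (s * ms d L) δ (fun ω => if (cyc (gp (ed ∘ σ) ω (s * ms d L)) 0).card ≤ n then 1 else 0) ≤
  EE (s * ms d L₀) δ (fun ω =>
    if (cyc (gp (ed ∘ σ₀) ω (s * ms d L₀)) 0).card ≤ n then 1 else 0) +
  EE (s * ms d L) δ (fun ω => if ∃ y ∈ bal (0 : Fin d → ZMod L) R₀,
    D < jumps (ed ∘ σ) ω 0 (s * ms d L) y then 1 else 0) := by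
  obtain ⟨s₁, pz, hp⟩ := exists_PZ d R₀ hd
  obtain ⟨σ, hσ⟩ := exists_SG hd hp L hL
  obtain ⟨σ₀, hσ₀⟩ := exists_SG hd hp L₀ h1
  refine ⟨σ, σ₀, hσ.per, hσ₀.per, fun s n D δ h0 hδ hn => ?_⟩
  set F : (ℕ → Bool) → ℝ := fun ω => if Evt pz R₀ (s * s₁) n ω then 1 else 0 with hF
  have e1 : EE (s * ms d L) δ (fun ω => F (red d L s s₁ ω)) = EE (s * s₁) δ F :=
    mrg (s * ms d L) (s * s₁) (fun k => k / s₁ * ms d L + k % s₁) δ F
      (fun k hk => red_lt hp.pos hσ.le hk) (red_inj hp.pos hσ.le).injOn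
  have e2 : EE (s * ms d L₀) δ (fun ω => F (red d L₀ s s₁ ω)) = EE (s * s₁) δ F :=
    mrg (s * ms d L₀) (s * s₁) (fun k => k / s₁ * ms d L₀ + k % s₁) δ F
      (fun k hk => red_lt hp.pos hσ₀.le hk) (red_inj hp.pos hσ₀.le).injOn
  have i1 : EE (s * ms d L₀) δ (fun ω => F (red d L₀ s s₁ ω)) ≤
      EE (s * ms d L₀) δ (fun ω =>
        if (cyc (gp (ed ∘ σ₀) ω (s * ms d L₀)) 0).card ≤ n then 1 else 0) := by
    refine Pool.Agent.Q68.LC.EE_mono h0 hδ fun ω => ?_
    rw [hF]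
    simp only
    by_cases h : Evt pz R₀ (s * s₁) n (red d L₀ s s₁ ω)
    · rw [if_pos h, if_pos (back hp hσ₀ h1 s n ω h)]
    · rw [if_neg h]
      split_ifs <;> norm_num
  have i2 : EE (s * ms d L) δ (fun ω =>
        if (cyc (gp (ed ∘ σ) ω (s * ms d L)) 0).card ≤ n then 1 else 0) ≤
      EE (s * ms d L) δ (fun ω => F (red d L s s₁ ω) +
        (if ∃ y ∈ bal (0 : Fin d → ZMod L) R₀, D < jumps (ed ∘ σ) ω 0 (s * ms d L) y
          then 1 else 0)) := by
    refine Pool.Agent.Q68.LC.EE_mono h0 hδ fun ω => ?_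
    rw [hF]
    simp only
    by_cases h : (cyc (gp (ed ∘ σ) ω (s * ms d L)) 0).card ≤ n
    · rw [if_pos h]
      by_cases h' : ∃ y ∈ bal (0 : Fin d → ZMod L) R₀, D < jumps (ed ∘ σ) ω 0 (s * ms d L) y
      · rw [if_pos h']
        split_ifs <;> norm_num
      · rw [if_neg h', if_pos]
        · norm_num
        · push Not at h'
          exact fwd hp hσ hL s n D ω hn h h'
    · rw [if_neg h]
      split_ifs <;> norm_num
  rw [Pool.Agent.Q68.LC.EE_add, e1, ← e2] at i2
  exact i2.trans (by linarith)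

open Classical in
theorem lcsG (hJ : S_JMP) : ∀ d : ℕ, 1 ≤ d → ∃ C : ℝ, 1 ≤ C ∧ ∀ (L L₀ R₀ : ℕ) [NeZero L] [NeZero L₀],
  4 * R₀ + 8 ≤ L₀ → 4 * R₀ + 8 ≤ L → ∀ (t : ℝ) (n D : ℕ), 1 ≤ t → n * D ≤ R₀ →
  ∀ (x : Fin d → ZMod L) (x₀ : Fin d → ZMod L₀),
  stirExp (nnRate d L) t (fun g => if (cyc g x).card ≤ n then 1 else 0) ≤
    stirExp (nnRate d L₀) t (fun g => if (cyc g x₀).card ≤ n then 1 else 0) +
    C * (2 * R₀ + 1) ^ d * t * Real.exp (-(D / t)) := by
  intro d hd
  obtain ⟨Cj, hCj, hJ⟩ := hJ d hd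
  refine ⟨Cj * Real.exp 1, ?_, fun L L₀ R₀ _ _ h1 h2 t n D ht hn x x₀ => ?_⟩
  · have : (1 : ℝ) ≤ Real.exp 1 := Real.one_le_exp (by norm_num)
    nlinarith
  rw [cyc_trans t n x, cyc_trans t n x₀]
  have hL₀3 : 3 ≤ L₀ := by omega
  have hL3 : 3 ≤ L := by omega
  set K := ⌊t⌋₊ with hK
  have hKt : (K : ℝ) ≤ t := Nat.floor_le (by linarith)
  have hK1 : 1 ≤ K := Nat.le_floor (by rw [Nat.cast_one]; exact ht)
  have hK1' : (1 : ℝ) ≤ K := by exact_mod_cast hK1
  have hKpos : (0 : ℝ) < K := by linarith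
  have htK : t < K + 1 := Nat.lt_floor_add_one t
  have ht2K : t ≤ 2 * K := by linarith
  obtain ⟨σ, σ₀, hσ, hσ₀, hloc⟩ := locG d L L₀ R₀ hd h1 h2
  obtain ⟨CL, hCL⟩ := tro d L hd hL3 K
  obtain ⟨CL₀, hCL₀⟩ := tro d L₀ hd hL₀3 K
  set B : ℝ := (2 * R₀ + 1) ^ d * t * (Cj * (Real.exp 1 * Real.exp (-(D / t)))) with hB
  -- the bound for the circuits
  have hq : ∀ q : ℕ, 2 ≤ q → 2 * Cj ≤ q →
      stirExp (nnRate d L) t (fun g => if (cyc g 0).card ≤ n then 1 else 0) ≤
        stirExp (nnRate d L₀) t (fun g => if (cyc g 0).card ≤ n then 1 else 0) + B +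
          (CL + CL₀) / q := by
    intro q hq2 hqC
    have hq' : (0 : ℝ) < q := by
      have : 0 < q := by omega
      exact_mod_cast this
    have hδq : t / (K * q) * q = t / K := by field_simp
    have a2 : t / (K * q) * q ≤ 2 := by
      rw [hδq, div_le_iff₀ hKpos]; linarith
    have a0 : 0 < t / (K * q) := by positivity
    have hq2' : (2 : ℝ) ≤ q := by exact_mod_cast hq2
    have a3 : t / (K * q) ≤ 1 := by
      rw [div_le_one (by positivity)]
      nlinarith
    have a4 : Cj * (t / (K * q)) ≤ 1 := by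
      have : Cj * (t / (K * q)) = Cj * t / (K * q) := by ring
      rw [this, div_le_one (by positivity)]
      nlinarith
    set δ : ℝ := t / (K * q) with hδ
    have a6 : ((K * q : ℕ) : ℝ) * δ = t := by
      rw [hδ]; push_cast; field_simp
    have b1 := (hCL q (by omega) σ hσ δ a0.le a3 a2 (K * q) le_rfl).1
      (fun g => if (cyc g 0).card ≤ n then 1 else 0) (fun g => by split_ifs <;> norm_num)
    have b2 := (hCL₀ q (by omega) σ₀ hσ₀ δ a0.le a3 a2 (K * q) le_rfl).1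
      (fun g => if (cyc g 0).card ≤ n then 1 else 0) (fun g => by split_ifs <;> norm_num)
    rw [a6] at b1 b2
    have b3 := hloc (K * q) n D δ a0.le a3 hn
    -- the jumps
    have b4 : EE (K * q * ms d L) δ (fun ω => if ∃ y ∈ bal (0 : Fin d → ZMod L) R₀,
        D < jumps (ed ∘ σ) ω 0 (K * q * ms d L) y then (1 : ℝ) else 0) ≤ B := by
      have c1 : ∀ ω : ℕ → Bool, (if ∃ y ∈ bal (0 : Fin d → ZMod L) R₀,
          D < jumps (ed ∘ σ) ω 0 (K * q * ms d L) y then (1 : ℝ) else 0) ≤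
          ∑ p ∈ bal (0 : Fin d → ZMod L) R₀ ×ˢ Finset.range K,
            (if D / K < jumps (ed ∘ σ) ω (p.2 * (q * ms d L)) ((p.2 + 1) * (q * ms d L)) p.1
              then (1 : ℝ) else 0) := by
        intro ω
        split_ifs with h
        · obtain ⟨y, hy, hyD⟩ := h
          have c2 : ∃ j < K, D / K < jumps (ed ∘ σ) ω (j * (q * ms d L))
              ((j + 1) * (q * ms d L)) y := by
            by_contra hcon
            push Not at hcon
            have c3 := jumps_units (ed ∘ σ) ω (q * ms d L) y (D / K) K hcon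
            have c4 : K * (D / K) ≤ D := Nat.mul_div_le D K
            rw [← Nat.mul_assoc] at c3
            omega
          obtain ⟨j, hj, hjD⟩ := c2
          have c5 := Finset.single_le_sum (f := fun p : (Fin d → ZMod L) × ℕ =>
            (if D / K < jumps (ed ∘ σ) ω (p.2 * (q * ms d L)) ((p.2 + 1) * (q * ms d L)) p.1
              then (1 : ℝ) else 0)) (s := bal (0 : Fin d → ZMod L) R₀ ×ˢ Finset.range K)
            (fun p _ => by split_ifs <;> norm_num) (a := (y, j))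
            (Finset.mem_product.2 ⟨hy, Finset.mem_range.2 hj⟩)
          simp only [if_pos hjD] at c5
          exact c5
        · exact Finset.sum_nonneg fun p _ => by split_ifs <;> norm_num
      refine (Pool.Agent.Q68.LC.EE_mono a0.le a3 c1).trans ?_
      rw [Pool.Agent.Q277.LC.EE_sum]
      have c6 : ∀ p ∈ bal (0 : Fin d → ZMod L) R₀ ×ˢ Finset.range K,
          EE (K * q * ms d L) δ (fun ω => if D / K < jumps (ed ∘ σ) ω (p.2 * (q * ms d L))
            ((p.2 + 1) * (q * ms d L)) p.1 then (1 : ℝ) else 0) ≤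
            Cj * (Real.exp 1 * Real.exp (-(D / t))) := by
        intro p hp
        have hpK := Finset.mem_range.1 (Finset.mem_product.1 hp).2
        have c7 := hJ L hL3 σ hσ q K p.2 (D / K) δ p.1 a0 a4 a2 hpK
        rw [Nat.mul_assoc]
        refine c7.trans (mul_le_mul_of_nonneg_left ?_ (by linarith))
        rw [← Real.exp_add, Real.exp_le_exp]
        have c8 : (D : ℝ) < K * ((D / K : ℕ) : ℝ) + K := by
          have : D < K * (D / K) + K := by
            have e1 := Nat.div_add_mod D K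
            have e2 := Nat.mod_lt D hK1
            omega
          exact_mod_cast this
        have c9 : (D : ℝ) / K < ((D / K : ℕ) : ℝ) + 1 := by
          rw [div_lt_iff₀ hKpos]; linarith
        have c10 : (D : ℝ) / t ≤ D / K :=
          div_le_div_of_nonneg_left (Nat.cast_nonneg D) hKpos hKt
        linarith
      refine (Finset.sum_le_card_nsmul _ _ _ c6).trans ?_
      rw [Finset.card_product, Finset.card_range, nsmul_eq_mul, hB]
      have c11 : ((bal (0 : Fin d → ZMod L) R₀).card : ℝ) ≤ (2 * R₀ + 1) ^ d := by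
        exact_mod_cast Pool.Agent.Q277.LC.card_bal_le (0 : Fin d → ZMod L) R₀
      push_cast
      refine mul_le_mul_of_nonneg_right ?_ (by positivity)
      exact mul_le_mul c11 hKt (by positivity) (by positivity)
    have b5 := (abs_le.1 b1).1
    have b6 := (abs_le.1 b2).2
    rw [add_div]
    linarith
  have hlim : stirExp (nnRate d L) t (fun g => if (cyc g 0).card ≤ n then 1 else 0) ≤
      stirExp (nnRate d L₀) t (fun g => if (cyc g 0).card ≤ n then 1 else 0) + B := by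
    refine le_of_forall_pos_le_add fun ε hε => ?_
    obtain ⟨q₁, hq₁⟩ := exists_nat_gt (|CL + CL₀| / ε)
    obtain ⟨q₂, hq₂⟩ := exists_nat_gt (2 * Cj)
    set q := max (max 2 q₂) (q₁ + 1) with hqd
    have e1 : (q₂ : ℝ) ≤ q := by
      have : q₂ ≤ q := by omega
      exact_mod_cast this
    have h3 := hq q (by omega) (by linarith)
    refine h3.trans (add_le_add le_rfl ?_)
    have hq' : (q₁ : ℝ) < q := by
      have : q₁ < q := by omega
      exact_mod_cast this
    have hqp : (0 : ℝ) < q := by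
      have : 0 < q := by omega
      exact_mod_cast this
    rw [div_le_iff₀ hqp]
    have h4 : |CL + CL₀| < q * ε := by
      have := hq₁.trans hq'
      rwa [div_lt_iff₀ hε] at this
    linarith [le_abs_self (CL + CL₀)]
  refine hlim.trans (le_of_eq ?_)
  rw [hB]
  ring

theorem lcr : Pool.Agent.H961.T4.S_LCR := by
  intro d hd
  obtain ⟨C, hC, h⟩ := lcsG Pool.Agent.Q66.LC.jmp d hd
  refine ⟨C, hC, fun L L₀ R₀ _ _ h1 h2 t n D ht hn x x₀ => ?_⟩
  exact h L₀ L R₀ (h1.trans h2) h1 t n D ht hn x₀ x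

end Pool.Agent.H961.T4.Lcrh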