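import Pool.Agent.H961.T4.Stm3
import Pool.Agent.H961.T4.Llg

/-!
Project PN, job LLM (helper385): logarithmic law of the microscopic cycles in the plane, `n ≤ t^a`
-/

set_option autoImplicit false
set_option linter.unusedSectionVars false
set_option linter.unusedVariables false

namespace Pool.Agent.H961.T4.Llmh

open Finset Equiv Matrix Q292.LC Pool.Agent.H961.T2 Pool.Agent.H961.T3 Pool.Agent.H961.T4
open Pool.Agent.Y998.ST (stirExp nnRate cycleLen stirLaw nn_nonneg exp_mono exp_const law_nonneg)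
open Pool.Agent.H961.T4.Llgh (e_add e_smul e_abs up_bd lo_bd alg)

theorem llm (hMM2 : S_MM2) : S_LLM := by
  intro a ha0 ha1
  obtain ⟨m, hm⟩ := hMM2 ((1 + a) / 2) (by linarith) (by linarith)
  refine ⟨m, fun ε hε => ?_⟩
  obtain ⟨δ, hδ⟩ : ∃ δ : ℝ, δ = min 1 (ε / 32) := ⟨_, rfl⟩
  have hδ0 : 0 < δ := by rw [hδ]; exact lt_min one_pos (by positivity)
  have hδ1 : δ ≤ 1 := by rw [hδ]; exact min_le_left _ _
  have hδε : δ ≤ ε / 32 := by rw [hδ]; exact min_le_right _ _
  obtain ⟨η, hη⟩ : ∃ η : ℝ, η = min (1 / 2) (ε / 16) := ⟨_, rfl⟩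
  have hη0 : 0 < η := by rw [hη]; exact lt_min (by norm_num) (by positivity)
  have hη1 : η ≤ 1 / 2 := by rw [hη]; exact min_le_left _ _
  have hηε : η ≤ ε / 16 := by rw [hη]; exact min_le_right _ _
  obtain ⟨T₁, hT₁, hmo⟩ := hm (δ ^ 2) (by positivity)
  obtain ⟨lη, hlη⟩ : ∃ lη : ℝ, lη = Real.log (1 / η) := ⟨_, rfl⟩
  have hiη : 1 ≤ 1 / η := by rw [le_div_iff₀ hη0]; linarith
  have hlη0 : 0 ≤ lη := by rw [hlη]; exact Real.log_nonneg hiη
  obtain ⟨T, hT⟩ : ∃ T : ℝ, T = 3 + T₁ + 1 / η + Real.exp (8 * lη / ε) +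
    (1 / η) ^ (2 / (1 - a) : ℝ) := ⟨_, rfl⟩
  have p1 : 0 < 1 / η := by positivity
  have p2 : 0 < Real.exp (8 * lη / ε) := Real.exp_pos _
  have p3 : 0 < (1 / η) ^ (2 / (1 - a) : ℝ) := Real.rpow_pos_of_pos p1 _
  refine ⟨T, by rw [hT]; linarith, ?_⟩
  intro L _ t n htT htL hlog hnT hnt
  have ht3 : 3 ≤ t := by linarith
  have ht0 : 0 < t := by linarith
  have ht1 : 1 ≤ t := by linarith
  have hn3 : (3 : ℝ) ≤ n := by linarith
  have hn0 : (0 : ℝ) < n := by linarith
  have hn0' : 0 < n := by exact_mod_cast hn0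
  have hL9 : (9 : ℝ) ≤ L := by nlinarith
  have hL3 : 3 ≤ L := by
    have : (3 : ℝ) ≤ L := by linarith
    exact_mod_cast this
  have hT₁t : T₁ ≤ t := by linarith
  have hT₁L : T₁ * t ≤ L := le_trans (mul_le_mul_of_nonneg_right (by linarith) ht0.le) htL
  -- logarithm
  have hln1 : 1 ≤ Real.log n := by
    rw [Real.le_log_iff_exp_le hn0]
    have := Real.exp_one_lt_d9
    linarith
  have hln8 : 8 * lη / ε ≤ Real.log n := by
    rw [Real.le_log_iff_exp_le hn0]; linarith
  have hηn : 1 ≤ η * n := by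
    have : 1 / η ≤ n := by linarith
    rw [div_le_iff₀ hη0] at this; linarith
  have hηn0 : 0 < η * n := by linarith
  -- size condition
  have hsize : n / η ≤ t ^ ((1 + a) / 2 : ℝ) := by
    have h1 : (1 / η) ≤ t ^ ((1 - a) / 2 : ℝ) := by
      have h2 : ((1 / η) ^ (2 / (1 - a) : ℝ)) ^ ((1 - a) / 2 : ℝ) ≤ t ^ ((1 - a) / 2 : ℝ) :=
        Real.rpow_le_rpow p3.le (by linarith) (by linarith)
      rw [← Real.rpow_mul p1.le] at h2
      have h3 : (2 / (1 - a) : ℝ) * ((1 - a) / 2) = 1 := by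
        have h5 : (1 - a : ℝ) ≠ 0 := by linarith
        field_simp
      rwa [h3, Real.rpow_one] at h2
    have h4 : t ^ ((1 + a) / 2 : ℝ) = t ^ a * t ^ ((1 - a) / 2 : ℝ) := by
      rw [← Real.rpow_add ht0]
      congr 1
      ring
    rw [h4, div_eq_mul_one_div]
    exact mul_le_mul hnt h1 p1.le (Real.rpow_nonneg ht0.le _)
  have hsub : ∀ w : ℝ, 0 ≤ w → w < 1 → 1 / (1 - w) ≤ n / η →
      stirExp (nnRate 2 L) t (fun g => |4 * Real.pi * t / (L : ℝ) ^ 2 * sm w g -
        Real.log (1 / (1 - w))|) ≤ δ * (1 + Real.log (1 / (1 - w))) := by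
    intro w hw0 hw1 hw
    have hlw : 0 ≤ Real.log (1 / (1 - w)) := by
      apply Real.log_nonneg
      rw [le_div_iff₀ (by linarith)]; linarith
    have h := hmo L t w hL3 hT₁t hT₁L hlog hw0 hw1 (hw.trans hsize)
    refine e_abs (fun x y => nn_nonneg x y) ht0.le _ _ (by positivity) ?_
    rw [mul_pow]
    exact h
  -- the four values of w
  have q1 : 0 < η / n := by positivity
  have q1' : η / n ≤ 1 / 2 := le_trans (div_le_self hη0.le (by linarith)) hη1
  have q2 : 0 < 1 / (η * n) := by positivity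
  have q2' : 1 / (η * n) ≤ 1 := by rw [div_le_one hηn0]; exact hηn
  have q3 : 1 / (2 * η * n) = 1 / (η * n) / 2 := by field_simp
  have w1 := hsub (1 - η / n) (by linarith) (by linarith) (by
    rw [sub_sub_cancel, one_div_div])
  have w2 := hsub (1 - 1 / (η * n)) (by linarith) (by linarith) (by
    rw [sub_sub_cancel, one_div_one_div, le_div_iff₀ hη0]
    nlinarith)
  have w3 := hsub (1 - 1 / (2 * η * n)) (by rw [q3]; linarith) (by rw [q3]; linarith) (by
    rw [sub_sub_cancel, one_div_one_div, le_div_iff₀ hη0]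
    have : η * η ≤ 1 / 4 := by nlinarith
    nlinarith)
  rw [sub_sub_cancel, one_div_div] at w1
  rw [sub_sub_cancel, one_div_one_div] at w2 w3
  have l1 : Real.log (n / η) = Real.log n + lη := by
    rw [hlη, Real.log_div hn0.ne' hη0.ne', one_div, Real.log_inv]; ring
  have l2 : Real.log (η * n) = Real.log n - lη := by
    rw [hlη, Real.log_mul hη0.ne' hn0.ne', one_div, Real.log_inv]; ring
  have l3 : Real.log (2 * η * n) ≤ Real.log n := by
    apply Real.log_le_log (by positivity)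
    nlinarith
  have hθ : Real.exp (-(1 / (2 * η))) ≤ 2 * η := by
    have h1 := Real.add_one_le_exp (1 / (2 * η))
    have h2 : 0 < 1 / (2 * η) := by positivity
    rw [Real.exp_neg, inv_le_comm₀ (Real.exp_pos _) (by positivity)]
    rw [one_div] at h1 ⊢
    rw [one_div] at h2
    linarith
  -- pointwise bound
  have hpt : ∀ g : Perm (Fin 2 → ZMod L), |4 * Real.pi * t *
      (((univ.filter fun x => cycleLen g x ≤ n).card : ℝ) / (L : ℝ) ^ 2) - Real.log n| ≤
      2 * |4 * Real.pi * t / (L : ℝ) ^ 2 * sm (1 - η / n) g - Real.log (n / η)| +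
      |4 * Real.pi * t / (L : ℝ) ^ 2 * sm (1 - 1 / (η * n)) g - Real.log (η * n)| +
      |4 * Real.pi * t / (L : ℝ) ^ 2 * sm (1 - 1 / (2 * η * n)) g - Real.log (2 * η * n)| +
      (2 * lη + 4 * η * Real.log n) := by
    intro g
    have h := alg ((univ.filter fun x => cycleLen g x ≤ n).card : ℝ) (sm (1 - η / n) g)
      (sm (1 - 1 / (η * n)) g) (sm (1 - 1 / (2 * η * n)) g) (4 * Real.pi * t / (L : ℝ) ^ 2)
      η (Real.exp (-(1 / (2 * η)))) (Real.log n) lη (Real.log (n / η)) (Real.log (η * n))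
      (Real.log (2 * η * n)) (by positivity) hη0 hη1 (by positivity) (Real.exp_pos _).le hθ
      (by linarith) hlη0 (up_bd g n hn0' η hη0 hη1) (lo_bd g n hn0' η hη0 hηn) l1 l2 l3
    have e : 4 * Real.pi * t * (((univ.filter fun x => cycleLen g x ≤ n).card : ℝ) / (L : ℝ) ^ 2) =
        4 * Real.pi * t / (L : ℝ) ^ 2 * ((univ.filter fun x => cycleLen g x ≤ n).card : ℝ) := by
      ring
    rw [e]
    linarith
  have hE := exp_mono (J := nnRate 2 L) (fun x y => nn_nonneg x y) (t := t) ht0.le hpt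
  refine le_trans hE ?_
  rw [e_add, e_add, e_add, e_smul, exp_const]
  rw [l1] at w1
  rw [l2] at w2
  have g1 : δ * (1 + (Real.log n + lη)) = δ * (1 + Real.log n) + δ * lη := by ring
  have g2 : δ * (1 + (Real.log n - lη)) ≤ δ * (1 + Real.log n) :=
    mul_le_mul_of_nonneg_left (by linarith) hδ0.le
  have g3 : δ * (1 + Real.log (2 * η * n)) ≤ δ * (1 + Real.log n) :=
    mul_le_mul_of_nonneg_left (by linarith) hδ0.le
  have g4 : δ * lη ≤ 1 * lη := mul_le_mul_of_nonneg_right hδ1 hlη0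
  have g5 : δ * (1 + Real.log n) ≤ ε / 32 * (2 * Real.log n) :=
    mul_le_mul hδε (by linarith) (by linarith) (by positivity)
  have g6 : 4 * η * Real.log n ≤ 4 * (ε / 16) * Real.log n :=
    mul_le_mul_of_nonneg_right (by linarith) (by linarith)
  have g7 : 8 * lη ≤ ε * Real.log n := by
    rw [div_le_iff₀ hε] at hln8; linarith
  rw [← l1] at w1
  rw [← l2] at w2
  rw [l1] at w1 ⊢
  rw [l2] at w2 ⊢
  have hsum : 2 * (δ * (1 + Real.log n) + δ * lη) + δ * (1 + Real.log n) +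
      δ * (1 + Real.log n) + (2 * lη + 4 * η * Real.log n) ≤ ε * Real.log n := by
    nlinarith
  linarith

end Pool.Agent.H961.T4.Llmh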