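import Pool.Agent.H961.T4.Stm3
import Pool.Agent.H961.T4.Mo1

/-!
# Project PN, MM1: first moment in the plane, all scales
-/

set_option autoImplicit false

namespace Pool.Agent.H961.T4.Mm1h

open Finset Equiv Matrix Q292.LC Pool.Agent.H961.T2 Pool.Agent.H961.T3 Pool.Agent.H961.T4
open Pool.Agent.Y998.ST (stirExp nnRate qq hop cycleLen gk exp_const)
open Pool.Agent.H961.T4.Mo1h

theorem rpow_small {η c e t : ℝ} (hη : 0 < η) (hc : 0 < c) (he : 0 < e)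
    (ht : (c / e) ^ (1 / η) ≤ t) : c * t ^ (-η) ≤ e := by
  have hc0 : 0 < c / e := div_pos hc he
  have h1 : t ^ (-η) ≤ ((c / e) ^ (1 / η)) ^ (-η) :=
    Real.rpow_le_rpow_of_nonpos (by positivity) ht (by linarith)
  rw [← Real.rpow_mul hc0.le] at h1
  have h2 : 1 / η * -η = -1 := by
    field_simp
  rw [h2, Real.rpow_neg_one, inv_div, le_div_iff₀ hc] at h1
  linarith

theorem mm1 (hSTM : S_STM) (hALM : S_ALM) (hMKS : S_MKS) : S_MM1 := by
  intro a ha0 ha1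
  obtain ⟨η, hη⟩ : ∃ η : ℝ, η = (1 - a) / 16 := ⟨_, rfl⟩
  have hη0 : 0 < η := by rw [hη]; linarith
  have hη1 : η ≤ 1 / 16 := by rw [hη]; linarith
  obtain ⟨m, T₁, _, hT₁, hS⟩ := hSTM 2 le_rfl η hη0 hη1
  refine ⟨m, fun ε hε => ?_⟩
  obtain ⟨e, he0, he1, he8⟩ : ∃ e : ℝ, 0 < e ∧ e ≤ 1 ∧ 8 * e ≤ ε :=
    ⟨min (ε / 8) 1, lt_min (by linarith) one_pos, min_le_right _ _, by
      have := min_le_left (ε / 8) 1
      linarith⟩
  obtain ⟨T₂, hT₂, hA⟩ := hALM a ha0 ha1 e he0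
  have hpi := Real.pi_pos
  have hpi3 := Real.pi_gt_three
  obtain ⟨T₃, hT₃⟩ : ∃ T₃ : ℝ, T₃ = (16 * Real.pi / e) ^ (1 / η) := ⟨_, rfl⟩
  obtain ⟨T₅, hT₅⟩ : ∃ T₅ : ℝ, T₅ = ((2 : ℝ) / 1) ^ (1 / ((1 - a) / 2)) := ⟨_, rfl⟩
  refine ⟨max (max T₁ T₂) (max (max T₃ (4 * Real.pi / e)) (max T₅ 4)),
    le_trans hT₁ (le_trans (le_max_left _ _) (le_max_left _ _)), ?_⟩
  intro L _ t w hL hTt hTL hlog hw0 hw1 hw
  have hM1 : 1 ≤ max (max T₁ T₂) (max (max T₃ (4 * Real.pi / e)) (max T₅ 4)) :=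
    le_trans hT₁ (le_trans (le_max_left _ _) (le_max_left _ _))
  have ht1 : T₁ ≤ t := le_trans (le_trans (le_max_left _ _) (le_max_left _ _)) hTt
  have ht2 : T₂ ≤ t := le_trans (le_trans (le_max_right _ _) (le_max_left _ _)) hTt
  have ht3 : T₃ ≤ t :=
    le_trans (le_trans (le_max_left _ _) (le_trans (le_max_left _ _) (le_max_right _ _))) hTt
  have ht4 : 4 * Real.pi / e ≤ t :=
    le_trans (le_trans (le_max_right _ _) (le_trans (le_max_left _ _) (le_max_right _ _))) hTt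
  have ht5 : T₅ ≤ t :=
    le_trans (le_trans (le_max_left _ _) (le_trans (le_max_right _ _) (le_max_right _ _))) hTt
  have ht6 : 4 ≤ t :=
    le_trans (le_trans (le_max_right _ _) (le_trans (le_max_right _ _) (le_max_right _ _))) hTt
  have htone : 1 ≤ t := le_trans hT₁ ht1
  have ht0 : 0 < t := lt_of_lt_of_le one_pos htone
  have hT2L : T₂ * t ≤ L := by
    refine le_trans ?_ hTL
    exact mul_le_mul_of_nonneg_right (le_trans (le_max_right _ _) (le_max_left _ _)) ht0.le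
  have htL : t ≤ L := by
    refine le_trans ?_ hTL
    exact le_mul_of_one_le_left ht0.le hM1
  clear hM1 hTt hTL
  have hLr : (3 : ℝ) ≤ L := by exact_mod_cast hL
  have hL0 : (0 : ℝ) < L := by linarith
  have htL2 : t ^ 2 ≤ (L : ℝ) ^ 2 := pow_le_pow_left₀ ht0.le htL 2
  have hhalf : t ^ ((1 + a) / 2) ≤ t / 2 := by
    have h1 : 2 * t ^ (-((1 - a) / 2)) ≤ 1 :=
      rpow_small (by linarith) (by norm_num) one_pos (by rw [← hT₅]; exact ht5)
    have h2 : t ^ ((1 + a) / 2) = t * t ^ (-((1 - a) / 2)) := by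
      have h3 : (1 + a) / 2 = 1 + -((1 - a) / 2) := by ring
      rw [h3, Real.rpow_add ht0, Real.rpow_one]
    rw [h2]
    have h4 := mul_le_mul_of_nonneg_left h1 ht0.le
    linarith
  have hk₀ : ((⌈t ^ ((1 + a) / 2)⌉₊ : ℕ) : ℝ) ≤ t - 1 := by
    have h1 := Nat.ceil_lt_add_one (Real.rpow_nonneg ht0.le ((1 + a) / 2))
    linarith
  have hwη : 1 / (1 - w) ≤ t ^ (1 - 8 * η : ℝ) := by
    refine le_trans hw (Real.rpow_le_rpow_of_exponent_le htone ?_)
    rw [hη]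
    linarith
  obtain ⟨hA1, hA2⟩ := hA L t w hL ht2 hT2L hw0 hw1 hw
  have hS1 := hS L t w 1 ⌈t ^ ((1 + a) / 2)⌉₊ (fun _ => 1) hL ht1 hlog htL2 hw0 hw1 hwη hk₀
    (fun _ => ⟨zero_le_one, le_rfl⟩)
  have e1 : (fun g : Perm (Fin 2 → ZMod L) => sb w (fun _ => 1) g) = fun g => sm w g :=
    funext fun g => (hMKS _ g w hw0 hw1).1
  have e2 : (fun g : Perm (Fin 2 → ZMod L) =>
      mk (ι := Finset (Fin 2 → ZMod L)) card w (cycs g) (fun _ => 1)) = fun _ => 1 :=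
    funext fun g => (hMKS _ g w hw0 hw1).2.1
  have e3 : (fun g : Perm (Fin 2 → ZMod L) =>
      mk (ι := Finset (Fin 2 → ZMod L)) card w (cycs g)
        (fun J => (∑ C ∈ J, (C.card : ℝ)) * 1)) = fun g => sm w g := by
    funext g
    simp only [mul_one]
    exact (hMKS _ g w hw0 hw1).2.2.1
  rw [e1, e2, e3, exp_const, mul_one, mul_one] at hS1
  have hlam : 0 ≤ Real.log (1 / (1 - w)) := by
    apply Real.log_nonneg
    rw [le_div_iff₀ (by linarith)]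
    linarith
  have hτ' : 16 * Real.pi * t ^ (-η) ≤ e :=
    rpow_small hη0 (by positivity) he0 (by rw [← hT₃]; exact ht3)
  have hτ0 : 0 < t ^ (-η : ℝ) := Real.rpow_pos_of_pos ht0 _
  generalize stirExp (nnRate 2 L) t (fun g => sm w g) = S at hS1 ⊢
  generalize al 2 L t w ⌈t ^ ((1 + a) / 2)⌉₊ = α at hS1 hA1
  generalize t ^ (-η : ℝ) = τ at hS1 hτ' hτ0
  generalize w ^ ⌈t ^ ((1 + a) / 2)⌉₊ = ω at hS1 hA2
  have h1w : 0 < 1 - w := by linarith
  have h4τ : 4 * τ ≤ 16 * Real.pi * τ / 12 := by nlinarith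
  have ha : 0 < 4 * Real.pi * t / (L : ℝ) ^ 2 := by positivity
  have key : |4 * Real.pi * t / (L : ℝ) ^ 2 * S - 4 * Real.pi * t / (L : ℝ) ^ 2 * α| ≤
      16 * Real.pi * τ + 4 * Real.pi * t * (ω / (1 - w)) +
        4 * τ * (4 * Real.pi * t / (L : ℝ) ^ 2 * S) + 4 * Real.pi * t / (L : ℝ) ^ 4 := by
    rw [← mul_sub, abs_mul, abs_of_pos ha]
    refine le_trans (mul_le_mul_of_nonneg_left hS1 ha.le) (le_of_eq ?_)
    field_simp
    ring
  have hlast : 4 * Real.pi * t / (L : ℝ) ^ 4 ≤ e := by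
    have h1 : t ^ 2 ≤ (L : ℝ) ^ 4 := by
      refine le_trans htL2 ?_
      exact pow_le_pow_right₀ (by linarith) (by norm_num)
    have h2 : 4 * Real.pi ≤ e * t := by
      rw [div_le_iff₀ he0] at ht4
      linarith
    rw [div_le_iff₀ (by positivity)]
    calc 4 * Real.pi * t ≤ e * t * t := mul_le_mul_of_nonneg_right h2 ht0.le
      _ = e * t ^ 2 := by ring
      _ ≤ e * (L : ℝ) ^ 4 := mul_le_mul_of_nonneg_left h1 he0.le
  have hfin := mo1_arith (4 * Real.pi * t / (L : ℝ) ^ 2 * S) (4 * Real.pi * t / (L : ℝ) ^ 2 * α)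
    (Real.log (1 / (1 - w))) e (4 * τ) (4 * Real.pi * t * (ω / (1 - w))) (16 * Real.pi * τ)
    (4 * Real.pi * t / (L : ℝ) ^ 4) hlam (by linarith) (by linarith) (by linarith) key hA1 hA2
    hτ' hlast
  refine le_trans hfin (mul_le_mul_of_nonneg_right he8 (by linarith))

end Pool.Agent.H961.T4.Mm1h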