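import Pool.Agent.H961.T4.Stm3
import Pool.Agent.H961.T4.Mm1

/-!
# Project PN, MM2: second moment in the plane, all scales
-/

set_option autoImplicit false

namespace Pool.Agent.H961.T4.Mm2h

open Finset Equiv Matrix Q292.LC Pool.Agent.H961.T2 Pool.Agent.H961.T3 Pool.Agent.H961.T4
open Pool.Agent.Y998.ST (stirExp nnRate qq hop cycleLen gk exp_const exp_mono exp_nonneg nn_nonneg)
open Pool.Agent.H961.T4.Mm1h (rpow_small)

section gen
variable {V : Type} [Fintype V] [DecidableEq V]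

theorem e_add (J : V → V → ℝ) (t : ℝ) (F G : Perm V → ℝ) :
    stirExp J t (fun g => F g + G g) = stirExp J t F + stirExp J t G := by
  unfold stirExp
  rw [← Finset.sum_add_distrib]
  exact Finset.sum_congr rfl fun g _ => by ring

theorem e_mul (J : V → V → ℝ) (t : ℝ) (c : ℝ) (F : Perm V → ℝ) :
    stirExp J t (fun g => c * F g) = c * stirExp J t F := by
  unfold stirExp
  rw [Finset.mul_sum]
  exact Finset.sum_congr rfl fun g _ => by ring

/-- the mass of a set of cycles -/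
noncomputable def M (J : Finset (Finset V)) : ℝ := ∑ C ∈ J, (C.card : ℝ)

/-- the truncated mass -/
noncomputable def Hh (J : Finset (Finset V)) : ℝ := min (M J) (Fintype.card V)

omit [Fintype V] [DecidableEq V] in
theorem M_nonneg (J : Finset (Finset V)) : 0 ≤ M J :=
  Finset.sum_nonneg fun _ _ => Nat.cast_nonneg _

theorem cyc_eq_of_mem (g : Perm V) {x y : V} (h : x ∈ cyc g y) : cyc g x = cyc g y := by
  unfold cyc at h ⊢
  rw [Finset.mem_filter] at h
  ext z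
  rw [Finset.mem_filter, Finset.mem_filter]
  constructor
  · rintro ⟨_, hz⟩
    exact ⟨Finset.mem_univ _, h.2.trans hz⟩
  · rintro ⟨_, hz⟩
    exact ⟨Finset.mem_univ _, h.2.symm.trans hz⟩

theorem M_cycs (g : Perm V) : M (cycs g) ≤ Fintype.card V := by
  unfold M
  have h1 : ∑ C ∈ cycs g, C.card ≤ Fintype.card V := by
    rw [← Finset.card_univ, Finset.card_eq_sum_card_image (cyc g) univ]
    unfold cycs
    refine Finset.sum_le_sum fun C hC => Finset.card_le_card fun x hx => ?_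
    obtain ⟨y, _, rfl⟩ := Finset.mem_image.mp hC
    exact Finset.mem_filter.mpr ⟨Finset.mem_univ _, cyc_eq_of_mem g hx⟩
  exact_mod_cast h1

theorem Hh_eq (g : Perm V) {J : Finset (Finset V)} (hJ : J ⊆ cycs g) : Hh J = M J := by
  unfold Hh
  refine min_eq_left (le_trans ?_ (M_cycs g))
  exact Finset.sum_le_sum_of_subset_of_nonneg hJ fun _ _ _ => Nat.cast_nonneg _

theorem mk_congr (g : Perm V) (w : ℝ) {s : Finset (Finset V)} (hs : s ⊆ cycs g)
    (F G : Finset (Finset V) → ℝ) (h : ∀ J ⊆ cycs g, F J = G J) :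
    mk (ι := Finset V) card w s F = mk (ι := Finset V) card w s G := by
  unfold Pool.Agent.H961.T3.mk
  refine Finset.sum_congr rfl fun J hJ => ?_
  rw [h J ((Finset.mem_powerset.mp hJ).trans hs)]

theorem sb_congr (g : Perm V) (w : ℝ) (F G : Finset (Finset V) → ℝ)
    (h : ∀ J ⊆ cycs g, F J = G J) : sb w F g = sb w G g := by
  unfold sb
  refine Finset.sum_congr rfl fun C _ => ?_
  rw [mk_congr g w (Finset.erase_subset _ _) F G h]

end gen

/-- the final arithmetic step -/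
theorem mm2_arith (s1 s2 A y q lam e τ v : ℝ) (hlam : 0 ≤ lam) (he : 0 ≤ e) (he2 : e ≤ 1 / 2)
    (hs2 : 0 ≤ s2) (hs1 : 0 ≤ s1) (hτ : 0 ≤ τ) (hτe : 4 * τ ≤ e) (hv : v ≤ 2 * e) (hq : q ≤ e)
    (h1 : |s1 - lam| ≤ e * (1 + lam)) (h2 : |A - lam| ≤ e * (1 + lam)) (hy : y ≤ e * (1 + lam))
    (h : s2 - y ≤ A * s1 + v * s1 + 4 * τ * (s2 + y) + q) :
    s2 - 2 * lam * s1 + lam ^ 2 ≤ 24 * e * (1 + lam) ^ 2 := by
  obtain ⟨U, hU⟩ : ∃ U : ℝ, U = 1 + lam := ⟨_, rfl⟩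
  have hU1 : 1 ≤ U := by linarith
  have hU0 : 0 ≤ U := by linarith
  rw [← hU] at h1 h2 hy ⊢
  rw [abs_le] at h1 h2
  have heU : 0 ≤ e * U := mul_nonneg he hU0
  have hlU : lam ≤ U := by linarith
  have hUU : U ≤ U ^ 2 := le_self_pow₀ hU1 (by norm_num)
  have hs1u : s1 ≤ lam + e * U := by linarith
  have hAu : A ≤ lam + e * U := by linarith
  have heUU : e * U ≤ U := mul_le_of_le_one_left hU0 (by linarith)
  have a1 : A * s1 ≤ (lam + e * U) * (lam + e * U) :=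
    le_trans (mul_le_mul_of_nonneg_right hAu hs1) (mul_le_mul_of_nonneg_left hs1u (by linarith))
  have a2 : v * s1 ≤ 2 * e * (lam + e * U) :=
    le_trans (mul_le_mul_of_nonneg_right hv hs1) (mul_le_mul_of_nonneg_left hs1u (by linarith))
  have a3 : 4 * τ * (s2 + y) ≤ e * s2 + e * U := by
    have h3 : 4 * τ * s2 ≤ e * s2 := mul_le_mul_of_nonneg_right hτe hs2
    have h4 : 4 * τ * y ≤ 4 * τ * (e * U) := mul_le_mul_of_nonneg_left hy (by linarith)
    have h5 : 4 * τ * (e * U) ≤ 1 * (e * U) := mul_le_mul_of_nonneg_right (by linarith) heU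
    have h6 : 4 * τ * (s2 + y) = 4 * τ * s2 + 4 * τ * y := by ring
    rw [h6]
    linarith
  have b1 : e * U * (e * U) ≤ e * U ^ 2 := by
    have : e * U * (e * U) ≤ e * U * U := mul_le_mul_of_nonneg_left heUU heU
    have h6 : e * U * U = e * U ^ 2 := by ring
    rwa [h6] at this
  have b2 : lam * (e * U) ≤ e * U ^ 2 := by
    have : lam * (e * U) ≤ U * (e * U) := mul_le_mul_of_nonneg_right hlU heU
    have h6 : U * (e * U) = e * U ^ 2 := by ring
    rwa [h6] at this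
  have b3 : e * lam ≤ e * U ^ 2 := mul_le_mul_of_nonneg_left (hlU.trans hUU) he
  have b4 : e * (e * U) ≤ e * U ^ 2 := mul_le_mul_of_nonneg_left (heUU.trans hUU) he
  have b5 : e * U ≤ e * U ^ 2 := mul_le_mul_of_nonneg_left hUU he
  have b6 : e ≤ e * U ^ 2 := le_mul_of_one_le_right he (hU1.trans hUU)
  have c1 : s2 * (1 - e) ≤ lam ^ 2 + 10 * (e * U ^ 2) := by
    have h6 : (lam + e * U) * (lam + e * U) = lam ^ 2 + 2 * (lam * (e * U)) + e * U * (e * U) := by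
      ring
    have h7 : 2 * e * (lam + e * U) = 2 * (e * lam) + 2 * (e * (e * U)) := by ring
    have h8 : s2 * (1 - e) = s2 - e * s2 := by ring
    rw [h6] at a1
    rw [h7] at a2
    rw [h8]
    linarith
  have hX : 0 ≤ e * U ^ 2 := by positivity
  have hl2 : lam ^ 2 ≤ U ^ 2 := pow_le_pow_left₀ hlam hlU 2
  have c2 : s2 ≤ lam ^ 2 + 22 * (e * U ^ 2) := by
    by_contra hcon
    push Not at hcon
    have c3 : (lam ^ 2 + 22 * (e * U ^ 2)) * (1 - e) < s2 * (1 - e) :=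
      mul_lt_mul_of_pos_right hcon (by linarith)
    have c4 : e * lam ^ 2 ≤ e * U ^ 2 := mul_le_mul_of_nonneg_left hl2 he
    have c5 : e * (e * U ^ 2) ≤ 1 / 2 * (e * U ^ 2) := mul_le_mul_of_nonneg_right he2 hX
    have h6 : (lam ^ 2 + 22 * (e * U ^ 2)) * (1 - e) = lam ^ 2 + 22 * (e * U ^ 2) - e * lam ^ 2 -
      22 * (e * (e * U ^ 2)) := by ring
    rw [h6] at c3
    linarith
  have c6 : lam * (lam - e * U) ≤ lam * s1 := mul_le_mul_of_nonneg_left (by linarith) hlam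
  have h6 : lam * (lam - e * U) = lam ^ 2 - lam * (e * U) := by ring
  have h7 : 2 * lam * s1 = 2 * (lam * s1) := by ring
  have h8 : 24 * e * U ^ 2 = 24 * (e * U ^ 2) := by ring
  rw [h6] at c6
  rw [h7, h8]
  linarith

theorem mm2 (hSTM : S_STM) (hALM : S_ALM) (hMKS : S_MKS) (hMM1 : S_MM1) : S_MM2 := by
  intro a ha0 ha1
  obtain ⟨η, hη⟩ : ∃ η : ℝ, η = (1 - a) / 16 := ⟨_, rfl⟩
  have hη0 : 0 < η := by rw [hη]; linarith
  have hη1 : η ≤ 1 / 16 := by rw [hη]; linarith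
  obtain ⟨m₁, T₁, _, hT₁, hS⟩ := hSTM 2 le_rfl η hη0 hη1
  obtain ⟨m₂, hm₂⟩ := hMM1 a ha0 ha1
  obtain ⟨m₃, hm₃⟩ := hMM1 ((1 + a) / 2) (by linarith) (by linarith)
  refine ⟨m₁ + m₂ + m₃, fun ε hε => ?_⟩
  obtain ⟨e, he0, he1, he24⟩ : ∃ e : ℝ, 0 < e ∧ e ≤ 1 / 2 ∧ 24 * e ≤ ε :=
    ⟨min (ε / 24) (1 / 2), lt_min (by linarith) (by norm_num), min_le_right _ _, by
      have := min_le_left (ε / 24) (1 / 2)
      linarith⟩
  obtain ⟨T₂, hT₂, hA⟩ := hALM a ha0 ha1 e he0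
  obtain ⟨T₃, hT₃, hB⟩ := hm₂ e he0
  obtain ⟨T₄, hT₄, hC⟩ := hm₃ 1 one_pos
  have hpi := Real.pi_pos
  have hpi3 := Real.pi_gt_three
  obtain ⟨T₅, hT₅⟩ : ∃ T₅ : ℝ, T₅ = (16 * Real.pi / e) ^ (1 / η) := ⟨_, rfl⟩
  obtain ⟨T₆, hT₆⟩ : ∃ T₆ : ℝ, T₆ = ((2 : ℝ) / 1) ^ (1 / ((1 - a) / 2)) := ⟨_, rfl⟩
  obtain ⟨T₇, hT₇⟩ : ∃ T₇ : ℝ, T₇ = (24 * Real.pi / e) ^ (1 / (1 - a)) := ⟨_, rfl⟩
  obtain ⟨T₈, hT₈⟩ : ∃ T₈ : ℝ, T₈ = 4 * Real.pi / e := ⟨_, rfl⟩
  obtain ⟨T, k1, k2, k3, k4, k5, k6, k7, k8, k9⟩ : ∃ T : ℝ, T₁ ≤ T ∧ T₂ ≤ T ∧ T₃ ≤ T ∧ T₄ ≤ T ∧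
      T₅ ≤ T ∧ T₆ ≤ T ∧ T₇ ≤ T ∧ T₈ ≤ T ∧ 4 ≤ T :=
    ⟨max (max (max T₁ T₂) (max T₃ T₄)) (max (max (max T₅ T₆) (max T₇ T₈)) 4),
      le_trans (le_trans (le_max_left _ _) (le_max_left _ _)) (le_max_left _ _),
      le_trans (le_trans (le_max_right _ _) (le_max_left _ _)) (le_max_left _ _),
      le_trans (le_trans (le_max_left _ _) (le_max_right _ _)) (le_max_left _ _),
      le_trans (le_trans (le_max_right _ _) (le_max_right _ _)) (le_max_left _ _),
      le_trans (le_trans (le_trans (le_max_left _ _) (le_max_left _ _)) (le_max_left _ _))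
        (le_max_right _ _),
      le_trans (le_trans (le_trans (le_max_right _ _) (le_max_left _ _)) (le_max_left _ _))
        (le_max_right _ _),
      le_trans (le_trans (le_trans (le_max_left _ _) (le_max_right _ _)) (le_max_left _ _))
        (le_max_right _ _),
      le_trans (le_trans (le_trans (le_max_right _ _) (le_max_right _ _)) (le_max_left _ _))
        (le_max_right _ _),
      le_trans (le_max_right _ _) (le_max_right _ _)⟩
  refine ⟨T, le_trans hT₁ k1, ?_⟩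
  intro L _ t w hL hTt hTL hlog hw0 hw1 hw
  have ht0 : 0 < t := by linarith
  have htone : 1 ≤ t := by linarith
  have hTi : ∀ T' : ℝ, T' ≤ T → T' * t ≤ L := fun T' h =>
    le_trans (mul_le_mul_of_nonneg_right h ht0.le) hTL
  have htL : t ≤ L := by
    have := hTi 1 (by linarith)
    linarith
  have hLr : (3 : ℝ) ≤ L := by exact_mod_cast hL
  have hL0 : (0 : ℝ) < L := by linarith
  have htL2 : t ^ 2 ≤ (L : ℝ) ^ 2 := pow_le_pow_left₀ ht0.le htL 2
  have hlogL : 1 ≤ Real.log L := by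
    rw [Real.le_log_iff_exp_le hL0]
    have := Real.exp_one_lt_d9
    linarith
  have hli : ∀ i : ℕ, i ≤ m₁ + m₂ + m₃ → (Real.log L) ^ i ≤ t := fun i hi =>
    le_trans (pow_le_pow_right₀ hlogL hi) hlog
  have hhalf : 2 * t ^ a ≤ t ^ ((1 + a) / 2) := by
    have h1 : 2 * t ^ (-((1 - a) / 2)) ≤ 1 :=
      rpow_small (by linarith) (by norm_num) one_pos (by rw [← hT₆]; linarith)
    have h2 : t ^ a = t ^ ((1 + a) / 2) * t ^ (-((1 - a) / 2)) := by
      rw [← Real.rpow_add ht0]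
      congr 1
      ring
    rw [h2]
    have h4 := mul_le_mul_of_nonneg_left h1 (Real.rpow_nonneg ht0.le ((1 + a) / 2))
    linarith
  have hhalf2 : t ^ ((1 + a) / 2) ≤ t / 2 := by
    have h1 : 2 * t ^ (-((1 - a) / 2)) ≤ 1 :=
      rpow_small (by linarith) (by norm_num) one_pos (by rw [← hT₆]; linarith)
    have h2 : t ^ ((1 + a) / 2) = t * t ^ (-((1 - a) / 2)) := by
      have h3 : (1 + a) / 2 = 1 + -((1 - a) / 2) := by ring
      rw [h3, Real.rpow_add ht0, Real.rpow_one]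
    rw [h2]
    have h4 := mul_le_mul_of_nonneg_left h1 ht0.le
    linarith
  have hk₀ : ((⌈t ^ ((1 + a) / 2)⌉₊ : ℕ) : ℝ) ≤ t - 1 := by
    have h1 := Nat.ceil_lt_add_one (Real.rpow_nonneg ht0.le ((1 + a) / 2))
    linarith
  have hwη : 1 / (1 - w) ≤ t ^ (1 - 8 * η : ℝ) := by
    refine le_trans hw (Real.rpow_le_rpow_of_exponent_le htone ?_)
    rw [hη]
    linarith
  have h1w : 0 < 1 - w := by linarith
  have hw'0 : 0 ≤ (1 + w) / 2 := by linarith
  have hw'1 : (1 + w) / 2 < 1 := by linarith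
  have hww : 1 / (1 - (1 + w) / 2) = 2 * (1 / (1 - w)) := by
    have h1 : 1 - (1 + w) / 2 = (1 - w) / 2 := by ring
    rw [h1]
    field_simp
  obtain ⟨hA1, hA2⟩ := hA L t w hL (by linarith) (hTi _ k2) hw0 hw1 hw
  have hB1 := hB L t w hL (by linarith) (hTi _ k3) (hli _ (by omega)) hw0 hw1 hw
  have hC1 := hC L t ((1 + w) / 2) hL (by linarith) (hTi _ k4) (hli _ (by omega)) hw'0 hw'1
    (by rw [hww]; linarith)
  have hcard : (Fintype.card (Fin 2 → ZMod L) : ℝ) = (L : ℝ) ^ 2 := by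
    rw [Fintype.card_fun, ZMod.card, Fintype.card_fin]
    push_cast
    rfl
  have hS1 := hS L t w ((L : ℝ) ^ 2) ⌈t ^ ((1 + a) / 2)⌉₊ Hh hL (by linarith) (hli _ (by omega))
    htL2 hw0 hw1 hwη hk₀ (fun J => ⟨le_min (M_nonneg J) (Nat.cast_nonneg _), by
      rw [← hcard]
      exact min_le_right _ _⟩)
  have hnn : ∀ x y : Fin 2 → ZMod L, 0 ≤ nnRate 2 L x y := fun x y => nn_nonneg x y
  have e2 : (fun g : Perm (Fin 2 → ZMod L) =>
      mk (ι := Finset (Fin 2 → ZMod L)) card w (cycs g) Hh) = fun g => sm w g := by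
    funext g
    rw [mk_congr g w (subset_refl _) Hh M fun J hJ => Hh_eq g hJ]
    exact (hMKS _ g w hw0 hw1).2.2.1
  obtain ⟨Y, hY⟩ : ∃ Y : Perm (Fin 2 → ZMod L) → ℝ,
      Y = fun g => ∑ x, ((cyc g x).card : ℝ) * w ^ (cyc g x).card := ⟨_, rfl⟩
  have e1 : stirExp (nnRate 2 L) t (fun g => (sm w g) ^ 2) - stirExp (nnRate 2 L) t Y ≤
      stirExp (nnRate 2 L) t (fun g => sb w Hh g) := by
    have h1 : stirExp (nnRate 2 L) t (fun g => (sm w g) ^ 2 + (-1) * Y g) ≤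
        stirExp (nnRate 2 L) t (fun g => sb w Hh g) := by
      refine exp_mono hnn ht0.le fun g => ?_
      rw [sb_congr g w Hh M fun J hJ => Hh_eq g hJ]
      have := (hMKS _ g w hw0 hw1).2.2.2.1
      have h2 : Y g = ∑ x, ((cyc g x).card : ℝ) * w ^ (cyc g x).card := by rw [hY]
      rw [h2]
      have h3 : sb w M g = sb w (fun J => ∑ C ∈ J, (C.card : ℝ)) g := rfl
      rw [h3]
      linarith
    rw [e_add, e_mul] at h1
    linarith
  have e3 : stirExp (nnRate 2 L) t (fun g : Perm (Fin 2 → ZMod L) =>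
      mk (ι := Finset (Fin 2 → ZMod L)) card w (cycs g)
        (fun J => (∑ C ∈ J, (C.card : ℝ)) * Hh J)) ≤
      stirExp (nnRate 2 L) t (fun g => (sm w g) ^ 2) + stirExp (nnRate 2 L) t Y := by
    rw [← e_add]
    refine exp_mono hnn ht0.le fun g => ?_
    rw [mk_congr g w (subset_refl _) (fun J => (∑ C ∈ J, (C.card : ℝ)) * Hh J)
      (fun J => (∑ C ∈ J, (C.card : ℝ)) * ∑ C ∈ J, (C.card : ℝ)) fun J hJ => by
        show (∑ C ∈ J, (C.card : ℝ)) * Hh J = _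
        rw [Hh_eq g hJ]
        rfl]
    have h2 : Y g = ∑ x, ((cyc g x).card : ℝ) * w ^ (cyc g x).card := by rw [hY]
    rw [h2]
    exact (hMKS _ g w hw0 hw1).2.2.2.2.1
  have e4 : stirExp (nnRate 2 L) t Y ≤
      2 / (1 - w) * stirExp (nnRate 2 L) t (fun g => sm ((1 + w) / 2) g) := by
    rw [← e_mul]
    refine exp_mono hnn ht0.le fun g => ?_
    have h2 : Y g = ∑ x, ((cyc g x).card : ℝ) * w ^ (cyc g x).card := by rw [hY]
    rw [h2]
    exact (hMKS _ g w hw0 hw1).2.2.2.2.2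
  have e5 : stirExp (nnRate 2 L) t (fun g => (4 * Real.pi * t / (L : ℝ) ^ 2 * sm w g -
      Real.log (1 / (1 - w))) ^ 2) =
      (4 * Real.pi * t / (L : ℝ) ^ 2) ^ 2 * stirExp (nnRate 2 L) t (fun g => (sm w g) ^ 2) -
      2 * Real.log (1 / (1 - w)) * (4 * Real.pi * t / (L : ℝ) ^ 2 *
        stirExp (nnRate 2 L) t (fun g => sm w g)) + Real.log (1 / (1 - w)) ^ 2 := by
    have h1 : (fun g : Perm (Fin 2 → ZMod L) => (4 * Real.pi * t / (L : ℝ) ^ 2 * sm w g -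
        Real.log (1 / (1 - w))) ^ 2) = fun g => (4 * Real.pi * t / (L : ℝ) ^ 2) ^ 2 *
        (sm w g) ^ 2 + ((-(2 * Real.log (1 / (1 - w)) * (4 * Real.pi * t / (L : ℝ) ^ 2))) *
        sm w g + Real.log (1 / (1 - w)) ^ 2) := by
      funext g
      ring
    rw [h1, e_add, e_mul, e_add, e_mul, exp_const]
    ring
  have hs1 : 0 ≤ stirExp (nnRate 2 L) t (fun g => sm w g) :=
    exp_nonneg hnn ht0.le fun g => Finset.sum_nonneg fun x _ => pow_nonneg hw0 _
  have hs2 : 0 ≤ stirExp (nnRate 2 L) t (fun g => (sm w g) ^ 2) :=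
    exp_nonneg hnn ht0.le fun g => sq_nonneg _
  rw [e5]
  rw [e2] at hS1
  have hlam : 0 ≤ Real.log (1 / (1 - w)) := by
    apply Real.log_nonneg
    rw [le_div_iff₀ (by linarith)]
    linarith
  have hlog' : Real.log (1 / (1 - (1 + w) / 2)) ≤ 1 + Real.log (1 / (1 - w)) := by
    rw [hww, Real.log_mul (by norm_num) (by positivity)]
    have := Real.log_two_lt_d9
    linarith
  have hτ' : 16 * Real.pi * t ^ (-η) ≤ e :=
    rpow_small hη0 (by positivity) he0 (by rw [← hT₅]; linarith)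
  have hτ0 : 0 < t ^ (-η : ℝ) := Real.rpow_pos_of_pos ht0 _
  have hta : 24 * Real.pi * t ^ (-(1 - a)) ≤ e :=
    rpow_small (by linarith) (by positivity) he0 (by rw [← hT₇]; linarith)
  have hta2 : t ^ a = t * t ^ (-(1 - a)) := by
    have h3 : a = 1 + -(1 - a) := by ring
    nth_rewrite 1 [h3]
    rw [Real.rpow_add ht0, Real.rpow_one]
  generalize stirExp (nnRate 2 L) t (fun g => sm w g) = S at hS1 hB1 hs1 ⊢
  generalize stirExp (nnRate 2 L) t (fun g => (sm w g) ^ 2) = S2 at e1 e3 hs2 ⊢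
  generalize stirExp (nnRate 2 L) t (fun g => sm ((1 + w) / 2) g) = S' at e4 hC1
  generalize stirExp (nnRate 2 L) t Y = Yb at e1 e3 e4
  generalize stirExp (nnRate 2 L) t (fun g => sb w Hh g) = B at e1 hS1
  generalize stirExp (nnRate 2 L) t (fun g : Perm (Fin 2 → ZMod L) =>
      mk (ι := Finset (Fin 2 → ZMod L)) card w (cycs g)
        (fun J => (∑ C ∈ J, (C.card : ℝ)) * Hh J)) = D at e3 hS1
  generalize al 2 L t w ⌈t ^ ((1 + a) / 2)⌉₊ = α at hS1 hA1
  generalize w ^ ⌈t ^ ((1 + a) / 2)⌉₊ = ω at hS1 hA2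
  generalize hlamdef : Real.log (1 / (1 - w)) = lam at *
  generalize t ^ (-η : ℝ) = τ at hS1 hτ' hτ0
  obtain ⟨c, hc⟩ : ∃ c : ℝ, c = 4 * Real.pi * t / (L : ℝ) ^ 2 := ⟨_, rfl⟩
  rw [← hc] at hA1 hB1 hC1 ⊢
  have hc0 : 0 < c := by rw [hc]; positivity
  have hct : c * t ≤ 4 * Real.pi := by
    rw [hc, div_mul_eq_mul_div, div_le_iff₀ (by positivity)]
    calc 4 * Real.pi * t * t = 4 * Real.pi * t ^ 2 := by ring
      _ ≤ 4 * Real.pi * (L : ℝ) ^ 2 := mul_le_mul_of_nonneg_left htL2 (by positivity)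
  have hce : c ≤ e := by
    have h2 : 4 * Real.pi ≤ e * t := by
      have : 4 * Real.pi / e ≤ t := by rw [← hT₈]; linarith
      rw [div_le_iff₀ he0] at this
      linarith
    have h3 : c * t ≤ e * t := le_trans hct h2
    exact le_of_mul_le_mul_right h3 ht0
  have hyb : c ^ 2 * Yb ≤ e * (1 + lam) := by
    have h1 : c * S' ≤ 3 * (1 + lam) := by
      have := (abs_le.mp hC1).2
      linarith
    have h2 : 2 / (1 - w) ≤ 2 * t ^ a := by
      have : 2 / (1 - w) = 2 * (1 / (1 - w)) := by ring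
      rw [this]
      linarith
    have hta0 : 0 ≤ t ^ a := Real.rpow_nonneg ht0.le a
    have h5 : c * (2 / (1 - w)) ≤ c * (2 * t ^ a) := mul_le_mul_of_nonneg_left h2 hc0.le
    have h6 : c * (2 * t ^ a) ≤ 8 * Real.pi * t ^ (-(1 - a)) := by
      rw [hta2]
      have h7 : 0 ≤ t ^ (-(1 - a)) := Real.rpow_nonneg ht0.le _
      have h8 := mul_le_mul_of_nonneg_right hct h7
      have h10 : c * (2 * (t * t ^ (-(1 - a)))) = 2 * (c * t * t ^ (-(1 - a))) := by ring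
      rw [h10]
      linarith
    have h9 : 0 ≤ c * (2 / (1 - w)) := by positivity
    calc c ^ 2 * Yb ≤ c ^ 2 * (2 / (1 - w) * S') := mul_le_mul_of_nonneg_left e4 (by positivity)
      _ = c * (2 / (1 - w)) * (c * S') := by ring
      _ ≤ c * (2 / (1 - w)) * (3 * (1 + lam)) := mul_le_mul_of_nonneg_left h1 h9
      _ ≤ 8 * Real.pi * t ^ (-(1 - a)) * (3 * (1 + lam)) :=
        mul_le_mul_of_nonneg_right (h5.trans h6) (by linarith)
      _ = 24 * Real.pi * t ^ (-(1 - a)) * (1 + lam) := by ring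
      _ ≤ e * (1 + lam) := mul_le_mul_of_nonneg_right hta (by linarith)
  have hL2 : (0 : ℝ) < (L : ℝ) ^ 2 := by positivity
  have hmain : S2 - Yb ≤ α * S + (4 * τ * ((L : ℝ) ^ 2 / t) + (L : ℝ) ^ 2 * ω / (1 - w)) * S +
      4 * τ * (S2 + Yb) + 1 := by
    have h1 := (abs_le.mp hS1).2
    have h2 : (L : ℝ) ^ 2 / (L : ℝ) ^ 2 = 1 := div_self hL2.ne'
    rw [h2] at h1
    have h3 : 4 * τ * D ≤ 4 * τ * (S2 + Yb) := mul_le_mul_of_nonneg_left e3 (by linarith)
    linarith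
  have hcL : c * ((L : ℝ) ^ 2 / t) = 4 * Real.pi := by
    rw [hc]
    field_simp
  have hcL2 : c * ((L : ℝ) ^ 2 * ω / (1 - w)) = 4 * Real.pi * t * (ω / (1 - w)) := by
    rw [hc]
    field_simp
  have h4τ : 4 * τ ≤ e := by
    have := mul_le_mul_of_nonneg_right hpi3.le hτ0.le
    linarith
  have hcc : c ^ 2 ≤ e := by
    have h1 : c * c ≤ c * 1 := mul_le_mul_of_nonneg_left (by linarith) hc0.le
    rw [sq]
    linarith
  have hfin := mm2_arith (c * S) (c ^ 2 * S2) (c * α) (c ^ 2 * Yb) (c ^ 2) lam e τ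
    (16 * Real.pi * τ + 4 * Real.pi * t * (ω / (1 - w))) hlam he0.le he1 (by positivity)
    (by positivity) hτ0.le h4τ (by linarith) hcc hB1 hA1 hyb (by
      have h1 := mul_le_mul_of_nonneg_left hmain (sq_nonneg c)
      have h2 : c ^ 2 * (α * S + (4 * τ * ((L : ℝ) ^ 2 / t) + (L : ℝ) ^ 2 * ω / (1 - w)) * S +
          4 * τ * (S2 + Yb) + 1) = c * α * (c * S) + (4 * τ * (c * ((L : ℝ) ^ 2 / t)) +
          c * ((L : ℝ) ^ 2 * ω / (1 - w))) * (c * S) +
          4 * τ * (c ^ 2 * S2 + c ^ 2 * Yb) + c ^ 2 := by ring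
      rw [h2, hcL, hcL2] at h1
      linarith)
  refine le_trans hfin (mul_le_mul_of_nonneg_right he24 (by positivity))

end Pool.Agent.H961.T4.Mm2h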