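import Pool.Agent.H961.T4.Stm3
import Pool.Agent.H961.T2.B9
import Pool.Graph.R_pool_sql_team_seeded_3997aac3.Q297.LC.Lim
import Pool.Graph.R_pool_sql_team_seeded_3997aac3.Q297.LC.Par

/-!
PN STM. One step for stirring, several laps. Adapted from the proof of STL by helper790
(Pool/Agent/H790/PN/Stl.lean).
-/

set_option autoImplicit false
set_option linter.unusedSectionVars false
set_option linter.unusedVariables false

namespace Pool.Agent.H961.T4.Stmmh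

open Finset Equiv Matrix Q292.LC Pool.Agent.H961.T2 Pool.Agent.H961.T3 Pool.Agent.H961.T4
open Filter Topology
open Pool.Agent.Y998.ST (stirExp nnRate qq hop cycleLen)
open Pool.Agent.Q297.LC (exists_Per tro)

theorem tendsto_of_bound {f : ℕ → ℝ} {a D : ℝ} (q₀ : ℕ) (h : ∀ q : ℕ, q₀ ≤ q → |f q - a| ≤ D / q) :
    Tendsto f atTop (𝓝 a) := by
  rw [tendsto_iff_dist_tendsto_zero]
  refine squeeze_zero' (Eventually.of_forall fun _ => dist_nonneg) ?_ (tendsto_const_div_atTop_nhds_zero_nat D)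
  filter_upwards [eventually_ge_atTop q₀] with q hq
  rw [Real.dist_eq]
  exact h q hq

/-- the parameters of the circuits -/
theorem par {K q : ℕ} {t : ℝ} (hK : 1 ≤ K) (hKt : (K : ℝ) ≤ t) (ht : t ≤ 2 * K) (hq : 2 ≤ q) :
    1 ≤ t / (K * q) * q ∧ t / (K * q) * q ≤ 2 ∧ 0 ≤ t / (K * q) ∧ t / (K * q) ≤ 1 ∧
      (K : ℝ) * q * (t / (K * q)) = t := by
  have hK' : (0 : ℝ) < K := by
    have : 0 < K := hK
    exact_mod_cast this
  have hq' : (2 : ℝ) ≤ q := by exact_mod_cast hq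
  have e1 : t / (K * q) * q = t / K := by field_simp
  have e2 : 1 ≤ t / K := by rw [le_div_iff₀ hK']; linarith
  have e3 : t / K ≤ 2 := by rw [div_le_iff₀ hK']; linarith
  have e4 : 0 ≤ t / (K * q) := by
    have : 0 ≤ t := hK'.le.trans hKt
    positivity
  refine ⟨by rw [e1]; exact e2, by rw [e1]; exact e3, e4, ?_, by field_simp⟩
  rw [← e1] at e3
  nlinarith

theorem stir_smul {V : Type} [Fintype V] [DecidableEq V] (J : V → V → ℝ) (t c : ℝ) (F : Perm V → ℝ) :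
    stirExp J t (fun g => c * F g) = c * stirExp J t F := by
  unfold stirExp
  rw [mul_sum]
  exact sum_congr rfl fun g _ => by ring

/-- the limit of many sweeps: expectations -/
theorem tend_F {d L K : ℕ} [NeZero L] (hd : 1 ≤ d) (hL : 3 ≤ L) (hK : 1 ≤ K) {t : ℝ}
    (hKt : (K : ℝ) ≤ t) (ht : t ≤ 2 * K) {σ : ℕ → (Fin d → ZMod L) × Fin d} (hσ : Per σ)
    (F : Perm (Fin d → ZMod L) → ℝ) :
    Tendsto (fun q : ℕ => EE (K * (q * ms d L)) (t / (K * q))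
      (fun ω => F (gp (ed ∘ σ) ω (K * (q * ms d L))))) atTop (𝓝 (stirExp (nnRate d L) t F)) := by
  obtain ⟨C1, hC1⟩ := tro d L hd hL K
  obtain ⟨M, hM⟩ : ∃ M : ℝ, M = 1 + ∑ g, |F g| := ⟨_, rfl⟩
  have hM0 : 0 < M := by
    rw [hM]
    have : 0 ≤ ∑ g, |F g| := sum_nonneg fun g _ => abs_nonneg _
    linarith
  have hFM : ∀ g, |F g| ≤ M := by
    intro g
    rw [hM]
    have : |F g| ≤ ∑ g, |F g| := single_le_sum (f := fun g => |F g|) (fun g _ => abs_nonneg _) (mem_univ g)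
    linarith
  refine tendsto_of_bound (D := M * C1) 2 fun q hq => ?_
  obtain ⟨h1, h2, h3, h4, h5⟩ := par hK hKt ht hq
  have hmain := (hC1 q (by omega) σ hσ (t / (K * q)) h3 h4 h2 (K * q) le_rfl).1
    (fun g => M⁻¹ * F g) (fun g => by
      rw [abs_mul, abs_of_pos (inv_pos.2 hM0), inv_mul_le_iff₀ hM0, mul_one]
      exact hFM g)
  have f2 : ((K * q : ℕ) : ℝ) * (t / (K * q)) = t := by
    push_cast
    exact h5
  rw [f2, Nat.mul_assoc, stir_smul] at hmain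
  have h6 := Pool.Agent.Q68.LC.EE_smul (K * (q * ms d L)) (t / (K * q)) M⁻¹
        (fun ω => F (gp (ed ∘ σ) ω (K * (q * ms d L))))
  rw [h6, ← mul_sub, abs_mul, abs_of_pos (inv_pos.2 hM0), inv_mul_le_iff₀ hM0] at hmain
  rw [mul_div_assoc]
  exact hmain

/-- the limit of many sweeps: traces -/
theorem tend_tr {d L K : ℕ} [NeZero L] (hd : 1 ≤ d) (hL : 3 ≤ L) (hK : 1 ≤ K) {t : ℝ}
    (hKt : (K : ℝ) ≤ t) (ht : t ≤ 2 * K) {σ : ℕ → (Fin d → ZMod L) × Fin d} (hσ : Per σ) (k : ℕ) :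
    Tendsto (fun q : ℕ => (PP (ed ∘ σ) (t / (K * q)) (K * (q * ms d L)) ^ (k + 1)).trace) atTop
      (𝓝 (∑ x, hop (nnRate d L) (((k : ℝ) + 1) * t) x x)) := by
  obtain ⟨C1, hC1⟩ := tro d L hd hL ((k + 1) * K)
  refine tendsto_of_bound (D := (Fintype.card (Fin d → ZMod L) : ℝ) * C1) 2 fun q hq => ?_
  obtain ⟨h1, h2, h3, h4, h5⟩ := par hK hKt ht hq
  rw [PP_pow hσ h3 h4]
  unfold Matrix.trace
  rw [← sum_sub_distrib]
  refine (abs_sum_le_sum_abs _ _).trans ?_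
  have f0 : ∀ x : Fin d → ZMod L, |(PP (ed ∘ σ) (t / (K * q)) ((k + 1) * K * (q * ms d L))).diag x -
      hop (nnRate d L) (((k : ℝ) + 1) * t) x x| ≤ C1 / q := by
    intro x
    have f1 := (hC1 q (by omega) σ hσ (t / (K * q)) h3 h4 h2 ((k + 1) * K * q) le_rfl).2 x x
    have f2 : (((k + 1) * K * q : ℕ) : ℝ) * (t / (K * q)) = ((k : ℝ) + 1) * t := by
      push_cast
      rw [mul_assoc ((k : ℝ) + 1), mul_assoc ((k : ℝ) + 1), h5]
    rw [f2, Nat.mul_assoc ((k + 1) * K)] at f1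
    exact f1
  refine (sum_le_sum fun x _ => f0 x).trans (le_of_eq ?_)
  rw [sum_const, card_univ, nsmul_eq_mul, mul_div_assoc]

theorem mk_nonneg {ι : Type} [DecidableEq ι] (a : ι → ℕ) {w : ℝ} (h0 : 0 ≤ w) (h1 : w ≤ 1)
    (s : Finset ι) (H : Finset ι → ℝ) (hH : ∀ J, 0 ≤ H J) : 0 ≤ mk a w s H := by
  unfold H961.T3.mk
  exact sum_nonneg fun J _ => mul_nonneg (mul_nonneg (prod_nonneg fun C _ => pow_nonneg h0 _)
      (prod_nonneg fun C _ => sub_nonneg.2 (pow_le_one₀ h0 h1))) (hH J)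

theorem EE_nonneg (n : ℕ) {δ : ℝ} (h0 : 0 ≤ δ) (h1 : δ ≤ 1) {F : (ℕ → Bool) → ℝ} (hF : ∀ ω, 0 ≤ F ω) :
    0 ≤ EE n δ F := by
  unfold EE
  exact sum_nonneg fun S _ => mul_nonneg (mul_nonneg (pow_nonneg h0 _)
    (pow_nonneg (sub_nonneg.2 h1) _)) (hF _)

/-- the traces -/
theorem tr_bd {d L K : ℕ} [NeZero L] (q : ℕ) {δ : ℝ} (h0 : 0 ≤ δ) (h1 : δ ≤ 1)
    (σ : ℕ → (Fin d → ZMod L) × Fin d) (k : ℕ) :
    0 ≤ (PP (ed ∘ σ) δ (K * (q * ms d L)) ^ (k + 1)).trace ∧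
      (PP (ed ∘ σ) δ (K * (q * ms d L)) ^ (k + 1)).trace ≤ (L : ℝ) ^ d := by
  have hPB : BS (PP (ed ∘ σ) δ (K * (q * ms d L))) := by
    unfold PP
    have h := Pool.Agent.Q68.LC.bas2 _ (ed ∘ σ) (fun _ => false) ∅ δ h0 h1
    exact ⟨h.1 _, fun x => (h.2.1 _ x).le, fun y => (h.2.2.1 _ y).le⟩
  have hb := BS_pow hPB (k + 1)
  have hcardV : (Fintype.card (Fin d → ZMod L) : ℝ) = (L : ℝ) ^ d := by
    rw [Fintype.card_fun, ZMod.card, Fintype.card_fin]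
    push_cast
    rfl
  unfold Matrix.trace
  constructor
  · exact sum_nonneg fun x _ => hb.nn x x
  · have e1 : ∀ x : Fin d → ZMod L,
        (PP (ed ∘ σ) δ (K * (q * ms d L)) ^ (k + 1)) x x ≤ 1 := fun x =>
      (Finset.single_le_sum (fun y _ => hb.nn x y) (mem_univ x)).trans (hb.row x)
    refine (Finset.sum_le_sum fun x _ => e1 x).trans (le_of_eq ?_)
    rw [sum_const, card_univ, nsmul_eq_mul, mul_one, hcardV]

/-- geometric sums -/
theorem geo_bd {w N : ℝ} (hw0 : 0 ≤ w) (hw1 : w < 1) (hN : 0 ≤ N) (k₀ : ℕ) (p : ℕ → ℝ)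
    (hp : ∀ k, 0 ≤ p k ∧ p k ≤ N) :
    0 ≤ ∑ k ∈ range k₀, w ^ (k + 1) * p k ∧ ∑ k ∈ range k₀, w ^ (k + 1) * p k ≤ N / (1 - w) := by
  constructor
  · exact sum_nonneg fun k _ => mul_nonneg (pow_nonneg hw0 _) (hp k).1
  · have h1w : 0 < 1 - w := by linarith
    have e1 : ∑ k ∈ range k₀, w ^ (k + 1) * p k ≤ ∑ k ∈ range k₀, w ^ k * N := by
      refine sum_le_sum fun k _ => ?_
      have a1 : w ^ (k + 1) ≤ w ^ k := pow_le_pow_of_le_one hw0 hw1.le (by omega)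
      exact mul_le_mul a1 (hp k).2 (hp k).1 (pow_nonneg hw0 _)
    refine e1.trans ?_
    rw [← sum_mul, le_div_iff₀ h1w]
    have e2 : (∑ k ∈ range k₀, w ^ k) * (1 - w) ≤ 1 := by
      rw [geom_sum_mul_neg]
      have : 0 ≤ w ^ k₀ := pow_nonneg hw0 _
      linarith
    calc (∑ k ∈ range k₀, w ^ k) * N * (1 - w) = ((∑ k ∈ range k₀, w ^ k) * (1 - w)) * N := by ring
      _ ≤ 1 * N := mul_le_mul_of_nonneg_right e2 hN
      _ = N := one_mul N

/-- the size of `K ^ (η - 1/4)` -/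
theorem K_pow {K t η : ℝ} (hK : 0 < K) (ht : t ≤ 2 * K) (ht0 : 0 < t) (hη0 : 0 < η)
    (hη : η ≤ 1 / 16) : K ^ (η - 1 / 4 : ℝ) ≤ 2 * t ^ (η - 1 / 4 : ℝ) := by
  have b1 : K ^ (η - 1 / 4 : ℝ) ≤ (t / 2) ^ (η - 1 / 4 : ℝ) :=
    Real.rpow_le_rpow_of_nonpos (by linarith) (by linarith) (by linarith)
  have b2 : (t / 2) ^ (η - 1 / 4 : ℝ) = 2 ^ (1 / 4 - η : ℝ) * t ^ (η - 1 / 4 : ℝ) := by
    have e1 : (η - 1 / 4 : ℝ) = -(1 / 4 - η) := by ring
    rw [Real.div_rpow ht0.le (by norm_num), e1, Real.rpow_neg (by norm_num : (0 : ℝ) ≤ 2),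
      div_inv_eq_mul, mul_comm]
  have b3 : (2 : ℝ) ^ (1 / 4 - η : ℝ) ≤ 2 := by
    calc (2 : ℝ) ^ (1 / 4 - η : ℝ) ≤ 2 ^ (1 : ℝ) :=
          Real.rpow_le_rpow_of_exponent_le (by norm_num) (by linarith)
      _ = 2 := Real.rpow_one 2
  rw [b2] at b1
  exact b1.trans (mul_le_mul_of_nonneg_right b3 (Real.rpow_nonneg ht0.le _))

/-- **STM** -/
theorem stm (hRECM : S_RECM) (hCIM : S_CIM) : S_STM := by
  intro d hd η hη0 hη
  obtain ⟨m₀, hcil0⟩ := hCIM d hd η hη0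
  obtain ⟨Tc, hcil⟩ := hcil0 4
  have hTc : (0 : ℝ) ≤ Tc := Nat.cast_nonneg _
  refine ⟨2 * m₀ + 1, 4 + Tc, by omega, by linarith, ?_⟩
  intro L _ t w h k₀ H hL hTt hlogt htL hw0 hw1 hwt hk₀ hH
  have hL1 : 1 ≤ L := by omega
  have hL0 : (0 : ℝ) < L := by exact_mod_cast hL1
  have ht4 : 4 ≤ t := by linarith
  have ht1 : 1 ≤ t := by linarith
  have ht0 : 0 < t := by linarith
  have hh : 0 ≤ h := (hH ∅).1.trans (hH ∅).2
  have h1w : 0 < 1 - w := by linarith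
  have htt : t ≤ t ^ 2 := by nlinarith
  -- the logarithm
  have hlog1 : 1 ≤ Real.log L := by
    rw [Real.le_log_iff_exp_le hL0]
    have e1 : Real.exp 1 < 2.7182818286 := Real.exp_one_lt_d9
    have e2 : (3 : ℝ) ≤ L := by exact_mod_cast hL
    linarith
  have hs2 : Real.sqrt t * Real.sqrt t = t := Real.mul_self_sqrt ht0.le
  have hs0 : 0 ≤ Real.sqrt t := Real.sqrt_nonneg t
  have hlogs : (Real.log L) ^ m₀ ≤ Real.sqrt t := by
    refine Real.le_sqrt_of_sq_le ?_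
    calc ((Real.log L) ^ m₀) ^ 2 = (Real.log L) ^ (2 * m₀) := by rw [← pow_mul, mul_comm]
      _ ≤ (Real.log L) ^ (2 * m₀ + 1) := pow_le_pow_right₀ hlog1 (by omega)
      _ ≤ t := hlogt
  have hs2' : 2 ≤ Real.sqrt t := Real.le_sqrt_of_sq_le (by linarith)
  have hst : Real.sqrt t ≤ t := by nlinarith
  -- the number of units
  obtain ⟨K, hK⟩ : ∃ K : ℕ, K = ⌊t⌋₊ := ⟨_, rfl⟩
  have hKt : (K : ℝ) ≤ t := by rw [hK]; exact Nat.floor_le (by linarith)
  have hK1 : 1 ≤ K := by rw [hK]; exact Nat.le_floor (by rw [Nat.cast_one]; exact ht1)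
  have hK1' : (1 : ℝ) ≤ K := by exact_mod_cast hK1
  have hK0 : (0 : ℝ) < K := by linarith
  have htK : t < K + 1 := by rw [hK]; exact Nat.lt_floor_add_one t
  have ht2K : t ≤ 2 * K := by linarith
  have hTcK : Tc ≤ K := by
    rw [hK]
    exact Nat.le_floor (by linarith)
  have hk₀K : k₀ ≤ K := by
    have : (k₀ : ℝ) ≤ K := by linarith
    exact_mod_cast this
  have hKL : K * K ≤ L ^ d := by
    have h1 : (K : ℝ) * K ≤ t ^ 2 := by
      rw [pow_two]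
      exact mul_le_mul hKt hKt hK0.le ht0.le
    have : (K : ℝ) * K ≤ (L : ℝ) ^ d := h1.trans htL
    exact_mod_cast this
  have hlogK : (Real.log L) ^ m₀ ≤ K := by
    refine hlogs.trans ?_
    have e1 : 2 * Real.sqrt t ≤ t := by nlinarith
    linarith
  have hcard : (Fintype.card (Fin d → ZMod L) : ℝ) = (L : ℝ) ^ d := by
    rw [Fintype.card_fun, ZMod.card, Fintype.card_fin]
    push_cast
    rfl
  obtain ⟨q₀, hq₀⟩ := hcil L K hL hTcK hKL hlogK
  obtain ⟨σ, hσ⟩ := exists_Per d L (by omega)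
  obtain ⟨N, hN⟩ : ∃ N : ℝ, N = (L : ℝ) ^ d := ⟨_, rfl⟩
  rw [← hN] at hcard htL ⊢
  have hN0 : 0 < N := by linarith
  have hN1 : 1 ≤ N := by linarith
  -- `1 / (1 - w)`
  obtain ⟨α, hα⟩ : ∃ α : ℝ, α = 1 / (1 - w) := ⟨_, rfl⟩
  have hα0 : 0 ≤ α := by rw [hα]; exact div_nonneg zero_le_one h1w.le
  have hαw : α * (1 - w) = 1 := by rw [hα]; field_simp
  rw [← hα] at hwt
  have hut : t ^ (1 - 8 * η : ℝ) ≤ t := by
    calc t ^ (1 - 8 * η : ℝ) ≤ t ^ (1 : ℝ) :=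
          Real.rpow_le_rpow_of_exponent_le ht1 (by linarith)
      _ = t := Real.rpow_one t
  have hαt : α ≤ t := hwt.trans hut
  have hαN : α ≤ N := by linarith
  have hα4 : α ^ (1 / 4 : ℝ) ≤ t ^ (1 / 4 - 2 * η : ℝ) := by
    calc α ^ (1 / 4 : ℝ) ≤ (t ^ (1 - 8 * η : ℝ)) ^ (1 / 4 : ℝ) :=
          Real.rpow_le_rpow hα0 hwt (by norm_num)
      _ = t ^ (1 / 4 - 2 * η : ℝ) := by
          rw [← Real.rpow_mul ht0.le]
          congr 1
          ring
  have hlogN : (Real.log L) ^ m₀ ≤ N * (1 - w) := by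
    refine (hlogs.trans hst).trans ?_
    have e1 : t * (α * (1 - w)) ≤ t * (t * (1 - w)) :=
      mul_le_mul_of_nonneg_left (mul_le_mul_of_nonneg_right hαt h1w.le) ht0.le
    rw [hαw, mul_one, ← mul_assoc, ← pow_two] at e1
    exact e1.trans (mul_le_mul_of_nonneg_right htL h1w.le)
  -- the errors
  obtain ⟨v, hv⟩ : ∃ v : ℝ, v = t ^ (-η : ℝ) := ⟨_, rfl⟩
  have hv0 : 0 < v := by rw [hv]; exact Real.rpow_pos_of_pos ht0 _
  obtain ⟨b, hb⟩ : ∃ b : ℝ, b = α ^ (1 / 4 : ℝ) * (K : ℝ) ^ (η - 1 / 4 : ℝ) := ⟨_, rfl⟩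
  have hb0 : 0 ≤ b := by rw [hb]; positivity
  have hb2 : b ≤ 2 * v := by
    rw [hb, hv]
    calc α ^ (1 / 4 : ℝ) * (K : ℝ) ^ (η - 1 / 4 : ℝ)
        ≤ t ^ (1 / 4 - 2 * η : ℝ) * (2 * t ^ (η - 1 / 4 : ℝ)) :=
          mul_le_mul hα4 (K_pow hK0 ht2K ht0 hη0 hη) (by positivity) (by positivity)
      _ = 2 * (t ^ (1 / 4 - 2 * η : ℝ) * t ^ (η - 1 / 4 : ℝ)) := by ring
      _ = 2 * t ^ (-η : ℝ) := by
          rw [← Real.rpow_add ht0]
          congr 2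
          ring
  obtain ⟨c, hc⟩ : ∃ c : ℝ, c = N * w ^ k₀ / (1 - w) := ⟨_, rfl⟩
  have hc0 : 0 ≤ c := by
    rw [hc]
    exact div_nonneg (mul_nonneg hN0.le (pow_nonneg hw0 _)) h1w.le
  have hNK : N / K ≤ 2 * (N / t) := by
    rw [← mul_div_assoc, div_le_div_iff₀ hK0 ht0]
    nlinarith
  have hbK : b * (N / K) ≤ 4 * v * (N / t) := by
    have e1 : 0 ≤ N / K := by positivity
    calc b * (N / K) ≤ 2 * v * (2 * (N / t)) := mul_le_mul hb2 hNK e1 (by linarith)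
      _ = 4 * v * (N / t) := by ring
  rw [← hv, ← hc]
  -- the inequality for circuits
  have key : ∀ q : ℕ, q₀ + 2 ≤ q →
      |EE (K * (q * ms d L)) (t / (K * q)) (fun ω => sb w H (gp (ed ∘ σ) ω (K * (q * ms d L)))) -
        (∑ k ∈ range k₀, w ^ (k + 1) * (PP (ed ∘ σ) (t / (K * q)) (K * (q * ms d L)) ^ (k + 1)).trace) *
        EE (K * (q * ms d L)) (t / (K * q)) (fun ω => mk (ι := Finset (Fin d → ZMod L)) card w
          (cycs (gp (ed ∘ σ) ω (K * (q * ms d L)))) H)| ≤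
      (4 * v * (N / t) + c) * EE (K * (q * ms d L)) (t / (K * q))
          (fun ω => mk (ι := Finset (Fin d → ZMod L)) card w
          (cycs (gp (ed ∘ σ) ω (K * (q * ms d L)))) H) +
      4 * v * EE (K * (q * ms d L)) (t / (K * q)) (fun ω => mk (ι := Finset (Fin d → ZMod L)) card w
          (cycs (gp (ed ∘ σ) ω (K * (q * ms d L)))) (fun J => (∑ C ∈ J, (C.card : ℝ)) * H J)) +
      h / N := by
    intro q hq
    obtain ⟨p1, p2, p3, p4, p5⟩ := par hK1 hKt ht2K (by omega : 2 ≤ q)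
    obtain ⟨B, hBG, hBP⟩ := hq₀ q (by omega) σ hσ (t / (K * q)) p1 p2
    obtain ⟨g1, g2⟩ := geo_bd hw0 hw1 hN0.le k₀
      (fun k => (PP (ed ∘ σ) (t / (K * q)) (K * (q * ms d L)) ^ (k + 1)).trace)
      (fun k => by rw [hN]; exact tr_bd q p3 p4 σ k)
    have hmain := hRECM (Fin d → ZMod L) (ed ∘ σ) (K * (q * ms d L)) (t / (K * q)) w H B
      (∑ k ∈ range k₀, w ^ (k + 1) * (PP (ed ∘ σ) (t / (K * q)) (K * (q * ms d L)) ^ (k + 1)).trace)
      (b * (N / K) + c) b h p3 p4 hw0 hw1 hH g1 (by rw [hcard]; exact g2)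
      (add_nonneg (mul_nonneg hb0 (by positivity)) hc0) hb0 (by
        intro ω A h3 h3'
        have h4 := hBG ω A h3 h3' w hw0 hw1 k₀ hk₀K
        rw [← hN, ← hα, ← hc] at h4
        refine h4.trans (le_of_eq ?_)
        rw [hb]
        ring)
    refine hmain.trans ?_
    have m1 : 0 ≤ EE (K * (q * ms d L)) (t / (K * q)) (fun ω => mk (ι := Finset (Fin d → ZMod L)) card w
          (cycs (gp (ed ∘ σ) ω (K * (q * ms d L)))) H) :=
      EE_nonneg _ p3 p4 fun ω => mk_nonneg _ hw0 hw1.le _ _ fun J => (hH J).1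
    have m2 : 0 ≤ EE (K * (q * ms d L)) (t / (K * q)) (fun ω => mk (ι := Finset (Fin d → ZMod L)) card w
          (cycs (gp (ed ∘ σ) ω (K * (q * ms d L)))) (fun J => (∑ C ∈ J, (C.card : ℝ)) * H J)) :=
      EE_nonneg _ p3 p4 fun ω => mk_nonneg _ hw0 hw1.le _ _ fun J =>
        mul_nonneg (sum_nonneg fun _ _ => Nat.cast_nonneg _) (hH J).1
    have hPW := hBP w hw0 hw1 (by rw [← hN]; exact hlogN)
    rw [← hN] at hPW
    have e1 : h * (Fintype.card (Fin d → ZMod L) : ℝ) / (1 - w) *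
        PW (ed ∘ σ) (K * (q * ms d L)) (t / (K * q)) w (fun ω A => ¬ B ω A) ≤ h / N := by
      rw [hcard]
      have e2 : h * N / (1 - w) = h * N * α := by rw [hα]; ring
      rw [e2]
      calc h * N * α * PW (ed ∘ σ) (K * (q * ms d L)) (t / (K * q)) w (fun ω A => ¬ B ω A)
          ≤ h * N * α * (1 / N ^ 4) :=
            mul_le_mul_of_nonneg_left hPW (mul_nonneg (mul_nonneg hh hN0.le) hα0)
        _ ≤ h * N * N * (1 / N ^ 4) :=
            mul_le_mul_of_nonneg_right (mul_le_mul_of_nonneg_left hαN (mul_nonneg hh hN0.le))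
              (by positivity)
        _ = h / N * (1 / N) := by field_simp
        _ ≤ h / N * 1 := by
            refine mul_le_mul_of_nonneg_left ?_ (div_nonneg hh hN0.le)
            rw [div_le_one hN0]
            exact hN1
        _ = h / N := mul_one _
    have e3 : b * (N / K) + c ≤ 4 * v * (N / t) + c := by linarith
    have e4 := mul_le_mul_of_nonneg_right e3 m1
    have e5 := mul_le_mul_of_nonneg_right (by linarith : b ≤ 4 * v) m2
    exact add_le_add (add_le_add e4 e5) e1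
  -- the limit
  have t1 := tend_F (by omega) hL hK1 hKt ht2K hσ (fun g => sb w H g)
  have t2 := tend_F (by omega) hL hK1 hKt ht2K hσ
    (fun g => mk (ι := Finset (Fin d → ZMod L)) card w (cycs g) H)
  have t3 := tend_F (by omega) hL hK1 hKt ht2K hσ
    (fun g => mk (ι := Finset (Fin d → ZMod L)) card w (cycs g) (fun J => (∑ C ∈ J, (C.card : ℝ)) * H J))
  have t4 : Tendsto (fun q : ℕ => ∑ k ∈ range k₀, w ^ (k + 1) *
      (PP (ed ∘ σ) (t / (K * q)) (K * (q * ms d L)) ^ (k + 1)).trace) atTop (𝓝 (al d L t w k₀)) := by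
    unfold al
    exact tendsto_finsetSum _ fun k _ => (tend_tr (by omega) hL hK1 hKt ht2K hσ k).const_mul _
  refine le_of_tendsto_of_tendsto (t1.sub (t4.mul t2)).abs
    (((t2.const_mul (4 * v * (N / t) + c)).add (t3.const_mul (4 * v))).add_const (h / N)) ?_
  filter_upwards [eventually_ge_atTop (q₀ + 2)] with q hq
  exact key q hq

end Pool.Agent.H961.T4.Stmmh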