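import Pool.Agent.H961.T4.All
import Pool.Agent.H961.T4.Trm
import Pool.Agent.H961.T4.Hsm
import Pool.Agent.H961.T4.Enm
import Pool.Agent.H961.T4.Enh
import Pool.Agent.H961.T4.Cim
import Pool.Agent.H961.T4.Recm
import Pool.Agent.H961.T4.Stmm
import Pool.Agent.H961.T4.Alm
import Pool.Agent.H961.T4.Mm1
import Pool.Agent.H961.T4.Mm2
import Pool.Agent.H961.T4.Llm
import Pool.Agent.H961.T4.Eei
import Pool.Agent.H961.T4.Coc
import Pool.Agent.H961.T4.Cov
import Pool.Agent.H961.T4.Lcr
import Pool.Agent.H961.T4.Llb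

/-!
# Project PN: assembly, the logarithmic law in the plane
-/

set_option autoImplicit false

namespace Pool.Agent.H961.T4

open Finset Equiv Matrix Q292.LC Pool.Agent.H961.T2 Pool.Agent.H961.T3

theorem all_hsm : S_HSM := Hsmh.hsm Dufh.duf Grdh.grd

theorem all_enm : S_ENM := Enmh.enm all_ent all_hsm Trmh.trm Kph.kp

theorem all_cim : S_CIM := Cimh.cim (Enhh.enh all_enm)

theorem all_recm : S_RECM := Recmh.recm (Stargh.starg MassDomh.mass all_cyc) all_cyc MassDomh.mass

theorem all_stm : S_STM := Stmmh.stm all_recm all_cim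

theorem all_mm1 : S_MM1 := Mm1h.mm1 all_stm Almh.alm all_mks

theorem all_mm2 : S_MM2 := Mm2h.mm2 all_stm Almh.alm all_mks all_mm1

theorem all_llm : S_LLM := Llmh.llm all_mm2

theorem all_cov : S_COV := Covh.cov (Coch.coc Eeih.eei)

theorem all_llb : S_LLB := Llbh.llb all_llm all_cov Lcrh.lcr

end Pool.Agent.H961.T4
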