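import Pool.Agent.H961.T4.Stm5
import Pool.Graph.R_pool_sql_team_seeded_1e53cb71.Helper47K9.SC.As
import Pool.Graph.R_pool_sql_team_seeded_1e53cb71.Helper47K9.SC.One

set_option autoImplicit false

/-! MP_6c3d62_pr, board task PN HKU: upper bound for the return probability on the torus. -/

namespace Pool.Agent.H961.T4.Hkuh

open Finset Pool.Agent.Y998.ST Pool.Agent.Helper47K9.SC Pool.Agent.Helper47K9.SC.AsL

theorem th_bound {u : ℝ} (hu : 0 < u) : Th u ≤ Th 1 * (1 + Real.sqrt (Real.pi / u)) := by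
  have h1 : 1 ≤ Th 1 := one_le one_pos
  have hpi := Real.pi_pos
  have h3 := Real.sqrt_nonneg (Real.pi / u)
  have h6 : 0 ≤ Th 1 * Real.sqrt (Real.pi / u) := mul_nonneg (by linarith) h3
  rcases le_total 1 u with h | h
  · have h2 := th_anti one_pos h
    linarith
  · have h2 := poisson hu
    have h4 : Th (Real.pi ^ 2 / u) ≤ Th 1 := th_anti one_pos (by
      rw [le_div_iff₀ hu]
      nlinarith [Real.pi_gt_three])
    have h5 : Real.sqrt (Real.pi / u) * Real.sqrt (u / Real.pi) = 1 := by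
      rw [← Real.sqrt_mul (by positivity)]
      have e : Real.pi / u * (u / Real.pi) = 1 := by field_simp
      rw [e, Real.sqrt_one]
    have h7 : Th u = Real.sqrt (Real.pi / u) * (Real.sqrt (u / Real.pi) * Th u) := by
      rw [← mul_assoc, h5, one_mul]
    rw [h2] at h7
    have h8 := mul_le_mul_of_nonneg_left h4 h3
    rw [h7]
    linarith

theorem gk_bound {L : ℕ} [NeZero L] {s : ℝ} (hs : 0 < s) :
    0 ≤ gk L s 0 ∧ (L : ℝ) * gk L s 0 ≤ Th (16 * (s / (L : ℝ) ^ 2)) := by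
  classical
  have hL : (0 : ℝ) < L := by exact_mod_cast Nat.pos_of_ne_zero (NeZero.ne L)
  have e : gk L s 0 = (1 / L : ℝ) * ∑ k : ZMod L, Real.exp (-(s * lam k)) := by
    unfold gk
    refine congrArg _ (Finset.sum_congr rfl fun k _ => ?_)
    rw [mul_zero, rc_zero, mul_one]
  refine ⟨?_, ?_⟩
  · rw [e]
    exact mul_nonneg (by positivity) (Finset.sum_nonneg fun k _ => (Real.exp_pos _).le)
  · rw [e, ← mul_assoc, mul_one_div, div_self hL.ne', one_mul]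
    have hu : 0 < 16 * (s / (L : ℝ) ^ 2) := by positivity
    calc ∑ k : ZMod L, Real.exp (-(s * lam k))
        ≤ ∑ k : ZMod L, Real.exp (-(16 * (s / (L : ℝ) ^ 2) * ((k.valMinAbs : ℤ) : ℝ) ^ 2)) := by
          refine Finset.sum_le_sum fun k _ => Real.exp_le_exp.2 ?_
          have h1 := mul_le_mul_of_nonneg_left (lam_lower k) hs.le
          have h2 : s * (16 * (((k.valMinAbs : ℤ) : ℝ) / L) ^ 2) =
              16 * (s / (L : ℝ) ^ 2) * ((k.valMinAbs : ℤ) : ℝ) ^ 2 := by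
            field_simp
          rw [h2] at h1
          linarith
      _ = ∑ m ∈ ((univ : Finset (ZMod L)).image (fun k : ZMod L => k.valMinAbs) : Finset ℤ),
            Real.exp (-(16 * (s / (L : ℝ) ^ 2) * ((m : ℤ) : ℝ) ^ 2)) :=
          (Finset.sum_image (s := (univ : Finset (ZMod L))) (g := fun k : ZMod L => k.valMinAbs)
            (f := fun m : ℤ => Real.exp (-(16 * (s / (L : ℝ) ^ 2) * ((m : ℤ) : ℝ) ^ 2)))
            fun a _ b _ h => ZMod.injective_valMinAbs h).symm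
      _ ≤ Th (16 * (s / (L : ℝ) ^ 2)) :=
          (summ hu).sum_le_tsum _ fun m _ => (Real.exp_pos _).le

theorem gk_sq {L : ℕ} [NeZero L] {s : ℝ} (hs : 0 < s) :
    gk L s 0 ^ 2 ≤ 2 * Th 1 ^ 2 * (1 / s + 1 / (L : ℝ) ^ 2) := by
  have hL : (0 : ℝ) < L := by exact_mod_cast Nat.pos_of_ne_zero (NeZero.ne L)
  obtain ⟨h0, h1⟩ := gk_bound (L := L) hs
  have hu : 0 < 16 * (s / (L : ℝ) ^ 2) := by positivity
  have h2 := h1.trans (th_bound hu)
  have hpi := Real.pi_pos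
  have hK : 1 ≤ Th 1 := one_le one_pos
  set q : ℝ := Real.sqrt (Real.pi / (16 * (s / (L : ℝ) ^ 2))) with hq
  have hq0 : 0 ≤ q := Real.sqrt_nonneg _
  have hq2 : q ^ 2 = Real.pi / (16 * (s / (L : ℝ) ^ 2)) := Real.sq_sqrt (by positivity)
  have hq3 : q ^ 2 ≤ (L : ℝ) ^ 2 / s := by
    rw [hq2]
    have e : Real.pi / (16 * (s / (L : ℝ) ^ 2)) = Real.pi / 16 * ((L : ℝ) ^ 2 / s) := by
      field_simp
    rw [e]
    have h3 : Real.pi / 16 ≤ 1 := by linarith [Real.pi_lt_d2]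
    have h4 : 0 ≤ (L : ℝ) ^ 2 / s := by positivity
    nlinarith
  have h5 : ((L : ℝ) * gk L s 0) ^ 2 ≤ (Th 1 * (1 + q)) ^ 2 :=
    pow_le_pow_left₀ (mul_nonneg hL.le h0) h2 2
  have h6 : (Th 1 * (1 + q)) ^ 2 ≤ 2 * Th 1 ^ 2 * (1 + (L : ℝ) ^ 2 / s) := by
    have h7 : (1 + q) ^ 2 ≤ 2 * (1 + (L : ℝ) ^ 2 / s) := by
      nlinarith [sq_nonneg (1 - q)]
    rw [mul_pow]
    have h8 := mul_le_mul_of_nonneg_left h7 (sq_nonneg (Th 1))
    linarith
  have h9 : (L : ℝ) ^ 2 * gk L s 0 ^ 2 ≤ (L : ℝ) ^ 2 * (2 * Th 1 ^ 2 * (1 / s + 1 / (L : ℝ) ^ 2)) := by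
    have e : (L : ℝ) ^ 2 * (2 * Th 1 ^ 2 * (1 / s + 1 / (L : ℝ) ^ 2)) =
        2 * Th 1 ^ 2 * (1 + (L : ℝ) ^ 2 / s) := by
      field_simp
      ring
    rw [e, ← mul_pow]
    exact h5.trans h6
  exact le_of_mul_le_mul_left h9 (by positivity)

theorem hku : Pool.Agent.H961.T4.S_HKU := by
  have hK : 1 ≤ Th 1 := one_le one_pos
  refine ⟨2 * Th 1 ^ 2, by nlinarith, ?_⟩
  intro L _ hL s hs x
  rw [hop_diag hL s x]
  exact gk_sq (by linarith)

end Pool.Agent.H961.T4.Hkuh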