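import Pool.Agent.H961.T4.Stm5

/-!
Project PN (helper961), NMX: the number of cycles at polylogarithmic times (helper94).
-/

set_option autoImplicit false
set_option linter.unusedSectionVars false
set_option linter.unusedVariables false

namespace Pool.Agent.H961.T4.Nmxh

open Finset Equiv Matrix Q292.LC Pool.Agent.H961.T2 Pool.Agent.H961.T3 Pool.Agent.H961.T4
open Pool.Agent.Y998.ST (stirExp nnRate cycleLen nn_nonneg exp_mono exp_sum exp_const)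
open Pool.Agent.Q297.LC (stir_smul card_cyc)

theorem rc_le3 (d k : ℕ) (hd : 2 ≤ d) : rc d k ≤ Pool.Agent.H961.T2.rr 3 k := by
  unfold rc Pool.Agent.H961.T2.rr
  refine (rc_summable d k (by omega)).tsum_le_tsum (fun i => ?_) (rr_summable 3 k le_rfl)
  refine Real.rpow_le_rpow_of_exponent_le ?_ ?_
  · have : (0 : ℝ) ≤ (i : ℝ) + k := by positivity
    linarith
  · have : (2 : ℝ) ≤ d := by exact_mod_cast hd
    push_cast
    linarith

/-- Abel summation -/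
theorem abel_le (f : ℕ → ℝ) (hf : ∀ ℓ, 0 ≤ f ℓ) (k N : ℕ) (hk : 1 ≤ k) (hkN : k ≤ N) :
    ∑ ℓ ∈ Ioc k N, f ℓ / ℓ ≤ 1 / N * (∑ ℓ ∈ Icc 1 N, f ℓ) +
      ∑ n ∈ Ico k N, 1 / ((n : ℝ) * (n + 1)) * (∑ ℓ ∈ Icc 1 n, f ℓ) := by
  induction N, hkN using Nat.le_induction with
  | base =>
    rw [Ioc_self, sum_empty, Ico_self, sum_empty, add_zero]
    exact mul_nonneg (by positivity) (sum_nonneg fun ℓ _ => hf ℓ)
  | succ N hN ih =>
    rw [sum_Ioc_succ_top hN, sum_Ico_succ_top hN, sum_Icc_succ_top (by omega)]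
    have hN0 : (0 : ℝ) < N := by
      have : 0 < N := by omega
      exact_mod_cast this
    obtain ⟨S, hS⟩ : ∃ S : ℝ, S = ∑ ℓ ∈ Icc 1 N, f ℓ := ⟨_, rfl⟩
    rw [← hS] at ih ⊢
    have e : 1 / ((N + 1 : ℕ) : ℝ) * (S + f (N + 1)) =
        1 / N * S - 1 / ((N : ℝ) * (N + 1)) * S + f (N + 1) / ((N + 1 : ℕ) : ℝ) := by
      push_cast
      field_simp
      ring
    rw [e]
    linarith

theorem ico_sum_le (k N : ℕ) :
    ∑ n ∈ Ico (k + 1) N, (n : ℝ) ^ (-(((3 : ℕ) : ℝ) / 2)) ≤ Pool.Agent.H961.T2.rr 3 k := by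
  by_cases h : k + 1 ≤ N
  · have e : Ico (k + 1) N = Ioc k (N - 1) := by
      ext x
      simp only [mem_Ico, mem_Ioc]
      omega
    rw [e]
    exact bsum_le 3 le_rfl k (N - 1) (by omega)
  · rw [Ico_eq_empty (by omega), sum_empty]
    exact Pool.Agent.H961.T2.rr_nonneg 3 k

theorem pow_big (s R : ℝ) (hs : 0 < s) : ∃ T : ℝ, 1 ≤ T ∧ ∀ x : ℝ, T ≤ x → R ≤ x ^ s := by
  obtain ⟨T, hT⟩ := Filter.eventually_atTop.1 ((tendsto_rpow_atTop hs).eventually_ge_atTop R)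
  exact ⟨max T 1, le_max_right _ _, fun x hx => hT x ((le_max_left _ _).trans hx)⟩

theorem harm_le (k N : ℕ) : ∑ n ∈ Ico k N, 1 / ((n : ℝ) + 1) ≤ 1 + Real.log N := by
  have h1 := harmonic_le_one_add_log N
  unfold harmonic at h1
  push_cast at h1
  refine le_trans ?_ h1
  have h2 : ∑ n ∈ Ico k N, 1 / ((n : ℝ) + 1) ≤ ∑ n ∈ range N, 1 / ((n : ℝ) + 1) := by
    refine sum_le_sum_of_subset_of_nonneg ?_ fun n _ _ => by positivity
    intro x hx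
    rw [mem_Ico] at hx
    rw [mem_range]
    exact hx.2
  refine h2.trans (le_of_eq ?_)
  refine sum_congr rfl fun n _ => ?_
  rw [one_div]

section torus

variable {d L : ℕ} [NeZero L]

theorem number_pt (hd : 2 ≤ d) (Q : ℝ) (hQ : 0 ≤ Q) (k N1 : ℕ) (hk : 1 ≤ k) (h1 : k ≤ N1)
    (h3 : N1 ≤ L ^ d) (g : Perm (Fin d → ZMod L)) :
    |Q * ((g.partition.parts.card : ℝ) / (L : ℝ) ^ d) - rc d 0| ≤
      (∑ ℓ ∈ Icc 1 k, |Q * frac g ℓ - (ℓ : ℝ) ^ (-(d / 2 : ℝ))|) +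
      (rc d k + Q / N1 + (Q * (1 / N1) * (∑ ℓ ∈ Icc 1 N1, frac g ℓ) +
      (∑ n ∈ Ico k N1, Q * (1 / ((n : ℝ) * (n + 1))) * (∑ ℓ ∈ Icc 1 n, frac g ℓ)))) := by
  have hk0 : (0 : ℝ) < k := by exact_mod_cast hk
  have hN10 : (0 : ℝ) < N1 := by
    have : 0 < N1 := by omega
    exact_mod_cast this
  rw [parts_card, rc_split d (by omega) k, Icc_split k (L ^ d) (h1.trans h3)]
  have e1 : Q * (∑ ℓ ∈ Icc 1 k, frac g ℓ / ℓ + ∑ ℓ ∈ Ioc k (L ^ d), frac g ℓ / ℓ) -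
      (∑ ℓ ∈ Icc 1 k, (ℓ : ℝ) ^ (-(1 + d / 2 : ℝ)) + rc d k) =
      ∑ ℓ ∈ Icc 1 k, (Q * frac g ℓ - (ℓ : ℝ) ^ (-(d / 2 : ℝ))) / ℓ +
        (Q * ∑ ℓ ∈ Ioc k (L ^ d), frac g ℓ / ℓ - rc d k) := by
    have e2 : ∀ ℓ ∈ Icc 1 k, (Q * frac g ℓ - (ℓ : ℝ) ^ (-(d / 2 : ℝ))) / ℓ =
        Q * (frac g ℓ / ℓ) - (ℓ : ℝ) ^ (-(1 + d / 2 : ℝ)) := by
      intro ℓ hℓ
      have hℓ0 : (0 : ℝ) < ℓ := by
        have := (mem_Icc.1 hℓ).1
        exact_mod_cast this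
      have e3 : (ℓ : ℝ) ^ (-(1 + d / 2 : ℝ)) = (ℓ : ℝ) ^ (-(d / 2 : ℝ)) / ℓ := by
        rw [neg_add, add_comm, Real.rpow_add hℓ0, Real.rpow_neg_one]
        rfl
      rw [e3]
      ring
    rw [sum_congr rfl e2, sum_sub_distrib, mul_add, mul_sum]
    ring
  rw [e1]
  refine (abs_add_le _ _).trans ?_
  refine add_le_add ?_ ?_
  · refine (abs_sum_le_sum_abs _ _).trans (sum_le_sum fun ℓ hℓ => ?_)
    have hℓ1 : (1 : ℝ) ≤ ℓ := by
      have := (mem_Icc.1 hℓ).1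
      exact_mod_cast this
    rw [abs_div, abs_of_pos (by linarith : (0 : ℝ) < ℓ)]
    exact div_le_self (abs_nonneg _) hℓ1
  · have key : ∀ (a b : ℕ), 0 < a → ∑ ℓ ∈ Ioc a b, frac g ℓ / ℓ ≤
        1 / a * ∑ ℓ ∈ Ioc a b, frac g ℓ := by
      intro a b ha
      have ha0 : (0 : ℝ) < a := by exact_mod_cast ha
      rw [mul_sum]
      refine sum_le_sum fun ℓ hℓ => ?_
      have hℓn : (a : ℝ) ≤ ℓ := by
        have := (mem_Ioc.1 hℓ).1
        exact_mod_cast this.le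
      rw [div_eq_mul_one_div, mul_comm]
      exact mul_le_mul_of_nonneg_right (one_div_le_one_div_of_le ha0 hℓn) (frac_nonneg g ℓ)
    have f1 : 0 ≤ ∑ ℓ ∈ Ioc k (L ^ d), frac g ℓ / ℓ :=
      sum_nonneg fun ℓ _ => div_nonneg (frac_nonneg g ℓ) (Nat.cast_nonneg _)
    have s1 : ∑ ℓ ∈ Ioc k (L ^ d), frac g ℓ / ℓ = ∑ ℓ ∈ Ioc k N1, frac g ℓ / ℓ +
        ∑ ℓ ∈ Ioc N1 (L ^ d), frac g ℓ / ℓ := by
      rw [sum_Ioc_consecutive _ h1 h3]
    have s2 := abel_le (frac g) (frac_nonneg g) k N1 hk h1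
    have s4 : ∑ ℓ ∈ Ioc N1 (L ^ d), frac g ℓ / ℓ ≤ 1 / N1 := by
      refine (key N1 (L ^ d) (by omega)).trans ?_
      exact mul_le_of_le_one_right (by positivity) (sum_frac_le_one g _)
    have s5 : Q * ∑ ℓ ∈ Ioc k (L ^ d), frac g ℓ / ℓ ≤
        Q * ((1 / N1 * (∑ ℓ ∈ Icc 1 N1, frac g ℓ) +
      ∑ n ∈ Ico k N1, 1 / ((n : ℝ) * (n + 1)) * (∑ ℓ ∈ Icc 1 n, frac g ℓ)) + 1 / N1) := by
      refine mul_le_mul_of_nonneg_left ?_ hQ
      rw [s1]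
      exact add_le_add s2 s4
    have s6 : Q * ((1 / N1 * (∑ ℓ ∈ Icc 1 N1, frac g ℓ) +
      ∑ n ∈ Ico k N1, 1 / ((n : ℝ) * (n + 1)) * (∑ ℓ ∈ Icc 1 n, frac g ℓ)) + 1 / N1) =
      Q / N1 + (Q * (1 / N1) * (∑ ℓ ∈ Icc 1 N1, frac g ℓ) +
      (∑ n ∈ Ico k N1, Q * (1 / ((n : ℝ) * (n + 1))) * (∑ ℓ ∈ Icc 1 n, frac g ℓ))) := by
      have e : ∑ n ∈ Ico k N1, Q * (1 / ((n : ℝ) * (n + 1))) * (∑ ℓ ∈ Icc 1 n, frac g ℓ) =
          Q * ∑ n ∈ Ico k N1, 1 / ((n : ℝ) * (n + 1)) * (∑ ℓ ∈ Icc 1 n, frac g ℓ) := by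
        rw [mul_sum]
        exact sum_congr rfl fun n _ => by ring
      rw [e]
      ring
    have f3 : 0 ≤ Q * ∑ ℓ ∈ Ioc k (L ^ d), frac g ℓ / ℓ := mul_nonneg hQ f1
    have f4 := rc_nonneg d k
    rw [s6] at s5
    rw [abs_le]
    constructor <;> linarith

/-- the probability that the cycle of the origin is short -/
noncomputable def Fn (d L : ℕ) [NeZero L] (t : ℝ) (n : ℕ) : ℝ :=
  stirExp (nnRate d L) t (fun g => if (cyc g 0).card ≤ n then 1 else 0)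

theorem Fn_eq (t : ℝ) (n : ℕ) :
    stirExp (nnRate d L) t (fun g => ∑ ℓ ∈ Icc 1 n, frac g ℓ) = Fn d L t n := by
  simp only [sum_frac]
  exact exp_frac_le t n 0

theorem number_exp (hd : 2 ≤ d) (t Q : ℝ) (ht : 0 ≤ t) (hQ : 0 ≤ Q) (k N1 : ℕ) (hk : 1 ≤ k)
    (h1 : k ≤ N1) (h3 : N1 ≤ L ^ d) :
    stirExp (nnRate d L) t (fun g =>
      |Q * ((g.partition.parts.card : ℝ) / (L : ℝ) ^ d) - rc d 0|) ≤
      (∑ ℓ ∈ Icc 1 k, stirExp (nnRate d L) t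
        (fun g => |Q * frac g ℓ - (ℓ : ℝ) ^ (-(d / 2 : ℝ))|)) +
      (rc d k + Q / N1 + (Q * (1 / N1) * Fn d L t N1 +
      (∑ n ∈ Ico k N1, Q * (1 / ((n : ℝ) * (n + 1))) * Fn d L t n))) := by
  refine (exp_mono nn_nonneg ht fun g => number_pt hd Q hQ k N1 hk h1 h3 g).trans
    (le_of_eq ?_)
  have e1 : stirExp (nnRate d L) t (fun g => ∑ n ∈ Ico k N1,
      Q * (1 / ((n : ℝ) * (n + 1))) * (∑ ℓ ∈ Icc 1 n, frac g ℓ)) =
      ∑ n ∈ Ico k N1, Q * (1 / ((n : ℝ) * (n + 1))) * Fn d L t n := by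
    rw [← exp_sum]
    refine sum_congr rfl fun n _ => ?_
    rw [stir_smul, Fn_eq]
  rw [exp_add2, exp_add2, exp_const, exp_add2, stir_smul, e1, ← exp_sum, Fn_eq]

end torus

/-- one term of the sum by parts -/
theorem term_le (C c q Q a N : ℝ) (n : ℕ) (F : ℝ) (hC : 0 ≤ C) (hc : 0 ≤ c) (hq : 0 ≤ q)
    (hn : 1 ≤ n) (hQa : Q * a = c) (hQN : Q / N = q) (hQ : 0 ≤ Q)
    (hF : F ≤ C * (Real.sqrt n * a + n / N)) :
    Q * (1 / ((n : ℝ) * (n + 1))) * F ≤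
      C * c * (n : ℝ) ^ (-(((3 : ℕ) : ℝ) / 2)) + C * q * (1 / ((n : ℝ) + 1)) := by
  have hn0 : (0 : ℝ) < n := by exact_mod_cast hn
  have h1 : Q * (1 / ((n : ℝ) * (n + 1))) * F ≤
      Q * (1 / ((n : ℝ) * (n + 1))) * (C * (Real.sqrt n * a + n / N)) :=
    mul_le_mul_of_nonneg_left hF (by positivity)
  refine h1.trans ?_
  have e1 : Q * (1 / ((n : ℝ) * (n + 1))) * (C * (Real.sqrt n * a + n / N)) =
      C * (Q * a) * (Real.sqrt n * (1 / ((n : ℝ) * (n + 1)))) +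
        C * (Q / N) * (n * (1 / ((n : ℝ) * (n + 1)))) := by ring
  rw [e1, hQa, hQN]
  have e2 : (n : ℝ) * (1 / ((n : ℝ) * (n + 1))) = 1 / ((n : ℝ) + 1) := by
    field_simp
  have e3 : (n : ℝ) ^ (-(((3 : ℕ) : ℝ) / 2)) = Real.sqrt n * (1 / (n : ℝ) ^ 2) := by
    have e4 : -(((3 : ℕ) : ℝ) / 2) = 1 / 2 - ((2 : ℕ) : ℝ) := by
      push_cast
      norm_num
    rw [e4, Real.rpow_sub hn0, Real.rpow_natCast, mul_one_div, Real.sqrt_eq_rpow]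
  rw [e2, e3]
  have h2 : Real.sqrt n * (1 / ((n : ℝ) * (n + 1))) ≤ Real.sqrt n * (1 / (n : ℝ) ^ 2) := by
    refine mul_le_mul_of_nonneg_left ?_ (Real.sqrt_nonneg _)
    refine one_div_le_one_div_of_le (by positivity) ?_
    nlinarith
  have h3 := mul_le_mul_of_nonneg_left h2 (mul_nonneg hC hc)
  linarith

theorem nmx : S_NMX := by
  intro d hd hUB
  obtain ⟨C, T₀, m₁, hC, hT₀, hub⟩ := hUB
  have hd2 : (2 : ℝ) ≤ d := by exact_mod_cast hd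
  have hpi := Real.pi_pos
  have hC0 : 0 < C := by linarith
  obtain ⟨c₀, hc₀⟩ : ∃ c₀ : ℝ, c₀ = (4 * Real.pi) ^ (d / 2 : ℝ) := ⟨_, rfl⟩
  have hc₀0 : 0 < c₀ := by rw [hc₀]; exact Real.rpow_pos_of_pos (by positivity) _
  refine ⟨m₁ + 4, ?_⟩
  intro ε hε
  obtain ⟨k₁, hk₁⟩ := rr_tendsto 3 le_rfl (min (ε / 8) (ε / (16 * C * c₀)))
    (lt_min (by positivity) (by positivity))
  obtain ⟨T₁, hT₁, hp1⟩ := pow_big (1 / 2) (16 * C * c₀ / ε) (by norm_num)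
  obtain ⟨k, hk⟩ : ∃ k : ℕ, k = k₁ + 1 + ⌈T₁⌉₊ := ⟨_, rfl⟩
  have hk1 : 1 ≤ k := by omega
  have hkk : k₁ + 1 ≤ k := by omega
  have hkT : T₁ ≤ k := by
    refine (Nat.le_ceil T₁).trans ?_
    have : ⌈T₁⌉₊ ≤ k := by omega
    exact_mod_cast this
  have hk0 : (0 : ℝ) < k := by exact_mod_cast hk1
  obtain ⟨e, he⟩ : ∃ e : ℝ, e = ε / (8 * k) := ⟨_, rfl⟩
  have he0 : 0 < e := by rw [he]; positivity
  obtain ⟨T₂, hT₂, hlen⟩ := len_all d (by omega) k e he0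
  obtain ⟨Y, hY⟩ : ∃ Y : ℝ, Y = 16 * C * c₀ * (1 + d) / ε + T₂ + 1 := ⟨_, rfl⟩
  have hY0 : 0 < 16 * C * c₀ * (1 + d) / ε := by positivity
  obtain ⟨T, hT⟩ : ∃ T : ℝ, T = T₀ + T₂ + (k + 2) + Real.exp (2 * Y) := ⟨_, rfl⟩
  have hexp := Real.exp_pos (2 * Y)
  have hT3 : 3 ≤ T := by rw [hT]; linarith
  refine ⟨T, hT3, ?_⟩
  intro L _ t hL3 htT hlog1 hlog2
  obtain ⟨y, hy⟩ : ∃ y : ℝ, y = Real.log L := ⟨_, rfl⟩
  rw [← hy] at hlog1 hlog2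
  have ht3 : 3 ≤ t := hT3.trans htT
  have ht0 : 0 < t := by linarith
  have hLr : (3 : ℝ) ≤ L := by exact_mod_cast hL3
  have hL0 : (0 : ℝ) < L := by linarith
  have hL1 : (1 : ℝ) ≤ L := by linarith
  have hy1 : 1 ≤ y := by
    rw [hy, Real.le_log_iff_exp_le hL0]
    have := Real.exp_one_lt_d9
    linarith
  have hy0 : 0 < y := by linarith
  have hym : ∀ n : ℕ, 1 ≤ y ^ n := fun n => one_le_pow₀ hy1
  have htL2 : t ≤ (L : ℝ) ^ 2 := (le_mul_of_one_le_right ht0.le (hym _)).trans hlog2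
  have hyY : Y ≤ y := by
    have h1 : Real.exp (2 * Y) ≤ (L : ℝ) ^ 2 := by
      refine le_trans ?_ htL2
      rw [hT] at htT
      linarith
    have h2 : 2 * Y ≤ Real.log ((L : ℝ) ^ 2) := (Real.le_log_iff_exp_le (by positivity)).2 h1
    rw [Real.log_pow, ← hy] at h2
    push_cast at h2
    linarith
  have hyC : 16 * C * c₀ * (1 + d) ≤ ε * y := by
    have h1 : 16 * C * c₀ * (1 + d) / ε ≤ y := by linarith
    rw [div_le_iff₀ hε] at h1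
    linarith
  have hyT2 : T₂ ≤ y := by linarith
  have hT0t : T₀ ≤ t := le_trans (by rw [hT]; linarith) htT
  have hT2t : T₂ ≤ t := le_trans (by rw [hT]; linarith) htT
  have hkt : (k : ℝ) + 2 ≤ t := le_trans (by rw [hT]; linarith) htT
  have hT2L : T₂ * t ≤ (L : ℝ) ^ 2 := by
    refine le_trans ?_ hlog2
    rw [mul_comm]
    refine mul_le_mul_of_nonneg_left ?_ ht0.le
    refine hyT2.trans ?_
    calc y = y ^ 1 := (pow_one y).symm
      _ ≤ y ^ (m₁ + 4) := pow_le_pow_right₀ hy1 (by omega)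
  -- the volume
  obtain ⟨N, hN⟩ : ∃ N : ℝ, N = (L : ℝ) ^ d := ⟨_, rfl⟩
  have hN0 : 0 < N := by rw [hN]; positivity
  have hL2N : (L : ℝ) ^ 2 ≤ N := by rw [hN]; exact pow_le_pow_right₀ hL1 hd
  have hkey : t ^ (d / 2 : ℝ) * y ^ (m₁ + 4) ≤ N := by
    have h1 : (t * y ^ (m₁ + 4)) ^ (d / 2 : ℝ) ≤ ((L : ℝ) ^ 2) ^ (d / 2 : ℝ) :=
      Real.rpow_le_rpow (by positivity) hlog2 (by positivity)
    have h2 : ((L : ℝ) ^ 2) ^ (d / 2 : ℝ) = N := by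
      rw [hN, ← Real.rpow_natCast (L : ℝ) 2, ← Real.rpow_mul hL0.le, ← Real.rpow_natCast (L : ℝ) d]
      have : ((2 : ℕ) : ℝ) * ((d : ℝ) / 2) = d := by push_cast; ring
      rw [this]
    have h3 : (t * y ^ (m₁ + 4)) ^ (d / 2 : ℝ) = t ^ (d / 2 : ℝ) * (y ^ (m₁ + 4)) ^ (d / 2 : ℝ) :=
      Real.mul_rpow ht0.le (by positivity)
    have h4 : y ^ (m₁ + 4) ≤ (y ^ (m₁ + 4)) ^ (d / 2 : ℝ) := by
      have h5 : (y ^ (m₁ + 4)) ^ (1 : ℝ) ≤ (y ^ (m₁ + 4)) ^ (d / 2 : ℝ) :=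
        Real.rpow_le_rpow_of_exponent_le (hym _) (by linarith)
      rwa [Real.rpow_one] at h5
    rw [h2, h3] at h1
    refine le_trans ?_ h1
    exact mul_le_mul_of_nonneg_left h4 (Real.rpow_nonneg ht0.le _)
  -- `Q`
  obtain ⟨Q, hQ⟩ : ∃ Q : ℝ, Q = (4 * Real.pi * t) ^ (d / 2 : ℝ) := ⟨_, rfl⟩
  have hQe : Q = c₀ * t ^ (d / 2 : ℝ) := by
    rw [hQ, hc₀, Real.mul_rpow (by positivity) ht0.le]
  have htd : 0 < t ^ (d / 2 : ℝ) := Real.rpow_pos_of_pos ht0 _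
  have hQ0 : 0 < Q := by rw [hQe]; positivity
  have hQa : Q * t ^ (-(d / 2 : ℝ)) = c₀ := by
    rw [hQe, mul_assoc, ← Real.rpow_add ht0, add_neg_cancel, Real.rpow_zero, mul_one]
  obtain ⟨q, hq⟩ : ∃ q : ℝ, q = Q / N := ⟨_, rfl⟩
  have hq0 : 0 < q := by rw [hq]; positivity
  have hqm : q * y ^ (m₁ + 4) ≤ c₀ := by
    rw [hq, div_mul_eq_mul_div, div_le_iff₀ hN0, hQe, mul_assoc]
    exact mul_le_mul_of_nonneg_left hkey hc₀0.le
  have hq1 : q * y ≤ c₀ := by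
    refine le_trans (mul_le_mul_of_nonneg_left ?_ hq0.le) hqm
    calc y = y ^ 1 := (pow_one y).symm
      _ ≤ y ^ (m₁ + 4) := pow_le_pow_right₀ hy1 (by omega)
  have hq2 : q * (y * y) ≤ c₀ := by
    refine le_trans (mul_le_mul_of_nonneg_left ?_ hq0.le) hqm
    calc y * y = y ^ 2 := (sq y).symm
      _ ≤ y ^ (m₁ + 4) := pow_le_pow_right₀ hy1 (by omega)
  have hq3 : q * (y ^ m₁ * y) ≤ c₀ := by
    refine le_trans (mul_le_mul_of_nonneg_left ?_ hq0.le) hqm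
    calc y ^ m₁ * y = y ^ (m₁ + 1) := (pow_succ y m₁).symm
      _ ≤ y ^ (m₁ + 4) := pow_le_pow_right₀ hy1 (by omega)
  -- consequences
  have hcc : c₀ ≤ C * c₀ := le_mul_of_one_le_left hc₀0.le hC
  have hcd : C * c₀ ≤ C * c₀ * (1 + d) := by
    refine le_mul_of_one_le_right (by positivity) ?_
    linarith
  have G1 : C * q ≤ ε / 16 := by
    have h1 : C * q * y ≤ ε / 16 * y := by
      have h2 : C * (q * y) ≤ C * c₀ := mul_le_mul_of_nonneg_left hq1 hC0.le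
      linarith
    exact le_of_mul_le_mul_right h1 hy0
  have G2 : C * q * ((1 + d) * y) ≤ ε / 16 := by
    have h1 : C * q * ((1 + d) * y) * y ≤ ε / 16 * y := by
      have h2 : C * (1 + d) * (q * (y * y)) ≤ C * (1 + d) * c₀ :=
        mul_le_mul_of_nonneg_left hq2 (by positivity)
      have e1 : C * q * ((1 + d) * y) * y = C * (1 + d) * (q * (y * y)) := by ring
      rw [e1]
      linarith
    exact le_of_mul_le_mul_right h1 hy0
  have G3 : 2 * (q * y ^ m₁) ≤ ε / 8 := by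
    have h1 : 2 * (q * y ^ m₁) * y ≤ ε / 8 * y := by
      have e1 : 2 * (q * y ^ m₁) * y = 2 * (q * (y ^ m₁ * y)) := by ring
      rw [e1]
      linarith
    exact le_of_mul_le_mul_right h1 hy0
  -- `N1`
  obtain ⟨D, hD⟩ : ∃ D : ℝ, D = N / y ^ m₁ := ⟨_, rfl⟩
  have hym0 : 0 < y ^ m₁ := by positivity
  have hym4 : y ^ m₁ ≤ y ^ (m₁ + 4) := pow_le_pow_right₀ hy1 (by omega)
  have htm : t * y ^ m₁ ≤ (L : ℝ) ^ 2 := (mul_le_mul_of_nonneg_left hym4 ht0.le).trans hlog2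
  have hDt : t ≤ D := by
    rw [hD, le_div_iff₀ hym0]
    exact htm.trans hL2N
  have hDN : D ≤ N := by
    rw [hD]
    exact div_le_self hN0.le (hym _)
  have hD0 : 0 < D := by linarith
  obtain ⟨N1, hN1⟩ : ∃ N1 : ℕ, N1 = ⌊D⌋₊ := ⟨_, rfl⟩
  have hN1a : (N1 : ℝ) ≤ D := by rw [hN1]; exact Nat.floor_le hD0.le
  have hN1b : D < N1 + 1 := by rw [hN1]; exact Nat.lt_floor_add_one _
  have hkN1 : k ≤ N1 := by
    have h2 : (k : ℝ) ≤ N1 := by linarith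
    exact_mod_cast h2
  have hN10 : (0 : ℝ) < N1 := by
    have : 0 < N1 := by omega
    exact_mod_cast this
  have hN1h : D ≤ 2 * N1 := by linarith
  have hN1L : N1 ≤ L ^ d := by
    have h1 : (N1 : ℝ) ≤ (L : ℝ) ^ d := by
      rw [← hN]
      linarith
    exact_mod_cast h1
  have hmain := number_exp (L := L) hd t Q ht0.le hQ0.le k N1 hk1 hkN1 hN1L
  rw [← hQ]
  refine hmain.trans ?_
  -- the upper bound
  have hub' : ∀ n : ℕ, 1 ≤ n → n ≤ N1 →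
      Fn d L t n ≤ C * (Real.sqrt n * t ^ (-(d / 2 : ℝ)) + n / N) := by
    intro n hn hnN
    have hnr : (n : ℝ) ≤ N1 := by exact_mod_cast hnN
    have h := hub L t n hL3 hT0t (by rw [← hy]; exact hym4.trans hlog1) (by rw [← hy]; exact htm) hn
      (by
        rw [← hy, ← hN]
        have h1 : y ^ m₁ * (n : ℝ) ≤ y ^ m₁ * D :=
          mul_le_mul_of_nonneg_left (hnr.trans hN1a) hym0.le
        have h2 : y ^ m₁ * D = N := by
          rw [hD]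
          field_simp
        linarith) 0
    rw [← hN] at h
    exact h
  have E1 : ∑ ℓ ∈ Icc 1 k, stirExp (nnRate d L) t
      (fun g => |Q * frac g ℓ - (ℓ : ℝ) ^ (-(d / 2 : ℝ))|) ≤ ε / 8 := by
    have h1 : ∀ ℓ ∈ Icc 1 k, stirExp (nnRate d L) t
        (fun g => |Q * frac g ℓ - (ℓ : ℝ) ^ (-(d / 2 : ℝ))|) ≤ e := by
      intro ℓ hℓ
      have h2 := hlen L hL3 t hT2t hT2L ℓ (mem_Icc.1 hℓ).1 (mem_Icc.1 hℓ).2
      rw [← hQ] at h2
      exact h2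
    refine (sum_le_sum h1).trans (le_of_eq ?_)
    rw [sum_const, Nat.card_Icc, nsmul_eq_mul, Nat.add_sub_cancel, he]
    field_simp
  have E2 : rc d k ≤ ε / 8 :=
    (rc_le3 d k hd).trans ((rr_anti 3 le_rfl (by omega)).trans (hk₁.trans (min_le_left _ _)))
  have E3 : Q / N1 ≤ ε / 8 := by
    refine le_trans ?_ G3
    rw [div_le_iff₀ hN10]
    have h1 : q * y ^ m₁ * D ≤ q * y ^ m₁ * (2 * N1) :=
      mul_le_mul_of_nonneg_left hN1h (by positivity)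
    have h2 : q * y ^ m₁ * D = Q := by
      rw [hq, hD]
      field_simp
    linarith
  have E4 : Q * (1 / N1) * Fn d L t N1 ≤ ε / 8 := by
    have h1 := hub' N1 (hk1.trans hkN1) le_rfl
    have h2 : Q * (1 / N1) * Fn d L t N1 ≤
        Q * (1 / N1) * (C * (Real.sqrt N1 * t ^ (-(d / 2 : ℝ)) + N1 / N)) :=
      mul_le_mul_of_nonneg_left h1 (by positivity)
    refine h2.trans ?_
    have hs : 0 < Real.sqrt N1 := Real.sqrt_pos.2 hN10
    have hss : Real.sqrt N1 * Real.sqrt N1 = N1 := Real.mul_self_sqrt hN10.le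
    have e1 : Q * (1 / N1) * (C * (Real.sqrt N1 * t ^ (-(d / 2 : ℝ)) + N1 / N)) =
        C * (Q * t ^ (-(d / 2 : ℝ))) * (Real.sqrt N1 / N1) + C * (Q / N) * (N1 / N1) := by ring
    have e2 : Real.sqrt N1 / N1 = 1 / Real.sqrt N1 := by
      rw [div_eq_div_iff hN10.ne' hs.ne', hss, one_mul]
    rw [e1, hQa, e2, div_self hN10.ne', mul_one, ← hq]
    have h3 := hp1 N1 (hkT.trans (by exact_mod_cast hkN1))
    rw [← Real.sqrt_eq_rpow, div_le_iff₀ hε] at h3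
    have h4 : C * c₀ * (1 / Real.sqrt N1) ≤ ε / 16 := by
      rw [mul_one_div, div_le_iff₀ hs]
      linarith
    linarith
  have E5 : ∑ n ∈ Ico k N1, Q * (1 / ((n : ℝ) * (n + 1))) * Fn d L t n ≤ ε / 8 := by
    have h1 : ∀ n ∈ Ico k N1, Q * (1 / ((n : ℝ) * (n + 1))) * Fn d L t n ≤
        C * c₀ * (n : ℝ) ^ (-(((3 : ℕ) : ℝ) / 2)) + C * q * (1 / ((n : ℝ) + 1)) := by
      intro n hn
      rw [mem_Ico] at hn
      exact term_le C c₀ q Q _ N n _ hC0.le hc₀0.le hq0.le (by omega) hQa hq.symm hQ0.le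
        (hub' n (by omega) (by omega))
    refine (sum_le_sum h1).trans ?_
    rw [sum_add_distrib, ← mul_sum, ← mul_sum]
    have h2 : ∑ n ∈ Ico k N1, (n : ℝ) ^ (-(((3 : ℕ) : ℝ) / 2)) ≤ Pool.Agent.H961.T2.rr 3 k₁ := by
      refine le_trans ?_ (ico_sum_le k₁ N1)
      refine sum_le_sum_of_subset_of_nonneg ?_ fun n _ _ =>
        Real.rpow_nonneg (Nat.cast_nonneg _) _
      intro x hx
      rw [mem_Ico] at hx ⊢
      omega
    have h3 := h2.trans (hk₁.trans (min_le_right _ _))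
    have h4 : C * c₀ * ∑ n ∈ Ico k N1, (n : ℝ) ^ (-(((3 : ℕ) : ℝ) / 2)) ≤ ε / 16 := by
      refine (mul_le_mul_of_nonneg_left h3 (by positivity)).trans (le_of_eq ?_)
      field_simp
    have h5 : ∑ n ∈ Ico k N1, 1 / ((n : ℝ) + 1) ≤ (1 + d) * y := by
      refine (harm_le k N1).trans ?_
      have h6 : Real.log N1 ≤ Real.log N := Real.log_le_log hN10 (hN1a.trans hDN)
      rw [hN, Real.log_pow, ← hy] at h6
      linarith
    have h7 : C * q * ∑ n ∈ Ico k N1, 1 / ((n : ℝ) + 1) ≤ ε / 16 :=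
      (mul_le_mul_of_nonneg_left h5 (by positivity)).trans G2
    linarith
  linarith

end Pool.Agent.H961.T4.Nmxh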