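import Pool.Agent.H961.T4.Stm5
import Pool.Agent.H961.T4.Alp
import Pool.Agent.H961.T4.Ubq

/-!
# Project PN, UB5: upper bound for short cycles in the plane
-/

set_option autoImplicit false

namespace Pool.Agent.H961.T4.Ub5h

open Finset Equiv Matrix Q292.LC Pool.Agent.H961.T2 Pool.Agent.H961.T3 Pool.Agent.H961.T4
open Pool.Agent.Y998.ST (stirExp nnRate qq hop cycleLen gk exp_const)

theorem al_le (L : ℕ) [NeZero L] (C t w : ℝ) (hC : 0 ≤ C) (ht : 1 ≤ t) (h0 : 0 ≤ w) (h1 : w < 1)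
    (h : ∀ s : ℝ, 1 ≤ s → ∀ x : Fin 2 → ZMod L,
      hop (nnRate 2 L) s x x ≤ C * (1 / s + 1 / (L : ℝ) ^ 2)) (k₀ : ℕ) :
    al 2 L t w k₀ ≤ C * ((L : ℝ) ^ 2 / t * Real.log (1 / (1 - w)) + 1 / (1 - w)) := by
  have hL0 : (0 : ℝ) < L := by exact_mod_cast Nat.pos_of_ne_zero (NeZero.ne L)
  have ht0 : 0 < t := by linarith
  have hd : (0 : ℝ) < 1 - w := by linarith
  have e1 : ∀ k ∈ range k₀, w ^ (k + 1) * ∑ x : Fin 2 → ZMod L,
      hop (nnRate 2 L) (((k : ℝ) + 1) * t) x x ≤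
      C * ((L : ℝ) ^ 2 / t * (w ^ (k + 1) / ((k : ℝ) + 1)) + w ^ k) := by
    intro k _
    have hk : (0 : ℝ) ≤ k := Nat.cast_nonneg _
    have hs : 1 ≤ ((k : ℝ) + 1) * t := by nlinarith
    have e2 : ∑ x : Fin 2 → ZMod L, hop (nnRate 2 L) (((k : ℝ) + 1) * t) x x ≤
        (L : ℝ) ^ 2 * (C * (1 / (((k : ℝ) + 1) * t) + 1 / (L : ℝ) ^ 2)) := by
      refine le_trans (sum_le_sum fun x _ => h _ hs x) (le_of_eq ?_)
      rw [sum_const, card_univ, Fintype.card_fun, ZMod.card, Fintype.card_fin, nsmul_eq_mul]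
      push_cast
      ring
    refine le_trans (mul_le_mul_of_nonneg_left e2 (by positivity)) ?_
    have e3 : w ^ (k + 1) * ((L : ℝ) ^ 2 * (C * (1 / (((k : ℝ) + 1) * t) + 1 / (L : ℝ) ^ 2))) =
        C * ((L : ℝ) ^ 2 / t * (w ^ (k + 1) / ((k : ℝ) + 1)) + w ^ (k + 1)) := by
      field_simp
    rw [e3]
    refine mul_le_mul_of_nonneg_left ?_ hC
    have : w ^ (k + 1) ≤ w ^ k := pow_le_pow_of_le_one h0 h1.le (Nat.le_succ k)
    linarith
  unfold al
  refine (sum_le_sum e1).trans ?_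
  rw [← mul_sum]
  refine mul_le_mul_of_nonneg_left ?_ hC
  rw [sum_add_distrib, ← mul_sum]
  have e4 := Alph.part_le w h0 h1 k₀
  have e5 : ∑ k ∈ range k₀, w ^ k ≤ 1 / (1 - w) := by
    have := sum_le_hasSum (range k₀) (fun n _ => by positivity) (hasSum_geometric_of_lt_one h0 h1)
    rwa [one_div]
  exact add_le_add (mul_le_mul_of_nonneg_left e4 (by positivity)) e5

theorem ub5 (hHKU : S_HKU) (hSTL : S_STL) (hMKS : S_MKS) : S_UB5 := by
  obtain ⟨C₀, hC₀, hK⟩ := hHKU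
  obtain ⟨m, T₁, _, hT₁, hS⟩ := hSTL 2 le_rfl
  obtain ⟨T₂, hT₂, htail⟩ := Alph.tail_small 1 one_pos
  refine ⟨2 * (4 * C₀ + 8), max (max T₁ T₂) (2 ^ 64), m, by linarith,
    le_trans (by norm_num) (le_max_right _ _), ?_⟩
  intro L _ t n hL hTt hlog hn1 hnt hLt x
  have ht1 : T₁ ≤ t := le_trans (le_trans (le_max_left _ _) (le_max_left _ _)) hTt
  have ht2 : T₂ ≤ t := le_trans (le_trans (le_max_right _ _) (le_max_left _ _)) hTt
  have ht3 : (2 : ℝ) ^ 64 ≤ t := le_trans (le_max_right _ _) hTt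
  have ht0 : (1 : ℝ) ≤ t := le_trans (by norm_num) ht3
  have htpos : (0 : ℝ) < t := by linarith
  have hLr : (3 : ℝ) ≤ L := by exact_mod_cast hL
  have hL0 : (0 : ℝ) < L := by linarith
  have hn : (1 : ℝ) ≤ n := by exact_mod_cast hn1
  have hnpos : (0 : ℝ) < n := by linarith
  have htL2 : t ≤ (L : ℝ) ^ 2 := by nlinarith
  set w : ℝ := 1 - 1 / (2 * n) with hw
  have hinv : 1 / (2 * (n : ℝ)) ≤ 1 / 2 := by
    apply one_div_le_one_div_of_le (by norm_num)
    linarith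
  have hinv0 : 0 < 1 / (2 * (n : ℝ)) := by positivity
  have hw0 : 0 ≤ w := by rw [hw]; linarith
  have hw1 : w < 1 := by rw [hw]; linarith
  have h1w : 1 / (1 - w) = 2 * n := by
    rw [hw]
    field_simp
    ring
  have hcond : 1 / (1 - w) ≤ t ^ (1 / 32 : ℝ) := by
    rw [h1w]
    have e1 : (2 : ℝ) ≤ t ^ (1 / 64 : ℝ) := by
      have e2 : ((2 : ℝ) ^ 64) ^ (1 / 64 : ℝ) ≤ t ^ (1 / 64 : ℝ) :=
        Real.rpow_le_rpow (by positivity) ht3 (by norm_num)
      have e3 : ((2 : ℝ) ^ 64) ^ (1 / 64 : ℝ) = 2 := by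
        rw [← Real.rpow_natCast, ← Real.rpow_mul (by norm_num)]
        norm_num
      rwa [e3] at e2
    have e4 : t ^ (1 / 32 : ℝ) = t ^ (1 / 64 : ℝ) * t ^ (1 / 64 : ℝ) := by
      rw [← Real.rpow_add htpos]
      norm_num
    rw [e4]
    exact mul_le_mul e1 hnt hnpos.le (by positivity)
  have hS1 := hS L t w 1 ⌈Real.sqrt t⌉₊ (fun _ => 1) hL ht1 hlog htL2 hw0 hw1 hcond
    (fun _ => ⟨zero_le_one, le_rfl⟩)
  have e1 : (fun g : Perm (Fin 2 → ZMod L) => sb w (fun _ => 1) g) = fun g => sm w g :=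
    funext fun g => (hMKS _ g w hw0 hw1).1
  have e2 : (fun g : Perm (Fin 2 → ZMod L) =>
      mk (ι := Finset (Fin 2 → ZMod L)) card w (cycs g) (fun _ => 1)) = fun _ => 1 :=
    funext fun g => (hMKS _ g w hw0 hw1).2.1
  have e3 : (fun g : Perm (Fin 2 → ZMod L) =>
      mk (ι := Finset (Fin 2 → ZMod L)) card w (cycs g)
        (fun J => (∑ C ∈ J, (C.card : ℝ)) * 1)) = fun g => sm w g := by
    funext g
    simp only [mul_one]
    exact (hMKS _ g w hw0 hw1).2.2.1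
  rw [e1, e2, e3, exp_const, mul_one, mul_one, Ubqh.ubq_sm L t w x] at hS1
  have hal := al_le L C₀ t w (by linarith) ht0 hw0 hw1 (fun s hs x => hK L hL s hs x)
    ⌈Real.sqrt t⌉₊
  have htl := htail t w ht2 hw0 hw1 hcond
  have hτ : t ^ (-(1 / 16) : ℝ) ≤ 1 / 16 := by
    have h1 : t ^ (-(1 / 16) : ℝ) ≤ ((2 : ℝ) ^ 64) ^ (-(1 / 16) : ℝ) :=
      Real.rpow_le_rpow_of_nonpos (by positivity) ht3 (by norm_num)
    refine h1.trans (le_of_eq ?_)
    rw [← Real.rpow_natCast, ← Real.rpow_mul (by norm_num)]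
    have h2 : ((64 : ℕ) : ℝ) * (-(1 / 16)) = ((-4 : ℤ) : ℝ) := by norm_num
    rw [h2, Real.rpow_intCast]
    norm_num
  have hτ0 : 0 < t ^ (-(1 / 16) : ℝ) := Real.rpow_pos_of_pos htpos _
  have hω0 : 0 ≤ w ^ ⌈Real.sqrt t⌉₊ := by positivity
  have hexp : stirExp (nnRate 2 L) t (fun g => if (cyc g x).card ≤ n then 1 else 0) ≤
      2 * stirExp (nnRate 2 L) t (fun g => w ^ (cyc g x).card) := by
    have hmono : stirExp (nnRate 2 L) t (fun g => if (cyc g x).card ≤ n then 1 else 0) ≤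
        stirExp (nnRate 2 L) t (fun g => 2 * w ^ (cyc g x).card) := by
      apply Pool.Agent.Y998.ST.exp_mono (Ubqh.ubq_nn 2 L) htpos.le
      intro g
      split_ifs with hc
      · have b1 : (1 : ℝ) / 2 ≤ w ^ n := by
          have b2 := one_add_mul_le_pow (a := -(1 / (2 * (n : ℝ)))) (by linarith) n
          have b3 : 1 + (n : ℝ) * -(1 / (2 * (n : ℝ))) = 1 / 2 := by
            field_simp
            ring
          rw [b3] at b2
          have b4 : (1 : ℝ) + -(1 / (2 * (n : ℝ))) = w := by rw [hw]; ring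
          rwa [b4] at b2
        have b5 : w ^ n ≤ w ^ (cyc g x).card := pow_le_pow_of_le_one hw0 hw1.le hc
        linarith
      · positivity
    have hmul : stirExp (nnRate 2 L) t (fun g => 2 * w ^ (cyc g x).card) =
        2 * stirExp (nnRate 2 L) t (fun g => w ^ (cyc g x).card) := by
      unfold stirExp
      rw [mul_sum]
      exact sum_congr rfl fun g _ => by ring
    rw [hmul] at hmono
    exact hmono
  have hE0 : 0 ≤ stirExp (nnRate 2 L) t (fun g => w ^ (cyc g x).card) := by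
    unfold stirExp
    exact sum_nonneg fun g _ => mul_nonneg
      (Pool.Agent.Y998.ST.law_nonneg (Ubqh.ubq_nn 2 L) htpos.le g) (by positivity)
  refine hexp.trans ?_
  generalize stirExp (nnRate 2 L) t (fun g => w ^ (cyc g x).card) = E at hS1 hE0 ⊢
  generalize al 2 L t w ⌈Real.sqrt t⌉₊ = α at hS1 hal
  generalize t ^ (-(1 / 16) : ℝ) = τ at hS1 hτ hτ0
  generalize w ^ ⌈Real.sqrt t⌉₊ = ω at hS1 htl hω0
  have hd : 0 < 1 - w := by linarith
  have hlog2 : Real.log (2 * n) ≤ 1 + Real.log n := by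
    rw [Real.log_mul (by norm_num) hnpos.ne']
    have := Real.log_two_lt_d9
    linarith
  have hlogn : 0 ≤ Real.log n := Real.log_nonneg hn
  have hpi := Real.pi_gt_three
  rw [h1w] at hal
  have hq0 : 0 ≤ ω / (1 - w) := div_nonneg hω0 hd.le
  have htl' : t * (ω / (1 - w)) ≤ 1 := by
    have : 0 ≤ t * (ω / (1 - w)) := by positivity
    nlinarith
  have hLt' : 2 * (n : ℝ) ≤ (L : ℝ) ^ 2 / t := by
    rw [le_div_iff₀ htpos]
    linarith
  set r : ℝ := (L : ℝ) ^ 2 / t with hr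
  have hr1 : 1 ≤ r := by rw [hr, le_div_iff₀ htpos]; linarith
  have hrt : r * t = (L : ℝ) ^ 2 := by rw [hr]; field_simp
  have hal' : α ≤ C₀ * (r * (2 + Real.log n)) := by
    refine hal.trans (mul_le_mul_of_nonneg_left ?_ (by linarith))
    have : r * Real.log (2 * n) ≤ r * (1 + Real.log n) :=
      mul_le_mul_of_nonneg_left hlog2 (by linarith)
    linarith
  have hω' : (L : ℝ) ^ 2 * ω / (1 - w) ≤ r := by
    have e : (L : ℝ) ^ 2 * ω / (1 - w) = r * (t * (ω / (1 - w))) := by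
      rw [← mul_assoc, hrt]; ring
    rw [e]
    exact mul_le_of_le_one_right (by linarith) htl'
  have hlast : 1 / (L : ℝ) ^ 2 ≤ r := by
    have : 1 / (L : ℝ) ^ 2 ≤ 1 := by
      rw [div_le_one (by positivity)]
      nlinarith
    linarith
  have h5 := (abs_le.1 hS1).2
  have hLE : 0 ≤ (L : ℝ) ^ 2 * E := by positivity
  have h6 : 4 * τ * ((L : ℝ) ^ 2 * E) ≤ 1 / 4 * ((L : ℝ) ^ 2 * E) :=
    mul_le_mul_of_nonneg_right (by linarith) hLE
  have h7 : 4 * τ * r ≤ 1 / 4 * r := mul_le_mul_of_nonneg_right (by linarith) (by linarith)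
  have h8 : (L : ℝ) ^ 2 * E ≤ 2 * (C₀ * (r * (2 + Real.log n)) + 3 * r) := by
    linarith
  rw [← hrt] at h8
  have h9 : t * E ≤ 2 * (C₀ * (2 + Real.log n) + 3) := by
    have h10 : r * (t * E) ≤ r * (2 * (C₀ * (2 + Real.log n) + 3)) := by
      calc r * (t * E) = r * t * E := by ring
        _ ≤ _ := h8
        _ = _ := by ring
    exact le_of_mul_le_mul_left h10 (by linarith)
  rw [← mul_div_assoc, le_div_iff₀ htpos]
  have h11 : 0 ≤ C₀ * Real.log n := by positivity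
  nlinarith

end Pool.Agent.H961.T4.Ub5h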