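import Pool.Agent.H961.T4.Stm5

/-!
# Project PN, UBX2: upper bound for all lengths in the plane
-/

set_option autoImplicit false
set_option linter.unusedVariables false

namespace Pool.Agent.H961.T4.Ubx2h

open Finset Equiv Matrix Q292.LC Pool.Agent.H961.T2 Pool.Agent.H961.T3 Pool.Agent.H961.T4
open Pool.Agent.Y998.ST (stirExp nnRate cycleLen nn_nonneg exp_mono)

/-- elementary: `1 + log n ≤ 2 √n` -/
theorem one_add_log_le {n : ℝ} (hn : 1 ≤ n) : 1 + Real.log n ≤ 2 * Real.sqrt n := by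
  have h0 : 0 < n := by linarith
  have h1 : 0 < Real.sqrt n := Real.sqrt_pos.2 h0
  have h2 : Real.log n = 2 * Real.log (Real.sqrt n) := by
    rw [Real.log_sqrt h0.le]
    ring
  have h3 := Real.log_le_sub_one_of_pos h1
  rw [h2]
  linarith

/-- the logarithm of the side length is at least `2` -/
theorem two_le_log {L t : ℝ} (hL : 0 < L) (ht : 60 ≤ t) (h : t ≤ L ^ 2) : 2 ≤ Real.log L := by
  have h1 : Real.exp 1 < 2.7182818286 := Real.exp_one_lt_d9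
  have h2 : Real.exp 4 ≤ 60 := by
    have e : Real.exp 4 = Real.exp 1 ^ 4 := by
      rw [← Real.exp_nat_mul]
      norm_num
    rw [e]
    have h3 : Real.exp 1 ^ 4 ≤ 2.7182818286 ^ 4 :=
      pow_le_pow_left₀ (Real.exp_pos 1).le h1.le 4
    refine h3.trans ?_
    norm_num
  have h4 : Real.log (Real.exp 4) ≤ Real.log (L ^ 2) :=
    Real.log_le_log (Real.exp_pos 4) (by linarith)
  rw [Real.log_exp, Real.log_pow] at h4
  push_cast at h4
  linarith

/-- a long length has a large square root -/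
theorem sqrt_ge {l n : ℝ} {m : ℕ} (hl : 0 ≤ l) (h : l ^ (2 * m) ≤ n) : l ^ m ≤ Real.sqrt n := by
  refine Real.le_sqrt_of_sq_le ?_
  rw [← pow_mul, mul_comm m 2]
  exact h

/-- the arithmetic of the second case -/
theorem case_two {l t N n : ℝ} {m m₁ : ℕ} (hl : 2 ≤ l) (hm : 128 * m₁ + 1 ≤ m) (ht : 60 ≤ t)
    (h1 : l ^ m ≤ t) (h2 : t * l ^ m ≤ N) (hn : 1 ≤ n)
    (h : ¬ (n ≤ t ^ (1 / 64 : ℝ) ∧ 2 * (n * t) ≤ N)) : l ^ m₁ ≤ Real.sqrt n := by
  have hl1 : 1 ≤ l := by linarith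
  have hl0 : 0 < l := by linarith
  have ht0 : 0 < t := by linarith
  apply sqrt_ge hl0.le
  rw [not_and_or, not_le, not_le] at h
  rcases h with h | h
  · have h3 : (l ^ (2 * m₁)) ^ 64 ≤ t := by
      rw [← pow_mul]
      refine le_trans (pow_le_pow_right₀ hl1 ?_) h1
      omega
    have h4 : l ^ (2 * m₁) ≤ t ^ (1 / 64 : ℝ) := by
      have h5 : ((l ^ (2 * m₁)) ^ 64) ^ (1 / 64 : ℝ) ≤ t ^ (1 / 64 : ℝ) :=
        Real.rpow_le_rpow (by positivity) h3 (by norm_num)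
      have h6 : ((l ^ (2 * m₁)) ^ 64) ^ (1 / 64 : ℝ) = l ^ (2 * m₁) := by
        rw [← Real.rpow_natCast (l ^ (2 * m₁)) 64, ← Real.rpow_mul (by positivity)]
        norm_num
      rwa [h6] at h5
    exact h4.trans h.le
  · have h3 : t * l ^ m ≤ t * (2 * n) := by linarith
    have h4 : l ^ m ≤ 2 * n := le_of_mul_le_mul_left h3 ht0
    have h5 : l * l ^ (2 * m₁) ≤ l ^ m := by
      rw [← pow_succ']
      exact pow_le_pow_right₀ hl1 (by omega)
    have h6 : 0 ≤ l ^ (2 * m₁) := by positivity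
    nlinarith

/-- UBX2 from UB5 and the one-point law of the plane -/
theorem ubx2_of (hUB5 : S_UB5)
    (hP : ∃ m : ℕ, 1 ≤ m ∧ ∀ ε : ℝ, 0 < ε → ∃ T : ℝ, 3 ≤ T ∧
      ∀ (L : ℕ) [NeZero L] (t n : ℝ), 3 ≤ L → T ≤ t → (Real.log L) ^ m ≤ t → t ≤ (L : ℝ) ^ 2 →
      (Real.log L) ^ m * (1 + (L : ℝ) ^ 2 / t) ≤ n → n ≤ (L : ℝ) ^ 2 →
      ((Real.log L) ^ m * n ≤ (L : ℝ) ^ 2 ∨ t ^ 4 ≤ (L : ℝ) ^ 7) → ∀ x : Fin 2 → ZMod L,
      |stirExp (nnRate 2 L) t (fun g => if ((cyc g x).card : ℝ) ≤ n then 1 else 0) -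
        n / (L : ℝ) ^ 2| ≤ ε * (n / (L : ℝ) ^ 2)) : S_UBX2 := by
  obtain ⟨C₅, T₅, m₅, hC₅, hT₅, h5⟩ := hUB5
  obtain ⟨m₁, hm₁, hP⟩ := hP
  obtain ⟨T₁, hT₁, h1⟩ := hP 1 one_pos
  refine ⟨2 * C₅ + 4, max (max T₅ T₁) 60, m₅ + (128 * m₁ + 1), by linarith, ?_, ?_⟩
  · exact le_trans (by norm_num) (le_max_right _ _)
  intro L _ t n hL hT hlog htL hn hnL x
  have hT5 : T₅ ≤ t := ((le_max_left _ _).trans (le_max_left _ _)).trans hT
  have hT1 : T₁ ≤ t := ((le_max_right _ _).trans (le_max_left _ _)).trans hT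
  have ht60 : 60 ≤ t := (le_max_right _ _).trans hT
  have ht0 : 0 < t := by linarith
  have hL3 : (3 : ℝ) ≤ L := by exact_mod_cast hL
  have hL0 : (0 : ℝ) < L := by linarith
  have hN0 : (0 : ℝ) < (L : ℝ) ^ 2 := by positivity
  have hl1' : 1 ≤ Real.log L := by
    have h2 : Real.exp 1 ≤ L := by
      have := Real.exp_one_lt_d9
      linarith
    have := Real.log_le_log (Real.exp_pos 1) h2
    rwa [Real.log_exp] at this
  have htN : t ≤ (L : ℝ) ^ 2 := by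
    refine le_trans ?_ htL
    exact le_mul_of_one_le_right ht0.le (one_le_pow₀ hl1')
  have hl2 : 2 ≤ Real.log L := two_le_log hL0 ht60 htN
  have hpow : ∀ k : ℕ, k ≤ m₅ + (128 * m₁ + 1) →
      (Real.log L) ^ k ≤ (Real.log L) ^ (m₅ + (128 * m₁ + 1)) :=
    fun k hk => pow_le_pow_right₀ hl1' hk
  have hn1 : (1 : ℝ) ≤ n := by exact_mod_cast hn
  have hexp : t ^ (-(((2 : ℕ) : ℝ) / 2)) = 1 / t := by
    rw [show (-(((2 : ℕ) : ℝ) / 2)) = (-1 : ℝ) by norm_num, Real.rpow_neg_one, one_div]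
  rw [hexp]
  have hsq0 : 0 ≤ Real.sqrt n := Real.sqrt_nonneg _
  have hA : 0 ≤ Real.sqrt n * (1 / t) := by positivity
  have hB : 0 ≤ (n : ℝ) / (L : ℝ) ^ 2 := by positivity
  by_cases hc : (n : ℝ) ≤ t ^ (1 / 64 : ℝ) ∧ 2 * (n * t) ≤ (L : ℝ) ^ 2
  · have h6 := h5 L t n hL hT5 ((hpow m₅ (by omega)).trans hlog) hn hc.1 hc.2 x
    refine h6.trans ?_
    have h7 : (1 + Real.log n) / t ≤ 2 * (Real.sqrt n * (1 / t)) := by
      rw [div_le_iff₀ ht0]
      have h8 : 2 * (Real.sqrt n * (1 / t)) * t = 2 * Real.sqrt n := by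
        field_simp
      rw [h8]
      exact one_add_log_le hn1
    have h9 : C₅ * ((1 + Real.log n) / t) ≤ C₅ * (2 * (Real.sqrt n * (1 / t))) :=
      mul_le_mul_of_nonneg_left h7 (by linarith)
    nlinarith [mul_nonneg (show (0 : ℝ) ≤ C₅ by linarith) hB]
  · have h6 : (Real.log L) ^ m₁ ≤ Real.sqrt n :=
      case_two hl2 (by omega) ht60 hlog htL hn1 hc
    have hlm : 1 ≤ (Real.log L) ^ m₁ := one_le_pow₀ hl1'
    have hl2m : 1 ≤ (Real.log L) ^ (2 * m₁) := one_le_pow₀ hl1'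
    have h2l : 2 * (Real.log L) ^ (2 * m₁) ≤ (Real.log L) ^ (m₅ + (128 * m₁ + 1)) := by
      have e1 : (Real.log L) ^ (2 * m₁ + 1) ≤ (Real.log L) ^ (m₅ + (128 * m₁ + 1)) :=
        hpow _ (by omega)
      rw [pow_succ'] at e1
      nlinarith
    obtain ⟨w, hw⟩ : ∃ w : ℝ, w = (Real.log L) ^ m₁ * (1 + (L : ℝ) ^ 2 / t) := ⟨_, rfl⟩
    have hw0 : 0 ≤ w := by rw [hw]; positivity
    obtain ⟨n', hn'⟩ : ∃ n' : ℝ, n' = max (n : ℝ) w := ⟨_, rfl⟩
    have hnn' : (n : ℝ) ≤ n' := by rw [hn']; exact le_max_left _ _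
    have hwn' : w ≤ n' := by rw [hn']; exact le_max_right _ _
    have hn'le : n' ≤ n + w := by
      rw [hn']
      exact max_le (by linarith) (by linarith)
    have hup1 : (Real.log L) ^ m₁ * n ≤ (L : ℝ) ^ 2 := by
      refine le_trans ?_ hnL
      exact mul_le_mul_of_nonneg_right (hpow m₁ (by omega)) (by linarith)
    have hup2 : (Real.log L) ^ m₁ * w ≤ (L : ℝ) ^ 2 := by
      have e1 : (Real.log L) ^ m₁ * w =
          (Real.log L) ^ (2 * m₁) + (Real.log L) ^ (2 * m₁) * ((L : ℝ) ^ 2 / t) := by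
        rw [hw, two_mul, pow_add]
        ring
      rw [e1]
      have e2 : 2 * (Real.log L) ^ (2 * m₁) ≤ t := h2l.trans hlog
      have e3 : (Real.log L) ^ (2 * m₁) ≤ (L : ℝ) ^ 2 / 2 := by linarith
      have e4 : (Real.log L) ^ (2 * m₁) * ((L : ℝ) ^ 2 / t) ≤ (L : ℝ) ^ 2 / 2 := by
        have e5 : (Real.log L) ^ (2 * m₁) * ((L : ℝ) ^ 2 / t) ≤ (t / 2) * ((L : ℝ) ^ 2 / t) :=
          mul_le_mul_of_nonneg_right (by linarith) (by positivity)
        have e6 : (t / 2) * ((L : ℝ) ^ 2 / t) = (L : ℝ) ^ 2 / 2 := by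
          field_simp
        linarith
      linarith
    have hup : (Real.log L) ^ m₁ * n' ≤ (L : ℝ) ^ 2 := by
      rcases max_choice (n : ℝ) w with e | e
      · rw [hn', e]
        exact hup1
      · rw [hn', e]
        exact hup2
    have hn'0 : 0 ≤ n' := by linarith
    have hn'N : n' ≤ (L : ℝ) ^ 2 := by
      refine le_trans ?_ hup
      exact le_mul_of_one_le_left hn'0 hlm
    have h7 := h1 L t n' hL hT1 ((hpow m₁ (by omega)).trans hlog) htN (by rw [← hw]; exact hwn')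
      hn'N (Or.inl hup) x
    rw [one_mul, abs_le] at h7
    have h8 : stirExp (nnRate 2 L) t (fun g => if (cyc g x).card ≤ n then 1 else 0) ≤
        stirExp (nnRate 2 L) t (fun g => if ((cyc g x).card : ℝ) ≤ n' then 1 else 0) := by
      refine exp_mono (J := nnRate 2 L) (fun x y => nn_nonneg x y) ht0.le (fun g => ?_)
      by_cases e : (cyc g x).card ≤ n
      · have e2 : ((cyc g x).card : ℝ) ≤ n' := le_trans (by exact_mod_cast e) hnn'
        rw [if_pos e, if_pos e2]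
      · rw [if_neg e]
        split_ifs
        · exact zero_le_one
        · exact le_rfl
    have h9 : n' / (L : ℝ) ^ 2 ≤ n / (L : ℝ) ^ 2 + 2 * (Real.sqrt n * (1 / t)) := by
      have e1 : n' / (L : ℝ) ^ 2 ≤ (n + w) / (L : ℝ) ^ 2 :=
        div_le_div_of_nonneg_right hn'le hN0.le
      have e2 : (n + w) / (L : ℝ) ^ 2 = n / (L : ℝ) ^ 2 +
          (Real.log L) ^ m₁ * (1 / (L : ℝ) ^ 2 + 1 / t) := by
        rw [hw]
        field_simp
      have e3 : 1 / (L : ℝ) ^ 2 ≤ 1 / t := one_div_le_one_div_of_le ht0 htN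
      have e4 : (Real.log L) ^ m₁ * (1 / (L : ℝ) ^ 2 + 1 / t) ≤ Real.sqrt n * (1 / t + 1 / t) :=
        mul_le_mul h6 (by linarith) (by positivity) hsq0
      rw [e2] at e1
      linarith
    have h10 : 0 ≤ C₅ * (Real.sqrt n * (1 / t)) := mul_nonneg (by linarith) hA
    have h11 : 0 ≤ C₅ * ((n : ℝ) / (L : ℝ) ^ 2) := mul_nonneg (by linarith) hB
    nlinarith [h7.2]

/-- UBX2 -/
theorem ubx2 (hUB5 : S_UB5) (hSTP : S_STP) (hKAR : S_KAR) (hCYC : S_CYC) (hGAPO : S_GAPO) :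
    S_UBX2 :=
  ubx2_of hUB5 (point_all2 hSTP hKAR hCYC hGAPO 2 le_rfl)

end Pool.Agent.H961.T4.Ubx2h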