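import Pool.Agent.H961.T4.Nall

/-!
# The zeta law of the cycle lengths
-/

set_option autoImplicit false

namespace Pool.Agent.H961.T4

open Finset Equiv Matrix Q292.LC Pool.Agent.H961.T2 Filter
open Pool.Agent.Y998.ST (stirExp nnRate nn_nonneg exp_mono exp_sum exp_const)

section pw

variable {d L : ℕ} [NeZero L]

/-- number of cycles of length `i + 1`, normalized -/
noncomputable def cn (Q : ℝ) (g : Perm (Fin d → ZMod L)) (i : ℕ) : ℝ :=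
  Q * ((g.partition.parts.count (i + 1) : ℝ) / (L : ℝ) ^ d)

theorem cn_zero (Q : ℝ) (g : Perm (Fin d → ZMod L)) (i : ℕ) (hi : i ∉ range (L ^ d)) :
    cn Q g i = 0 := by
  have h1 : g.partition.parts.count (i + 1) = 0 := by
    rw [Multiset.count_eq_zero]
    intro h
    have h2 := Multiset.le_sum_of_mem h
    rw [g.partition.parts_sum, Fintype.card_fun, ZMod.card, Fintype.card_fin] at h2
    rw [mem_range] at hi
    omega
  unfold cn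
  rw [h1]
  simp

theorem cn_summable (Q : ℝ) (g : Perm (Fin d → ZMod L)) : Summable (cn Q g) :=
  summable_of_ne_finset_zero (s := range (L ^ d)) fun i hi => cn_zero Q g i hi

theorem cn_nonneg (Q : ℝ) (hQ : 0 ≤ Q) (g : Perm (Fin d → ZMod L)) (i : ℕ) : 0 ≤ cn Q g i := by
  unfold cn
  positivity

theorem cn_total (Q : ℝ) (g : Perm (Fin d → ZMod L)) :
    ∑' i, cn Q g i = Q * ((g.partition.parts.card : ℝ) / (L : ℝ) ^ d) := by
  rw [tsum_eq_sum (s := range (L ^ d)) fun i hi => cn_zero Q g i hi]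
  rw [parts_card, mul_sum]
  have h1 : ∑ ℓ ∈ Icc 1 (L ^ d), Q * (frac g ℓ / ℓ) =
      ∑ i ∈ range (L ^ d), Q * (frac g (1 + i) / ((1 + i : ℕ) : ℝ)) := by
    rw [show Icc 1 (L ^ d) = Ico 1 (L ^ d + 1) by ext; simp, Finset.sum_Ico_eq_sum_range]
    simp only [Nat.add_sub_cancel]
  rw [h1]
  refine sum_congr rfl fun i _ => ?_
  unfold cn
  rw [frac_num g (1 + i) (by omega), add_comm 1 i]
  have h2 : ((i + 1 : ℕ) : ℝ) ≠ 0 := by positivity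
  field_simp

theorem cn_diff (Q : ℝ) (g : Perm (Fin d → ZMod L)) (i : ℕ) :
    |cn Q g i - ((i : ℝ) + 1) ^ (-(1 + d / 2 : ℝ))| ≤
      |Q * frac g (i + 1) - ((i + 1 : ℕ) : ℝ) ^ (-(d / 2 : ℝ))| := by
  have h0 : (0 : ℝ) < ((i + 1 : ℕ) : ℝ) := by positivity
  have h1 : (1 : ℝ) ≤ ((i + 1 : ℕ) : ℝ) := by
    push_cast
    linarith [(Nat.cast_nonneg i : (0 : ℝ) ≤ i)]
  have h2 : cn Q g i - ((i : ℝ) + 1) ^ (-(1 + d / 2 : ℝ)) =
      (Q * frac g (i + 1) - ((i + 1 : ℕ) : ℝ) ^ (-(d / 2 : ℝ))) / ((i + 1 : ℕ) : ℝ) := by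
    have e3 : ((i : ℝ) + 1) ^ (-(1 + d / 2 : ℝ)) =
        ((i + 1 : ℕ) : ℝ) ^ (-(d / 2 : ℝ)) / ((i + 1 : ℕ) : ℝ) := by
      have h5 : ((i : ℝ) + 1) = ((i + 1 : ℕ) : ℝ) := by push_cast; rfl
      have h6 : (-(1 + d / 2 : ℝ)) = -(d / 2 : ℝ) + (-1) := by ring
      rw [h5, h6, Real.rpow_add h0, Real.rpow_neg_one]
      rfl
    rw [e3]
    unfold cn
    rw [frac_num g (i + 1) (by omega)]
    field_simp
  rw [h2, abs_div, abs_of_pos h0]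
  exact div_le_self (abs_nonneg _) h1

theorem zeta_pw (hd : 1 ≤ d) (Q : ℝ) (hQ : 0 ≤ Q) (g : Perm (Fin d → ZMod L)) (k : ℕ) :
    ∑' i : ℕ, |cn Q g i - ((i : ℝ) + 1) ^ (-(1 + d / 2 : ℝ))| ≤
      2 * ∑ i ∈ range k, |Q * frac g (i + 1) - ((i + 1 : ℕ) : ℝ) ^ (-(d / 2 : ℝ))| +
      |Q * ((g.partition.parts.card : ℝ) / (L : ℝ) ^ d) - rc d 0| + 2 * rc d k := by
  have hb : Summable (fun i : ℕ => ((i : ℝ) + 1) ^ (-(1 + d / 2 : ℝ))) := by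
    have := rc_summable d 0 hd
    simpa using this
  have hb0 : ∀ i : ℕ, 0 ≤ ((i : ℝ) + 1) ^ (-(1 + d / 2 : ℝ)) := fun i => by positivity
  have ha := cn_summable Q g
  have ha0 := cn_nonneg Q hQ g
  have hab : Summable (fun i : ℕ => |cn Q g i - ((i : ℝ) + 1) ^ (-(1 + d / 2 : ℝ))|) :=
    (ha.sub hb).abs
  have hA := ha.sum_add_tsum_nat_add k
  have hB := hb.sum_add_tsum_nat_add k
  have hAB := hab.sum_add_tsum_nat_add k
  have hak : Summable (fun i => cn Q g (i + k)) := (summable_nat_add_iff k).2 ha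
  have hbk : Summable (fun i : ℕ => (((i + k : ℕ) : ℝ) + 1) ^ (-(1 + d / 2 : ℝ))) :=
    (summable_nat_add_iff k).2 hb
  have habk := (summable_nat_add_iff k).2 hab
  have h1 : ∑' i : ℕ, |cn Q g (i + k) - (((i + k : ℕ) : ℝ) + 1) ^ (-(1 + d / 2 : ℝ))| ≤
      ∑' i : ℕ, cn Q g (i + k) + ∑' i : ℕ, (((i + k : ℕ) : ℝ) + 1) ^ (-(1 + d / 2 : ℝ)) := by
    rw [← hak.tsum_add hbk]
    refine habk.tsum_le_tsum (fun i => ?_) (hak.add hbk)
    have e1 := ha0 (i + k)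
    have e2 := hb0 (i + k)
    rw [abs_le]
    constructor <;> linarith
  have h2 : rc d k = ∑' i : ℕ, (((i + k : ℕ) : ℝ) + 1) ^ (-(1 + d / 2 : ℝ)) := by
    unfold rc
    refine tsum_congr fun i => ?_
    push_cast
    rfl
  have h3 : rc d 0 = ∑' i : ℕ, ((i : ℝ) + 1) ^ (-(1 + d / 2 : ℝ)) := by
    unfold rc
    refine tsum_congr fun i => ?_
    push_cast
    rw [add_zero]
  have h4 : ∑ i ∈ range k, ((i : ℝ) + 1) ^ (-(1 + d / 2 : ℝ)) - ∑ i ∈ range k, cn Q g i ≤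
      ∑ i ∈ range k, |cn Q g i - ((i : ℝ) + 1) ^ (-(1 + d / 2 : ℝ))| := by
    rw [← sum_sub_distrib]
    refine sum_le_sum fun i _ => ?_
    rw [abs_sub_comm]
    exact le_abs_self _
  have h5 : ∑ i ∈ range k, |cn Q g i - ((i : ℝ) + 1) ^ (-(1 + d / 2 : ℝ))| ≤
      ∑ i ∈ range k, |Q * frac g (i + 1) - ((i + 1 : ℕ) : ℝ) ^ (-(d / 2 : ℝ))| :=
    sum_le_sum fun i _ => cn_diff Q g i
  have h6 := le_abs_self (Q * ((g.partition.parts.card : ℝ) / (L : ℝ) ^ d) - rc d 0)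
  rw [cn_total] at hA
  rw [← h2] at hB h1
  rw [← h3] at hB
  linarith

end pw

theorem rc_tendsto (d : ℕ) (hd : 1 ≤ d) (e : ℝ) (he : 0 < e) : ∃ k : ℕ, rc d k ≤ e := by
  have h1 : Tendsto (fun k => ∑ ℓ ∈ range k, ((ℓ : ℝ) + (0 : ℕ) + 1) ^ (-(1 + d / 2 : ℝ)))
      atTop (nhds (rc d 0)) := (rc_summable d 0 hd).hasSum.tendsto_sum_nat
  have h2 := h1.eventually (lt_mem_nhds (show rc d 0 - e < rc d 0 by linarith))
  obtain ⟨k, hk⟩ := h2.exists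
  refine ⟨k, ?_⟩
  have h3 := (rc_summable d 0 hd).sum_add_tsum_nat_add k
  have h4 : rc d k = ∑' i : ℕ, (((i + k : ℕ) : ℝ) + (0 : ℕ) + 1) ^ (-(1 + d / 2 : ℝ)) := by
    unfold rc
    refine tsum_congr fun i => ?_
    push_cast
    congr 1
    ring
  have h5 : rc d 0 = ∑' i : ℕ, ((i : ℝ) + (0 : ℕ) + 1) ^ (-(1 + d / 2 : ℝ)) := rfl
  rw [← h4] at h3
  rw [← h5] at h3
  linarith

theorem zeta_law (d : ℕ) (hd : 2 ≤ d) (hnall : ∃ m : ℕ,
    ∀ ε : ℝ, 0 < ε → ∃ T : ℝ, 3 ≤ T ∧ ∀ (L : ℕ) [NeZero L] (t : ℝ), 3 ≤ L → T ≤ t →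
    t * (Real.log L) ^ m ≤ (L : ℝ) ^ 2 →
    stirExp (nnRate d L) t (fun g => |(4 * Real.pi * t) ^ (d / 2 : ℝ) *
      ((g.partition.parts.card : ℝ) / (L : ℝ) ^ d) - rc d 0|) ≤ ε) : ∃ m : ℕ,
    ∀ ε : ℝ, 0 < ε → ∃ T : ℝ, 3 ≤ T ∧ ∀ (L : ℕ) [NeZero L] (t : ℝ), 3 ≤ L → T ≤ t →
    t * (Real.log L) ^ m ≤ (L : ℝ) ^ 2 →
    stirExp (nnRate d L) t (fun g => ∑' i : ℕ, |(4 * Real.pi * t) ^ (d / 2 : ℝ) *
      ((g.partition.parts.count (i + 1) : ℝ) / (L : ℝ) ^ d) -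
        ((i : ℝ) + 1) ^ (-(1 + d / 2 : ℝ))|) ≤ ε := by
  obtain ⟨m, hm⟩ := hnall
  refine ⟨m + 1, fun ε hε => ?_⟩
  obtain ⟨k, hk⟩ := rc_tendsto d (by omega) (ε / 8) (by linarith)
  obtain ⟨T₁, hT₁, h1⟩ := hm (ε / 4) (by linarith)
  obtain ⟨T₂, hT₂, h2⟩ := len_all d (by omega) k (ε / (8 * (k + 1))) (by positivity)
  refine ⟨max T₁ (max T₂ (Real.exp (2 * T₂))), hT₁.trans (le_max_left _ _), ?_⟩
  intro L _ t hL htT htL
  have hT1t : T₁ ≤ t := (le_max_left _ _).trans htT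
  have hT2t : T₂ ≤ t := ((le_max_left _ _).trans (le_max_right _ _)).trans htT
  have hT3t : Real.exp (2 * T₂) ≤ t := ((le_max_right _ _).trans (le_max_right _ _)).trans htT
  have ht0 : 0 < t := by linarith
  have hL3 : (3 : ℝ) ≤ L := by exact_mod_cast hL
  have hlog : 1 ≤ Real.log L := by
    have h4 : Real.exp 1 ≤ L := by
      have := Real.exp_one_lt_d9
      linarith
    have := Real.log_le_log (Real.exp_pos 1) h4
    rwa [Real.log_exp] at this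
  have hpw : 1 ≤ (Real.log L) ^ m := one_le_pow₀ hlog
  have hpw' : (Real.log L) ^ (m + 1) = (Real.log L) ^ m * Real.log L := pow_succ _ _
  have htL1 : t * (Real.log L) ^ m ≤ (L : ℝ) ^ 2 := by
    refine le_trans (mul_le_mul_of_nonneg_left ?_ ht0.le) htL
    rw [hpw']
    nlinarith
  have htL2 : t * Real.log L ≤ (L : ℝ) ^ 2 := by
    refine le_trans (mul_le_mul_of_nonneg_left ?_ ht0.le) htL
    rw [hpw']
    nlinarith
  have htL3 : t ≤ (L : ℝ) ^ 2 := by nlinarith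
  have hT2log : T₂ ≤ Real.log L := by
    have h5 := hT3t.trans htL3
    have h6 := Real.log_le_log (Real.exp_pos _) h5
    rw [Real.log_exp, Real.log_pow] at h6
    push_cast at h6
    linarith
  have htL4 : T₂ * t ≤ (L : ℝ) ^ 2 := by
    refine le_trans ?_ htL2
    rw [mul_comm]
    exact mul_le_mul_of_nonneg_left hT2log ht0.le
  have h3 := h1 L t hL hT1t htL1
  obtain ⟨Q, hQ⟩ : ∃ Q : ℝ, Q = (4 * Real.pi * t) ^ (d / 2 : ℝ) := ⟨_, rfl⟩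
  have hQ0 : 0 ≤ Q := by rw [hQ]; positivity
  rw [← hQ] at h3 ⊢
  have h4 : stirExp (nnRate d L) t (fun g => ∑' i : ℕ, |Q *
      ((g.partition.parts.count (i + 1) : ℝ) / (L : ℝ) ^ d) -
        ((i : ℝ) + 1) ^ (-(1 + d / 2 : ℝ))|) ≤
      stirExp (nnRate d L) t (fun g =>
        (∑ i ∈ range k, 2 * |Q * frac g (i + 1) - ((i + 1 : ℕ) : ℝ) ^ (-(d / 2 : ℝ))|) +
        (|Q * ((g.partition.parts.card : ℝ) / (L : ℝ) ^ d) - rc d 0| + 2 * rc d k)) := by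
    refine exp_mono nn_nonneg ht0.le fun g => ?_
    have h5 := zeta_pw (d := d) (L := L) (by omega) Q hQ0 g k
    unfold cn at h5
    rw [← mul_sum]
    linarith
  refine h4.trans ?_
  have h6 : stirExp (nnRate d L) t (fun g =>
        (∑ i ∈ range k, 2 * |Q * frac g (i + 1) - ((i + 1 : ℕ) : ℝ) ^ (-(d / 2 : ℝ))|) +
        (|Q * ((g.partition.parts.card : ℝ) / (L : ℝ) ^ d) - rc d 0| + 2 * rc d k)) =
      ∑ i ∈ range k, stirExp (nnRate d L) t (fun g =>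
        2 * |Q * frac g (i + 1) - ((i + 1 : ℕ) : ℝ) ^ (-(d / 2 : ℝ))|) +
      (stirExp (nnRate d L) t (fun g =>
        |Q * ((g.partition.parts.card : ℝ) / (L : ℝ) ^ d) - rc d 0|) + 2 * rc d k) := by
    rw [exp_add2, exp_add2, exp_const, exp_sum]
  rw [h6]
  have h7 : ∑ i ∈ range k, stirExp (nnRate d L) t (fun g =>
        2 * |Q * frac g (i + 1) - ((i + 1 : ℕ) : ℝ) ^ (-(d / 2 : ℝ))|) ≤ ε / 4 := by
    have h8 : ∀ i ∈ range k, stirExp (nnRate d L) t (fun g =>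
        2 * |Q * frac g (i + 1) - ((i + 1 : ℕ) : ℝ) ^ (-(d / 2 : ℝ))|) ≤
        2 * (ε / (8 * (k + 1))) := by
      intro i hi
      have h9 := h2 L hL t hT2t htL4 (i + 1) (by omega) (by
        have := mem_range.1 hi
        omega)
      rw [← hQ] at h9
      have h10 := Pool.Agent.Q297.LC.stir_smul (J := nnRate d L) t 2 (fun g =>
        |Q * frac g (i + 1) - ((i + 1 : ℕ) : ℝ) ^ (-(d / 2 : ℝ))|)
      rw [h10]
      linarith
    refine (sum_le_sum h8).trans ?_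
    rw [sum_const, card_range, nsmul_eq_mul]
    have hk0 : (0 : ℝ) ≤ k := Nat.cast_nonneg k
    have : (k : ℝ) * (2 * (ε / (8 * (k + 1)))) = ε / 4 * (k / (k + 1)) := by
      field_simp
      ring
    rw [this]
    have h11 : (k : ℝ) / (k + 1) ≤ 1 := by
      rw [div_le_one (by positivity)]
      linarith
    nlinarith
  linarith

theorem zeta_sum_of (d : ℕ) (hd : 2 ≤ d) (hz : ∃ m : ℕ,
    ∀ ε : ℝ, 0 < ε → ∃ T : ℝ, 3 ≤ T ∧ ∀ (L : ℕ) [NeZero L] (t : ℝ), 3 ≤ L → T ≤ t →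
    t * (Real.log L) ^ m ≤ (L : ℝ) ^ 2 →
    stirExp (nnRate d L) t (fun g => ∑' i : ℕ, |(4 * Real.pi * t) ^ (d / 2 : ℝ) *
      ((g.partition.parts.count (i + 1) : ℝ) / (L : ℝ) ^ d) -
        ((i : ℝ) + 1) ^ (-(1 + d / 2 : ℝ))|) ≤ ε) : ∃ m : ℕ,
    ∀ ε : ℝ, 0 < ε → ∃ T : ℝ, 3 ≤ T ∧ ∀ (L : ℕ) [NeZero L] (t : ℝ) (n : ℕ), 3 ≤ L → T ≤ t →
    t * (Real.log L) ^ m ≤ (L : ℝ) ^ 2 →
    stirExp (nnRate d L) t (fun g => ∑ j ∈ Icc 1 n, |(4 * Real.pi * t) ^ (d / 2 : ℝ) *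
      ((g.partition.parts.count j : ℝ) / (L : ℝ) ^ d) - (j : ℝ) ^ (-(1 + d / 2 : ℝ))|) ≤ ε := by
  obtain ⟨m, hm⟩ := hz
  refine ⟨m, fun ε hε => ?_⟩
  obtain ⟨T, hT, h⟩ := hm ε hε
  refine ⟨T, hT, fun L _ t n hL ht htL => ?_⟩
  have ht0 : 0 ≤ t := by linarith
  refine le_trans (exp_mono nn_nonneg ht0 fun g => ?_) (h L t hL ht htL)
  have hb : Summable (fun i : ℕ => ((i : ℝ) + 1) ^ (-(1 + d / 2 : ℝ))) := by
    have := rc_summable d 0 (by omega)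
    simpa using this
  have hab : Summable (fun i : ℕ => |(4 * Real.pi * t) ^ (d / 2 : ℝ) *
      ((g.partition.parts.count (i + 1) : ℝ) / (L : ℝ) ^ d) -
        ((i : ℝ) + 1) ^ (-(1 + d / 2 : ℝ))|) :=
    ((cn_summable ((4 * Real.pi * t) ^ (d / 2 : ℝ)) g).sub hb).abs
  have h1 : ∑ j ∈ Icc 1 n, |(4 * Real.pi * t) ^ (d / 2 : ℝ) *
      ((g.partition.parts.count j : ℝ) / (L : ℝ) ^ d) - (j : ℝ) ^ (-(1 + d / 2 : ℝ))| =
      ∑ i ∈ range n, |(4 * Real.pi * t) ^ (d / 2 : ℝ) *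
      ((g.partition.parts.count (i + 1) : ℝ) / (L : ℝ) ^ d) -
        ((i : ℝ) + 1) ^ (-(1 + d / 2 : ℝ))| := by
    rw [show Icc 1 n = Ico 1 (n + 1) by ext; simp, Finset.sum_Ico_eq_sum_range]
    simp only [Nat.add_sub_cancel]
    refine sum_congr rfl fun i _ => ?_
    rw [add_comm 1 i]
    push_cast
    rfl
  rw [h1]
  exact hab.sum_le_tsum _ fun i _ => abs_nonneg _

end Pool.Agent.H961.T4
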