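import Pool.Agent.H961.T3.All2
import Pool.Agent.H961.T4.All
import Pool.Agent.H961.T4.Hku
import Pool.Agent.H961.T4.Ub5
import Pool.Agent.H961.T4.Ubx2
import Pool.Agent.H961.T4.Ubx3
import Pool.Agent.H961.T4.Nmx
import Pool.Agent.H961.T4.Zeta

/-!
# Project PN: assembly, the zeta law of the cycle lengths
-/

set_option autoImplicit false

namespace Pool.Agent.H961.T4

open Finset Equiv Matrix Q292.LC Pool.Agent.H961.T2 Pool.Agent.H961.T3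
open Pool.Agent.Y998.ST (stirExp nnRate)

theorem all_ub5 : S_UB5 := Ub5h.ub5 Hkuh.hku all_stl all_mks

theorem all_ubx2 : S_UBX2 :=
  Ubx2h.ubx2 all_ub5 Pool.Agent.H961.T3.all_stp Pool.Agent.H961.T3.Karh.t_KAR
    Pool.Agent.H961.T3.all_cyc Pool.Agent.H961.T3.all_gapo

theorem all_ubx (d : ℕ) (hd : 2 ≤ d) : S_UBX d := by
  rcases Nat.lt_or_ge 2 d with h | h
  · exact Ubx3h.ubx3 d h
  · obtain rfl : d = 2 := le_antisymm h hd
    exact all_ubx2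

theorem zeta_sum (d : ℕ) (hd : 2 ≤ d) : ∃ m : ℕ,
    ∀ ε : ℝ, 0 < ε → ∃ T : ℝ, 3 ≤ T ∧ ∀ (L : ℕ) [NeZero L] (t : ℝ) (n : ℕ), 3 ≤ L → T ≤ t →
    t * (Real.log L) ^ m ≤ (L : ℝ) ^ 2 →
    stirExp (nnRate d L) t (fun g => ∑ j ∈ Icc 1 n, |(4 * Real.pi * t) ^ (d / 2 : ℝ) *
      ((g.partition.parts.count j : ℝ) / (L : ℝ) ^ d) - (j : ℝ) ^ (-(1 + d / 2 : ℝ))|) ≤ ε :=
  zeta_sum_of d hd (zeta_law d hd (nall Nmxh.nmx all_ubx d hd))

end Pool.Agent.H961.T4
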