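import Pool.Agent.H961.T4.Stm2
import Pool.Agent.H961.T3.Cyc

/-!
# PN MO2: the second moment in the plane (helper157)
-/

set_option autoImplicit false

namespace Pool.Agent.H961.T4.Mo2h

open Finset Equiv Matrix Q292.LC Pool.Agent.H961.T2 Pool.Agent.H961.T3 Pool.Agent.H961.T4
open Pool.Agent.Y998.ST (stirExp nnRate nn_nonneg exp_mono exp_const exp_nonneg)

section gen

variable {V : Type} [Fintype V] [DecidableEq V]

theorem ms_le (g : Perm V) {J : Finset (Finset V)} (hJ : J ⊆ cycs g) :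
    ∑ C ∈ J, (C.card : ℝ) ≤ (Fintype.card V : ℝ) := by
  have h := (Pool.Agent.H961.T3.Cych.t_CYC V g).2.2.1 J hJ
  have h2 : (J.biUnion id).card ≤ Fintype.card V := Finset.card_le_univ _
  rw [h] at h2
  exact_mod_cast h2

theorem mk_same (g : Perm V) (w : ℝ) {s : Finset (Finset V)} (hs : s ⊆ cycs g)
    {b b' : Finset (Finset V) → ℝ} (h : ∀ J ⊆ cycs g, b J = b' J) :
    mk (ι := Finset V) card w s b = mk (ι := Finset V) card w s b' := by
  unfold Pool.Agent.H961.T3.mk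
  refine sum_congr rfl fun J hJ => ?_
  rw [h J ((mem_powerset.1 hJ).trans hs)]

theorem sb_same (g : Perm V) (w : ℝ) {b b' : Finset (Finset V) → ℝ}
    (h : ∀ J ⊆ cycs g, b J = b' J) : sb w b g = sb w b' g := by
  unfold sb
  refine sum_congr rfl fun C hC => ?_
  rw [mk_same g w (erase_subset _ _) h]

theorem exp_lin (J : V → V → ℝ) (t a b : ℝ) (F G : Perm V → ℝ) :
    stirExp J t (fun g => a * F g + b * G g) = a * stirExp J t F + b * stirExp J t G := by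
  unfold stirExp
  rw [mul_sum, mul_sum, ← sum_add_distrib]
  exact sum_congr rfl fun g _ => by ring

theorem exp_quad (J : V → V → ℝ) (t a Λ : ℝ) (F : Perm V → ℝ) :
    stirExp J t (fun g => (a * F g - Λ) ^ 2) =
      a ^ 2 * stirExp J t (fun g => F g ^ 2) - 2 * Λ * (a * stirExp J t F) + Λ ^ 2 := by
  have h1 : stirExp J t (fun g => (a * F g - Λ) ^ 2) =
      stirExp J t (fun g => 1 * (a ^ 2 * F g ^ 2 + (-(2 * Λ * a)) * F g) + 1 * Λ ^ 2) := by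
    unfold stirExp
    exact sum_congr rfl fun g _ => by ring
  rw [h1, exp_lin J t 1 1 (fun g => a ^ 2 * F g ^ 2 + (-(2 * Λ * a)) * F g) (fun _ => Λ ^ 2),
    exp_lin J t (a ^ 2) (-(2 * Λ * a)) (fun g => F g ^ 2) F, exp_const]
  ring

theorem sm_nonneg {w : ℝ} (hw : 0 ≤ w) (g : Perm V) : 0 ≤ sm w g := by
  unfold sm
  exact sum_nonneg fun _ _ => pow_nonneg hw _

end gen

theorem real_part {Λ e α β x q y a2 τ : ℝ} (hΛ : 0 ≤ Λ) (he : 0 < e) (he1 : e ≤ 1 / 2)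
    (hα : |α - Λ| ≤ e * (1 + Λ)) (hβ : β ≤ 2 * e) (hx : |x - Λ| ≤ e * (1 + Λ)) (hx0 : 0 ≤ x)
    (hy : y ≤ 3 * e * (1 + Λ)) (ha2 : a2 ≤ e) (hτ0 : 0 ≤ τ) (hτ : τ ≤ e)
    (hq0 : 0 ≤ q) (h : q - y ≤ (α + β) * x + τ * (q + y) + a2) :
    q - 2 * Λ * x + Λ ^ 2 ≤ 32 * e * (1 + Λ) ^ 2 := by
  obtain ⟨D, hD⟩ : ∃ D : ℝ, D = 1 + Λ := ⟨_, rfl⟩
  rw [← hD] at hα hx hy ⊢
  rw [abs_le] at hα hx
  have hD1 : 1 ≤ D := by linarith
  have hΛD : Λ ≤ D := by linarith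
  have heD : 0 ≤ e * D := by positivity
  have hDD : e ≤ e * D ^ 2 := le_mul_of_one_le_right he.le (one_le_pow₀ hD1)
  have heDD : e * D ≤ e * D ^ 2 := by
    refine mul_le_mul_of_nonneg_left ?_ he.le
    nlinarith
  have heeD : e ≤ e * D := le_mul_of_one_le_right he.le hD1
  have h1 : (α + β) * x ≤ (Λ + 3 * (e * D)) * (Λ + e * D) := by
    have a1 : α + β ≤ Λ + 3 * (e * D) := by linarith
    have a2' : x ≤ Λ + e * D := by linarith
    calc (α + β) * x ≤ (Λ + 3 * (e * D)) * x := mul_le_mul_of_nonneg_right a1 hx0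
      _ ≤ _ := mul_le_mul_of_nonneg_left a2' (by positivity)
  have h2 : Λ * (e * D) ≤ e * D ^ 2 := by
    calc Λ * (e * D) ≤ D * (e * D) := mul_le_mul_of_nonneg_right hΛD heD
      _ = e * D ^ 2 := by ring
  have h3 : (e * D) * (e * D) ≤ 1 / 2 * (e * D ^ 2) := by
    calc (e * D) * (e * D) = e * (e * D ^ 2) := by ring
      _ ≤ 1 / 2 * (e * D ^ 2) := mul_le_mul_of_nonneg_right he1 (by positivity)
  have h4 : (α + β) * x ≤ Λ ^ 2 + 11 / 2 * (e * D ^ 2) := by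
    refine h1.trans ?_
    nlinarith
  have h5 : (1 + τ) * y ≤ 9 / 2 * (e * D ^ 2) := by
    have a1 : y ≤ 3 * (e * D ^ 2) := by linarith
    calc (1 + τ) * y ≤ (1 + τ) * (3 * (e * D ^ 2)) :=
          mul_le_mul_of_nonneg_left a1 (by positivity)
      _ ≤ (3 / 2) * (3 * (e * D ^ 2)) :=
          mul_le_mul_of_nonneg_right (by linarith) (by positivity)
      _ = _ := by ring
  have h6 : (1 - τ) * q ≤ Λ ^ 2 + 11 * (e * D ^ 2) := by nlinarith
  have h7 : q ≤ (1 + 2 * τ) * ((1 - τ) * q) := by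
    have a1 : (1 : ℝ) ≤ (1 + 2 * τ) * (1 - τ) := by nlinarith
    calc q = 1 * q := (one_mul q).symm
      _ ≤ ((1 + 2 * τ) * (1 - τ)) * q := mul_le_mul_of_nonneg_right a1 hq0
      _ = _ := by ring
  have h8 : q ≤ (1 + 2 * τ) * (Λ ^ 2 + 11 * (e * D ^ 2)) :=
    h7.trans (mul_le_mul_of_nonneg_left h6 (by positivity))
  have h9 : τ * Λ ^ 2 ≤ e * D ^ 2 :=
    mul_le_mul hτ (pow_le_pow_left₀ hΛ hΛD 2) (sq_nonneg _) he.le
  have h10 : τ * (e * D ^ 2) ≤ 1 / 2 * (e * D ^ 2) :=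
    mul_le_mul_of_nonneg_right (by linarith) (by positivity)
  have h11 : Λ * (Λ - e * D) ≤ Λ * x := mul_le_mul_of_nonneg_left (by linarith) hΛ
  nlinarith

open Filter Topology in
theorem large (e : ℝ) (he : 0 < e) : ∃ T : ℝ, ∀ t : ℝ, T ≤ t →
    16 * Real.pi * t ^ (-(1 / 16) : ℝ) ≤ e ∧ 8 * Real.pi * t ^ (-(39 / 40) : ℝ) ≤ e ∧
    4 * Real.pi * t⁻¹ ≤ e ∧ 2 ≤ t ^ (1 / 160 : ℝ) := by
  have h1 : Tendsto (fun t : ℝ => 16 * Real.pi * t ^ (-(1 / 16) : ℝ)) atTop (𝓝 0) := by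
    have h := (tendsto_rpow_neg_atTop (show (0 : ℝ) < 1 / 16 by norm_num)).const_mul
      (16 * Real.pi)
    rwa [mul_zero] at h
  have h2 : Tendsto (fun t : ℝ => 8 * Real.pi * t ^ (-(39 / 40) : ℝ)) atTop (𝓝 0) := by
    have h := (tendsto_rpow_neg_atTop (show (0 : ℝ) < 39 / 40 by norm_num)).const_mul
      (8 * Real.pi)
    rwa [mul_zero] at h
  have h3 : Tendsto (fun t : ℝ => 4 * Real.pi * t⁻¹) atTop (𝓝 0) := by
    have h := tendsto_inv_atTop_zero (𝕜 := ℝ) |>.const_mul (4 * Real.pi)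
    rwa [mul_zero] at h
  have h4 : Tendsto (fun t : ℝ => t ^ (1 / 160 : ℝ)) atTop atTop :=
    tendsto_rpow_atTop (by norm_num)
  have hev : ∀ᶠ t : ℝ in atTop, 16 * Real.pi * t ^ (-(1 / 16) : ℝ) ≤ e ∧
      8 * Real.pi * t ^ (-(39 / 40) : ℝ) ≤ e ∧ 4 * Real.pi * t⁻¹ ≤ e ∧
      2 ≤ t ^ (1 / 160 : ℝ) := by
    filter_upwards [h1.eventually (ge_mem_nhds he), h2.eventually (ge_mem_nhds he),
      h3.eventually (ge_mem_nhds he), h4.eventually_ge_atTop 2] with t a1 a2 a3 a4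
    exact ⟨a1, a2, a3, a4⟩
  exact eventually_atTop.1 hev

theorem mo2 (hSTL : S_STL) (hALP : S_ALP) (hMKS : S_MKS) (hMO1 : S_MO1) : S_MO2 := by
  obtain ⟨mS, TS, hmS, hTS, hstl⟩ := hSTL 2 le_rfl
  obtain ⟨m1, hmo1⟩ := hMO1
  refine ⟨mS + m1, fun ε hε => ?_⟩
  obtain ⟨e, hee, he, he1⟩ : ∃ e : ℝ, 32 * e ≤ ε ∧ 0 < e ∧ e ≤ 1 / 2 := by
    refine ⟨min (ε / 32) (1 / 2), ?_, by positivity, min_le_right _ _⟩
    have := min_le_left (ε / 32) (1 / 2)
    linarith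
  obtain ⟨T1, hT1, h1⟩ := hmo1 e he
  obtain ⟨T2, hT2, h2⟩ := hALP e he
  obtain ⟨T3, h3⟩ := large e he
  refine ⟨TS + T1 + T2 + |T3|, by linarith [abs_nonneg T3], ?_⟩
  intro L _ t w hL hTt hTL hlog hw0 hw1 hlw
  have hT30 := abs_nonneg T3
  have ht1 : 1 ≤ t := by linarith
  have ht0 : 0 < t := by linarith
  obtain ⟨l1, l2, l3, l4⟩ := h3 t (by linarith [le_abs_self T3])
  have hL3 : (3 : ℝ) ≤ L := by exact_mod_cast hL
  have hL0 : (0 : ℝ) < L := by linarith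
  have hT1L : T1 * t ≤ L :=
    (mul_le_mul_of_nonneg_right (by linarith : T1 ≤ TS + T1 + T2 + |T3|) ht0.le).trans hTL
  have hT2L : T2 * t ≤ L :=
    (mul_le_mul_of_nonneg_right (by linarith : T2 ≤ TS + T1 + T2 + |T3|) ht0.le).trans hTL
  have htL : t ≤ L := (le_mul_of_one_le_left ht0.le hT1).trans hT1L
  have htLL : t ≤ (L : ℝ) ^ 2 := htL.trans (by nlinarith only [hL3])
  have htL2 : t ^ 2 ≤ (L : ℝ) ^ 2 := pow_le_pow_left₀ ht0.le htL 2
  have hlogL : 1 ≤ Real.log L := by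
    rw [Real.le_log_iff_exp_le hL0]
    have := Real.exp_one_lt_d9
    linarith
  have hlogS : Real.log L ^ mS ≤ t := (pow_le_pow_right₀ hlogL (by omega)).trans hlog
  have hlog1 : Real.log L ^ m1 ≤ t := (pow_le_pow_right₀ hlogL (by omega)).trans hlog
  have h1w : 0 < 1 - w := by linarith
  have hlw32 : 1 / (1 - w) ≤ t ^ (1 / 32 : ℝ) :=
    hlw.trans (Real.rpow_le_rpow_of_exponent_le ht1 (by norm_num))
  -- the second weight
  obtain ⟨w', hw'⟩ : ∃ w' : ℝ, w' = (1 + w) / 2 := ⟨_, rfl⟩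
  have hw'0 : 0 ≤ w' := by rw [hw']; linarith
  have hw'1 : w' < 1 := by rw [hw']; linarith
  have hinv : 1 / (1 - w') = 2 * (1 / (1 - w)) := by
    have : 1 - w' = (1 - w) / 2 := by rw [hw']; ring
    rw [this]
    field_simp
  have hlw' : 1 / (1 - w') ≤ t ^ (1 / 32 : ℝ) := by
    rw [hinv]
    have e1 : t ^ (1 / 32 : ℝ) = t ^ (1 / 160 : ℝ) * t ^ (1 / 40 : ℝ) := by
      rw [← Real.rpow_add ht0]
      norm_num
    rw [e1]
    exact mul_le_mul l4 hlw (by positivity) (by positivity)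
  -- notation
  obtain ⟨a, ha⟩ : ∃ a : ℝ, a = 4 * Real.pi * t / (L : ℝ) ^ 2 := ⟨_, rfl⟩
  have ha0 : 0 < a := by rw [ha]; positivity
  have hat : a ≤ 4 * Real.pi * t⁻¹ := by
    rw [ha, div_le_iff₀ (by positivity)]
    have e1 : 4 * Real.pi * t⁻¹ * t ^ 2 = 4 * Real.pi * t := by field_simp
    rw [← e1]
    exact mul_le_mul_of_nonneg_left htL2 (by positivity)
  obtain ⟨Λ, hΛ⟩ : ∃ Λ : ℝ, Λ = Real.log (1 / (1 - w)) := ⟨_, rfl⟩
  have hΛ0 : 0 ≤ Λ := by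
    rw [hΛ]
    refine Real.log_nonneg ?_
    rw [le_div_iff₀ h1w]
    linarith
  have hΛ' : Real.log (1 / (1 - w')) ≤ 1 + Λ := by
    rw [hinv, Real.log_mul (by norm_num) (by positivity), ← hΛ]
    have := Real.log_two_lt_d9
    linarith
  have hΛ'0 : 0 ≤ Real.log (1 / (1 - w')) := by
    refine Real.log_nonneg ?_
    rw [le_div_iff₀ (by linarith)]
    linarith
  have m1w := h1 L t w hL (by linarith) hT1L hlog1 hw0 hw1 hlw32
  have m1w' := h1 L t w' hL (by linarith) hT1L hlog1 hw'0 hw'1 hlw'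
  obtain ⟨p1, p2⟩ := h2 L t w hL (by linarith) hT2L hw0 hw1 hlw32
  rw [← hΛ] at m1w p1 ⊢
  rw [← ha] at m1w m1w' p1 ⊢
  -- the expectations
  have hJ : ∀ x y : Fin 2 → ZMod L, 0 ≤ nnRate 2 L x y := nn_nonneg
  obtain ⟨S, hS⟩ : ∃ S : ℝ, S = stirExp (nnRate 2 L) t (fun g => sm w g) := ⟨_, rfl⟩
  obtain ⟨S', hS'⟩ : ∃ S' : ℝ, S' = stirExp (nnRate 2 L) t (fun g => sm w' g) := ⟨_, rfl⟩
  obtain ⟨s2, hs2⟩ : ∃ s2 : ℝ, s2 = stirExp (nnRate 2 L) t (fun g => sm w g ^ 2) := ⟨_, rfl⟩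
  obtain ⟨EY, hEY⟩ : ∃ EY : ℝ, EY = stirExp (nnRate 2 L) t
    (fun g => ∑ x, ((cyc g x).card : ℝ) * w ^ (cyc g x).card) := ⟨_, rfl⟩
  have hS0 : 0 ≤ S := by rw [hS]; exact exp_nonneg hJ ht0.le fun g => sm_nonneg hw0 g
  have hs20 : 0 ≤ s2 := by rw [hs2]; exact exp_nonneg hJ ht0.le fun g => sq_nonneg _
  have hEY0 : 0 ≤ EY := by
    rw [hEY]
    exact exp_nonneg hJ ht0.le fun g => sum_nonneg fun x _ => by positivity
  rw [← hS] at m1w
  rw [← hS'] at m1w'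
  -- the bound for `Y`
  have hY : EY ≤ 2 / (1 - w) * S' := by
    have e1 : EY ≤ stirExp (nnRate 2 L) t (fun g => 2 / (1 - w) * sm w' g + 0 * sm w' g) := by
      rw [hEY]
      refine exp_mono hJ ht0.le fun g => ?_
      have := (hMKS (Fin 2 → ZMod L) g w hw0 hw1).2.2.2.2.2
      rw [← hw'] at this
      linarith
    rw [exp_lin (nnRate 2 L) t (2 / (1 - w)) 0 (fun g => sm w' g) (fun g => sm w' g), ← hS'] at e1
    linarith
  have hy : a ^ 2 * EY ≤ 3 * e * (1 + Λ) := by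
    have e1 : a * (2 / (1 - w)) ≤ e := by
      have e2 : 2 / (1 - w) ≤ 2 * t ^ (1 / 40 : ℝ) := by
        have : 2 / (1 - w) = 2 * (1 / (1 - w)) := by ring
        rw [this]
        exact mul_le_mul_of_nonneg_left hlw (by norm_num)
      calc a * (2 / (1 - w)) ≤ (4 * Real.pi * t⁻¹) * (2 * t ^ (1 / 40 : ℝ)) :=
            mul_le_mul hat e2 (by positivity) (by positivity)
        _ = 8 * Real.pi * t ^ (-(39 / 40) : ℝ) := by
            have e3 : t ^ (-(39 / 40) : ℝ) = t⁻¹ * t ^ (1 / 40 : ℝ) := by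
              rw [← Real.rpow_neg_one t, ← Real.rpow_add ht0]
              norm_num
            rw [e3]
            ring
        _ ≤ e := l2
    have e2 : a * S' ≤ 3 * (1 + Λ) := by
      have e3 := (abs_le.1 m1w').2
      have e4 : e * (1 + Real.log (1 / (1 - w'))) ≤ 1 / 2 * (1 + (1 + Λ)) :=
        mul_le_mul he1 (by linarith) (by linarith) (by norm_num)
      linarith
    calc a ^ 2 * EY ≤ a ^ 2 * (2 / (1 - w) * S') := mul_le_mul_of_nonneg_left hY (by positivity)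
      _ = (a * (2 / (1 - w))) * (a * S') := by ring
      _ ≤ e * (3 * (1 + Λ)) := by
          refine mul_le_mul e1 e2 ?_ he.le
          refine mul_nonneg ha0.le ?_
          rw [hS']
          exact exp_nonneg hJ ht0.le fun g => sm_nonneg hw'0 g
      _ = 3 * e * (1 + Λ) := by ring
  -- one step with the truncated mass
  have hcard : (Fintype.card (Fin 2 → ZMod L) : ℝ) = (L : ℝ) ^ 2 := by
    rw [Fintype.card_fun, ZMod.card, Fintype.card_fin]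
    push_cast
    rfl
  have hN0 : (0 : ℝ) < (L : ℝ) ^ 2 := by positivity
  have hsame : ∀ (g : Perm (Fin 2 → ZMod L)) (J : Finset (Finset (Fin 2 → ZMod L))), J ⊆ cycs g →
      min (∑ C ∈ J, (C.card : ℝ)) ((L : ℝ) ^ 2) = ∑ C ∈ J, (C.card : ℝ) := by
    intro g J hJg
    refine min_eq_left ?_
    rw [← hcard]
    exact ms_le g hJg
  have hst := hstl L t w ((L : ℝ) ^ 2) ⌈Real.sqrt t⌉₊
    (fun J => min (∑ C ∈ J, (C.card : ℝ)) ((L : ℝ) ^ 2)) hL (by linarith) hlogS htLL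
    hw0 hw1 hlw32 (fun J => ⟨le_min (sum_nonneg fun C _ => Nat.cast_nonneg _) hN0.le,
      min_le_right _ _⟩)
  have q1 : stirExp (nnRate 2 L) t (fun g => sb w
      (fun J => min (∑ C ∈ J, (C.card : ℝ)) ((L : ℝ) ^ 2)) g) =
      stirExp (nnRate 2 L) t (fun g => sb w (fun J => ∑ C ∈ J, (C.card : ℝ)) g) := by
    have : (fun g : Perm (Fin 2 → ZMod L) => sb w
        (fun J => min (∑ C ∈ J, (C.card : ℝ)) ((L : ℝ) ^ 2)) g) =
        fun g => sb w (fun J => ∑ C ∈ J, (C.card : ℝ)) g :=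
      funext fun g => sb_same g w (hsame g)
    rw [this]
  have q2 : stirExp (nnRate 2 L) t (fun g => mk (ι := Finset (Fin 2 → ZMod L)) card w (cycs g)
      (fun J => min (∑ C ∈ J, (C.card : ℝ)) ((L : ℝ) ^ 2))) = S := by
    have : (fun g : Perm (Fin 2 → ZMod L) => mk (ι := Finset (Fin 2 → ZMod L)) card w (cycs g)
        (fun J => min (∑ C ∈ J, (C.card : ℝ)) ((L : ℝ) ^ 2))) = fun g => sm w g := by
      funext g
      rw [mk_same g w (Subset.refl _) (hsame g)]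
      exact (hMKS (Fin 2 → ZMod L) g w hw0 hw1).2.2.1
    rw [this, hS]
  have q3 : stirExp (nnRate 2 L) t (fun g => mk (ι := Finset (Fin 2 → ZMod L)) card w (cycs g)
      (fun J => (∑ C ∈ J, (C.card : ℝ)) * min (∑ C ∈ J, (C.card : ℝ)) ((L : ℝ) ^ 2))) ≤
      s2 + EY := by
    have e1 : stirExp (nnRate 2 L) t (fun g => mk (ι := Finset (Fin 2 → ZMod L)) card w (cycs g)
        (fun J => (∑ C ∈ J, (C.card : ℝ)) * min (∑ C ∈ J, (C.card : ℝ)) ((L : ℝ) ^ 2))) ≤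
        stirExp (nnRate 2 L) t (fun g => 1 * (sm w g) ^ 2 +
          1 * ∑ x, ((cyc g x).card : ℝ) * w ^ (cyc g x).card) := by
      refine exp_mono hJ ht0.le fun g => ?_
      rw [mk_same g w (Subset.refl _) (b' := fun J => (∑ C ∈ J, (C.card : ℝ)) *
        ∑ C ∈ J, (C.card : ℝ)) fun J hJg => by rw [hsame g J hJg], one_mul, one_mul]
      exact (hMKS (Fin 2 → ZMod L) g w hw0 hw1).2.2.2.2.1
    rw [exp_lin (nnRate 2 L) t 1 1 (fun g => sm w g ^ 2)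
      (fun g => ∑ x, ((cyc g x).card : ℝ) * w ^ (cyc g x).card), ← hs2, ← hEY, one_mul,
      one_mul] at e1
    exact e1
  have q4 : s2 - EY ≤ stirExp (nnRate 2 L) t
      (fun g => sb w (fun J => ∑ C ∈ J, (C.card : ℝ)) g) := by
    have e1 : stirExp (nnRate 2 L) t (fun g => 1 * (sm w g) ^ 2 +
          (-1) * ∑ x, ((cyc g x).card : ℝ) * w ^ (cyc g x).card) ≤ stirExp (nnRate 2 L) t
      (fun g => sb w (fun J => ∑ C ∈ J, (C.card : ℝ)) g) := by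
      refine exp_mono hJ ht0.le fun g => ?_
      have := (hMKS (Fin 2 → ZMod L) g w hw0 hw1).2.2.2.1
      linarith
    rw [exp_lin (nnRate 2 L) t 1 (-1) (fun g => sm w g ^ 2)
      (fun g => ∑ x, ((cyc g x).card : ℝ) * w ^ (cyc g x).card), ← hs2, ← hEY] at e1
    linarith
  rw [q1, q2] at hst
  have hst2 := (abs_le.1 hst).2
  obtain ⟨τ, hτ⟩ : ∃ τ : ℝ, τ = 4 * t ^ (-(1 / 16) : ℝ) := ⟨_, rfl⟩
  have hτ0 : 0 ≤ τ := by rw [hτ]; positivity
  have hτe : 4 * Real.pi * τ ≤ e := by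
    rw [hτ]
    linarith
  have hτe' : τ ≤ e := by
    have := Real.pi_gt_three
    nlinarith only [this, hτ0, hτe]
  rw [← hτ] at hst2
  have hNN : (L : ℝ) ^ 2 / (L : ℝ) ^ 2 = 1 := div_self hN0.ne'
  rw [hNN] at hst2
  obtain ⟨A, hA⟩ : ∃ A : ℝ, A = al 2 L t w ⌈Real.sqrt t⌉₊ := ⟨_, rfl⟩
  rw [← hA] at hst2 p1
  -- multiply with `a ^ 2`
  obtain ⟨W, hW⟩ : ∃ W : ℝ, W = w ^ ⌈Real.sqrt t⌉₊ / (1 - w) := ⟨_, rfl⟩
  have hW0 : 0 ≤ W := by rw [hW]; positivity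
  rw [← hW] at p2
  have hW2 : (L : ℝ) ^ 2 * w ^ ⌈Real.sqrt t⌉₊ / (1 - w) = (L : ℝ) ^ 2 * W := by
    rw [hW, mul_div_assoc]
  rw [hW2] at hst2
  have haN : a * (L : ℝ) ^ 2 = 4 * Real.pi * t := by
    rw [ha]
    field_simp
  have hfin : a ^ 2 * s2 - a ^ 2 * EY ≤ (a * A + (4 * Real.pi * τ + 4 * Real.pi * t * W)) * (a * S) +
      τ * (a ^ 2 * s2 + a ^ 2 * EY) + a ^ 2 := by
    have e1 : s2 - EY ≤ A * S + (τ * ((L : ℝ) ^ 2 / t) + (L : ℝ) ^ 2 * W) * S +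
        τ * (s2 + EY) + 1 := by
      have := mul_le_mul_of_nonneg_left q3 hτ0
      linarith
    have e2 := mul_le_mul_of_nonneg_left e1 (sq_nonneg a)
    have e3 : a ^ 2 * (A * S + (τ * ((L : ℝ) ^ 2 / t) + (L : ℝ) ^ 2 * W) * S +
        τ * (s2 + EY) + 1) = (a * A + (τ * ((a * (L : ℝ) ^ 2) / t) + (a * (L : ℝ) ^ 2) * W)) *
        (a * S) + τ * (a ^ 2 * s2 + a ^ 2 * EY) + a ^ 2 := by ring
    rw [e3, haN] at e2
    have e4 : 4 * Real.pi * t / t = 4 * Real.pi := by field_simp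
    rw [e4] at e2
    linarith
  have ha2 : a ^ 2 ≤ e := by
    have e1 : a ≤ e := hat.trans l3
    nlinarith only [e1, ha0, he, he1]
  have hmain := real_part hΛ0 he he1 p1 (by linarith : 4 * Real.pi * τ + 4 * Real.pi * t * W ≤ 2 * e)
    m1w (mul_nonneg ha0.le hS0) hy ha2 hτ0 hτe' (mul_nonneg (sq_nonneg a) hs20) hfin
  rw [exp_quad (nnRate 2 L) t a Λ (fun g => sm w g), ← hs2, ← hS]
  refine hmain.trans ?_
  exact mul_le_mul_of_nonneg_right hee (sq_nonneg _)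

end Pool.Agent.H961.T4.Mo2h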