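import Pool.Agent.H961.T4.All

/-!
# The number of cycles, all dimensions `d ≥ 2`
-/

set_option autoImplicit false

namespace Pool.Agent.H961.T4

open Finset Equiv Matrix Q292.LC Pool.Agent.H961.T2
open Pool.Agent.Y998.ST (stirExp nnRate)

theorem number_all (d : ℕ) (hd : 2 ≤ d) (ε : ℝ) (hε : 0 < ε) : ∃ T : ℝ, 3 ≤ T ∧
    ∀ (L : ℕ) [NeZero L] (t : ℝ), T ≤ t → T * t ≤ L →
    stirExp (nnRate d L) t (fun g => |(4 * Real.pi * t) ^ (d / 2 : ℝ) *
      ((g.partition.parts.card : ℝ) / (L : ℝ) ^ d) - rc d 0|) ≤ ε := by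
  rcases Nat.lt_or_ge 2 d with h | h
  · exact number_main d h ε hε
  · obtain rfl : d = 2 := le_antisymm h hd
    obtain ⟨T, hT, h1⟩ := all_nmp ε hε
    refine ⟨T, hT, fun L _ t ht htL => ?_⟩
    have h2 := h1 L t ht htL
    have e1 : ((2 : ℕ) / 2 : ℝ) = 1 := by norm_num
    rw [e1, Real.rpow_one]
    exact h2

end Pool.Agent.H961.T4
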