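import Pool.Agent.H961.T4.Stm5
import Pool.Agent.H961.T4.Numd

/-!
# The number of cycles at all times up to `L ^ 2 / (log L) ^ m`: assembly
-/

set_option autoImplicit false

namespace Pool.Agent.H961.T4

open Finset Equiv Matrix Q292.LC Pool.Agent.H961.T2 Filter
open Pool.Agent.Y998.ST (stirExp nnRate)

theorem log_beats (m : ℕ) (B : ℝ) (hB : 0 < B) : ∃ L₁ : ℝ, 1 ≤ L₁ ∧ ∀ L : ℝ, L₁ ≤ L →
    B * (Real.log L) ^ m ≤ L := by
  have h1 : (fun x : ℝ => Real.log x ^ m) =o[atTop] fun x => x ^ (1 : ℝ) := by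
    have h := isLittleO_log_rpow_rpow_atTop (m : ℝ) (show (0 : ℝ) < 1 by norm_num)
    refine h.congr' ?_ EventuallyEq.rfl
    exact Eventually.of_forall fun x => by simp [Real.rpow_natCast]
  have h2 := h1.bound (show 0 < 1 / B by positivity)
  obtain ⟨T, hT⟩ := Filter.eventually_atTop.1 h2
  refine ⟨max T 1, le_max_right _ _, fun L hL => ?_⟩
  have hL1 : 1 ≤ L := (le_max_right _ _).trans hL
  have h3 := hT L ((le_max_left _ _).trans hL)
  rw [Real.rpow_one, Real.norm_eq_abs, Real.norm_eq_abs, abs_of_pos (by linarith : (0 : ℝ) < L)]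
    at h3
  have h4 := (le_abs_self _).trans h3
  have h5 := mul_le_mul_of_nonneg_left h4 hB.le
  have h6 : B * (1 / B * L) = L := by field_simp
  linarith

theorem nall (hN : S_NMX) (hU : ∀ d : ℕ, 2 ≤ d → S_UBX d) (d : ℕ) (hd : 2 ≤ d) : ∃ m : ℕ,
    ∀ ε : ℝ, 0 < ε → ∃ T : ℝ, 3 ≤ T ∧ ∀ (L : ℕ) [NeZero L] (t : ℝ), 3 ≤ L → T ≤ t →
    t * (Real.log L) ^ m ≤ (L : ℝ) ^ 2 →
    stirExp (nnRate d L) t (fun g => |(4 * Real.pi * t) ^ (d / 2 : ℝ) *
      ((g.partition.parts.card : ℝ) / (L : ℝ) ^ d) - rc d 0|) ≤ ε := by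
  obtain ⟨m, hm⟩ := hN d hd (hU d hd)
  refine ⟨m, fun ε hε => ?_⟩
  obtain ⟨T₁, hT₁, h1⟩ := hm ε hε
  obtain ⟨T₂, hT₂, h2⟩ := number_all d hd ε hε
  obtain ⟨L₁, hL₁, h3⟩ := log_beats m T₂ (by linarith)
  refine ⟨max (max T₁ T₂) (L₁ ^ 2), hT₁.trans ((le_max_left _ _).trans (le_max_left _ _)), ?_⟩
  intro L _ t hL htT htL
  have hT1t : T₁ ≤ t := ((le_max_left _ _).trans (le_max_left _ _)).trans htT
  have hT2t : T₂ ≤ t := ((le_max_right _ _).trans (le_max_left _ _)).trans htT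
  have hL1t : L₁ ^ 2 ≤ t := (le_max_right _ _).trans htT
  have ht0 : 0 < t := by linarith
  have hL3 : (3 : ℝ) ≤ L := by exact_mod_cast hL
  have hlog : 1 ≤ Real.log L := by
    have h4 : Real.exp 1 ≤ L := by
      have := Real.exp_one_lt_d9
      linarith
    have := Real.log_le_log (Real.exp_pos 1) h4
    rwa [Real.log_exp] at this
  have hpw : 1 ≤ (Real.log L) ^ m := one_le_pow₀ hlog
  have htL2 : t ≤ (L : ℝ) ^ 2 := by nlinarith
  have hLL : L₁ ≤ L := by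
    have h5 : L₁ ^ 2 ≤ (L : ℝ) ^ 2 := hL1t.trans htL2
    exact (pow_le_pow_iff_left₀ (by linarith) (by linarith) (by norm_num)).1 h5
  rcases le_or_gt (T₂ * t) L with h6 | h6
  · exact h2 L t hT2t h6
  · have h7 := h3 L hLL
    have h8 : (Real.log L) ^ m ≤ t := by
      have h9 : T₂ * (Real.log L) ^ m ≤ T₂ * t := h7.trans h6.le
      exact le_of_mul_le_mul_left h9 (by linarith)
    exact h1 L t hL hT1t h8 htL

end Pool.Agent.H961.T4
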