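import Pool.Agent.H961.T4.Stm

/-!
# Project PN, statements 2: the plane (`d = 2`)
-/

set_option autoImplicit false

namespace Pool.Agent.H961.T4

open Finset Equiv Matrix Q292.LC Pool.Agent.H961.T2 Pool.Agent.H961.T3
open Pool.Agent.Y998.ST (stirExp nnRate qq hop cycleLen gk)

/-- the number of the points in short cycles, smooth version -/
noncomputable def sm {V : Type} [Fintype V] [DecidableEq V] (w : ℝ) (g : Perm V) : ℝ :=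
  ∑ x, w ^ (cyc g x).card

/-- MKS. Moments of the mass of the marked cycles. `M J = ∑_{C ∈ J} |C|`.
Proof. CYC (5) turns `∑_x` into `∑_C |C|`: `sm w g = ∑_C |C| w^|C|`, `∑_x |C_x| w^|C_x| = ∑_C |C|² w^|C|`. The marks are
independent with probabilities `w^|C|` (`mk` is the expectation): (1), (2), (3) expectation of `1`, `M`; for (3):
`E M = ∑ |C| w^|C|` (MASS / `Finset.prod_add`, or induction on the finite set; see Mom.lean in T3 for similar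
computations). (4) `sb w M g = ∑_C |C| w^|C| ∑_{C' ≠ C} |C'| w^|C'| = sm² - ∑_C |C|² w^(2|C|)`. (5)
`E M² = (E M)² + ∑ |C|² w^|C| (1 - w^|C|)`. (6) `w ≤ w'²` for `w' = (1 + w)/2`, and
`ℓ w'^ℓ ≤ ∑_{i < ℓ} w'^i ≤ 1/(1 - w') = 2/(1 - w)`. -/
def S_MKS : Prop := ∀ (V : Type) [Fintype V] [DecidableEq V] (g : Perm V) (w : ℝ), 0 ≤ w → w < 1 →
  sb w (fun _ => 1) g = sm w g ∧
  mk (ι := Finset V) card w (cycs g) (fun _ => 1) = 1 ∧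
  mk (ι := Finset V) card w (cycs g) (fun J => ∑ C ∈ J, (C.card : ℝ)) = sm w g ∧
  (sm w g) ^ 2 - ∑ x, ((cyc g x).card : ℝ) * w ^ (cyc g x).card ≤
    sb w (fun J => ∑ C ∈ J, (C.card : ℝ)) g ∧
  mk (ι := Finset V) card w (cycs g)
    (fun J => (∑ C ∈ J, (C.card : ℝ)) * ∑ C ∈ J, (C.card : ℝ)) ≤
    (sm w g) ^ 2 + ∑ x, ((cyc g x).card : ℝ) * w ^ (cyc g x).card ∧
  ∑ x, ((cyc g x).card : ℝ) * w ^ (cyc g x).card ≤ 2 / (1 - w) * sm ((1 + w) / 2) g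

/-- ALP. Asymptotics of `al` in the plane, with `k₀ = ⌈√t⌉`.
Proof. `∑_x hop .. x x = L² gk L ((k+1) t) 0 ^ 2` (`Pool.Agent.Helper47K9.SC.hop_diag`, as in
Pool/Agent/H961/T2/B10.lean), and `gk L s 0 ^ 2 * 4 π s = 1 ± ε'` for `s = (k+1) t`, `k < k₀`, by
`Pool.Agent.Helper47K9.SC.as1` (`T' s ≤ L²` because `s ≤ 2 t^(3/2)` and `L ≥ T t`). So
`4 π t / L² al = ∑_{k < k₀} w^(k+1)/(k+1) (1 ± ε')`, `∑_k w^(k+1)/(k+1) = log (1/(1-w))`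
(`Real.hasSum_pow_div_log_of_abs_lt_one`), and the tail is at most `w^k₀ / (1 - w)` with
`w^k₀ ≤ exp (-(1-w) k₀) ≤ exp (-t^(1/2 - 1/32))`, `1/(1-w) ≤ t^(1/32)`: exponentially small. -/
def S_ALP : Prop := ∀ ε : ℝ, 0 < ε → ∃ T : ℝ, 1 ≤ T ∧ ∀ (L : ℕ) [NeZero L] (t w : ℝ), 3 ≤ L →
  T ≤ t → T * t ≤ L → 0 ≤ w → w < 1 → 1 / (1 - w) ≤ t ^ (1 / 32 : ℝ) →
  |4 * Real.pi * t / (L : ℝ) ^ 2 * al 2 L t w ⌈Real.sqrt t⌉₊ - Real.log (1 / (1 - w))| ≤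
    ε * (1 + Real.log (1 / (1 - w))) ∧
  4 * Real.pi * t * (w ^ ⌈Real.sqrt t⌉₊ / (1 - w)) ≤ ε

/-- MO1. First moment in the plane.
Proof. STL with `d = 2`, `H = 1`, `h = 1`, `k₀ = ⌈√t⌉` and MKS (1)-(3):
`|E sm - al| ≤ 4 t^(-1/16) L²/t + L² w^k₀/(1-w) + 4 t^(-1/16) E sm + 1/L²`. Multiply with `4 π t / L²` and use ALP
with a smaller `ε` (`t ≤ L ≤ L²`, `4 t^(-1/16)` and `4 π t / L⁴` are small). -/
def S_MO1 : Prop := ∃ m : ℕ, ∀ ε : ℝ, 0 < ε → ∃ T : ℝ, 1 ≤ T ∧ ∀ (L : ℕ) [NeZero L] (t w : ℝ),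
  3 ≤ L → T ≤ t → T * t ≤ L → (Real.log L) ^ m ≤ t → 0 ≤ w → w < 1 →
  1 / (1 - w) ≤ t ^ (1 / 32 : ℝ) →
  |4 * Real.pi * t / (L : ℝ) ^ 2 * stirExp (nnRate 2 L) t (fun g => sm w g) -
    Real.log (1 / (1 - w))| ≤ ε * (1 + Real.log (1 / (1 - w)))

/-- MO2. Second moment in the plane.
Proof. Write `a = 4 π t / L²`, `Λ = log (1/(1-w))`, `Y g = ∑_x |C_x| w^|C_x|`. MO1 for `w` and for `w' = (1+w)/2`
(`1/(1-w') = 2/(1-w) ≤ 2 t^(1/40) ≤ t^(1/32)`), so by MKS (6) `a² E Y ≤ a (2/(1-w)) a E sm w' ≤ a 2 t^(1/40) (3 + 2 Λ)`,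
small as `a ≤ 4 π / (T² t)`. STL with `H J = ∑_{C ∈ J} |C|`, `h = L²` and MKS (3)-(5):
`E sm² - E Y ≤ (al + 4 t^(-1/16) L²/t + L² w^k₀/(1-w)) E sm + 4 t^(-1/16) (E sm² + E Y) + 1`. With ALP:
`a² E sm² ≤ (1 + ε') (Λ + ε' (1 + Λ))² + ε'`, and `E (a sm - Λ)² = a² E sm² - 2 Λ a E sm + Λ²`. -/
def S_MO2 : Prop := ∃ m : ℕ, ∀ ε : ℝ, 0 < ε → ∃ T : ℝ, 1 ≤ T ∧ ∀ (L : ℕ) [NeZero L] (t w : ℝ),
  3 ≤ L → T ≤ t → T * t ≤ L → (Real.log L) ^ m ≤ t → 0 ≤ w → w < 1 →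
  1 / (1 - w) ≤ t ^ (1 / 40 : ℝ) →
  stirExp (nnRate 2 L) t (fun g => (4 * Real.pi * t / (L : ℝ) ^ 2 * sm w g -
    Real.log (1 / (1 - w))) ^ 2) ≤ ε * (1 + Real.log (1 / (1 - w))) ^ 2

/-- LLG. The number of the points in cycles of length `≤ n`, `n → ∞`, `n ≤ t^(1/64)`: logarithmic law.
Proof. `M = #{x : |C_x| ≤ n}`, `a = 4 π t / L²`, `0 < η < 1/2`. Upper bound: `w₊ = 1 - η/n`, Bernoulli:
`(1 - η) M ≤ sm w₊`, `log (1/(1-w₊)) = log n + log (1/η)`. Lower bound: `w₋ = 1 - 1/(η n)`, `w' = 1 - 1/(2 η n)`,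
`w₋ ≤ w'²`; for `|C_x| > n`: `w₋^|C| ≤ w'^|C| w'^n ≤ exp (-1/(2 η)) w'^|C|`, so `M ≥ sm w₋ - exp (-1/(2 η)) sm w'`.
By MO2 and Cauchy-Schwarz `a sm w = Λ_w + O(√ε' (1 + Λ_w))` in `L¹` for the four values of `w`
(`1/(1-w) ≤ n/η ≤ t^(1/40)` for large `t`), and `log n` is large compared to `log (1/η)` as `n ≥ T`. -/
def S_LLG : Prop := ∃ m : ℕ, ∀ ε : ℝ, 0 < ε → ∃ T : ℝ, 3 ≤ T ∧ ∀ (L : ℕ) [NeZero L] (t : ℝ)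
  (n : ℕ), T ≤ t → T * t ≤ L → (Real.log L) ^ m ≤ t → T ≤ n → (n : ℝ) ≤ t ^ (1 / 64 : ℝ) →
  stirExp (nnRate 2 L) t (fun g => |4 * Real.pi * t *
    (((univ.filter fun x => cycleLen g x ≤ n).card : ℝ) / (L : ℝ) ^ 2) - Real.log n|) ≤
    ε * Real.log n

/-- UBQ. Upper bound, polylogarithmic times.
Proof. MO1 with `ε = 1`, `w = 1 - 1/(2 n)` (`2 n ≤ t^(1/32)`): `1[|C_x| ≤ n] ≤ 2 w^|C_x|` (Bernoulli), and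
`stirExp (w ^ |C_x|) = stirExp (sm w) / L²` (translation invariance, `cyc_trans2` in
Pool/Agent/H961/T2/B9.lean; `(univ : Finset (Fin 2 → ZMod L)).card = L²`). -/
def S_UBQ : Prop := ∃ (C T : ℝ) (m : ℕ), 1 ≤ C ∧ 3 ≤ T ∧ ∀ (L : ℕ) [NeZero L] (t : ℝ) (n : ℕ),
  T ≤ t → T * t ≤ L → (Real.log L) ^ m ≤ t → 1 ≤ n → (n : ℝ) ≤ t ^ (1 / 64 : ℝ) →
  ∀ x : Fin 2 → ZMod L,
  stirExp (nnRate 2 L) t (fun g => if (cyc g x).card ≤ n then 1 else 0) ≤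
    C * ((1 + Real.log n) / t)

/-- UBP. Upper bound, all sizes of the torus.
Proof. As `ub2` (Pool/Agent/H961/T2/B12.lean): if `(log L)^m' ≤ t` (`m' = m + 1`) this is UBQ, otherwise
`tail_params 2 m'` and `all_lcs` with a smaller torus `L₀ ≥ exp (t^(1/m')) - 1 ≥ T t` (for `t` large;
`n ≤ t^(1/64) ≤ exp (t^(1/(2 m')))`); the error is `≤ C t^(-1) ≤ C (1 + log n)/t`. -/
def S_UBP : Prop := ∃ C T : ℝ, 1 ≤ C ∧ 3 ≤ T ∧ ∀ (L : ℕ) [NeZero L] (t : ℝ) (n : ℕ),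
  T ≤ t → T * t ≤ L → 1 ≤ n → (n : ℝ) ≤ t ^ (1 / 64 : ℝ) → ∀ x : Fin 2 → ZMod L,
  stirExp (nnRate 2 L) t (fun g => if (cyc g x).card ≤ n then 1 else 0) ≤
    C * ((1 + Real.log n) / t)

/-- NMP. The number of cycles in the plane.
Proof. As `number`, `number_main` (Pool/Agent/H961/T2/B15.lean, B16.lean) with `Q = 4 π t`, `parts_card`,
`rc_split 2`: (1) `ℓ ≤ k₀`: `len_all 2` (Pool/Agent/H961/T2/B13.lean). (2) `k₀ < ℓ ≤ N₁ = ⌊t^(1/64)⌋`: with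
`F n = E ∑_{ℓ ≤ n} frac g ℓ = P(|C_x| ≤ n) ≤ C (1 + log n)/t` (`exp_frac_le`, `sum_frac`, UBP), dyadic blocks:
`Q E ∑_{k₀ < ℓ ≤ N₁} frac ℓ / ℓ ≤ Q ∑_i F (min N₁ (2^(i+1) k₀)) / (2^i k₀) ≤ 4 π C ∑_i (1 + log (2^(i+1) k₀)) / (2^i k₀)`,
small for large `k₀`. (3) `N₁ < ℓ ≤ N₂ = ⌈B t⌉`: `≤ Q F(N₂) / N₁`, and `Q295.PL.all_fxt` (S_FXT, `d = 2`,
`ε = 1/256`) gives `F(N₂) ≤ C t^(1/256) (1/t + N₂/L²)` (`N₂ t ≤ L²`, as `L ≥ T t`). (4) `ℓ > N₂`: `≤ Q / N₂ ≤ 4 π / B`. -/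
def S_NMP : Prop := ∀ ε : ℝ, 0 < ε → ∃ T : ℝ, 3 ≤ T ∧ ∀ (L : ℕ) [NeZero L] (t : ℝ), T ≤ t →
  T * t ≤ L →
  stirExp (nnRate 2 L) t (fun g => |4 * Real.pi * t *
    ((g.partition.parts.card : ℝ) / (L : ℝ) ^ 2) - rc 2 0|) ≤ ε

end Pool.Agent.H961.T4
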