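import Pool.Agent.H961.T4.Stm3

/-!
# Project PN, statements 4: locality, all sizes of the torus
-/

set_option autoImplicit false

namespace Pool.Agent.H961.T4

open Finset Equiv Matrix Q292.LC Pool.Agent.H961.T2 Pool.Agent.H961.T3
open Pool.Agent.Y998.ST (stirExp nnRate qq hop cycleLen gk)

/-- EEI. Independence of disjoint sets of coins.
Proof. Group the subsets of `range n` as `T ∪ T'`, `T ⊆ range n ∩ S`, `T' ⊆ range n \ S`
(`Finset.sum_powerset`, disjoint unions); the weight factorizes, `F` depends on `T` only (compare with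
`decide (k ∈ T)`), `G` on `T'` only, and the weights of each part have sum `1`
(`Finset.sum_pow_mul_eq_add_pow`). Or induction on `n`, splitting off the last coin (`EE_succ` in
Pool.Agent.Q68.LC), for functions of this kind. -/
def S_EEI : Prop := ∀ (n : ℕ) (δ : ℝ) (S : Finset ℕ) (F G : (ℕ → Bool) → ℝ),
  (∀ ω ω' : ℕ → Bool, (∀ k ∈ S, ω k = ω' k) → F ω = F ω') →
  (∀ ω ω' : ℕ → Bool, (∀ k, k ∉ S → ω k = ω' k) → G ω = G ω') →
  EE n δ (fun ω => F ω * G ω) = EE n δ F * EE n δ G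

open Classical in
/-- COC. Decorrelation of short cycles of distant points, circuits.
Proof. Let `Φ_x ω` be the event: there is `m`, `1 ≤ m ≤ n`, `g^m x = x` (`g = gp .. N`, `N = s * ms d L`), and the
positions `gp .. k (g^i x)`, `k ≤ N`, `i < m`, are all in `bal x R₀`. (1) `Φ_x` implies `|cyc x| ≤ n`. (2) If
`|cyc x| = m ≤ n` and every `z ∈ bal x R₀` has at most `D` jumps, then by induction `g^i x ∈ bal x (i D)` and its
positions are in `bal x ((i+1) D) ⊆ bal x R₀` (a jump moves by distance `1`: `Pool.Agent.Q151.LC.td_jumps`; see `fwd`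
in Q297/LC/Loc.lean): `Φ_x`. (3) `Φ_x` depends only on the coins of the steps `k < N` with
`(ed (σ k)).1 ∈ bal x (R₀ + 1)` and `(ed (σ k)).2 ∈ bal x (R₀ + 1)`: if `ω, ω'` agree there and `Φ_x ω`, the particles
`g^i x`, `i < m`, have the same trajectories for `ω'` (induction over the steps: a step which touches a
position in `bal x R₀` has both end points in `bal x (R₀ + 1)`, distance of the end points `≤ 1`). For `y` with
`2 R₀ + 3 < td x y` the two sets of steps are disjoint, so EEI gives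
`E 1[Φ_x ∧ Φ_y] = E 1[Φ_x] E 1[Φ_y] ≤ E 1_x E 1_y` and `1_x 1_y ≤ 1[Φ_x ∧ Φ_y] + 1[some z has > D jumps]`. -/
def S_COC : Prop := ∀ (d L R₀ : ℕ) [NeZero L], 1 ≤ d → 3 ≤ L →
  ∀ σ : ℕ → (Fin d → ZMod L) × Fin d, Per σ → ∀ (s n D : ℕ) (δ : ℝ), 0 ≤ δ → δ ≤ 1 → n * D ≤ R₀ →
  ∀ x y : Fin d → ZMod L, 2 * R₀ + 3 < td x y →
  EE (s * ms d L) δ (fun ω => if (cyc (gp (ed ∘ σ) ω (s * ms d L)) x).card ≤ n ∧
    (cyc (gp (ed ∘ σ) ω (s * ms d L)) y).card ≤ n then 1 else 0) ≤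
  EE (s * ms d L) δ (fun ω => if (cyc (gp (ed ∘ σ) ω (s * ms d L)) x).card ≤ n then 1 else 0) *
  EE (s * ms d L) δ (fun ω => if (cyc (gp (ed ∘ σ) ω (s * ms d L)) y).card ≤ n then 1 else 0) +
  EE (s * ms d L) δ (fun ω => if ∃ z ∈ bal x R₀ ∪ bal y R₀,
    D < jumps (ed ∘ σ) ω 0 (s * ms d L) z then 1 else 0)

/-- COV. Decorrelation, stirring.
Proof. As LCS (`lcs` in Q297/LC/Lcs.lean) with COC instead of LOC: `K = ⌊t⌋`, `δ = t / (K q)`, `s = K q`, `q → ∞`, TRO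
(`Pool.Agent.Q297.LC.tro`), existence of `σ`: `Pool.Agent.Q297.LC.exists_Per`. The last term is estimated as there. -/
def S_COV : Prop := ∀ d : ℕ, 1 ≤ d → ∃ C : ℝ, 1 ≤ C ∧ ∀ (L R₀ : ℕ) [NeZero L], 3 ≤ L →
  ∀ (t : ℝ) (n D : ℕ), 1 ≤ t → n * D ≤ R₀ → ∀ x y : Fin d → ZMod L, 2 * R₀ + 3 < td x y →
  stirExp (nnRate d L) t (fun g => if (cyc g x).card ≤ n ∧ (cyc g y).card ≤ n then 1 else 0) ≤
    stirExp (nnRate d L) t (fun g => if (cyc g x).card ≤ n then 1 else 0) *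
    stirExp (nnRate d L) t (fun g => if (cyc g y).card ≤ n then 1 else 0) +
    C * (2 * R₀ + 1) ^ d * t * Real.exp (-(D / t))

/-- LCR. The reversed inequality of LCS.
Proof. As `loc`, `lcs` (Q297/LC/Loc.lean, Q297/LC/Lcs.lean) with the roles of the two tori exchanged: the event `E`
there has the same probability in both tori, it implies `|cyc| ≤ n`, and it holds if `|cyc| ≤ n` and no
particle of `bal 0 R₀` has more than `D` jumps. -/
def S_LCR : Prop := ∀ d : ℕ, 1 ≤ d → ∃ C : ℝ, 1 ≤ C ∧ ∀ (L L₀ R₀ : ℕ) [NeZero L] [NeZero L₀],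
  4 * R₀ + 8 ≤ L₀ → L₀ ≤ L → ∀ (t : ℝ) (n D : ℕ), 1 ≤ t → n * D ≤ R₀ →
  ∀ (x : Fin d → ZMod L) (x₀ : Fin d → ZMod L₀),
  stirExp (nnRate d L₀) t (fun g => if (cyc g x₀).card ≤ n then 1 else 0) ≤
    stirExp (nnRate d L) t (fun g => if (cyc g x).card ≤ n then 1 else 0) +
    C * (2 * R₀ + 1) ^ d * t * Real.exp (-(D / t))

/-- LLB. The logarithmic law, all sizes of the torus.
Proof. `m` from LLM, `m' = m + 1`. If `(log L)^m' ≤ t` this is LLM. Otherwise `log L > t^(1/m')`; let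
`L₀ = ⌊exp (t^(1/m'))⌋ ≤ L`, `D = ⌈t³⌉`, `R₀ = n D ≤ 3 t^4`; for large `t`: `4 R₀ + 8 ≤ L₀`, `T₁ t ≤ L₀`, `(log L₀)^m ≤ t`. Let
`p`, `p₀` be the probabilities of `|C_x| ≤ n` for `L`, `L₀`, `η = C (2 R₀ + 1)² t exp (-(D/t))`, smaller than any power of
`1/t`. `|p - p₀| ≤ η` (LCS `Q292.LC.all_lcs` and LCR), `|4 π t p₀ - log n| ≤ ε' log n` by LLM (expectation of the
fraction, `exp_frac_le` in Pool/Agent/H961/T2/B13.lean, `card_cyc`). With `M = #{x : |C_x| ≤ n}`,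
`E (M/L² - p)² = L^(-4) ∑_{x,y} (E 1_x 1_y - p²) ≤ (4 R₀ + 7)² / L² + η` by COV (at most `(2 (2 R₀ + 3) + 1)²` points `y`
with `td x y ≤ 2 R₀ + 3`, `Pool.Agent.Q277.LC.card_bal_le`). So `4 π t E |M/L² - p| ≤ 4 π t √(..)` is small
(Cauchy-Schwarz, e.g. `abs_of_sq` in B13.lean). -/
def S_LLB : Prop := ∀ a : ℝ, 0 < a → a < 1 → ∀ ε : ℝ, 0 < ε → ∃ T : ℝ, 3 ≤ T ∧
  ∀ (L : ℕ) [NeZero L] (t : ℝ) (n : ℕ), T ≤ t → T * t ≤ L → T ≤ n → (n : ℝ) ≤ t ^ a →
  stirExp (nnRate 2 L) t (fun g => |4 * Real.pi * t *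
    (((univ.filter fun x => cycleLen g x ≤ n).card : ℝ) / (L : ℝ) ^ 2) - Real.log n|) ≤
    ε * Real.log n

end Pool.Agent.H961.T4
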